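import Pool.Agent.Lib.Helper54.S18919.Data.S00

set_option autoImplicit false
set_option maxRecDepth 100000

namespace Pool.Agent.Helper54.Cert

noncomputable def c_B1_20 : Cert :=
  (.pre .nil (.c 0x800480038002 68 (.z 1) (.z 1) (.c 0x800380038002 67 (.z 1) (.z 1) (.c 0x800280028001 66 (.z 1) (.z 1) (.c 0x800180028001 65 (.z 1) (.z 1) (.c 0x800280018001 65 (.z 1) (.z 1) (.c 0x800180018001 64 (.z 1) (.z 1) (.c 0x800080008001 60 (.t 1 1 (.t 0 49742 (.z 65536))) (.z 1) (.c 0x800180018000 63 (.z 1) (.z 1) (.c 0x800180008000 61 (.z 1) (.z 1) (.c 0x80017fff8000 60 (.z 1) (.t 0 1 (.z 1)) (.c 0x80007fff8000 62 (.z 1) (.z 1) .nil))))))))))) .nil (.enum ⟨1,0x800180018000,0x800180018001,0x800180008000,149,224,337,118,1,10,64,16,(.z 1),(.z 1),[(.t 1 1 (.t 0 109278 (.z 96))),(.t 1 1 (.t 0 140146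 (.z 128))),(.t 1 3 (.t 0 573933 (.z 256)))],(.half (.leaf 0x51f1c40500848001c2be4001004b2000359520e01af78e2024f165200e03e38009c001c40180000809) (.leaf 0x531fa0c059678071006036aa0c04805f64000606df1c40480dbe20815000f1cc0493ed68300c14709060380000d09)),(.half (.leaf 0x1a64007100671595188048963028300a9695f18a058025424100e005500c0030000568000c00e5f20e0300397c710120001594003c0003c7301200eca0c0018507024180e00e5f9ca008007e82000600e551c40280001110) (.leaf 0x2a84002a003c73012ec3e3880979001c401802fca000d58fc6281601fe3880a002a080018012ca001802403000c029f28004005a94004009ac800087dd47180ee82a310091c551c40280000c10)),(.leaf 0x17d47100a02b400062351c4008428e301c0807100607018002015940039928e201f03c7101206a31009015940030000080b),(.leaf 0x4f1800402f080042c08820182d08004b2f9480183d180048d01c4018251c603c0090603810080038000070a),.none,.none,.none,.none⟩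
 (.grow 460 (.brow 483 3 0 (.z 1) 2 0 (.z 1)
 .cnil (.brow 484 3 0 (.z 1) 2 0 (.z 1)
 .cnil (.brow 485 3 0 (.z 1) 2 0 (.z 1)
 .cnil (.brow 486 3 0 (.z 1) 2 0 (.z 1)
 .cnil (.brow 487 3 0 (.z 1) 2 0 (.z 1)
 .cnil (.brow 488 3 0 (.z 1) 2 0 (.z 1)
 .cnil (.brow 489 3 0 (.z 1) 2 0 (.z 1)
 .cnil (.brow 490 3 0 (.z 1) 2 0 (.z 1)
 .cnil (.brow 491 3 0 (.z 1) 2 0 (.z 1)
 .cnil (.brow 492 3 0 (.z 1) 2 0 (.z 1)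
 .cnil (.brow 493 3 0 (.z 1) 2 0 (.z 1)
 .cnil (.brow 494 3 0 (.z 1) 2 0 (.z 1)
 .cnil (.brow 495 3 0 (.z 1) 2 0 (.z 1)
 .cnil (.brow 496 3 0 (.z 1) 2 0 (.z 1)
 .cnil (.brow 497 3 0 (.z 1) 2 0 (.z 1)
 .cnil (.brow 498 3 0 (.z 1) 2 0 (.z 1)
 .cnil (.brow 499 3 0 (.z 1) 2 0 (.z 1)
 .cnil (.brow 500 3 0 (.z 1) 2 0 (.z 1)
 .cnil (.brow 501 3 0 (.z 1) 2 0 (.z 1)
 .cnil (.brow 502 3 0 (.z 1) 2 0 (.z 1)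
 .cnil (.brow 503 3 0 (.z 1) 2 0 (.z 1)
 .cnil (.brow 504 3 0 (.z 1) 2 0 (.z 1)
 .cnil (.brow 505 3 0 (.z 1) 2 0 (.z 1)
 .cnil (.brow 506 3 0 (.z 1) 2 0 (.z 1)
 .cnil (.brow 507 3 0 (.z 1) 2 0 (.z 1)
 .cnil (.brow 508 3 0 (.z 1) 2 0 (.z 1)
 .cnil (.brow 509 3 0 (.z 1) 2 0 (.z 1)
 .cnil (.brow 510 3 0 (.z 1) 2 0 (.z 1)
 .cnil (.brow 511 3 0 (.z 1) 2 0 (.z 1)
 .cnil (.brow 512 3 0 (.z 1) 2 0 (.z 1)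
 .cnil (.brow 513 3 0 (.z 1) 2 0 (.z 1)
 .cnil (.brow 514 3 0 (.z 1) 0 0 (.z 1)
 .cnil (.brow 514 3 0 (.z 1) 0 0 (.z 1)
 .cnil (.brow 514 3 0 (.z 1) 0 0 (.z 1)
 .cnil (.brow 514 3 0 (.z 1) 0 0 (.z 1)
 .cnil (.brow 514 3 0 (.z 1) 0 0 (.z 1)
 .cnil (.brow 514 3 0 (.z 1) 0 0 (.z 1)
 .cnil (.brow 514 3 0 (.z 1) 0 0 (.z 1)
 .cnil (.brow 514 3 0 (.z 1) 0 0 (.z 1)
 .cnil (.brow 514 3 0 (.z 1) 0 0 (.z 1)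
 .cnil (.brow 514 3 0 (.z 1) 0 0 (.z 1)
 .cnil (.brow 514 3 0 (.z 1) 0 0 (.z 1)
 .cnil (.brow 514 3 0 (.z 1) 0 0 (.z 1)
 .cnil (.brow 514 3 0 (.z 1) 0 0 (.z 1)
 .cnil (.brow 514 3 0 (.z 1) 0 0 (.z 1)
 .cnil (.brow 514 3 0 (.z 1) 0 0 (.z 1)
 .cnil (.brow 514 3 0 (.z 1) 0 0 (.z 1)
 .cnil (.brow 514 3 0 (.z 1) 0 0 (.z 1)
 .cnil (.brow 514 3 0 (.z 1) 0 0 (.z 1)
 .cnil (.brow 514 3 0 (.z 1) 0 0 (.z 1)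
 .cnil (.brow 514 3 0 (.z 1) 0 0 (.z 1)
 .cnil (.brow 514 3 0 (.t 0 6 (.z 1)) 0 0 (.z 1)
 .cnil (.brow 514 3 0 (.t 0 6 (.z 1)) 0 0 (.z 1)
 .cnil (.brow 513 3 0 (.t 1 1 (.t 0 110047 (.z 16384))) 1 0 (.z 1)
 .cnil (.brow 512 3 0 (.t 1 1 (.t 0 115278 (.z 16384))) 1 0 (.z 1)
 .cnil (.brow 511 3 0 (.t 1 1 (.t 0 120508 (.z 16384))) 1 0 (.z 1)
 .cnil (.brow 510 3 0 (.t 1 1 (.t 0 125739 (.z 16384))) 1 0 (.z 1)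
 .cnil .bnil)))))))))))))))))))))))))))))))))))))))))))))))))))))))))
 (.grow 462 (.brow 484 3 0 (.z 1) 2 0 (.z 1)
 .cnil (.brow 485 3 0 (.z 1) 2 0 (.z 1)
 .cnil (.brow 486 3 0 (.z 1) 2 0 (.z 1)
 .cnil (.brow 487 3 0 (.z 1) 2 0 (.z 1)
 .cnil (.brow 488 3 0 (.z 1) 2 0 (.z 1)
 .cnil (.brow 489 3 0 (.z 1) 2 0 (.z 1)
 .cnil (.brow 490 3 0 (.z 1) 2 0 (.z 1)
 .cnil (.brow 491 3 0 (.z 1) 2 0 (.z 1)
 .cnil (.brow 492 3 0 (.z 1) 2 0 (.z 1)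
 .cnil (.brow 493 3 0 (.z 1) 2 0 (.z 1)
 .cnil (.brow 494 3 0 (.z 1) 2 0 (.z 1)
 .cnil (.brow 495 3 0 (.z 1) 2 0 (.z 1)
 .cnil (.brow 496 3 0 (.z 1) 2 0 (.z 1)
 .cnil (.brow 497 3 0 (.z 1) 2 0 (.z 1)
 .cnil (.brow 498 3 0 (.z 1) 2 0 (.z 1)
 .cnil (.brow 499 3 0 (.z 1) 2 0 (.z 1)
 .cnil (.brow 500 3 0 (.z 1) 2 0 (.z 1)
 .cnil (.brow 501 3 0 (.z 1) 2 0 (.z 1)
 .cnil (.brow 502 3 0 (.z 1) 2 0 (.z 1)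
 .cnil (.brow 503 3 0 (.z 1) 2 0 (.z 1)
 .cnil (.brow 504 3 0 (.z 1) 2 0 (.z 1)
 .cnil (.brow 505 3 0 (.z 1) 2 0 (.z 1)
 .cnil (.brow 506 3 0 (.z 1) 2 0 (.z 1)
 .cnil (.brow 507 3 0 (.z 1) 2 0 (.z 1)
 .cnil (.brow 508 3 0 (.z 1) 2 0 (.z 1)
 .cnil (.brow 509 3 0 (.z 1) 2 0 (.z 1)
 .cnil (.brow 510 3 0 (.z 1) 2 0 (.z 1)
 .cnil (.brow 511 3 0 (.z 1) 2 0 (.z 1)
 .cnil (.brow 512 3 0 (.z 1) 2 0 (.z 1)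
 .cnil (.brow 513 3 0 (.z 1) 2 0 (.z 1)
 .cnil (.brow 514 3 0 (.z 1) 2 0 (.z 1)
 .cnil (.brow 515 3 0 (.z 1) 0 0 (.z 1)
 .cnil (.brow 515 3 0 (.z 1) 0 0 (.z 1)
 .cnil (.brow 515 3 0 (.z 1) 0 0 (.z 1)
 .cnil (.brow 515 3 0 (.z 1) 0 0 (.z 1)
 .cnil (.brow 515 3 0 (.z 1) 0 0 (.z 1)
 .cnil (.brow 515 3 0 (.z 1) 0 0 (.z 1)
 .cnil (.brow 515 3 0 (.z 1) 0 0 (.z 1)
 .cnil (.brow 515 3 0 (.z 1) 0 0 (.z 1)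
 .cnil (.brow 515 3 0 (.z 1) 0 0 (.z 1)
 .cnil (.brow 515 3 0 (.z 1) 0 0 (.z 1)
 .cnil (.brow 515 3 0 (.z 1) 0 0 (.z 1)
 .cnil (.brow 515 3 0 (.z 1) 0 0 (.z 1)
 .cnil (.brow 515 3 0 (.z 1) 0 0 (.z 1)
 .cnil (.brow 515 3 0 (.z 1) 0 0 (.z 1)
 .cnil (.brow 515 3 0 (.z 1) 0 0 (.z 1)
 .cnil (.brow 515 3 0 (.z 1) 0 0 (.z 1)
 .cnil (.brow 515 3 0 (.z 1) 0 0 (.z 1)
 .cnil (.brow 515 3 0 (.t 0 5 (.z 1)) 0 0 (.z 1)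
 .cnil (.brow 515 3 0 (.t 0 5 (.z 1)) 0 0 (.z 1)
 .cnil (.brow 515 3 0 (.t 0 5 (.z 1)) 0 0 (.z 1)
 .cnil (.brow 515 3 0 (.t 1 1 (.t 0 184762 (.z 32768))) 0 0 (.z 1)
 .cnil (.brow 514 3 0 (.t 1 1 (.t 0 195223 (.z 32768))) 1 0 (.z 1)
 .cnil (.brow 513 3 0 (.t 1 3 (.t 0 411370 (.z 65536))) 1 0 (.z 1)
 .cnil (.brow 512 3 0 (.t 1 13 (.t 0 1729170 (.z 262144))) 1 0 (.z 1)
 .cnil (.brow 511 3 0 (.t 1 61 (.t 0 7251441 (.z 1048576))) 1 0 (.z 1)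
 .cnil .bnil))))))))))))))))))))))))))))))))))))))))))))))))))))))))
 (.grow 463 (.brow 485 3 0 (.z 1) 2 0 (.z 1)
 .cnil (.brow 486 3 0 (.z 1) 2 0 (.z 1)
 .cnil (.brow 487 3 0 (.z 1) 2 0 (.z 1)
 .cnil (.brow 488 3 0 (.z 1) 2 0 (.z 1)
 .cnil (.brow 489 3 0 (.z 1) 2 0 (.z 1)
 .cnil (.brow 490 3 0 (.z 1) 2 0 (.z 1)
 .cnil (.brow 491 3 0 (.z 1) 2 0 (.z 1)
 .cnil (.brow 492 3 0 (.z 1) 2 0 (.z 1)
 .cnil (.brow 493 3 0 (.z 1) 2 0 (.z 1)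
 .cnil (.brow 494 3 0 (.z 1) 2 0 (.z 1)
 .cnil (.brow 495 3 0 (.z 1) 2 0 (.z 1)
 .cnil (.brow 496 3 0 (.z 1) 2 0 (.z 1)
 .cnil (.brow 497 3 0 (.z 1) 2 0 (.z 1)
 .cnil (.brow 498 3 0 (.z 1) 2 0 (.z 1)
 .cnil (.brow 499 3 0 (.z 1) 2 0 (.z 1)
 .cnil (.brow 500 3 0 (.z 1) 2 0 (.z 1)
 .cnil (.brow 501 3 0 (.z 1) 2 0 (.z 1)
 .cnil (.brow 502 3 0 (.z 1) 2 0 (.z 1)
 .cnil (.brow 503 3 0 (.z 1) 2 0 (.z 1)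
 .cnil (.brow 504 3 0 (.z 1) 2 0 (.z 1)
 .cnil (.brow 505 3 0 (.z 1) 2 0 (.z 1)
 .cnil (.brow 506 3 0 (.z 1) 2 0 (.z 1)
 .cnil (.brow 507 3 0 (.z 1) 2 0 (.z 1)
 .cnil (.brow 508 3 0 (.z 1) 2 0 (.z 1)
 .cnil (.brow 509 3 0 (.z 1) 2 0 (.z 1)
 .cnil (.brow 510 3 0 (.z 1) 2 0 (.z 1)
 .cnil (.brow 511 3 0 (.z 1) 2 0 (.z 1)
 .cnil (.brow 512 3 0 (.z 1) 2 0 (.z 1)
 .cnil (.brow 513 3 0 (.z 1) 2 0 (.z 1)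
 .cnil (.brow 514 3 0 (.z 1) 2 0 (.z 1)
 .cnil (.brow 515 3 0 (.z 1) 2 0 (.z 1)
 .cnil (.brow 516 3 0 (.z 1) 0 0 (.z 1)
 .cnil (.brow 516 3 0 (.z 1) 0 0 (.z 1)
 .cnil (.brow 516 3 0 (.z 1) 0 0 (.z 1)
 .cnil (.brow 516 3 0 (.z 1) 0 0 (.z 1)
 .cnil (.brow 516 3 0 (.z 1) 0 0 (.z 1)
 .cnil (.brow 516 3 0 (.z 1) 0 0 (.z 1)
 .cnil (.brow 516 3 0 (.z 1) 0 0 (.z 1)
 .cnil (.brow 516 3 0 (.z 1) 0 0 (.z 1)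
 .cnil (.brow 516 3 0 (.z 1) 0 0 (.z 1)
 .cnil (.brow 516 3 0 (.z 1) 0 0 (.z 1)
 .cnil (.brow 516 3 0 (.z 1) 0 0 (.z 1)
 .cnil (.brow 516 3 0 (.z 1) 0 0 (.z 1)
 .cnil (.brow 516 3 0 (.z 1) 0 0 (.z 1)
 .cnil (.brow 516 3 0 (.z 1) 0 0 (.z 1)
 .cnil (.brow 516 3 0 (.z 1) 0 0 (.z 1)
 .cnil (.brow 516 3 0 (.t 0 4 (.z 1)) 0 0 (.z 1)
 .cnil (.brow 516 3 0 (.t 0 4 (.z 1)) 0 0 (.z 1)
 .cnil (.brow 516 3 0 (.t 0 4 (.z 1)) 0 0 (.z 1)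
 .cnil (.brow 516 3 0 (.t 0 4 (.z 1)) 0 0 (.z 1)
 .cnil (.brow 515 3 0 (.t 1 1 (.t 0 340705 (.z 65536))) 0 0 (.z 1)
 (.child (.pre (.c 0 60 0 0 (.c 5 60 0 0 .nil)) (.c 0x80027fff8000 60 (.t 1 15049 (.t 3 1 (.z 131072))) (.t 0 1 (.z 4)) .nil) .nil (.prune (.leaf 0x638c000b18c00500000302) .keep .gnil)) .cnil) (.brow 514 3 0 (.t 1 1 (.t 0 180814 (.z 32768))) 0 0 (.z 1)
 (.child (.pre (.c 1 60 63 0 (.c 5 60 0 0 .nil)) .nil .nil (.prune (.leaf 0x3120e01e38c005201c4019120201e18c00480000305) .keep .gnil)) (.child (.np 60 2) .cnil)) (.brow 513 3 0 (.t 1 37 (.t 0 6120809 (.z 1048576))) 0 0 (.z 1)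
 (.child (.pre (.c 0 60 0 0 (.c 5 60 0 0 .nil)) (.c 0x7fff80028001 63 (.t 0 1 (.z 5)) (.z 1) (.c 0x7ffd80028001 60 (.t 0 2 (.z 5)) (.t 1 1 (.z 3)) .nil)) .nil (.prune (.leaf 0x338c000e38c00100000302) .keep .gnil)) (.child (.pre (.c 2 60 63 64 (.c 5 60 0 0 .nil)) (.c 0x7ffe80028001 60 (.t 3 1 (.t 0 100973 (.z 262144))) (.t 1 1 (.z 3)) .nil) .nil (.prune (.leaf 0x638c00080000301) .keep .gnil)) (.child (.pre (.c 0 61 0 0 (.c 1 60 64 0 .nil)) .nil .nil (.dead (.t 1 1 (.t 0 6 (.z 0))))) .cnil))) (.brow 511 3 0 (.t 1 1 (.t 0 106098 (.z 16384))) 1 0 (.z 1)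
 (.child (.np 60 2) (.child (.pre (.c 1 60 63 0 (.c 5 60 0 0 .nil)) (.c 0x7ffe80018001 60 (.t 0 1 (.z 3)) (.t 1 1 (.z 5)) (.c 0x800280008000 62 (.t 1 12580 (.t 3 1 (.z 131072))) (.z 1) .nil)) .nil (.prune (.leaf 0x61880009388001121400580000303) .keep .gnil)) (.child (.np 60 2) (.child (.pre (.c 0 61 0 0 (.c 1 60 63 0 .nil)) .nil .nil (.dead (.t 1 1 (.t 0 6 (.z 0))))) .cnil)))) (.brow 510 3 0 (.t 1 1 (.t 0 111329 (.z 16384))) 1 0 (.z 1)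
 (.child (.pre (.c 2 60 63 64 (.c 5 60 0 0 .nil)) (.c 0x800080018001 62 (.t 3 1 (.t 0 16159 (.z 131072))) (.z 1) (.c 0x7ffe80018001 60 (.t 0 1 (.z 4)) (.t 1 1 (.z 5)) .nil)) .nil (.prune (.leaf 0x12140012288000e38800100000303) .keep .gnil)) (.child (.pre (.c 0 60 0 0 (.c 5 60 0 0 .nil)) (.c 0x7ffe80018001 60 (.t 0 1 (.z 4)) (.t 1 1 (.z 5)) .nil) .nil (.prune (.leaf 0x638800080000301) .keep .gnil)) (.child (.pre (.c 2 60 63 64 (.c 5 60 0 0 .nil)) (.c 0x7ffe80018001 60 (.t 0 1 (.z 3)) (.t 1 1 (.z 6)) (.c 0x800280008000 62 (.t 1 12580 (.t 3 1 (.z 131072))) (.z 1) .nil)) .nil (.prune (.leaf 0x6188000938800100000302) .keep .gnil)) (.child (.pre (.c 0 61 0 0 (.c 1 60 64 0 .nil)) .nil .nil (.dead (.t 1 1 (.t 0 6 (.z 0))))) .cnil)))) (.brow 509 2 0 (.z 1) 1 0 (.z 1)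
 (.child (.np 60 2) (.child (.pre (.c 1 60 63 0 (.c 5 60 0 0 .nil)) (.c 0x7fff80018001 60 (.t 0 1 (.z 4)) (.z 1) .nil) .nil (.prune (.leaf 0x4388000e38c00080000302) .keep .gnil)) (.child (.np 60 2) (.child (.pre (.c 0 61 0 0 (.c 1 60 63 0 .nil)) .nil .nil (.dead (.t 1 1 (.t 0 6 (.z 0))))) .cnil)))) (.brow 510 2 0 (.z 1) 1 0 (.z 1)
 (.child (.pre (.c 2 60 63 64 (.c 5 60 0 0 .nil)) (.c 0x800080018001 62 (.t 3 1 (.t 0 16159 (.z 131072))) (.z 1) (.c 0x7fff80018001 60 (.t 0 1 (.z 4)) (.z 1) .nil)) .nil (.prune (.leaf 0x6388001128800080000302) .keep .gnil)) (.child (.np 60 7) .cnil)) .bnil)))))))))))))))))))))))))))))))))))))))))))))))))))))))))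
 (.grow 465 (.brow 486 3 0 (.z 1) 2 0 (.z 1)
 .cnil (.brow 487 3 0 (.z 1) 2 0 (.z 1)
 .cnil (.brow 488 3 0 (.z 1) 2 0 (.z 1)
 .cnil (.brow 489 3 0 (.z 1) 2 0 (.z 1)
 .cnil (.brow 490 3 0 (.z 1) 2 0 (.z 1)
 .cnil (.brow 491 3 0 (.z 1) 2 0 (.z 1)
 .cnil (.brow 492 3 0 (.z 1) 2 0 (.z 1)
 .cnil (.brow 493 3 0 (.z 1) 2 0 (.z 1)
 .cnil (.brow 494 3 0 (.z 1) 2 0 (.z 1)
 .cnil (.brow 495 3 0 (.z 1) 2 0 (.z 1)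
 .cnil (.brow 496 3 0 (.z 1) 2 0 (.z 1)
 .cnil (.brow 497 3 0 (.z 1) 2 0 (.z 1)
 .cnil (.brow 498 3 0 (.z 1) 2 0 (.z 1)
 .cnil (.brow 499 3 0 (.z 1) 2 0 (.z 1)
 .cnil (.brow 500 3 0 (.z 1) 2 0 (.z 1)
 .cnil (.brow 501 3 0 (.z 1) 2 0 (.z 1)
 .cnil (.brow 502 3 0 (.z 1) 2 0 (.z 1)
 .cnil (.brow 503 3 0 (.z 1) 2 0 (.z 1)
 .cnil (.brow 504 3 0 (.z 1) 2 0 (.z 1)
 .cnil (.brow 505 3 0 (.z 1) 2 0 (.z 1)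
 .cnil (.brow 506 3 0 (.z 1) 2 0 (.z 1)
 .cnil (.brow 507 3 0 (.z 1) 2 0 (.z 1)
 .cnil (.brow 508 3 0 (.z 1) 2 0 (.z 1)
 .cnil (.brow 509 3 0 (.z 1) 2 0 (.z 1)
 .cnil (.brow 510 3 0 (.z 1) 2 0 (.z 1)
 .cnil (.brow 511 3 0 (.z 1) 2 0 (.z 1)
 .cnil (.brow 512 3 0 (.z 1) 2 0 (.z 1)
 .cnil (.brow 513 3 0 (.z 1) 2 0 (.z 1)
 .cnil (.brow 514 3 0 (.z 1) 2 0 (.z 1)
 .cnil (.brow 515 3 0 (.z 1) 2 0 (.z 1)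
 .cnil (.brow 516 3 0 (.z 1) 2 0 (.z 1)
 .cnil (.brow 517 3 0 (.z 1) 0 0 (.z 1)
 .cnil (.brow 517 3 0 (.z 1) 0 0 (.z 1)
 .cnil (.brow 517 3 0 (.z 1) 0 0 (.z 1)
 .cnil (.brow 517 3 0 (.z 1) 0 0 (.z 1)
 .cnil (.brow 517 3 0 (.z 1) 0 0 (.z 1)
 .cnil (.brow 517 3 0 (.z 1) 0 0 (.z 1)
 .cnil (.brow 517 3 0 (.z 1) 0 0 (.z 1)
 .cnil (.brow 517 3 0 (.z 1) 0 0 (.z 1)
 .cnil (.brow 517 3 0 (.z 1) 0 0 (.z 1)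
 .cnil (.brow 517 3 0 (.z 1) 0 0 (.z 1)
 .cnil (.brow 517 3 0 (.z 1) 0 0 (.z 1)
 .cnil (.brow 517 3 0 (.z 1) 0 0 (.z 1)
 .cnil (.brow 517 3 0 (.t 0 4 (.z 1)) 0 0 (.z 1)
 .cnil (.brow 517 3 0 (.t 0 4 (.z 1)) 0 0 (.z 1)
 .cnil (.brow 517 3 0 (.t 0 4 (.z 1)) 0 0 (.z 1)
 .cnil (.brow 517 3 0 (.t 0 4 (.z 1)) 0 0 (.z 1)
 .cnil (.brow 516 3 0 (.t 0 4 (.z 1)) 0 0 (.z 1)
 (.child (.pre (.c 0 60 0 0 (.c 5 60 0 0 (.c 1 60 62 0 .nil))) .nil .nil (.dead (.t 2 5 (.t 1 6 (.t 0 2 (.z 0)))))) .cnil) (.brow 515 3 0 (.t 1 1 (.t 0 311886 (.z 65536))) 0 0 (.z 1)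
 (.child (.pre (.c 0 60 0 0 (.c 5 60 0 0 .nil)) (.c 0x80027fff8000 60 (.t 1 33079 (.t 3 1 (.z 262144))) (.t 0 1 (.z 3)) .nil) .nil (.prune (.leaf 0x638c000a18c00500000302) .keep .gnil)) (.child (.pre (.c 0 60 0 0 (.c 5 60 0 0 .nil)) (.c 0x80027fff8000 60 (.t 1 142571 (.t 3 2 (.z 1048576))) (.t 0 1 (.z 3)) .nil) .nil (.prune (.leaf 0x638c00080000301) .keep .gnil)) .cnil)) (.brow 513 3 0 (.t 1 1 (.t 0 176865 (.z 32768))) 0 0 (.z 1)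
 (.child (.pre (.c 5 60 0 0 (.c 1 60 61 0 .nil)) .nil .nil (.dead (.t 1 1 (.t 0 1 (.z 0))))) (.child (.pre (.c 5 60 0 0 (.c 1 60 62 0 .nil)) .nil .nil (.dead (.t 1 4 (.t 0 3 (.z 0))))) (.child (.pre (.c 5 60 0 0 (.c 1 60 61 0 .nil)) .nil .nil (.dead (.t 1 1 (.t 0 1 (.z 0))))) (.child (.pre (.c 0 60 0 0 (.c 0 61 0 0 .nil)) .nil .nil (.dead (.t 1 7 (.t 0 1 (.z 0))))) .cnil)))) (.brow 512 3 0 (.t 1 3 (.t 0 374653 (.z 65536))) 3 0 (.t 3 1 (.z 8192))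
 (.child (.pre (.c 0 60 0 0 (.c 5 60 0 0 .nil)) (.c 0x7ffd80018001 60 (.t 0 1 (.z 3)) (.t 1 1 (.z 4)) .nil) .nil (.prune (.leaf 0x2388005618800080000302) .keep .gnil)) (.child (.pre (.c 0 60 0 0 (.c 5 60 0 0 .nil)) (.c 0x7fff80028001 62 (.t 3 1 (.t 0 62673 (.z 262144))) (.z 1) (.c 0x7ffd80028001 60 (.t 0 2 (.z 5)) (.t 1 1 (.z 3)) .nil)) .nil (.prune (.leaf 0x4388000b388001638c00100000303) .keep .gnil)) (.child (.pre (.c 0 60 0 0 (.c 5 60 0 0 .nil)) (.c 0x7ffe80028001 60 (.t 0 1 (.z 3)) (.t 1 1 (.z 3)) .nil) .nil (.prune (.leaf 0x638c00080000301) .keep .gnil)) (.child (.pre (.c 0 60 0 0 (.c 0 61 0 0 .nil)) .nil .nil (.dead (.t 1 7 (.t 0 1 (.z 0))))) .cnil)))) (.brow 511 3 0 (.t 1 1 (.t 0 98894 (.z 16384))) 3 0 (.t 3 1 (.z 8192))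
 (.child (.pre (.c 5 60 0 0 (.c 1 60 61 0 .nil)) .nil .nil (.dead (.t 1 1 (.t 0 1 (.z 0))))) (.child (.pre (.c 5 60 0 0 (.c 1 60 62 0 .nil)) .nil .nil (.dead (.t 1 4 (.t 0 3 (.z 0))))) (.child (.pre (.c 5 60 0 0 (.c 1 60 61 0 .nil)) .nil .nil (.dead (.t 1 1 (.t 0 1 (.z 0))))) (.child (.pre (.c 0 60 0 0 (.c 0 61 0 0 .nil)) .nil .nil (.dead (.t 1 7 (.t 0 1 (.z 0))))) .cnil)))) (.brow 510 3 0 (.t 1 1 (.t 0 104124 (.z 16384))) 3 0 (.t 3 1 (.z 8192))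
 (.child (.pre (.c 0 60 0 0 (.c 5 60 0 0 .nil)) (.c 0x800080018001 62 (.t 3 1 (.t 0 15362 (.z 131072))) (.z 1) (.c 0x7ffe80018001 60 (.t 0 1 (.z 4)) (.t 1 1 (.z 5)) .nil)) .nil (.prune (.leaf 0x12140012288000e38800100000303) .keep .gnil)) (.child (.pre (.c 0 60 0 0 (.c 5 60 0 0 .nil)) (.c 0x7ffd80028002 60 (.t 0 2 (.z 5)) (.t 1 1 (.z 3)) .nil) .nil (.prune (.leaf 0x1014000e18800080000302) .keep .gnil)) (.child (.pre (.c 0 60 0 0 (.c 5 60 0 0 .nil)) (.c 0x7ffe80018001 60 (.t 0 1 (.z 3)) (.t 1 1 (.z 6)) (.c 0x800280008000 62 (.t 1 108839 (.t 3 7 (.z 1048576))) (.z 1) .nil)) .nil (.prune (.leaf 0x518c0009388001618800080000303) .keep .gnil)) (.child (.pre (.c 0 60 0 0 (.c 0 61 0 0 .nil)) .nil .nil (.dead (.t 1 7 (.t 0 1 (.z 0))))) .cnil)))) (.brow 509 2 0 (.z 1) 3 0 (.t 3 1 (.z 8192))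
 (.child (.pre (.c 5 60 0 0 (.c 1 60 61 0 .nil)) .nil .nil (.dead (.t 1 1 (.t 0 1 (.z 0))))) (.child (.pre (.c 5 60 0 0 (.c 1 60 62 0 .nil)) .nil .nil (.dead (.t 1 4 (.t 0 3 (.z 0))))) (.child (.pre (.c 5 60 0 0 (.c 1 60 61 0 .nil)) .nil .nil (.dead (.t 1 1 (.t 0 1 (.z 0))))) (.child (.pre (.c 0 60 0 0 (.c 0 61 0 0 .nil)) .nil .nil (.dead (.t 1 7 (.t 0 1 (.z 0))))) .cnil)))) (.brow 510 2 0 (.z 1) 3 0 (.t 3 1 (.z 8192))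
 (.child (.pre (.c 0 60 0 0 (.c 5 60 0 0 .nil)) (.c 0x800080018001 62 (.t 3 1 (.t 0 15362 (.z 131072))) (.z 1) (.c 0x7fff80018001 60 (.t 0 1 (.z 4)) (.z 1) .nil)) .nil (.prune (.leaf 0x1288000e38800100000302) .keep .gnil)) (.child (.pre (.c 0 60 0 0 (.c 0 61 0 0 .nil)) .nil .nil (.dead (.t 1 7 (.t 0 1 (.z 0))))) .cnil)) (.brow 511 2 0 (.z 1) 3 0 (.t 3 1 (.z 8192))
 .cnil .bnil))))))))))))))))))))))))))))))))))))))))))))))))))))))))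
 (.grow 466 (.brow 487 3 0 (.z 1) 2 0 (.z 1)
 .cnil (.brow 488 3 0 (.z 1) 2 0 (.z 1)
 .cnil (.brow 489 3 0 (.z 1) 2 0 (.z 1)
 .cnil (.brow 490 3 0 (.z 1) 2 0 (.z 1)
 .cnil (.brow 491 3 0 (.z 1) 2 0 (.z 1)
 .cnil (.brow 492 3 0 (.z 1) 2 0 (.z 1)
 .cnil (.brow 493 3 0 (.z 1) 2 0 (.z 1)
 .cnil (.brow 494 3 0 (.z 1) 2 0 (.z 1)
 .cnil (.brow 495 3 0 (.z 1) 2 0 (.z 1)
 .cnil (.brow 496 3 0 (.z 1) 2 0 (.z 1)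
 .cnil (.brow 497 3 0 (.z 1) 2 0 (.z 1)
 .cnil (.brow 498 3 0 (.z 1) 2 0 (.z 1)
 .cnil (.brow 499 3 0 (.z 1) 2 0 (.z 1)
 .cnil (.brow 500 3 0 (.z 1) 2 0 (.z 1)
 .cnil (.brow 501 3 0 (.z 1) 2 0 (.z 1)
 .cnil (.brow 502 3 0 (.z 1) 2 0 (.z 1)
 .cnil (.brow 503 3 0 (.z 1) 2 0 (.z 1)
 .cnil (.brow 504 3 0 (.z 1) 2 0 (.z 1)
 .cnil (.brow 505 3 0 (.z 1) 2 0 (.z 1)
 .cnil (.brow 506 3 0 (.z 1) 2 0 (.z 1)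
 .cnil (.brow 507 3 0 (.z 1) 2 0 (.z 1)
 .cnil (.brow 508 3 0 (.z 1) 2 0 (.z 1)
 .cnil (.brow 509 3 0 (.z 1) 2 0 (.z 1)
 .cnil (.brow 510 3 0 (.z 1) 2 0 (.z 1)
 .cnil (.brow 511 3 0 (.z 1) 2 0 (.z 1)
 .cnil (.brow 512 3 0 (.z 1) 2 0 (.z 1)
 .cnil (.brow 513 3 0 (.z 1) 2 0 (.z 1)
 .cnil (.brow 514 3 0 (.z 1) 2 0 (.z 1)
 .cnil (.brow 515 3 0 (.z 1) 2 0 (.z 1)
 .cnil (.brow 516 3 0 (.z 1) 2 0 (.z 1)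
 .cnil (.brow 517 3 0 (.z 1) 2 0 (.z 1)
 .cnil (.brow 518 3 0 (.z 1) 0 0 (.z 1)
 .cnil (.brow 518 3 0 (.z 1) 0 0 (.z 1)
 .cnil (.brow 518 3 0 (.z 1) 0 0 (.z 1)
 .cnil (.brow 518 3 0 (.z 1) 0 0 (.z 1)
 .cnil (.brow 518 3 0 (.z 1) 0 0 (.z 1)
 .cnil (.brow 518 3 0 (.z 1) 0 0 (.z 1)
 .cnil (.brow 518 3 0 (.z 1) 0 0 (.z 1)
 .cnil (.brow 518 3 0 (.z 1) 0 0 (.z 1)
 .cnil (.brow 518 3 0 (.z 1) 0 0 (.z 1)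
 .cnil (.brow 518 3 0 (.z 1) 0 0 (.z 1)
 .cnil (.brow 518 3 0 (.t 0 4 (.z 1)) 0 0 (.z 1)
 .cnil (.brow 518 3 0 (.t 0 4 (.z 1)) 0 0 (.z 1)
 .cnil (.brow 518 3 0 (.t 0 4 (.z 1)) 0 0 (.z 1)
 .cnil (.brow 518 3 0 (.t 0 4 (.z 1)) 0 0 (.z 1)
 .cnil (.brow 517 3 0 (.t 0 4 (.z 1)) 0 0 (.z 1)
 (.child (.pre (.c 5 60 0 0 (.c 1 60 64 0 (.c 0 60 0 0 .nil))) .nil .nil (.prune (.leaf 0x618c005201000500000302) .keep .gnil)) .cnil) (.brow 516 3 0 (.t 0 4 (.z 1)) 0 0 (.z 1)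
 (.child (.pre (.c 5 60 0 0 (.c 1 60 63 0 .nil)) (.c 0x80037ffe8000 60 (.t 0 1 (.z 3)) (.t 1 1 (.z 2)) .nil) .nil (.prune (.leaf 0x618c00080000301) .keep .gnil)) (.child (.np 60 6) .cnil)) (.brow 514 3 0 (.t 1 1 (.t 0 151994 (.z 32768))) 3 0 (.t 3 3 (.z 32768))
 (.child (.pre (.c 2 60 63 64 (.c 5 60 0 0 .nil)) (.c 0x80027fff8000 60 (.t 1 17001 (.t 3 1 (.z 131072))) (.t 0 1 (.z 3)) .nil) .nil (.prune (.leaf 0x638c000c18c00500000302) .keep .gnil)) (.child (.pre (.c 1 60 64 0 (.c 5 60 0 0 .nil)) (.c 0x80027fff8000 60 (.t 1 36716 (.t 3 1 (.z 262144))) (.t 0 1 (.z 2)) .nil) .nil (.prune (.leaf 0x218c005638c00080000302) .keep .gnil)) (.child (.pre (.c 0 61 0 0 (.c 2 60 63 64 .nil)) .nil .nil (.dead (.t 1 1 (.t 0 6 (.z 0))))) .cnil))) (.brow 513 3 0 (.t 1 1 (.t 0 162455 (.z 32768))) 3 0 (.t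 3 3 (.z 32768))
 (.child (.np 60 2) (.child (.pre (.c 1 60 63 0 (.c 5 60 0 0 .nil)) (.c 0x7ffd80028001 60 (.t 0 1 (.z 2)) (.t 1 1 (.z 3)) .nil) .nil (.prune (.leaf 0x618c000b18c00500000302) .keep .gnil)) (.child (.np 60 2) .cnil))) (.brow 512 3 0 (.t 1 3 (.t 0 345834 (.z 65536))) 3 0 (.t 3 3 (.z 32768))
 (.child (.pre (.c 2 60 63 64 (.c 5 60 0 0 .nil)) (.c 0x7ffd80018001 60 (.t 0 1 (.z 2)) (.t 0 1 (.t 1 2 (.z 4))) .nil) .nil (.prune (.leaf 0x2388005618800080000302) .keep .gnil)) (.child (.pre (.c 1 60 64 0 (.c 5 60 0 0 .nil)) (.c 0x7fff80028001 62 (.t 3 1 (.t 0 46000 (.z 131072))) (.z 1) (.c 0x7ffd80028001 60 (.t 0 1 (.z 2)) (.t 1 1 (.z 3)) .nil)) .nil (.prune (.leaf 0x3388000e38800100000302) .keep .gnil)) (.child (.np 60 3) .cnil))) (.brow 511 3 0 (.t 1 13 (.t 0 1467026 (.z 262144)))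 3 0 (.t 3 3 (.z 32768))
 (.child (.np 60 4) (.child (.pre (.c 1 60 63 0 (.c 5 60 0 0 .nil)) (.c 0x7ffe80018001 60 (.t 0 1 (.z 2)) (.t 1 1 (.z 5)) (.c 0x800280008000 62 (.t 1 14811 (.t 3 1 (.z 131072))) (.z 1) .nil)) .nil (.prune (.leaf 0x6188000938800100000302) .keep .gnil)) (.child (.np 60 2) .cnil))) (.brow 510 3 0 (.t 1 61 (.t 0 6202865 (.z 1048576))) 3 0 (.t 3 3 (.z 32768))
 (.child (.pre (.c 2 60 63 64 (.c 5 60 0 0 .nil)) (.c 0x800080018001 62 (.t 3 1 (.t 0 18852 (.z 131072))) (.z 1) (.c 0x7fff80018001 61 (.t 3 1 (.t 0 18852 (.z 131072))) (.t 1 1 (.z 5)) (.c 0x7ffe80018001 60 (.t 0 1 (.z 3)) (.t 1 1 (.z 5)) .nil))) .nil (.prune (.leaf 0x1288000e388001921400100000303) .keep .gnil)) (.child (.pre (.c 1 60 64 0 (.c 5 60 0 0 .nil)) (.c 0x7ffd80028002 60 (.t 0 1 (.z 2)) (.t 1 1 (.z 3))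 .nil) .nil (.prune (.leaf 0x1214000e38800080000302) .keep .gnil)) (.child (.pre (.c 0 61 0 0 (.c 2 60 63 64 .nil)) .nil .nil (.dead (.t 1 1 (.t 0 6 (.z 0))))) .cnil))) (.brow 508 2 0 (.z 1) 3 0 (.t 3 3 (.z 32768))
 (.child (.np 60 3) (.child (.np 60 2) (.child (.pre (.c 1 60 63 0 (.c 5 60 0 0 .nil)) (.c 0x800080018001 62 (.t 0 1 (.z 6)) (.z 1) (.c 0x7fff80018001 60 (.t 0 1 (.z 3)) (.z 1) .nil)) .nil (.prune (.leaf 0x6388001128800080000302) .keep .gnil)) (.child (.np 60 6) .cnil)))) (.brow 509 2 0 (.z 1) 3 0 (.t 3 3 (.z 32768))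
 (.child (.pre (.c 1 60 64 0 (.c 5 60 0 0 .nil)) (.c 0x7fff80018001 60 (.t 0 1 (.z 3)) (.z 1) (.c 0x7ffe80008001 62 (.t 0 1 (.z 2)) (.t 1 1 (.z 7)) (.c 0x800280008000 62 (.t 1 99309 (.t 3 9 (.z 1048576))) (.z 1) .nil))) .nil (.prune (.leaf 0x21880016388000938800180000303) .keep .gnil)) (.child (.pre (.c 0 61 0 0 (.c 2 60 63 64 .nil)) .nil .nil (.dead (.t 1 1 (.t 0 6 (.z 0))))) .cnil)) (.brow 510 2 0 (.z 1) 3 0 (.t 3 3 (.z 32768))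
 .cnil (.brow 511 2 0 (.z 1) 3 0 (.t 3 1 (.z 8192))
 .cnil (.brow 512 2 0 (.z 1) 3 0 (.t 3 1 (.z 8192))
 .cnil .bnil)))))))))))))))))))))))))))))))))))))))))))))))))))))))))
 (.grow 468 (.brow 488 3 0 (.z 1) 2 0 (.z 1)
 .cnil (.brow 489 3 0 (.z 1) 2 0 (.z 1)
 .cnil (.brow 490 3 0 (.z 1) 2 0 (.z 1)
 .cnil (.brow 491 3 0 (.z 1) 2 0 (.z 1)
 .cnil (.brow 492 3 0 (.z 1) 2 0 (.z 1)
 .cnil (.brow 493 3 0 (.z 1) 2 0 (.z 1)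
 .cnil (.brow 494 3 0 (.z 1) 2 0 (.z 1)
 .cnil (.brow 495 3 0 (.z 1) 2 0 (.z 1)
 .cnil (.brow 496 3 0 (.z 1) 2 0 (.z 1)
 .cnil (.brow 497 3 0 (.z 1) 2 0 (.z 1)
 .cnil (.brow 498 3 0 (.z 1) 2 0 (.z 1)
 .cnil (.brow 499 3 0 (.z 1) 2 0 (.z 1)
 .cnil (.brow 500 3 0 (.z 1) 2 0 (.z 1)
 .cnil (.brow 501 3 0 (.z 1) 2 0 (.z 1)
 .cnil (.brow 502 3 0 (.z 1) 2 0 (.z 1)
 .cnil (.brow 503 3 0 (.z 1) 2 0 (.z 1)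
 .cnil (.brow 504 3 0 (.z 1) 2 0 (.z 1)
 .cnil (.brow 505 3 0 (.z 1) 2 0 (.z 1)
 .cnil (.brow 506 3 0 (.z 1) 2 0 (.z 1)
 .cnil (.brow 507 3 0 (.z 1) 2 0 (.z 1)
 .cnil (.brow 508 3 0 (.z 1) 2 0 (.z 1)
 .cnil (.brow 509 3 0 (.z 1) 2 0 (.z 1)
 .cnil (.brow 510 3 0 (.z 1) 2 0 (.z 1)
 .cnil (.brow 511 3 0 (.z 1) 2 0 (.z 1)
 .cnil (.brow 512 3 0 (.z 1) 2 0 (.z 1)
 .cnil (.brow 513 3 0 (.z 1) 2 0 (.z 1)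
 .cnil (.brow 514 3 0 (.z 1) 2 0 (.z 1)
 .cnil (.brow 515 3 0 (.z 1) 2 0 (.z 1)
 .cnil (.brow 516 3 0 (.z 1) 2 0 (.z 1)
 .cnil (.brow 517 3 0 (.z 1) 2 0 (.z 1)
 .cnil (.brow 518 3 0 (.z 1) 2 0 (.z 1)
 .cnil (.brow 519 3 0 (.z 1) 0 0 (.z 1)
 .cnil (.brow 519 3 0 (.z 1) 0 0 (.z 1)
 .cnil (.brow 519 3 0 (.z 1) 0 0 (.z 1)
 .cnil (.brow 519 3 0 (.z 1) 0 0 (.z 1)
 .cnil (.brow 519 3 0 (.z 1) 0 0 (.z 1)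
 .cnil (.brow 519 3 0 (.z 1) 0 0 (.z 1)
 .cnil (.brow 519 3 0 (.z 1) 0 0 (.z 1)
 .cnil (.brow 519 3 0 (.t 0 3 (.z 1)) 0 0 (.z 1)
 .cnil (.brow 519 3 0 (.t 0 3 (.z 1)) 0 0 (.z 1)
 .cnil (.brow 519 3 0 (.t 0 3 (.z 1)) 0 0 (.z 1)
 .cnil (.brow 518 3 0 (.t 0 3 (.z 1)) 0 0 (.z 1)
 (.child (.pre (.c 5 60 0 0 (.c 0 60 0 0 .nil)) (.c 0x80027fff8001 60 (.t 0 24275 (.t 3 3 (.z 262144))) (.t 1 1 (.z 3)) .nil) .nil (.prune (.leaf 0x1210000e38400080000302) .keep .gnil)) .cnil) (.brow 517 3 0 (.t 0 3 (.z 1)) 0 0 (.z 1)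
 (.child (.pre (.c 0 60 0 0 (.c 5 60 0 0 (.c 1 60 61 0 .nil))) .nil .nil (.dead (.t 2 1 (.t 1 2 (.t 0 1 (.z 0)))))) (.child (.pre (.c 5 60 0 0 (.c 1 60 62 0 .nil)) .nil .nil (.dead (.t 3 1 (.t 1 80656 (.t 0 49664 (.z 0)))))) .cnil)) (.brow 516 3 0 (.t 0 3 (.z 1)) 0 0 (.z 1)
 (.child (.pre (.c 5 60 0 0 (.c 0 60 0 0 .nil)) (.c 0x80027fff8000 60 (.t 0 1 (.z 4)) (.t 3 1 (.t 1 51269 (.z 131072))) .nil) .nil (.prune (.leaf 0x3010000a18c000e18400580000303) .keep .gnil)) (.child (.pre (.c 5 60 0 0 (.c 0 60 0 0 .nil)) .nil .nil (.prune (.leaf 0x618c005201000500000302) .keep .gnil)) (.child (.pre (.c 0 61 0 0 (.c 0 60 0 0 .nil)) .nil .nil (.dead (.t 5 1 (.t 1 28190 (.t 0 103604 (.z 0)))))) .cnil))) (.brow 515 3 0 (.t 0 3 (.z 1)) 3 0 (.t 3 3 (.z 32768))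
 (.child (.pre (.c 0 60 0 0 (.c 5 60 0 0 (.c 1 60 61 0 .nil))) .nil .nil (.dead (.t 2 1 (.t 1 2 (.t 0 1 (.z 0)))))) (.child (.pre (.c 0 60 0 0 (.c 5 60 0 0 (.c 1 60 62 0 .nil))) .nil .nil (.dead (.t 2 5 (.t 1 8 (.t 0 4 (.z 0)))))) (.child (.pre (.c 0 60 0 0 (.c 0 61 0 0 .nil)) .nil .nil (.dead (.t 1 6 (.t 0 1 (.z 0))))) .cnil))) (.brow 514 3 0 (.t 1 1 (.t 0 275169 (.z 65536))) 3 0 (.t 3 3 (.z 32768))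
 (.child (.pre (.c 0 60 0 0 (.c 5 60 0 0 .nil)) (.c 0x80027fff8000 60 (.t 1 18928 (.t 3 1 (.z 131072))) (.t 0 1 (.z 3)) .nil) .nil (.prune (.leaf 0x638c000b18c00500000302) .keep .gnil)) (.child (.pre (.c 0 60 0 0 (.c 5 60 0 0 .nil)) (.c 0x80027fff8000 60 (.t 1 41251 (.t 3 1 (.z 262144))) (.t 0 1 (.z 3)) .nil) .nil (.prune (.leaf 0x638c00080000301) .keep .gnil)) (.child (.pre (.c 0 60 0 0 (.c 0 61 0 0 .nil)) .nil .nil (.dead (.t 1 6 (.t 0 1 (.z 0))))) .cnil))) (.brow 513 3 0 (.t 1 1 (.t 0 148046 (.z 32768))) 3 0 (.t 3 3 (.z 32768))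
 (.child (.pre (.c 5 60 0 0 (.c 1 60 61 0 .nil)) .nil .nil (.dead (.t 1 1 (.t 0 1 (.z 0))))) (.child (.pre (.c 5 60 0 0 (.c 1 60 62 0 .nil)) .nil .nil (.dead (.t 1 3 (.t 0 2 (.z 0))))) (.child (.pre (.c 0 60 0 0 (.c 0 61 0 0 .nil)) .nil .nil (.dead (.t 1 6 (.t 0 1 (.z 0))))) .cnil))) (.brow 512 3 0 (.t 1 37 (.t 0 5072233 (.z 1048576))) 3 0 (.t 3 3 (.z 32768))
 (.child (.pre (.c 0 60 0 0 (.c 5 60 0 0 .nil)) (.c 0x7ffe80018001 60 (.t 0 1 (.z 3)) (.t 1 1 (.z 4)) .nil) .nil (.prune (.leaf 0x23880056188000921400500000303) .keep .gnil)) (.child (.pre (.c 0 60 0 0 (.c 5 60 0 0 .nil)) (.c 0x7fff80028001 62 (.t 3 1 (.t 0 37278 (.z 131072))) (.z 1) (.c 0x7ffe80028001 60 (.t 0 2 (.z 5)) (.t 1 1 (.z 3)) .nil)) .nil (.prune (.leaf 0x33880014388000e38c00100000303) .keep .gnil)) (.child (.pre (.c 0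 60 0 0 (.c 0 61 0 0 .nil)) .nil .nil (.dead (.t 1 6 (.t 0 1 (.z 0))))) .cnil))) (.brow 510 3 0 (.t 1 1 (.t 0 89714 (.z 16384))) 3 0 (.t 3 3 (.z 32768))
 (.child (.pre (.c 1 60 62 0 (.c 5 60 0 0 .nil)) (.c 0x800080018001 62 (.t 1 2 (.t 0 3 (.z 3))) (.z 1) (.c 0x7ffe80018001 60 (.t 0 1 (.z 2)) (.t 1 1 (.t 0 1 (.z 1))) .nil)) .nil (.prune (.leaf 0x12140012288000e38800100000303) .keep .gnil)) (.child (.pre (.c 5 60 0 0 (.c 1 60 61 0 .nil)) .nil .nil (.dead (.t 1 1 (.t 0 1 (.z 0))))) (.child (.pre (.c 5 60 0 0 (.c 1 60 62 0 .nil)) .nil .nil (.dead (.t 1 3 (.t 0 2 (.z 0))))) (.child (.pre (.c 0 60 0 0 (.c 0 61 0 0 .nil)) .nil .nil (.dead (.t 1 6 (.t 0 1 (.z 0))))) .cnil)))) (.brow 509 3 0 (.t 1 1 (.t 0 94945 (.z 16384))) 3 0 (.t 3 3 (.z 32768))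
 (.child (.pre (.c 0 60 0 0 (.c 5 60 0 0 .nil)) (.c 0x7ffd80018002 60 (.t 0 2 (.z 5)) (.t 1 1 (.z 3)) (.c 0x800080018001 62 (.t 3 1 (.t 0 16817 (.z 131072))) (.z 1) .nil)) .nil (.prune (.leaf 0x12880016188000931400100000303) .keep .gnil)) (.child (.pre (.c 0 60 0 0 (.c 5 60 0 0 .nil)) (.c 0x800080018001 62 (.t 3 1 (.t 0 17776 (.z 131072))) (.z 1) (.c 0x7fff80018001 60 (.t 0 1 (.z 4)) (.z 1) .nil)) .nil (.prune (.leaf 0x338c0016388001128800080000303) .keep .gnil)) (.child (.pre (.c 0 60 0 0 (.c 5 60 0 0 .nil)) (.c 0x7fff80018001 60 (.t 0 1 (.z 4)) (.z 1) .nil) .nil (.prune (.leaf 0x1014000e18800080000302) .keep .gnil)) (.child (.pre (.c 0 60 0 0 (.c 0 61 0 0 .nil)) .nil .nil (.dead (.t 1 6 (.t 0 1 (.z 0))))) .cnil)))) (.brow 508 2 0 (.z 1) 3 0 (.t 3 3 (.z 32768))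
 (.child (.pre (.c 1 60 62 0 (.c 5 60 0 0 .nil)) (.c 0x7ffd80018002 60 (.t 0 1 (.z 2)) (.t 1 1 (.z 3)) .nil) .nil (.prune (.leaf 0x1214000e38800080000302) .keep .gnil)) (.child (.pre (.c 5 60 0 0 (.c 1 60 61 0 .nil)) .nil .nil (.dead (.t 1 1 (.t 0 1 (.z 0))))) (.child (.pre (.c 5 60 0 0 (.c 1 60 62 0 .nil)) .nil .nil (.dead (.t 1 3 (.t 0 2 (.z 0))))) (.child (.pre (.c 0 60 0 0 (.c 0 61 0 0 .nil)) .nil .nil (.dead (.t 1 6 (.t 0 1 (.z 0))))) .cnil)))) (.brow 509 2 0 (.z 1) 3 0 (.t 3 3 (.z 32768))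
 (.child (.pre (.c 0 60 0 0 (.c 5 60 0 0 .nil)) (.c 0x7fff80018001 60 (.t 0 1 (.z 4)) (.z 1) (.c 0x7ffe80008001 62 (.t 0 1 (.z 3)) (.t 1 42104 (.t 3 1 (.z 262144))) (.c 0x800280008000 62 (.t 1 107284 (.t 3 9 (.z 1048576))) (.z 1) .nil))) .nil (.prune (.leaf 0x6388000a188001138800180000303) .keep .gnil)) (.child (.pre (.c 0 60 0 0 (.c 0 61 0 0 .nil)) .nil .nil (.dead (.t 1 6 (.t 0 1 (.z 0))))) .cnil)) (.brow 510 2 0 (.z 1) 3 0 (.t 3 3 (.z 32768))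
 .cnil (.brow 511 2 0 (.z 1) 3 0 (.t 3 1 (.z 8192))
 .cnil (.brow 512 2 0 (.z 1) 3 0 (.t 3 1 (.z 8192))
 .cnil (.brow 513 2 0 (.z 1) 3 0 (.z 1)
 .cnil .bnil))))))))))))))))))))))))))))))))))))))))))))))))))))))))
 (.grow 469 (.brow 488 3 0 (.z 1) 2 0 (.z 1)
 .cnil (.brow 489 3 0 (.z 1) 2 0 (.z 1)
 .cnil (.brow 490 3 0 (.z 1) 2 0 (.z 1)
 .cnil (.brow 491 3 0 (.z 1) 2 0 (.z 1)
 .cnil (.brow 492 3 0 (.z 1) 2 0 (.z 1)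
 .cnil (.brow 493 3 0 (.z 1) 2 0 (.z 1)
 .cnil (.brow 494 3 0 (.z 1) 2 0 (.z 1)
 .cnil (.brow 495 3 0 (.z 1) 2 0 (.z 1)
 .cnil (.brow 496 3 0 (.z 1) 2 0 (.z 1)
 .cnil (.brow 497 3 0 (.z 1) 2 0 (.z 1)
 .cnil (.brow 498 3 0 (.z 1) 2 0 (.z 1)
 .cnil (.brow 499 3 0 (.z 1) 2 0 (.z 1)
 .cnil (.brow 500 3 0 (.z 1) 2 0 (.z 1)
 .cnil (.brow 501 3 0 (.z 1) 2 0 (.z 1)
 .cnil (.brow 502 3 0 (.z 1) 2 0 (.z 1)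
 .cnil (.brow 503 3 0 (.z 1) 2 0 (.z 1)
 .cnil (.brow 504 3 0 (.z 1) 2 0 (.z 1)
 .cnil (.brow 505 3 0 (.z 1) 2 0 (.z 1)
 .cnil (.brow 506 3 0 (.z 1) 2 0 (.z 1)
 .cnil (.brow 507 3 0 (.z 1) 2 0 (.z 1)
 .cnil (.brow 508 3 0 (.z 1) 2 0 (.z 1)
 .cnil (.brow 509 3 0 (.z 1) 2 0 (.z 1)
 .cnil (.brow 510 3 0 (.z 1) 2 0 (.z 1)
 .cnil (.brow 511 3 0 (.z 1) 2 0 (.z 1)
 .cnil (.brow 512 3 0 (.z 1) 2 0 (.z 1)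
 .cnil (.brow 513 3 0 (.z 1) 2 0 (.z 1)
 .cnil (.brow 514 3 0 (.z 1) 2 0 (.z 1)
 .cnil (.brow 515 3 0 (.z 1) 2 0 (.z 1)
 .cnil (.brow 516 3 0 (.z 1) 2 0 (.z 1)
 .cnil (.brow 517 3 0 (.z 1) 2 0 (.z 1)
 .cnil (.brow 518 3 0 (.z 1) 2 0 (.z 1)
 .cnil (.brow 519 3 0 (.z 1) 2 0 (.z 1)
 .cnil (.brow 520 3 0 (.z 1) 0 0 (.z 1)
 .cnil (.brow 520 3 0 (.z 1) 0 0 (.z 1)
 .cnil (.brow 520 3 0 (.z 1) 0 0 (.z 1)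
 .cnil (.brow 520 3 0 (.z 1) 0 0 (.z 1)
 .cnil (.brow 520 3 0 (.t 0 3 (.z 1)) 0 0 (.z 1)
 .cnil (.brow 520 3 0 (.t 0 3 (.z 1)) 0 0 (.z 1)
 .cnil (.brow 520 3 0 (.t 0 3 (.z 1)) 0 0 (.z 1)
 .cnil (.brow 519 3 0 (.t 0 3 (.z 1)) 0 0 (.z 1)
 (.child (.np 60 2) .cnil) (.brow 518 3 0 (.t 0 3 (.z 1)) 0 0 (.z 1)
 (.child (.pre (.c 5 60 0 0 (.c 2 60 63 64 .nil)) (.c 0x80027fff8001 60 (.t 0 116844 (.t 3 9 (.z 1048576))) (.t 3 3 (.t 1 79667 (.z 131072))) .nil) .nil (.prune (.leaf 0x638400080000301) .keep .gnil)) (.child (.pre (.c 5 60 0 0 (.c 1 60 64 0 .nil)) (.c 0x80027fff8001 61 (.t 0 2 (.z 5)) (.z 1) (.c 0x80027ffe8001 60 (.t 0 1 (.z 3)) (.t 3 1 (.t 1 21092 (.z 16384))) .nil)) .nil (.prune (.leaf 0x618400131840009284006a18c00100000304) .keep .gnil)) .cnil)) (.brow 517 3 0 (.t 0 3 (.z 1)) 3 0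 (.t 3 3 (.z 32768))
 (.child (.np 60 2) (.child (.pre (.c 1 60 63 0 .nil) (.c 0x800280008001 64 (.z 1) (.z 1) (.c 0x80027ffe8001 60 (.t 2 1 (.z 32768)) (.t 0 1 (.z 2)) .nil)) .nil (.prune (.leaf 0x3210000938c003e210001339c00100000304) .keep .gnil)) .cnil)) (.brow 516 3 0 (.t 0 3 (.z 1)) 3 0 (.t 3 3 (.z 32768))
 (.child (.pre (.c 5 60 0 0 (.c 2 60 63 64 .nil)) .nil .nil (.prune (.leaf 0x3010005618c00500000302) .keep .gnil)) (.child (.pre (.c 1 60 64 0 .nil) .nil .nil (.prune (.leaf 0x618c005408c005a01000500000303) .keep .gnil)) .cnil)) (.brow 515 3 0 (.t 0 3 (.z 1)) 3 0 (.t 3 3 (.z 32768))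
 (.child (.np 60 2) (.child (.np 60 5) .cnil)) (.brow 514 3 0 (.t 1 1 (.t 0 246350 (.z 65536))) 3 0 (.t 3 3 (.z 32768))
 (.child (.pre (.c 2 60 63 64 (.c 5 60 0 0 .nil)) (.c 0x80027fff8000 60 (.t 1 42696 (.t 3 1 (.z 262144))) (.t 0 1 (.z 2)) .nil) .nil (.prune (.leaf 0x638c000b18c00500000302) .keep .gnil)) (.child (.pre (.c 0 61 0 0 (.c 1 60 64 0 .nil)) .nil .nil (.dead (.t 1 1 (.t 0 4 (.z 0))))) .cnil)) (.brow 512 3 0 (.t 1 1 (.t 0 144097 (.z 32768))) 3 0 (.t 3 3 (.z 32768))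
 (.child (.pre (.c 0 60 0 0 (.c 5 60 0 0 .nil)) (.c 0x7ffe80018001 60 (.t 3 3 (.t 0 408243 (.z 1048576))) (.t 1 1 (.z 3)) .nil) .nil (.prune (.leaf 0x618c0009220005201c40233880051020000908820200000306) .keep .gnil)) (.child (.np 60 2) (.child (.pre (.c 0 61 0 0 (.c 1 60 63 0 .nil)) .nil .nil (.dead (.t 1 1 (.t 0 4 (.z 0))))) .cnil))) (.brow 511 3 0 (.t 1 3 (.t 0 309117 (.z 65536))) 3 0 (.t 3 3 (.z 32768))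
 (.child (.pre (.c 0 60 0 0 (.c 5 60 0 0 .nil)) (.c 0x7ffe80018001 60 (.t 0 1 (.z 3)) (.t 1 1 (.z 3)) .nil) .nil (.prune (.leaf 0x1014000e18800080000302) .keep .gnil)) (.child (.pre (.c 2 60 63 64 (.c 5 60 0 0 .nil)) (.c 0x7ffe80018001 60 (.t 0 1 (.z 2)) (.t 1 1 (.z 4)) .nil) .nil (.prune (.leaf 0x6188000a38800500000302) .keep .gnil)) (.child (.pre (.c 0 61 0 0 (.c 1 60 64 0 .nil)) .nil .nil (.dead (.t 1 1 (.t 0 4 (.z 0))))) .cnil))) (.brow 510 3 0 (.t 1 1 (.t 0 82510 (.z 16384))) 3 0 (.t 3 3 (.z 32768))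
 (.child (.pre (.c 0 60 0 0 (.c 1 60 63 0 (.c 5 60 0 0 .nil))) (.c 0x800080018001 62 (.t 4 1 (.t 1 47869 (.z 262144))) (.z 1) (.c 0x7fff80018001 61 (.t 4 1 (.t 1 47869 (.z 262144))) (.t 2 1 (.z 4)) (.c 0x7ffe80018001 60 (.t 0 1 (.z 3)) (.t 2 1 (.z 4)) .nil))) .nil (.prune (.leaf 0x1288000e388001921400100000303) .keep .gnil)) (.child (.np 60 2) (.child (.pre (.c 0 61 0 0 (.c 1 60 63 0 .nil)) .nil .nil (.dead (.t 1 1 (.t 0 4 (.z 0))))) .cnil))) (.brow 509 3 0 (.t 1 1 (.t 0 87740 (.z 16384))) 3 0 (.t 3 3 (.z 32768))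
 (.child (.pre (.c 0 60 0 0 (.c 5 60 0 0 .nil)) (.c 0x7ffd80018002 60 (.t 0 1 (.z 2)) (.t 1 1 (.z 3)) (.c 0x800280008000 62 (.t 1 14581 (.t 3 1 (.z 131072))) (.z 1) .nil)) .nil (.prune (.leaf 0x1388001618800080000302) .keep .gnil)) (.child (.pre (.c 2 60 63 64 (.c 5 60 0 0 .nil)) (.c 0x800080018001 62 (.t 3 1 (.t 0 22622 (.z 131072))) (.z 1) (.c 0x7fff80018001 60 (.t 0 1 (.z 3)) (.z 1) .nil)) .nil (.prune (.leaf 0x6388001128800080000302) .keep .gnil)) (.child (.np 60 5) .cnil))) (.brow 508 2 0 (.z 1) 3 0 (.t 3 3 (.z 32768))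
 (.child (.pre (.c 0 60 0 0 (.c 1 60 63 0 (.c 5 60 0 0 .nil))) (.c 0x7ffe80018002 60 (.t 0 1 (.z 3)) (.t 2 1 (.z 3)) .nil) .nil (.prune (.leaf 0x1014000e18800080000302) .keep .gnil)) (.child (.np 60 2) (.child (.pre (.c 0 61 0 0 (.c 1 60 63 0 .nil)) .nil .nil (.dead (.t 1 1 (.t 0 4 (.z 0))))) .cnil))) (.brow 509 2 0 (.z 1) 3 0 (.t 3 3 (.z 32768))
 (.child (.pre (.c 0 61 0 0 (.c 1 60 64 0 .nil)) .nil .nil (.dead (.t 1 1 (.t 0 4 (.z 0))))) .cnil) (.brow 510 2 0 (.z 1) 3 0 (.t 3 1 (.z 16384))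
 .cnil (.brow 511 2 0 (.z 1) 3 0 (.t 3 1 (.z 8192))
 .cnil (.brow 512 2 0 (.z 1) 3 0 (.z 1)
 .cnil (.brow 513 2 0 (.z 1) 3 0 (.z 1)
 .cnil (.brow 514 2 0 (.z 1) 3 0 (.z 1)
 .cnil (.brow 515 2 0 (.z 1) 3 0 (.z 1)
 .cnil .bnil)))))))))))))))))))))))))))))))))))))))))))))))))))))))))
 (.grow 471 (.brow 490 3 0 (.z 1) 2 0 (.z 1)
 .cnil (.brow 491 3 0 (.z 1) 2 0 (.z 1)
 .cnil (.brow 492 3 0 (.z 1) 2 0 (.z 1)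
 .cnil (.brow 493 3 0 (.z 1) 2 0 (.z 1)
 .cnil (.brow 494 3 0 (.z 1) 2 0 (.z 1)
 .cnil (.brow 495 3 0 (.z 1) 2 0 (.z 1)
 .cnil (.brow 496 3 0 (.z 1) 2 0 (.z 1)
 .cnil (.brow 497 3 0 (.z 1) 2 0 (.z 1)
 .cnil (.brow 498 3 0 (.z 1) 2 0 (.z 1)
 .cnil (.brow 499 3 0 (.z 1) 2 0 (.z 1)
 .cnil (.brow 500 3 0 (.z 1) 2 0 (.z 1)
 .cnil (.brow 501 3 0 (.z 1) 2 0 (.z 1)
 .cnil (.brow 502 3 0 (.z 1) 2 0 (.z 1)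
 .cnil (.brow 503 3 0 (.z 1) 2 0 (.z 1)
 .cnil (.brow 504 3 0 (.z 1) 2 0 (.z 1)
 .cnil (.brow 505 3 0 (.z 1) 2 0 (.z 1)
 .cnil (.brow 506 3 0 (.z 1) 2 0 (.z 1)
 .cnil (.brow 507 3 0 (.z 1) 2 0 (.z 1)
 .cnil (.brow 508 3 0 (.z 1) 2 0 (.z 1)
 .cnil (.brow 509 3 0 (.z 1) 2 0 (.z 1)
 .cnil (.brow 510 3 0 (.z 1) 2 0 (.z 1)
 .cnil (.brow 511 3 0 (.z 1) 2 0 (.z 1)
 .cnil (.brow 512 3 0 (.z 1) 2 0 (.z 1)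
 .cnil (.brow 513 3 0 (.z 1) 2 0 (.z 1)
 .cnil (.brow 514 3 0 (.z 1) 2 0 (.z 1)
 .cnil (.brow 515 3 0 (.z 1) 2 0 (.z 1)
 .cnil (.brow 516 3 0 (.z 1) 2 0 (.z 1)
 .cnil (.brow 517 3 0 (.z 1) 2 0 (.z 1)
 .cnil (.brow 518 3 0 (.z 1) 2 0 (.z 1)
 .cnil (.brow 519 3 0 (.z 1) 2 0 (.z 1)
 .cnil (.brow 520 3 0 (.z 1) 2 0 (.z 1)
 .cnil (.brow 521 3 0 (.z 1) 0 0 (.z 1)
 .cnil (.brow 521 3 0 (.z 1) 0 0 (.z 1)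
 .cnil (.brow 521 3 0 (.t 0 3 (.z 1)) 0 0 (.z 1)
 .cnil (.brow 521 3 0 (.t 0 3 (.z 1)) 0 0 (.z 1)
 .cnil (.brow 521 3 0 (.t 0 3 (.z 1)) 0 0 (.z 1)
 .cnil (.brow 520 3 0 (.t 0 3 (.z 1)) 0 0 (.z 1)
 (.child (.pre (.c 5 60 0 0 (.c 0 60 0 0 .nil)) (.c 0x80017fff8001 60 (.t 3 1 (.t 1 4272 (.z 32768))) (.t 3 1 (.t 1 29269 (.z 65536))) .nil) .nil (.prune (.leaf 0x618400080000301) .keep .gnil)) .cnil) (.brow 519 3 0 (.t 0 3 (.z 1)) 0 0 (.z 1)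
 (.child (.pre (.c 0 60 0 0 (.c 5 60 0 0 (.c 1 60 61 0 .nil))) .nil .nil (.dead (.t 2 1 (.t 1 2 (.t 0 1 (.z 0)))))) (.child (.pre (.c 5 60 0 0 (.c 1 60 62 0 .nil)) .nil .nil (.dead (.t 3 1 (.t 1 18672 (.t 0 1454 (.z 0)))))) .cnil)) (.brow 518 3 0 (.t 0 3 (.z 1)) 3 0 (.t 3 2 (.t 1 1 (.z 32768)))
 (.child (.pre (.c 5 60 0 0 (.c 0 60 0 0 .nil)) (.c 0x80027fff8001 60 (.t 0 18333 (.t 3 1 (.z 131072))) (.t 1 1 (.z 3)) .nil) .nil (.prune (.leaf 0x119c000e18400080000302) .keep .gnil)) (.child (.pre (.c 0 60 0 0 .nil) (.c 0x80037ffd8002 60 (.t 4 2 (.t 2 1 (.z 65536))) (.t 0 2 (.z 3)) (.c 0x80017fff8001 60 (.t 2 1 (.t 0 3532 (.z 32768))) (.t 0 1 (.z 3)) .nil)) .nil (.prune (.leaf 0x438c0014284006e01000080000303) .keep .gnil)) .cnil)) (.brow 517 3 0 (.t 0 3 (.z 1)) 3 0 (.t 3 3 (.z 32768))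
 (.child (.pre (.c 0 60 0 0 (.c 5 60 0 0 (.c 1 60 61 0 .nil))) .nil .nil (.dead (.t 2 1 (.t 1 2 (.t 0 1 (.z 0)))))) (.child (.pre (.c 5 60 0 0 (.c 1 60 62 0 .nil)) .nil .nil (.dead (.t 3 1 (.t 1 44499 (.t 0 18672 (.z 0)))))) .cnil)) (.brow 516 3 0 (.t 0 3 (.z 1)) 3 0 (.t 3 1 (.z 16384))
 (.child (.pre (.c 5 60 0 0 (.c 0 60 0 0 .nil)) .nil .nil (.prune (.leaf 0x3010005408c005e18c00500000303) .keep .gnil)) (.child (.pre (.c 0 61 0 0 (.c 0 60 0 0 .nil)) .nil .nil (.dead (.t 5 1 (.t 1 28190 (.t 0 75414 (.z 0)))))) .cnil)) (.brow 515 3 0 (.t 0 3 (.z 1)) 3 0 (.t 3 1 (.z 16384))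
 (.child (.pre (.c 0 60 0 0 (.c 5 60 0 0 (.c 1 60 61 0 .nil))) .nil .nil (.dead (.t 2 1 (.t 1 2 (.t 0 1 (.z 0)))))) (.child (.pre (.c 0 60 0 0 (.c 0 61 0 0 .nil)) .nil .nil (.dead (.t 1 5 (.t 0 1 (.z 0))))) .cnil)) (.brow 513 3 0 (.t 1 1 (.t 0 119226 (.z 32768))) 3 0 (.t 3 1 (.z 16384))
 (.child (.pre (.c 0 60 0 0 (.c 5 60 0 0 .nil)) (.c 0x80027fff8000 60 (.t 1 22123 (.t 3 1 (.z 131072))) (.t 0 1 (.z 3)) .nil) .nil (.prune (.leaf 0x638c00091202022120e02518c00500000304) .keep .gnil)) (.child (.pre (.c 0 60 0 0 (.c 5 60 0 0 .nil)) (.c 0x80027fff8000 60 (.t 1 48955 (.t 3 1 (.z 262144))) (.t 0 1 (.z 2)) .nil) .nil (.prune (.leaf 0x638c000b18c00500000302) .keep .gnil)) (.child (.pre (.c 0 60 0 0 (.c 0 61 0 0 .nil)) .nil .nil (.dead (.t 1 5 (.t 0 1 (.z 0))))) .cnil))) (.brow 512 3 0 (.t 1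 1 (.t 0 129687 (.z 32768))) 3 0 (.t 3 1 (.z 16384))
 (.child (.pre (.c 5 60 0 0 (.c 1 60 62 0 .nil)) .nil .nil (.dead (.t 1 3 (.t 0 2 (.z 0))))) (.child (.pre (.c 5 60 0 0 (.c 1 60 61 0 .nil)) .nil .nil (.dead (.t 1 1 (.t 0 1 (.z 0))))) (.child (.pre (.c 0 60 0 0 (.c 0 61 0 0 .nil)) .nil .nil (.dead (.t 1 5 (.t 0 1 (.z 0))))) .cnil))) (.brow 511 3 0 (.t 1 3 (.t 0 280298 (.z 65536))) 3 0 (.t 3 1 (.z 16384))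
 (.child (.np 60 3) (.child (.pre (.c 0 60 0 0 (.c 5 60 0 0 .nil)) (.c 0x7ffe80018001 60 (.t 0 1 (.z 2)) (.t 1 1 (.z 4)) .nil) .nil (.prune (.leaf 0x6188000a38800500000302) .keep .gnil)) (.child (.pre (.c 0 60 0 0 (.c 0 61 0 0 .nil)) .nil .nil (.dead (.t 1 5 (.t 0 1 (.z 0))))) .cnil))) (.brow 510 3 0 (.t 1 13 (.t 0 1204882 (.z 262144))) 3 0 (.t 3 1 (.z 16384))
 (.child (.pre (.c 5 60 0 0 (.c 1 60 62 0 .nil)) .nil .nil (.dead (.t 1 3 (.t 0 2 (.z 0))))) (.child (.pre (.c 5 60 0 0 (.c 1 60 61 0 .nil)) .nil .nil (.dead (.t 1 1 (.t 0 1 (.z 0))))) (.child (.pre (.c 0 60 0 0 (.c 0 61 0 0 .nil)) .nil .nil (.dead (.t 1 5 (.t 0 1 (.z 0))))) .cnil))) (.brow 509 3 0 (.t 1 61 (.t 0 5154289 (.z 1048576))) 3 0 (.t 3 1 (.z 16384))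
 (.child (.pre (.c 0 60 0 0 (.c 5 60 0 0 .nil)) (.c 0x7ffe80018002 60 (.t 0 2 (.z 5)) (.t 1 1 (.z 3)) (.c 0x7ffe80008001 62 (.t 0 1 (.z 3)) (.t 1 1 (.z 5)) .nil)) .nil (.prune (.leaf 0x6188000b18800100000302) .keep .gnil)) (.child (.pre (.c 0 60 0 0 (.c 5 60 0 0 .nil)) (.c 0x800080018001 62 (.t 3 1 (.t 0 21091 (.z 131072))) (.z 1) (.c 0x7fff80018001 60 (.t 0 1 (.z 3)) (.z 1) .nil)) .nil (.prune (.leaf 0x12140011288000e38800100000303) .keep .gnil)) (.child (.pre (.c 0 60 0 0 (.c 0 61 0 0 .nil)) .nil .nil (.dead (.t 1 5 (.t 0 1 (.z 0))))) .cnil))) (.brow 507 2 0 (.z 1) 3 0 (.t 3 1 (.z 16384))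
 (.child (.pre (.c 5 60 0 0 (.c 1 60 61 0 .nil)) .nil .nil (.dead (.t 1 1 (.t 0 1 (.z 0))))) (.child (.np 60 3) (.child (.pre (.c 5 60 0 0 (.c 1 60 61 0 .nil)) .nil .nil (.dead (.t 1 1 (.t 0 1 (.z 0))))) (.child (.pre (.c 0 60 0 0 (.c 0 61 0 0 .nil)) .nil .nil (.dead (.t 1 5 (.t 0 1 (.z 0))))) .cnil)))) (.brow 508 2 0 (.z 1) 3 0 (.t 3 1 (.z 16384))
 (.child (.pre (.c 0 60 0 0 (.c 5 60 0 0 .nil)) (.c 0x7ffe80018002 60 (.t 0 1 (.z 2)) (.t 1 1 (.z 4)) (.c 0x800080018001 62 (.t 0 1 (.z 6)) (.z 1) .nil)) .nil (.prune (.leaf 0x22140009088001638800080000303) .keep .gnil)) (.child (.pre (.c 0 60 0 0 (.c 0 61 0 0 .nil)) .nil .nil (.dead (.t 1 5 (.t 0 1 (.z 0))))) .cnil)) (.brow 509 2 0 (.z 1) 3 0 (.t 3 1 (.z 16384))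
 .cnil (.brow 510 2 0 (.z 1) 3 0 (.t 3 1 (.z 8192))
 .cnil (.brow 511 2 0 (.z 1) 3 0 (.z 1)
 .cnil (.brow 512 2 0 (.z 1) 3 0 (.z 1)
 .cnil (.brow 513 2 0 (.z 1) 3 0 (.z 1)
 .cnil (.brow 514 2 0 (.z 1) 3 0 (.z 1)
 .cnil (.brow 515 2 0 (.z 1) 3 0 (.z 1)
 .cnil .bnil))))))))))))))))))))))))))))))))))))))))))))))))))))))))
 (.grow 472 (.brow 490 3 0 (.z 1) 2 0 (.z 1)
 .cnil (.brow 491 3 0 (.z 1) 2 0 (.z 1)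
 .cnil (.brow 492 3 0 (.z 1) 2 0 (.z 1)
 .cnil (.brow 493 3 0 (.z 1) 2 0 (.z 1)
 .cnil (.brow 494 3 0 (.z 1) 2 0 (.z 1)
 .cnil (.brow 495 3 0 (.z 1) 2 0 (.z 1)
 .cnil (.brow 496 3 0 (.z 1) 2 0 (.z 1)
 .cnil (.brow 497 3 0 (.z 1) 2 0 (.z 1)
 .cnil (.brow 498 3 0 (.z 1) 2 0 (.z 1)
 .cnil (.brow 499 3 0 (.z 1) 2 0 (.z 1)
 .cnil (.brow 500 3 0 (.z 1) 2 0 (.z 1)
 .cnil (.brow 501 3 0 (.z 1) 2 0 (.z 1)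
 .cnil (.brow 502 3 0 (.z 1) 2 0 (.z 1)
 .cnil (.brow 503 3 0 (.z 1) 2 0 (.z 1)
 .cnil (.brow 504 3 0 (.z 1) 2 0 (.z 1)
 .cnil (.brow 505 3 0 (.z 1) 2 0 (.z 1)
 .cnil (.brow 506 3 0 (.z 1) 2 0 (.z 1)
 .cnil (.brow 507 3 0 (.z 1) 2 0 (.z 1)
 .cnil (.brow 508 3 0 (.z 1) 2 0 (.z 1)
 .cnil (.brow 509 3 0 (.z 1) 2 0 (.z 1)
 .cnil (.brow 510 3 0 (.z 1) 2 0 (.z 1)
 .cnil (.brow 511 3 0 (.z 1) 2 0 (.z 1)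
 .cnil (.brow 512 3 0 (.z 1) 2 0 (.z 1)
 .cnil (.brow 513 3 0 (.z 1) 2 0 (.z 1)
 .cnil (.brow 514 3 0 (.z 1) 2 0 (.z 1)
 .cnil (.brow 515 3 0 (.z 1) 2 0 (.z 1)
 .cnil (.brow 516 3 0 (.z 1) 2 0 (.z 1)
 .cnil (.brow 517 3 0 (.z 1) 2 0 (.z 1)
 .cnil (.brow 518 3 0 (.z 1) 2 0 (.z 1)
 .cnil (.brow 519 3 0 (.z 1) 2 0 (.z 1)
 .cnil (.brow 520 3 0 (.z 1) 2 0 (.z 1)
 .cnil (.brow 521 3 0 (.z 1) 2 0 (.z 1)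
 .cnil (.brow 522 3 0 (.t 0 2 (.z 1)) 0 0 (.z 1)
 .cnil (.brow 521 3 0 (.t 0 2 (.z 1)) 0 0 (.z 1)
 (.child (.pre (.c 5 60 0 0 (.c 0 60 0 0 .nil)) .nil .nil (.xsplit 0x80027fff8002 (.pre .nil (.c 0x80027fff8003 60 (.t 1 1 (.t 0 2 (.z 1))) (.t 0 1 (.z 1)) (.c 0x80007fff8001 61 (.t 1 1 (.t 0 1 (.z 1))) (.z 1) .nil)) .nil (.prune (.leaf 0x3084001638400080000302) .keep .gnil)) (.xsplit 0x7fff80017ffd (.pre .nil (.c 0x80027fff8002 60 (.t 1 1 (.z 1)) (.t 0 1 (.t 3 1 (.z 2))) (.c 0x80007fff8001 61 (.t 1 1 (.z 1)) (.z 1) .nil)) .nil (.prune (.leaf 0x6184000e08400100000302) .keep .gnil)) (.label (.pre (.c 6 59 60 0 .nil) .nil .nil (.dead (.t 4 327680 (.t 0 3 (.z 0))))) (.forced (.pre (.c 0 59 0 0 .nil) .nil .nil (.dead (.t 4 5 (.t 0 3 (.z 0)))))))))) .cnil) (.brow 520 3 0 (.t 0 2 (.z 1)) 0 0 (.z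 1)
 (.child (.pre (.c 5 60 0 0 (.c 0 60 0 0 .nil)) (.c 0x80027fff8002 60 (.t 0 3 (.t 1 2 (.z 3))) (.t 0 3 (.t 1 4 (.z 3))) (.c 0x800180008001 61 (.t 0 1 (.z 3)) (.z 1) .nil)) .nil (.prune (.leaf 0x6184000a38400100000302) .keep .gnil)) (.child (.np 60 2) .cnil)) (.brow 519 3 0 (.t 0 2 (.z 1)) 3 0 (.t 3 1 (.t 1 4 (.z 65536)))
 (.child (.pre (.c 5 60 0 0 (.c 0 60 0 0 .nil)) .nil .nil (.xsplit 0x7fff80017ffe (.pre .nil (.c 0x80017fff8002 60 (.t 0 1 (.z 1)) (.t 2 1 (.z 3)) (.c 0x800180008001 61 (.t 1 1 (.z 3)) (.z 1) .nil)) .nil (.prune (.leaf 0x338400091100056384001121000080000304) .keep .gnil)) (.xsplit 0x800080017ffe (.label (.pre (.c 6 59 60 0 .nil) .nil .nil (.dead (.t 4 327680 (.t 0 3 (.z 0))))) (.forced (.pre (.c 0 59 0 0 .nil) .nil .nil (.dead (.t 4 5 (.t 0 3 (.z 0))))))) (.label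 (.pre (.c 6 59 60 0 .nil) .nil .nil (.dead (.t 4 327680 (.t 0 3 (.z 0))))) (.forced (.pre (.c 0 59 0 0 .nil) .nil .nil (.dead (.t 4 5 (.t 0 3 (.z 0)))))))))) (.child (.pre (.c 5 60 0 0 (.c 2 60 63 64 .nil)) (.c 0x800180008001 61 (.t 1 1 (.t 0 2 (.z 4))) (.z 1) (.c 0x80017fff8001 60 (.t 3 1 (.t 1 10004 (.z 16384))) (.t 3 9 (.t 1 137068 (.z 65536))) .nil)) .nil (.prune (.leaf 0x6184001238400080000302) .keep .gnil)) .cnil)) (.brow 518 3 0 (.t 0 2 (.z 1)) 3 0 (.t 3 2 (.t 1 3 (.z 65536)))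
 (.child (.pre (.c 5 60 0 0 (.c 0 60 0 0 .nil)) (.c 0x80027fff8001 60 (.t 0 1 (.z 3)) (.t 3 5 (.t 1 170477 (.z 262144))) (.c 0x80017fff8001 61 (.t 0 1 (.z 2)) (.z 1) .nil)) .nil (.prune (.leaf 0x6184000e38400100000302) .keep .gnil)) (.child (.np 60 4) .cnil)) (.brow 517 3 0 (.t 0 2 (.z 1)) 3 0 (.t 3 4 (.t 1 1 (.z 65536)))
 (.child (.pre (.c 5 60 0 0 (.c 0 60 0 0 .nil)) (.c 0x80027fff8001 60 (.t 0 1 (.z 3)) (.t 1 1 (.z 3)) .nil) .nil (.prune (.leaf 0x618400080000301) .keep .gnil)) (.child (.pre (.c 5 60 0 0 (.c 2 60 63 64 .nil)) (.c 0x800280008001 63 (.t 1 3 (.t 0 4 (.z 4))) (.z 1) (.c 0x80017fff8001 60 (.t 3 1 (.t 1 6756 (.z 32768))) (.t 3 1 (.t 1 23140 (.z 32768))) .nil)) .nil (.prune (.leaf 0x1210001118c000e38400100000303) .keep .gnil)) .cnil)) (.brow 516 3 0 (.t 0 2 (.z 1)) 3 0 (.t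 3 5 (.z 65536))
 (.child (.pre (.c 5 60 0 0 (.c 0 60 0 0 .nil)) (.c 0x800280008001 62 (.t 0 32874 (.t 3 3 (.z 262144))) (.z 1) (.c 0x80027fff8001 60 (.t 0 32874 (.t 3 3 (.z 262144))) (.t 1 1 (.z 2)) .nil)) .nil (.prune (.leaf 0x138c001338c000e21000100000303) .keep .gnil)) (.child (.np 60 2) .cnil)) (.brow 515 3 0 (.t 0 2 (.z 1)) 3 0 (.t 3 1 (.z 16384))
 (.child (.pre (.c 5 60 0 0 (.c 0 60 0 0 .nil)) (.c 0x80047ffe8001 60 (.t 0 580669 (.t 3 6 (.z 1048576))) (.t 1 2 (.z 3)) .nil) .nil (.prune (.leaf 0x12100009110006638c000908c00600000304) .keep .gnil)) (.child (.pre (.c 2 60 63 64 .nil) .nil .nil (.prune (.leaf 0x608c005e18c005301000500000303) .keep .gnil)) .cnil)) (.brow 514 3 0 (.t 0 2 (.z 1)) 3 0 (.t 3 1 (.z 16384))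
 (.child (.pre (.c 5 60 0 0 (.c 0 60 0 0 .nil)) (.c 0x80027fff8000 60 (.t 0 1 (.z 3)) (.t 1 1 (.z 2)) .nil) .nil (.prune (.leaf 0x618c00080000301) .keep .gnil)) (.child (.np 60 4) .cnil)) (.brow 513 3 0 (.t 1 1 (.t 0 209633 (.z 65536))) 3 0 (.t 3 1 (.z 16384))
 (.child (.pre (.c 0 60 0 0 (.c 5 60 0 0 .nil)) .nil .nil (.prune (.leaf 0x101c4019120201e38c0051120e01d18c00480000305) .keep .gnil)) (.child (.pre (.c 0 61 0 0 (.c 2 60 63 64 .nil)) .nil .nil (.dead (.t 1 1 (.t 0 4 (.z 0))))) .cnil)) (.brow 512 3 0 (.t 1 1 (.t 0 115278 (.z 32768))) 3 0 (.t 3 1 (.z 16384))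
 (.child (.pre (.c 1 60 63 0 (.c 5 60 0 0 .nil)) (.c 0x7ffe80018001 60 (.t 0 1 (.z 2)) (.t 1 1 (.z 3)) .nil) .nil (.prune (.leaf 0x618c000b01c40210200009088202338800500000305) .keep .gnil)) (.child (.np 60 2) .cnil)) (.brow 511 3 0 (.t 1 37 (.t 0 4023657 (.z 1048576))) 3 0 (.t 3 1 (.z 16384))
 (.child (.pre (.c 0 60 0 0 (.c 5 60 0 0 .nil)) (.c 0x7ffe80018001 60 (.t 0 1 (.z 2)) (.t 1 1 (.z 3)) .nil) .nil (.prune (.leaf 0x1214000e38800080000302) .keep .gnil)) (.child (.pre (.c 0 61 0 0 (.c 2 60 63 64 .nil)) .nil .nil (.dead (.t 1 1 (.t 0 4 (.z 0))))) .cnil)) (.brow 509 3 0 (.t 1 1 (.t 0 73330 (.z 16384))) 3 0 (.t 3 1 (.z 16384))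
 (.child (.np 60 2) (.child (.pre (.c 1 60 63 0 (.c 5 60 0 0 .nil)) (.c 0x800080018001 62 (.t 0 1 (.z 4)) (.z 1) (.c 0x7fff80018001 60 (.t 0 1 (.z 2)) (.z 1) .nil)) .nil (.prune (.leaf 0x6388001128800080000302) .keep .gnil)) (.child (.np 60 4) .cnil))) (.brow 508 3 0 (.t 1 1 (.t 0 78561 (.z 16384))) 3 0 (.t 3 1 (.z 16384))
 (.child (.pre (.c 2 60 63 64 (.c 5 60 0 0 .nil)) (.c 0x800080018001 62 (.t 3 1 (.t 0 47869 (.z 262144))) (.z 1) (.c 0x7fff80008001 60 (.t 0 1 (.z 3)) (.z 1) .nil)) .nil (.prune (.leaf 0x6188001308800080000302) .keep .gnil)) (.child (.pre (.c 1 60 64 0 (.c 5 60 0 0 .nil)) (.c 0x7ffe80018002 60 (.t 0 1 (.z 2)) (.t 1 1 (.z 3)) .nil) .nil (.prune (.leaf 0x618800080000301) .keep .gnil)) (.child (.pre (.c 0 61 0 0 (.c 2 60 63 64 .nil)) .nil .nil (.dead (.t 1 1 (.t 0 4 (.z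 0))))) .cnil))) (.brow 507 2 0 (.z 1) 3 0 (.t 3 1 (.z 16384))
 (.child (.np 60 2) (.child (.pre (.c 1 60 63 0 (.c 5 60 0 0 .nil)) (.c 0x7ffe80018002 60 (.t 0 1 (.z 2)) (.t 1 1 (.z 3)) (.c 0x800080018001 62 (.t 0 1 (.z 4)) (.z 1) .nil)) .nil (.prune (.leaf 0x12140009088001638800080000303) .keep .gnil)) (.child (.np 60 2) .cnil))) (.brow 508 2 0 (.z 1) 3 0 (.t 3 1 (.z 16384))
 (.child (.pre (.c 0 61 0 0 (.c 2 60 63 64 .nil)) .nil .nil (.dead (.t 1 1 (.t 0 4 (.z 0))))) .cnil) (.brow 509 2 0 (.z 1) 3 0 (.t 3 1 (.z 16384))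
 .cnil (.brow 510 2 0 (.z 1) 3 0 (.t 3 1 (.z 8192))
 .cnil (.brow 511 2 0 (.z 1) 3 0 (.z 1)
 .cnil (.brow 512 2 0 (.z 1) 3 0 (.z 1)
 .cnil (.brow 513 2 0 (.z 1) 3 0 (.z 1)
 .cnil (.brow 514 2 0 (.z 1) 3 0 (.z 1)
 .cnil (.brow 515 2 0 (.z 1) 3 0 (.z 1)
 .cnil (.brow 516 2 0 (.z 1) 3 0 (.z 1)
 .cnil (.brow 517 2 0 (.z 1) 3 0 (.z 1)
 .cnil .bnil)))))))))))))))))))))))))))))))))))))))))))))))))))))))))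
 (.grow 474 (.brow 492 3 0 (.z 1) 2 0 (.z 1)
 .cnil (.brow 493 3 0 (.z 1) 2 0 (.z 1)
 .cnil (.brow 494 3 0 (.z 1) 2 0 (.z 1)
 .cnil (.brow 495 3 0 (.z 1) 2 0 (.z 1)
 .cnil (.brow 496 3 0 (.z 1) 2 0 (.z 1)
 .cnil (.brow 497 3 0 (.z 1) 2 0 (.z 1)
 .cnil (.brow 498 3 0 (.z 1) 2 0 (.z 1)
 .cnil (.brow 499 3 0 (.z 1) 2 0 (.z 1)
 .cnil (.brow 500 3 0 (.z 1) 2 0 (.z 1)
 .cnil (.brow 501 3 0 (.z 1) 2 0 (.z 1)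
 .cnil (.brow 502 3 0 (.z 1) 2 0 (.z 1)
 .cnil (.brow 503 3 0 (.z 1) 2 0 (.z 1)
 .cnil (.brow 504 3 0 (.z 1) 2 0 (.z 1)
 .cnil (.brow 505 3 0 (.z 1) 2 0 (.z 1)
 .cnil (.brow 506 3 0 (.z 1) 2 0 (.z 1)
 .cnil (.brow 507 3 0 (.z 1) 2 0 (.z 1)
 .cnil (.brow 508 3 0 (.z 1) 2 0 (.z 1)
 .cnil (.brow 509 3 0 (.z 1) 2 0 (.z 1)
 .cnil (.brow 510 3 0 (.z 1) 2 0 (.z 1)
 .cnil (.brow 511 3 0 (.z 1) 2 0 (.z 1)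
 .cnil (.brow 512 3 0 (.z 1) 2 0 (.z 1)
 .cnil (.brow 513 3 0 (.z 1) 2 0 (.z 1)
 .cnil (.brow 514 3 0 (.z 1) 2 0 (.z 1)
 .cnil (.brow 515 3 0 (.z 1) 2 0 (.z 1)
 .cnil (.brow 516 3 0 (.z 1) 2 0 (.z 1)
 .cnil (.brow 517 3 0 (.z 1) 2 0 (.z 1)
 .cnil (.brow 518 3 0 (.z 1) 2 0 (.z 1)
 .cnil (.brow 519 3 0 (.z 1) 2 0 (.z 1)
 .cnil (.brow 520 3 0 (.z 1) 2 0 (.z 1)
 .cnil (.brow 521 3 0 (.z 1) 2 0 (.z 1)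
 .cnil (.brow 522 3 0 (.t 0 2 (.z 1)) 2 0 (.z 1)
 .cnil (.brow 521 3 0 (.t 0 2 (.z 1)) 0 0 (.z 1)
 (.child (.pre (.c 5 60 0 0 (.c 0 60 0 0 .nil)) .nil .nil (.xsplit 0x80027fff8002 (.pre .nil (.c 0x80027fff8002 60 (.t 1 1 (.t 0 1 (.z 2))) (.t 1 1 (.t 0 5 (.z 2))) (.c 0x800180008001 61 (.t 1 1 (.z 3)) (.z 1) .nil)) .nil (.prune (.leaf 0x6184001618400080000302) .keep .gnil)) (.label (.pre (.c 6 59 65 0 .nil) .nil .nil (.dead (.t 3 846068 (.t 1 1048576 (.t 0 3 (.z 0)))))) (.forced (.pre (.c 2 59 63 64 .nil) .nil .nil (.dead (.t 3 2 (.t 0 3 (.z 0))))))))) (.child (.pre (.c 0 60 0 0 .nil) (.c 0x80017fff8002 60 (.t 2 441 (.t 0 5448583 (.z 65536))) (.t 2 153 (.t 0 1901171 (.z 32768))) .nil) .nil (.prune (.leaf 0x618400080000301) .keep .gnil)) .cnil)) (.brow 520 3 0 (.t 0 2 (.z 1)) 3 0 (.t 1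 3 (.z 32768))
 (.child (.pre (.c 5 60 0 0 (.c 1 60 62 0 (.c 0 60 0 0 .nil))) (.c 0x80017fff8002 60 (.t 0 5 (.t 2 4 (.z 3))) (.t 0 1 (.t 2 2 (.z 3))) (.c 0x80007fff8001 61 (.t 0 1 (.z 2)) (.z 1) .nil)) .nil (.prune (.leaf 0x3084001638400080000302) .keep .gnil)) (.child (.pre (.c 0 60 0 0 (.c 5 60 0 0 (.c 1 60 61 0 .nil))) .nil .nil (.dead (.t 2 1 (.t 1 2 (.t 0 1 (.z 0)))))) .cnil)) (.brow 519 3 0 (.t 0 2 (.z 1)) 3 0 (.t 1 1 (.z 16384))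
 (.child (.pre (.c 5 60 0 0 (.c 0 60 0 0 .nil)) .nil .nil (.xsplit 0x7fff80017ffe (.pre .nil (.c 0x80017fff8002 60 (.t 0 6 (.t 2 1 (.z 3))) (.t 2 1 (.z 3)) (.c 0x800180008001 61 (.t 1 1 (.z 3)) (.z 1) .nil)) .nil (.prune (.leaf 0x6384000d3840011210000908400500000304) .keep .gnil)) (.xsplit 0x800080017ffe (.label (.pre (.c 6 59 65 0 .nil) .nil .nil (.dead (.t 4 520544 (.t 2 1048576 (.t 0 5 (.z 0)))))) (.forced (.pre (.c 2 59 63 64 .nil) .nil .nil (.dead (.t 4 2 (.t 0 3 (.z 0))))))) (.pre .nil (.c 0x80007fff8002 60 (.t 5 337 (.t 3 4167194 (.z 4194304))) (.t 0 1 (.z 1)) (.c 0x800180008001 61 (.t 0 60979 (.t 5 3 (.z 131072))) (.z 1) .nil)) .nil (.prune (.leaf 0x221000111100054084000e38400100000304) .keep .gnil))))) (.child (.pre (.c 0 60 0 0 .nil) (.c 0x80017fff8001 60 (.t 2 1 (.t 0 10101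 (.z 32768))) (.t 2 1 (.t 0 17299 (.z 16384))) (.c 0x80007fff8001 61 (.t 2 1 (.t 0 3977 (.z 32768))) (.z 1) .nil)) .nil (.prune (.leaf 0x6184000e08400100000302) .keep .gnil)) .cnil)) (.brow 518 3 0 (.t 0 2 (.z 1)) 3 0 (.t 1 1 (.z 16384))
 (.child (.pre (.c 5 60 0 0 (.c 1 60 62 0 (.c 0 60 0 0 .nil))) (.c 0x800180008001 61 (.t 0 1 (.z 3)) (.z 1) (.c 0x80027fff8001 60 (.t 0 1 (.z 3)) (.t 4 1 (.t 2 28612 (.z 32768))) (.c 0x80017fff8001 61 (.t 0 1 (.z 2)) (.z 1) .nil))) .nil (.prune (.leaf 0x51840011210000e18400180000303) .keep .gnil)) (.child (.pre (.c 0 60 0 0 (.c 5 60 0 0 (.c 1 60 61 0 .nil))) .nil .nil (.dead (.t 2 1 (.t 1 2 (.t 0 1 (.z 0)))))) .cnil)) (.brow 517 3 0 (.t 0 2 (.z 1)) 3 0 (.t 1 1 (.z 16384))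
 (.child (.pre (.c 5 60 0 0 (.c 0 60 0 0 .nil)) (.c 0x80017fff8001 60 (.t 3 3 (.t 1 16256 (.z 131072))) (.t 1 1 (.z 3)) .nil) .nil (.prune (.leaf 0x638400080000301) .keep .gnil)) (.child (.pre (.c 0 60 0 0 .nil) (.c 0x80017fff8001 60 (.t 2 1 (.t 0 5075 (.z 32768))) (.t 0 1 (.z 3)) .nil) .nil (.prune (.leaf 0x638400080000301) .keep .gnil)) .cnil)) (.brow 516 3 0 (.t 0 2 (.z 1)) 3 0 (.t 1 1 (.z 16384))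
 (.child (.pre (.c 5 60 0 0 (.c 1 60 62 0 .nil)) .nil .nil (.dead (.t 3 1 (.t 1 57412 (.t 0 18672 (.z 0)))))) (.child (.pre (.c 0 60 0 0 (.c 5 60 0 0 (.c 1 60 61 0 .nil))) .nil .nil (.dead (.t 2 1 (.t 1 2 (.t 0 1 (.z 0)))))) .cnil)) (.brow 515 3 0 (.t 0 2 (.z 1)) 3 0 (.t 3 1 (.z 16384))
 (.child (.pre (.c 5 60 0 0 (.c 0 60 0 0 .nil)) .nil .nil (.prune (.leaf 0x618c005508c005c01000500000303) .keep .gnil)) (.child (.pre (.c 0 61 0 0 (.c 0 60 0 0 .nil)) .nil .nil (.dead (.t 5 1 (.t 1 28190 (.t 0 47224 (.z 0)))))) .cnil)) (.brow 514 3 0 (.t 0 2 (.z 1)) 3 0 (.t 3 1 (.z 16384))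
 (.child (.pre (.c 0 60 0 0 (.c 5 60 0 0 (.c 1 60 62 0 .nil))) .nil .nil (.dead (.t 2 3 (.t 1 4 (.t 0 2 (.z 0)))))) (.child (.pre (.c 0 60 0 0 (.c 0 61 0 0 .nil)) .nil .nil (.dead (.t 1 4 (.t 0 1 (.z 0))))) .cnil)) (.brow 513 3 0 (.t 1 1 (.t 0 180814 (.z 65536))) 3 0 (.t 3 1 (.z 16384))
 (.child (.pre (.c 0 60 0 0 (.c 5 60 0 0 .nil)) .nil .nil (.prune (.leaf 0x11202019220005101c401e38c0051120e01d18c00480000306) .keep .gnil)) (.child (.pre (.c 0 60 0 0 (.c 0 61 0 0 .nil)) .nil .nil (.dead (.t 1 4 (.t 0 1 (.z 0))))) .cnil)) (.brow 511 3 0 (.t 1 1 (.t 0 111329 (.z 32768))) 3 0 (.t 3 1 (.z 16384))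
 (.child (.pre (.c 5 60 0 0 (.c 1 60 61 0 .nil)) .nil .nil (.dead (.t 1 1 (.t 0 1 (.z 0))))) (.child (.pre (.c 5 60 0 0 (.c 1 60 62 0 .nil)) .nil .nil (.dead (.t 1 2 (.t 0 1 (.z 0))))) (.child (.pre (.c 0 60 0 0 (.c 0 61 0 0 .nil)) .nil .nil (.dead (.t 1 4 (.t 0 1 (.z 0))))) .cnil))) (.brow 510 3 0 (.t 1 3 (.t 0 243581 (.z 65536))) 3 0 (.t 3 1 (.z 16384))
 (.child (.pre (.c 0 60 0 0 (.c 5 60 0 0 .nil)) (.c 0x800080018001 62 (.t 3 1 (.t 0 25925 (.z 131072))) (.z 1) (.c 0x7ffe80018001 60 (.t 0 1 (.z 2)) (.t 1 1 (.z 3)) .nil)) .nil (.prune (.leaf 0x6388001328800093a0802b01c402922000580000305) .keep .gnil)) (.child (.pre (.c 0 60 0 0 (.c 5 60 0 0 .nil)) (.c 0x7fff80018001 60 (.t 0 1 (.z 3)) (.z 1) .nil) .nil (.prune (.leaf 0x1014000e18800080000302) .keep .gnil)) (.child (.pre (.c 0 60 0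 0 (.c 0 61 0 0 .nil)) .nil .nil (.dead (.t 1 4 (.t 0 1 (.z 0))))) .cnil))) (.brow 509 3 0 (.t 1 1 (.t 0 66126 (.z 16384))) 3 0 (.t 3 1 (.z 16384))
 (.child (.pre (.c 5 60 0 0 (.c 1 60 61 0 .nil)) .nil .nil (.dead (.t 1 1 (.t 0 1 (.z 0))))) (.child (.pre (.c 5 60 0 0 (.c 1 60 62 0 .nil)) .nil .nil (.dead (.t 1 2 (.t 0 1 (.z 0))))) (.child (.pre (.c 0 60 0 0 (.c 0 61 0 0 .nil)) .nil .nil (.dead (.t 1 4 (.t 0 1 (.z 0))))) .cnil))) (.brow 508 3 0 (.t 1 1 (.t 0 71356 (.z 16384))) 3 0 (.t 3 1 (.z 16384))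
 (.child (.pre (.c 0 60 0 0 (.c 5 60 0 0 .nil)) (.c 0x7ffe80018002 60 (.t 0 1 (.z 2)) (.t 1 1 (.z 3)) (.c 0x800080018001 62 (.t 3 1 (.t 0 44454 (.z 262144))) (.z 1) .nil)) .nil (.prune (.leaf 0x2088001638800080000302) .keep .gnil)) (.child (.pre (.c 0 60 0 0 (.c 5 60 0 0 .nil)) (.c 0x7ffe80018002 60 (.t 0 1 (.z 2)) (.t 1 1 (.z 3)) .nil) .nil (.prune (.leaf 0x6188000a19800080000302) .keep .gnil)) (.child (.pre (.c 0 60 0 0 (.c 0 61 0 0 .nil)) .nil .nil (.dead (.t 1 4 (.t 0 1 (.z 0))))) .cnil))) (.brow 507 3 0 (.t 1 19 (.t 0 1225396 (.z 262144))) 3 0 (.t 3 1 (.z 16384))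
 (.child (.pre (.c 5 60 0 0 (.c 1 60 61 0 .nil)) .nil .nil (.dead (.t 1 1 (.t 0 1 (.z 0))))) (.child (.pre (.c 5 60 0 0 (.c 1 60 62 0 .nil)) .nil .nil (.dead (.t 1 2 (.t 0 1 (.z 0))))) (.child (.pre (.c 0 60 0 0 (.c 0 61 0 0 .nil)) .nil .nil (.dead (.t 1 4 (.t 0 1 (.z 0))))) .cnil))) (.brow 507 2 0 (.z 1) 3 0 (.t 3 1 (.z 16384))
 (.child (.pre (.c 0 60 0 0 (.c 5 60 0 0 .nil)) (.c 0x7fff80018002 60 (.t 0 1 (.z 3)) (.z 1) .nil) .nil (.prune (.leaf 0x638800080000301) .keep .gnil)) (.child (.pre (.c 0 60 0 0 (.c 0 61 0 0 .nil)) .nil .nil (.dead (.t 1 4 (.t 0 1 (.z 0))))) .cnil)) (.brow 508 2 0 (.z 1) 3 0 (.t 3 1 (.z 16384))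
 .cnil (.brow 509 2 0 (.z 1) 3 0 (.t 3 1 (.z 16384))
 .cnil (.brow 510 2 0 (.z 1) 3 0 (.z 1)
 .cnil (.brow 511 2 0 (.z 1) 3 0 (.z 1)
 .cnil (.brow 512 2 0 (.z 1) 3 0 (.z 1)
 .cnil (.brow 513 2 0 (.z 1) 3 0 (.z 1)
 .cnil (.brow 514 2 0 (.z 1) 3 0 (.z 1)
 .cnil (.brow 515 2 0 (.z 1) 3 0 (.z 1)
 .cnil (.brow 516 2 0 (.z 1) 3 0 (.z 1)
 .cnil (.brow 517 2 0 (.z 1) 3 0 (.z 1)
 .cnil .bnil))))))))))))))))))))))))))))))))))))))))))))))))))))))))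
 (.grow 475 (.brow 492 3 0 (.z 1) 2 0 (.z 1)
 .cnil (.brow 493 3 0 (.z 1) 2 0 (.z 1)
 .cnil (.brow 494 3 0 (.z 1) 2 0 (.z 1)
 .cnil (.brow 495 3 0 (.z 1) 2 0 (.z 1)
 .cnil (.brow 496 3 0 (.z 1) 2 0 (.z 1)
 .cnil (.brow 497 3 0 (.z 1) 2 0 (.z 1)
 .cnil (.brow 498 3 0 (.z 1) 2 0 (.z 1)
 .cnil (.brow 499 3 0 (.z 1) 2 0 (.z 1)
 .cnil (.brow 500 3 0 (.z 1) 2 0 (.z 1)
 .cnil (.brow 501 3 0 (.z 1) 2 0 (.z 1)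
 .cnil (.brow 502 3 0 (.z 1) 2 0 (.z 1)
 .cnil (.brow 503 3 0 (.z 1) 2 0 (.z 1)
 .cnil (.brow 504 3 0 (.z 1) 2 0 (.z 1)
 .cnil (.brow 505 3 0 (.z 1) 2 0 (.z 1)
 .cnil (.brow 506 3 0 (.z 1) 2 0 (.z 1)
 .cnil (.brow 507 3 0 (.z 1) 2 0 (.z 1)
 .cnil (.brow 508 3 0 (.z 1) 2 0 (.z 1)
 .cnil (.brow 509 3 0 (.z 1) 2 0 (.z 1)
 .cnil (.brow 510 3 0 (.z 1) 2 0 (.z 1)
 .cnil (.brow 511 3 0 (.z 1) 2 0 (.z 1)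
 .cnil (.brow 512 3 0 (.z 1) 2 0 (.z 1)
 .cnil (.brow 513 3 0 (.z 1) 2 0 (.z 1)
 .cnil (.brow 514 3 0 (.z 1) 2 0 (.z 1)
 .cnil (.brow 515 3 0 (.z 1) 2 0 (.z 1)
 .cnil (.brow 516 3 0 (.z 1) 2 0 (.z 1)
 .cnil (.brow 517 3 0 (.z 1) 2 0 (.z 1)
 .cnil (.brow 518 3 0 (.z 1) 2 0 (.z 1)
 .cnil (.brow 519 3 0 (.z 1) 2 0 (.z 1)
 .cnil (.brow 520 3 0 (.z 1) 2 0 (.z 1)
 .cnil (.brow 521 3 0 (.t 0 2 (.z 1)) 2 0 (.z 1)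
 .cnil (.brow 521 3 0 (.t 0 2 (.z 1)) 2 0 (.z 1)
 (.child (.pre (.c 5 60 0 0 (.c 1 60 64 0 (.c 0 60 0 0 .nil))) .nil .nil (.xsplit 0x80027fff8002 (.pre .nil (.c 0x80027fff8002 60 (.t 1 1 (.z 3)) (.t 0 1 (.z 1)) (.c 0x800180008001 61 (.t 2 1 (.t 1 2 (.z 4))) (.z 1) .nil)) .nil (.prune (.leaf 0x4184000e18400100000302) .keep .gnil)) (.label (.pre (.c 6 59 65 0 .nil) .nil .nil (.dead (.t 4 105799 (.t 3 71009 (.t 0 1 (.z 0)))))) (.forced (.pre (.c 0 59 0 0 .nil) .nil .nil (.dead (.t 4 2 (.t 1 1 (.t 0 1 (.z 0)))))))))) .cnil) (.brow 520 3 0 (.t 0 2 (.z 1)) 3 0 (.t 1 5 (.t 0 7488 (.z 65536)))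
 (.child (.np 60 3) .cnil) (.brow 519 3 0 (.t 0 2 (.z 1)) 3 0 (.t 1 1 (.z 16384))
 (.child (.pre (.c 5 60 0 0 (.c 1 60 64 0 (.c 0 60 0 0 .nil))) (.c 0x80017fff8002 60 (.t 4 21 (.t 2 259028 (.z 262144))) (.t 4 5 (.t 2 180765 (.z 262144))) (.c 0x80007fff8001 61 (.t 4 1 (.t 2 4891 (.z 32768))) (.z 1) .nil)) .nil (.prune (.leaf 0x6384000b08400100000302) .keep .gnil)) .cnil) (.brow 518 3 0 (.t 0 2 (.z 1)) 3 0 (.t 1 1 (.z 16384))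
 (.child (.pre (.c 5 60 0 0 (.c 1 60 63 0 (.c 0 60 0 0 .nil))) (.c 0x800180008001 61 (.t 0 1 (.z 3)) (.z 1) (.c 0x80017fff8001 60 (.t 4 1 (.t 2 7721 (.z 32768))) (.t 4 7 (.t 2 211566 (.z 262144))) .nil)) .nil (.prune (.leaf 0x2384000e18400100000302) .keep .gnil)) .cnil) (.brow 517 3 0 (.t 0 2 (.z 1)) 3 0 (.t 1 1 (.z 16384))
 (.child (.np 60 3) .cnil) (.brow 516 3 0 (.t 0 2 (.z 1)) 3 0 (.t 1 1 (.z 16384))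
 (.child (.pre (.c 5 60 0 0 (.c 1 60 63 0 .nil)) (.c 0x80017fff8001 60 (.t 3 1 (.t 1 13512 (.z 32768))) (.t 3 1 (.t 1 46280 (.z 32768))) .nil) .nil (.prune (.leaf 0x6210000d284006338c00080000303) .keep .gnil)) .cnil) (.brow 515 3 0 (.t 0 2 (.z 1)) 3 0 (.t 3 1 (.z 16384))
 (.child (.pre (.c 1 60 64 0 .nil) .nil .nil (.prune (.leaf 0x518c0053010005608c00580000303) .keep .gnil)) .cnil) (.brow 514 3 0 (.t 0 2 (.z 1)) 3 0 (.t 3 1 (.z 16384))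
 (.child (.np 60 3) .cnil) (.brow 512 3 0 (.t 1 1 (.t 0 86458 (.z 32768))) 3 0 (.t 3 1 (.z 16384))
 (.child (.pre (.c 2 60 63 64 (.c 5 60 0 0 .nil)) (.c 0x80027fff8000 60 (.t 1 31662 (.t 3 1 (.z 131072))) (.t 0 1 (.z 2)) .nil) .nil (.prune (.leaf 0x418c0056388000a010005101c40200000304) .keep .gnil)) (.child (.pre (.c 0 61 0 0 (.c 1 60 64 0 .nil)) .nil .nil (.dead (.t 1 1 (.t 0 2 (.z 0))))) .cnil)) (.brow 511 3 0 (.t 1 1 (.t 0 96919 (.z 32768))) 3 0 (.t 3 1 (.z 16384))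
 (.child (.np 60 2) (.child (.pre (.c 0 61 0 0 (.c 1 60 63 0 .nil)) .nil .nil (.dead (.t 1 1 (.t 0 2 (.z 0))))) .cnil)) (.brow 510 3 0 (.t 1 3 (.t 0 214762 (.z 65536))) 3 0 (.t 3 1 (.z 16384))
 (.child (.pre (.c 2 60 63 64 (.c 5 60 0 0 .nil)) (.c 0x7ffd80018002 60 (.t 0 1 (.z 1)) (.t 0 1 (.t 1 2 (.z 2))) (.c 0x800080018001 62 (.t 3 1 (.t 0 37704 (.z 131072))) (.z 1) .nil)) .nil (.prune (.leaf 0x1288001618800080000302) .keep .gnil)) (.child (.np 60 3) .cnil)) (.brow 509 3 0 (.t 1 13 (.t 0 942738 (.z 262144))) 3 0 (.t 3 1 (.z 16384))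
 (.child (.np 60 2) (.child (.pre (.c 0 61 0 0 (.c 1 60 63 0 .nil)) .nil .nil (.dead (.t 1 1 (.t 0 2 (.z 0))))) .cnil)) (.brow 508 3 0 (.t 1 61 (.t 0 4105713 (.z 1048576))) 3 0 (.t 3 1 (.z 16384))
 (.child (.pre (.c 2 60 63 64 (.c 5 60 0 0 .nil)) (.c 0x7ffd80018003 60 (.t 0 1 (.z 1)) (.t 0 1 (.t 1 2 (.z 2))) (.c 0x800080018001 62 (.t 0 1 (.z 4)) (.z 1) .nil)) .nil (.prune (.leaf 0x62140009088001538800080000303) .keep .gnil)) (.child (.pre (.c 0 61 0 0 (.c 1 60 64 0 .nil)) .nil .nil (.dead (.t 1 1 (.t 0 2 (.z 0))))) .cnil)) (.brow 506 2 0 (.z 1) 3 0 (.t 3 1 (.z 16384))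
 (.child (.pre (.c 0 60 0 0 (.c 5 60 0 0 .nil)) (.c 0x7fff80008001 60 (.t 0 1 (.z 3)) (.z 1) .nil) .nil (.prune (.leaf 0x618800080000301) .keep .gnil)) (.child (.np 60 2) (.child (.np 60 3) .cnil))) (.brow 507 2 0 (.z 1) 3 0 (.t 3 1 (.z 16384))
 (.child (.pre (.c 0 61 0 0 (.c 1 60 64 0 .nil)) .nil .nil (.dead (.t 1 1 (.t 0 2 (.z 0))))) .cnil) (.brow 508 2 0 (.z 1) 3 0 (.t 3 1 (.z 16384))
 .cnil (.brow 509 2 0 (.z 1) 3 0 (.z 1)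
 .cnil (.brow 510 2 0 (.z 1) 3 0 (.z 1)
 .cnil (.brow 511 2 0 (.z 1) 3 0 (.z 1)
 .cnil (.brow 512 2 0 (.z 1) 3 0 (.z 1)
 .cnil (.brow 513 2 0 (.z 1) 3 0 (.z 1)
 .cnil (.brow 514 2 0 (.z 1) 3 0 (.z 1)
 .cnil (.brow 515 2 0 (.z 1) 3 0 (.z 1)
 .cnil (.brow 516 2 0 (.z 1) 3 0 (.z 1)
 .cnil (.brow 517 2 0 (.z 1) 3 0 (.z 1)
 .cnil (.brow 518 2 0 (.z 1) 3 0 (.z 1)
 .cnil (.brow 519 2 0 (.z 1) 3 0 (.z 1)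
 .cnil .bnil)))))))))))))))))))))))))))))))))))))))))))))))))))))))))
 (.grow 477 (.brow 494 3 0 (.z 1) 2 0 (.z 1)
 .cnil (.brow 495 3 0 (.z 1) 2 0 (.z 1)
 .cnil (.brow 496 3 0 (.z 1) 2 0 (.z 1)
 .cnil (.brow 497 3 0 (.z 1) 2 0 (.z 1)
 .cnil (.brow 498 3 0 (.z 1) 2 0 (.z 1)
 .cnil (.brow 499 3 0 (.z 1) 2 0 (.z 1)
 .cnil (.brow 500 3 0 (.z 1) 2 0 (.z 1)
 .cnil (.brow 501 3 0 (.z 1) 2 0 (.z 1)
 .cnil (.brow 502 3 0 (.z 1) 2 0 (.z 1)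
 .cnil (.brow 503 3 0 (.z 1) 2 0 (.z 1)
 .cnil (.brow 504 3 0 (.z 1) 2 0 (.z 1)
 .cnil (.brow 505 3 0 (.z 1) 2 0 (.z 1)
 .cnil (.brow 506 3 0 (.z 1) 2 0 (.z 1)
 .cnil (.brow 507 3 0 (.z 1) 2 0 (.z 1)
 .cnil (.brow 508 3 0 (.z 1) 2 0 (.z 1)
 .cnil (.brow 509 3 0 (.z 1) 2 0 (.z 1)
 .cnil (.brow 510 3 0 (.z 1) 2 0 (.z 1)
 .cnil (.brow 511 3 0 (.z 1) 2 0 (.z 1)
 .cnil (.brow 512 3 0 (.z 1) 2 0 (.z 1)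
 .cnil (.brow 513 3 0 (.z 1) 2 0 (.z 1)
 .cnil (.brow 514 3 0 (.z 1) 2 0 (.z 1)
 .cnil (.brow 515 3 0 (.z 1) 2 0 (.z 1)
 .cnil (.brow 516 3 0 (.z 1) 2 0 (.z 1)
 .cnil (.brow 517 3 0 (.z 1) 2 0 (.z 1)
 .cnil (.brow 518 3 0 (.z 1) 2 0 (.z 1)
 .cnil (.brow 519 3 0 (.z 1) 2 0 (.z 1)
 .cnil (.brow 520 3 0 (.z 1) 2 0 (.z 1)
 .cnil (.brow 521 3 0 (.t 0 1 (.z 1)) 2 0 (.z 1)
 .cnil (.brow 520 3 0 (.t 0 1 (.z 1)) 2 0 (.z 1)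
 (.child (.pre (.c 5 60 0 0 (.c 0 60 0 0 .nil)) .nil .nil (.xsplit 0x80027fff8003 (.pre .nil (.c 0x800180008001 61 (.t 1 1 (.z 2)) (.z 1) .nil) .nil (.prune (.leaf 0x6384004618400080000302) .keep .gnil)) (.xsplit 0x7ffd80017ffd (.label (.pre (.c 6 59 60 0 .nil) .nil .nil (.dead (.t 4 98304 (.t 0 1 (.z 0))))) (.forced (.pre (.c 0 59 0 0 .nil) .nil .nil (.dead (.t 4 3 (.t 0 2 (.z 0))))))) (.label (.pre (.c 6 59 60 0 .nil) .nil .nil (.dead (.t 4 98304 (.t 0 1 (.z 0))))) (.forced (.pre (.c 0 59 0 0 .nil) .nil .nil (.dead (.t 4 3 (.t 0 2 (.z 0)))))))))) (.child (.pre (.c 5 60 0 0 (.c 0 60 0 0 .nil)) .nil .nil (.xsplit 0x800080017ffd (.pre .nil (.c 0x80017fff8002 60 (.t 0 1 (.z 1)) (.t 0 1 (.t 2 1 (.z 2))) (.c 0x80007fff8001 61 (.t 1 1 (.z 2)) (.z 1) .nil)) .nil (.prune (.leaf 0x4284001618400080000302)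 .keep .gnil)) (.label (.pre (.c 6 59 65 0 .nil) .nil .nil (.dead (.t 3 777991 (.t 1 1048576 (.t 0 7 (.z 0)))))) (.forced (.pre (.c 0 61 0 0 (.c 2 59 63 64 .nil)) .nil .nil (.dead (.t 4 4 (.t 1 5 (.t 0 2 (.z 0)))))))))) .cnil)) (.brow 519 3 0 (.t 0 1 (.z 1)) 3 0 (.t 1 3 (.t 0 18154 (.z 32768)))
 (.child (.pre (.c 0 60 0 0 (.c 5 60 0 0 (.c 1 60 61 0 .nil))) .nil .nil (.dead (.t 2 1 (.t 1 2 (.t 0 1 (.z 0)))))) (.child (.pre (.c 5 60 0 0 (.c 1 60 62 0 (.c 0 60 0 0 .nil))) (.c 0x80017fff8002 60 (.t 0 3 (.t 2 2 (.z 3))) (.t 0 3 (.t 2 4 (.z 3))) (.c 0x800180008001 61 (.t 1 18863 (.t 4 3 (.z 131072))) (.z 1) .nil)) .nil (.prune (.leaf 0x3184001618400080000302) .keep .gnil)) .cnil)) (.brow 518 3 0 (.t 0 1 (.z 1)) 3 0 (.t 1 1 (.t 0 3846 (.z 16384)))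
 (.child (.pre (.c 5 60 0 0 (.c 0 60 0 0 .nil)) .nil .nil (.xsplit 0x80027fff8002 (.pre .nil (.c 0x80027fff8003 60 (.t 1 1 (.t 0 1 (.z 1))) (.t 0 1 (.z 1)) .nil) .nil (.prune (.leaf 0x618400080000301) .keep .gnil)) (.xsplit 0x7fff80017ffd (.pre .nil (.c 0x80027fff8002 60 (.t 1 1 (.z 1)) (.t 0 1 (.t 3 1 (.z 1))) (.c 0x800180008001 61 (.t 1 1 (.z 1)) (.z 1) .nil)) .nil (.prune (.leaf 0x6184001618400080000302) .keep .gnil)) (.label (.pre (.c 6 59 60 0 .nil) .nil .nil (.dead (.t 4 98304 (.t 0 1 (.z 0))))) (.forced (.pre (.c 0 59 0 0 .nil) .nil .nil (.dead (.t 4 3 (.t 0 2 (.z 0)))))))))) (.child (.pre (.c 0 60 0 0 .nil) (.c 0x80017fff8002 60 (.t 2 25 (.t 0 401818 (.z 65536))) (.t 2 15 (.t 0 280412 (.z 65536))) .nil) .nil (.prune (.leaf 0x618400080000301) .keep .gnil)) .cnil)) (.brow 517 3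 0 (.t 0 1 (.z 1)) 3 0 (.t 1 1 (.z 16384))
 (.child (.pre (.c 0 60 0 0 (.c 5 60 0 0 (.c 1 60 61 0 .nil))) .nil .nil (.dead (.t 2 1 (.t 1 2 (.t 0 1 (.z 0)))))) (.child (.pre (.c 1 60 62 0 (.c 0 60 0 0 .nil)) .nil .nil (.dead (.t 3 1 (.t 1 14594 (.t 0 5687 (.z 0)))))) .cnil)) (.brow 516 3 0 (.t 0 1 (.z 1)) 3 0 (.t 1 1 (.z 16384))
 (.child (.pre (.c 5 60 0 0 (.c 0 60 0 0 .nil)) (.c 0x80017fff8002 60 (.t 3 169 (.t 1 2084615 (.z 4194304))) (.t 1 1 (.z 2)) (.c 0x800180008001 61 (.t 0 1 (.z 2)) (.z 1) .nil)) .nil (.prune (.leaf 0x61100054086201c884000447380012284002900e201502700150110405321000080000409) .keep .gnil)) (.child (.pre (.c 0 60 0 0 .nil) (.c 0x80017fff8001 60 (.t 2 1 (.t 0 9008 (.z 32768))) (.t 2 1 (.t 0 30853 (.z 32768))) .nil) .nil (.prune (.leaf 0x618400080000301) .keep .gnil))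 .cnil)) (.brow 515 3 0 (.t 0 1 (.z 1)) 3 0 (.t 1 1 (.z 16384))
 (.child (.pre (.c 0 60 0 0 (.c 5 60 0 0 (.c 1 60 61 0 .nil))) .nil .nil (.dead (.t 2 1 (.t 1 2 (.t 0 1 (.z 0)))))) (.child (.pre (.c 1 60 62 0 (.c 0 60 0 0 .nil)) .nil .nil (.dead (.t 3 1 (.t 1 8799 (.t 0 23072 (.z 0)))))) .cnil)) (.brow 514 3 0 (.t 0 1 (.z 1)) 3 0 (.t 3 1 (.z 16384))
 (.child (.pre (.c 5 60 0 0 (.c 0 60 0 0 .nil)) (.c 0x80027fff8001 60 (.t 0 50907 (.t 3 3 (.z 262144))) (.t 1 1 (.z 2)) .nil) .nil (.prune (.leaf 0x2110006638c000c08c006121000080000304) .keep .gnil)) (.child (.pre (.c 0 61 0 0 (.c 0 60 0 0 .nil)) .nil .nil (.dead (.t 5 1 (.t 1 28190 (.t 0 19034 (.z 0)))))) .cnil)) (.brow 513 3 0 (.t 0 1 (.z 1)) 3 0 (.t 3 1 (.z 16384))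
 (.child (.pre (.c 0 60 0 0 (.c 5 60 0 0 (.c 1 60 61 0 .nil))) .nil .nil (.dead (.t 2 1 (.t 1 2 (.t 0 1 (.z 0)))))) (.child (.pre (.c 1 60 62 0 .nil) .nil .nil (.dead (.t 0 1 (.z 0)))) .cnil)) (.brow 512 3 0 (.t 1 1 (.t 0 144097 (.z 65536))) 3 0 (.t 3 1 (.z 16384))
 (.child (.pre (.c 0 60 0 0 (.c 5 60 0 0 .nil)) .nil .nil (.prune (.leaf 0x1010004e388005101c401d18c00480000304) .keep .gnil)) (.child (.pre (.c 0 60 0 0 (.c 0 61 0 0 .nil)) .nil .nil (.dead (.t 1 3 (.t 0 1 (.z 0))))) .cnil)) (.brow 511 3 0 (.t 1 1 (.t 0 82510 (.z 32768))) 3 0 (.t 3 1 (.z 16384))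
 (.child (.pre (.c 5 60 0 0 (.c 1 60 61 0 .nil)) .nil .nil (.dead (.t 1 1 (.t 0 1 (.z 0))))) (.child (.pre (.c 1 60 62 0 .nil) .nil .nil (.dead (.t 0 1 (.z 0)))) .cnil)) (.brow 510 3 0 (.t 1 37 (.t 0 2975081 (.z 1048576))) 3 0 (.t 3 1 (.z 16384))
 (.child (.pre (.c 0 60 0 0 (.c 5 60 0 0 .nil)) (.c 0x7fff80018001 60 (.t 0 1 (.z 2)) (.z 1) .nil) .nil (.prune (.leaf 0x1220000e388000b388005201c40200000304) .keep .gnil)) (.child (.pre (.c 0 60 0 0 (.c 0 61 0 0 .nil)) .nil .nil (.dead (.t 1 3 (.t 0 1 (.z 0))))) .cnil)) (.brow 508 3 0 (.t 1 1 (.t 0 56946 (.z 16384))) 3 0 (.t 3 1 (.z 16384))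
 (.child (.pre (.c 0 60 0 0 (.c 1 60 62 0 (.c 5 60 0 0 .nil))) (.c 0x800080018001 62 (.t 1 1 (.z 2)) (.z 1) (.c 0x7fff80008001 60 (.t 0 1 (.z 3)) (.z 1) .nil)) .nil (.prune (.leaf 0x6188001208800080000302) .keep .gnil)) (.child (.pre (.c 5 60 0 0 (.c 1 60 61 0 .nil)) .nil .nil (.dead (.t 1 1 (.t 0 1 (.z 0))))) (.child (.pre (.c 1 60 62 0 .nil) .nil .nil (.dead (.t 0 1 (.z 0)))) .cnil))) (.brow 507 3 0 (.t 1 1 (.t 0 62177 (.z 16384))) 3 0 (.t 3 1 (.z 16384))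
 (.child (.pre (.c 0 60 0 0 (.c 5 60 0 0 .nil)) (.c 0x7fff80008001 60 (.t 0 1 (.z 3)) (.z 1) .nil) .nil (.prune (.leaf 0x618800080000301) .keep .gnil)) (.child (.pre (.c 0 60 0 0 (.c 5 60 0 0 .nil)) (.c 0x7fff80018002 60 (.t 0 1 (.z 2)) (.z 1) .nil) .nil (.prune (.leaf 0x638800080000301) .keep .gnil)) (.child (.pre (.c 0 60 0 0 (.c 0 61 0 0 .nil)) .nil .nil (.dead (.t 1 3 (.t 0 1 (.z 0))))) .cnil))) (.brow 506 3 0 (.t 1 5 (.t 0 269632 (.z 65536))) 3 0 (.t 3 1 (.z 16384))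
 (.child (.pre (.c 0 60 0 0 (.c 1 60 62 0 (.c 5 60 0 0 .nil))) (.c 0x7fff80008001 60 (.t 0 1 (.z 3)) (.z 1) .nil) .nil (.prune (.leaf 0x6204000939800080000302) .keep .gnil)) (.child (.pre (.c 5 60 0 0 (.c 1 60 61 0 .nil)) .nil .nil (.dead (.t 1 1 (.t 0 1 (.z 0))))) (.child (.pre (.c 1 60 62 0 .nil) .nil .nil (.dead (.t 0 1 (.z 0)))) .cnil))) (.brow 506 2 0 (.z 1) 3 0 (.t 3 1 (.z 16384))
 (.child (.pre (.c 0 60 0 0 (.c 5 60 0 0 .nil)) (.c 0x7fff80018003 60 (.t 0 1 (.z 2)) (.z 1) .nil) .nil (.prune (.leaf 0x6004000919800080000302) .keep .gnil)) (.child (.pre (.c 0 60 0 0 (.c 0 61 0 0 .nil)) .nil .nil (.dead (.t 1 3 (.t 0 1 (.z 0))))) .cnil)) (.brow 507 2 0 (.z 1) 3 0 (.t 3 1 (.z 16384))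
 .cnil (.brow 508 2 0 (.z 1) 3 0 (.z 1)
 .cnil (.brow 509 2 0 (.z 1) 3 0 (.z 1)
 .cnil (.brow 510 2 0 (.z 1) 3 0 (.z 1)
 .cnil (.brow 511 2 0 (.z 1) 3 0 (.z 1)
 .cnil (.brow 512 2 0 (.z 1) 3 0 (.z 1)
 .cnil (.brow 513 2 0 (.z 1) 3 0 (.z 1)
 .cnil (.brow 514 2 0 (.z 1) 3 0 (.z 1)
 .cnil (.brow 515 2 0 (.z 1) 3 0 (.z 1)
 .cnil (.brow 516 2 0 (.z 1) 3 0 (.z 1)
 .cnil (.brow 517 2 0 (.z 1) 3 0 (.z 1)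
 .cnil (.brow 518 2 0 (.z 1) 3 0 (.z 1)
 .cnil (.brow 519 2 0 (.z 1) 3 0 (.z 1)
 .cnil .bnil))))))))))))))))))))))))))))))))))))))))))))))))))))))))
 (.grow 478 (.brow 494 3 0 (.z 1) 2 0 (.z 1)
 .cnil (.brow 495 3 0 (.z 1) 2 0 (.z 1)
 .cnil (.brow 496 3 0 (.z 1) 2 0 (.z 1)
 .cnil (.brow 497 3 0 (.z 1) 2 0 (.z 1)
 .cnil (.brow 498 3 0 (.z 1) 2 0 (.z 1)
 .cnil (.brow 499 3 0 (.z 1) 2 0 (.z 1)
 .cnil (.brow 500 3 0 (.z 1) 2 0 (.z 1)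
 .cnil (.brow 501 3 0 (.z 1) 2 0 (.z 1)
 .cnil (.brow 502 3 0 (.z 1) 2 0 (.z 1)
 .cnil (.brow 503 3 0 (.z 1) 2 0 (.z 1)
 .cnil (.brow 504 3 0 (.z 1) 2 0 (.z 1)
 .cnil (.brow 505 3 0 (.z 1) 2 0 (.z 1)
 .cnil (.brow 506 3 0 (.z 1) 2 0 (.z 1)
 .cnil (.brow 507 3 0 (.z 1) 2 0 (.z 1)
 .cnil (.brow 508 3 0 (.z 1) 2 0 (.z 1)
 .cnil (.brow 509 3 0 (.z 1) 2 0 (.z 1)
 .cnil (.brow 510 3 0 (.z 1) 2 0 (.z 1)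
 .cnil (.brow 511 3 0 (.z 1) 2 0 (.z 1)
 .cnil (.brow 512 3 0 (.z 1) 2 0 (.z 1)
 .cnil (.brow 513 3 0 (.z 1) 2 0 (.z 1)
 .cnil (.brow 514 3 0 (.z 1) 2 0 (.z 1)
 .cnil (.brow 515 3 0 (.z 1) 2 0 (.z 1)
 .cnil (.brow 516 3 0 (.z 1) 2 0 (.z 1)
 .cnil (.brow 517 3 0 (.z 1) 2 0 (.z 1)
 .cnil (.brow 518 3 0 (.z 1) 2 0 (.z 1)
 .cnil (.brow 519 3 0 (.z 1) 2 0 (.z 1)
 .cnil (.brow 520 3 0 (.z 1) 2 0 (.z 1)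
 .cnil (.brow 520 3 0 (.t 0 1 (.z 1)) 2 0 (.z 1)
 (.child (.pre (.c 5 60 0 0 (.c 2 60 63 64 (.c 0 60 0 0 .nil))) .nil .nil (.xsplit 0x80027fff8003 (.pre .nil (.c 0x800180008001 61 (.t 2 5 (.t 1 6 (.z 2))) (.z 1) (.c 0x7fff80008001 60 (.t 1 1 (.t 0 2 (.z 1))) (.z 1) .nil)) .nil (.prune (.leaf 0x2084001618400080000302) .keep .gnil)) (.label (.pre (.c 6 59 60 0 .nil) .nil .nil (.dead (.t 4 9362 (.t 3 102985 (.t 0 1 (.z 0)))))) (.forced (.pre (.c 0 59 0 0 .nil) .nil .nil (.dead (.t 4 1 (.t 3 2 (.t 0 2 (.z 0)))))))))) .cnil) (.brow 519 3 0 (.t 0 1 (.z 1)) 3 0 (.t 1 19 (.t 0 176820 (.z 262144)))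
 (.child (.np 60 2) .cnil) (.brow 518 3 0 (.t 0 1 (.z 1)) 3 0 (.t 1 1 (.t 0 5820 (.z 16384)))
 (.child (.pre (.c 5 60 0 0 (.c 2 60 63 64 (.c 0 60 0 0 .nil))) .nil .nil (.xsplit 0x80027fff8002 (.pre .nil (.c 0x80017fff8003 60 (.t 1 1 (.t 0 1 (.z 1))) (.t 0 1 (.z 1)) (.c 0x800180008001 61 (.t 2 3 (.t 1 4 (.z 2))) (.z 1) .nil)) .nil (.prune (.leaf 0x3184001638400080000302) .keep .gnil)) (.label (.pre (.c 6 59 60 0 .nil) .nil .nil (.dead (.t 4 21845 (.t 3 87381 (.t 0 1 (.z 0)))))) (.forced (.pre (.c 0 59 0 0 .nil) .nil .nil (.dead (.t 4 1 (.t 3 2 (.t 0 2 (.z 0)))))))))) .cnil) (.brow 517 3 0 (.t 0 1 (.z 1)) 3 0 (.t 1 1 (.t 0 590 (.z 16384)))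
 (.child (.np 60 2) .cnil) (.brow 516 3 0 (.t 0 1 (.z 1)) 3 0 (.t 3 1 (.t 1 2 (.z 65536)))
 (.child (.pre (.c 5 60 0 0 (.c 2 60 63 64 (.c 0 60 0 0 .nil))) (.c 0x80017fff8002 60 (.t 4 7 (.t 2 112692 (.z 131072))) (.t 2 1 (.z 2)) (.c 0x800180008001 61 (.t 1 1 (.t 0 2 (.z 2))) (.z 1) .nil)) .nil (.prune (.leaf 0x6384000a2100012384001111000500000304) .keep .gnil)) .cnil) (.brow 515 3 0 (.t 0 1 (.z 1)) 3 0 (.t 3 2 (.t 1 1 (.z 65536)))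
 (.child (.np 60 2) .cnil) (.brow 514 3 0 (.t 0 1 (.z 1)) 3 0 (.t 3 3 (.z 65536))
 (.child (.pre (.c 5 60 0 0 (.c 2 60 63 64 .nil)) .nil .nil (.prune (.leaf 0x6284005e01000500000302) .keep .gnil)) .cnil) (.brow 513 3 0 (.t 0 1 (.z 1)) 3 0 (.t 3 1 (.z 32768))
 (.child (.np 60 2) .cnil) (.brow 512 3 0 (.t 1 1 (.t 0 115278 (.z 65536))) 3 0 (.t 3 1 (.z 32768))
 (.child (.pre (.c 0 61 0 0 (.c 2 60 63 64 .nil)) .nil .nil (.dead (.t 1 1 (.t 0 2 (.z 0))))) .cnil) (.brow 510 3 0 (.t 1 1 (.t 0 78561 (.z 32768))) 3 0 (.t 3 1 (.z 32768))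
 (.child (.pre (.c 0 60 0 0 (.c 5 60 0 0 .nil)) (.c 0x7fff80008001 60 (.t 0 1 (.z 2)) (.z 1) .nil) .nil (.prune (.leaf 0x6188000e38800511202025088202331c405122000500000306) .keep .gnil)) (.child (.np 60 2) .cnil)) (.brow 509 3 0 (.t 1 3 (.t 0 178045 (.z 65536))) 3 0 (.t 3 1 (.z 32768))
 (.child (.pre (.c 0 60 0 0 (.c 5 60 0 0 .nil)) (.c 0x800080018001 62 (.t 3 1 (.t 0 70126 (.z 262144))) (.z 1) (.c 0x7fff80008001 60 (.t 0 1 (.z 2)) (.z 1) .nil)) .nil (.prune (.leaf 0x6188001308800080000302) .keep .gnil)) (.child (.pre (.c 0 61 0 0 (.c 2 60 63 64 .nil)) .nil .nil (.dead (.t 1 1 (.t 0 2 (.z 0))))) .cnil)) (.brow 508 3 0 (.t 1 1 (.t 0 49742 (.z 16384))) 3 0 (.t 3 1 (.z 32768))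
 (.child (.pre (.c 0 60 0 0 (.c 1 60 63 0 (.c 5 60 0 0 .nil))) (.c 0x7fff80008001 60 (.t 0 1 (.z 2)) (.z 1) .nil) .nil (.prune (.leaf 0x618800080000301) .keep .gnil)) (.child (.np 60 2) .cnil)) (.brow 507 3 0 (.t 1 1 (.t 0 54972 (.z 16384))) 3 0 (.t 3 1 (.z 32768))
 (.child (.pre (.c 0 60 0 0 (.c 5 60 0 0 .nil)) (.c 0x7fff80008001 60 (.t 0 1 (.z 2)) (.z 1) .nil) .nil (.prune (.leaf 0x6204000939800080000302) .keep .gnil)) (.child (.pre (.c 0 61 0 0 (.c 2 60 63 64 .nil)) .nil .nil (.dead (.t 1 1 (.t 0 2 (.z 0))))) .cnil)) (.brow 506 3 0 (.t 1 19 (.t 0 963252 (.z 262144))) 3 0 (.t 3 1 (.z 32768))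
 (.child (.pre (.c 0 60 0 0 (.c 1 60 63 0 (.c 5 60 0 0 .nil))) (.c 0x7fff80008001 60 (.t 0 1 (.z 2)) (.z 1) .nil) .nil (.prune (.leaf 0x6204000c38800080000302) .keep .gnil)) (.child (.np 60 2) .cnil)) (.brow 506 2 0 (.z 1) 3 0 (.t 3 1 (.z 32768))
 (.child (.pre (.c 0 61 0 0 (.c 2 60 63 64 .nil)) .nil .nil (.dead (.t 1 1 (.t 0 2 (.z 0))))) .cnil) (.brow 507 2 0 (.z 1) 3 0 (.t 3 1 (.z 16384))
 .cnil (.brow 508 2 0 (.z 1) 3 0 (.z 1)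
 .cnil (.brow 509 2 0 (.z 1) 3 0 (.z 1)
 .cnil (.brow 510 2 0 (.z 1) 3 0 (.z 1)
 .cnil (.brow 511 2 0 (.z 1) 3 0 (.z 1)
 .cnil (.brow 512 2 0 (.z 1) 3 0 (.z 1)
 .cnil (.brow 513 2 0 (.z 1) 3 0 (.z 1)
 .cnil (.brow 514 2 0 (.z 1) 3 0 (.z 1)
 .cnil (.brow 515 2 0 (.z 1) 3 0 (.z 1)
 .cnil (.brow 516 2 0 (.z 1) 3 0 (.z 1)
 .cnil (.brow 517 2 0 (.z 1) 3 0 (.z 1)
 .cnil (.brow 518 2 0 (.z 1) 3 0 (.z 1)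
 .cnil (.brow 519 2 0 (.z 1) 3 0 (.z 1)
 .cnil (.brow 520 2 0 (.z 1) 3 0 (.z 1)
 .cnil (.brow 521 2 0 (.z 1) 3 0 (.z 1)
 .cnil .bnil)))))))))))))))))))))))))))))))))))))))))))))))))))))))))
 (.grow 480 (.brow 496 3 0 (.z 1) 2 0 (.z 1)
 .cnil (.brow 497 3 0 (.z 1) 2 0 (.z 1)
 .cnil (.brow 498 3 0 (.z 1) 2 0 (.z 1)
 .cnil (.brow 499 3 0 (.z 1) 2 0 (.z 1)
 .cnil (.brow 500 3 0 (.z 1) 2 0 (.z 1)
 .cnil (.brow 501 3 0 (.z 1) 2 0 (.z 1)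
 .cnil (.brow 502 3 0 (.z 1) 2 0 (.z 1)
 .cnil (.brow 503 3 0 (.z 1) 2 0 (.z 1)
 .cnil (.brow 504 3 0 (.z 1) 2 0 (.z 1)
 .cnil (.brow 505 3 0 (.z 1) 2 0 (.z 1)
 .cnil (.brow 506 3 0 (.z 1) 2 0 (.z 1)
 .cnil (.brow 507 3 0 (.z 1) 2 0 (.z 1)
 .cnil (.brow 508 3 0 (.z 1) 2 0 (.z 1)
 .cnil (.brow 509 3 0 (.z 1) 2 0 (.z 1)
 .cnil (.brow 510 3 0 (.z 1) 2 0 (.z 1)
 .cnil (.brow 511 3 0 (.z 1) 2 0 (.z 1)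
 .cnil (.brow 512 3 0 (.z 1) 2 0 (.z 1)
 .cnil (.brow 513 3 0 (.z 1) 2 0 (.z 1)
 .cnil (.brow 514 3 0 (.z 1) 2 0 (.z 1)
 .cnil (.brow 515 3 0 (.z 1) 2 0 (.z 1)
 .cnil (.brow 516 3 0 (.z 1) 2 0 (.z 1)
 .cnil (.brow 517 3 0 (.z 1) 2 0 (.z 1)
 .cnil (.brow 518 3 0 (.z 1) 2 0 (.z 1)
 .cnil (.brow 519 3 0 (.z 1) 2 0 (.z 1)
 .cnil (.brow 520 3 0 (.z 1) 2 0 (.z 1)
 .cnil (.brow 520 3 0 (.t 0 1 (.z 1)) 2 0 (.z 1)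
 (.child (.pre (.c 5 60 0 0 (.c 0 60 0 0 .nil)) .nil .nil (.xsplit 0x7fff80017ffe (.xsplit 0x800180007fff (.pre .nil (.c 0x80017fff8003 60 (.t 2 1 (.z 2)) (.t 0 1 (.t 3 1 (.z 2))) .nil) .nil (.prune (.leaf 0x5008000e38400400000302) .keep .gnil)) (.label (.pre (.c 6 59 65 0 .nil) .nil .nil (.dead (.t 4 1083864 (.t 1 1048576 (.t 0 7 (.z 0)))))) (.forced (.pre (.c 0 59 0 0 .nil) .nil .nil (.dead (.t 4 3 (.t 1 3 (.t 0 2 (.z 0))))))))) (.pre .nil (.c 0x80007fff8002 61 (.t 1 1 (.z 1)) (.z 1) .nil) .nil (.prune (.leaf 0x3284000e38400400000302) .keep .gnil)))) .cnil) (.brow 519 3 0 (.t 0 1 (.z 1)) 3 0 (.t 1 5 (.t 0 73024 (.z 65536)))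
 (.child (.pre (.c 0 60 0 0 (.c 5 60 0 0 (.c 1 60 61 0 .nil))) .nil .nil (.dead (.t 2 1 (.t 1 2 (.t 0 1 (.z 0)))))) .cnil) (.brow 518 3 0 (.t 0 1 (.z 1)) 3 0 (.t 1 1 (.t 0 13025 (.z 16384)))
 (.child (.pre (.c 5 60 0 0 (.c 0 60 0 0 .nil)) .nil .nil (.xsplit 0x800080017ffd (.pre .nil (.c 0x80017fff8002 60 (.t 0 1 (.z 1)) (.t 0 1 (.t 2 1 (.z 1))) (.c 0x800180008001 62 (.t 1 1 (.z 2)) (.z 1) .nil)) .nil (.prune (.leaf 0x3008000a184000a008001638400480000304) .keep .gnil)) (.label (.pre (.c 6 59 65 0 .nil) .nil .nil (.dead (.t 3 485201 (.t 1 1048576 (.t 0 6 (.z 0)))))) (.forced (.pre (.c 0 59 0 0 .nil) .nil .nil (.dead (.t 3 1 (.t 1 1 (.t 0 1 (.z 0)))))))))) .cnil) (.brow 517 3 0 (.t 0 1 (.z 1)) 3 0 (.t 1 1 (.t 0 7794 (.z 16384)))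
 (.child (.pre (.c 0 60 0 0 (.c 5 60 0 0 (.c 1 60 61 0 .nil))) .nil .nil (.dead (.t 2 1 (.t 1 2 (.t 0 1 (.z 0)))))) .cnil) (.brow 516 3 0 (.t 0 1 (.z 1)) 3 0 (.t 1 1 (.t 0 2564 (.z 16384)))
 (.child (.pre (.c 0 60 0 0 .nil) (.c 0x80017fff8002 60 (.t 2 9 (.t 0 208601 (.z 65536))) (.t 2 1 (.t 0 36393 (.z 16384))) .nil) .nil (.prune (.leaf 0x618400080000301) .keep .gnil)) .cnil) (.brow 515 3 0 (.t 0 1 (.z 1)) 3 0 (.t 1 1 (.z 32768))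
 (.child (.pre (.c 0 60 0 0 (.c 5 60 0 0 (.c 1 60 61 0 .nil))) .nil .nil (.dead (.t 2 1 (.t 1 2 (.t 0 1 (.z 0)))))) .cnil) (.brow 514 3 0 (.t 0 1 (.z 1)) 3 0 (.t 1 1 (.z 32768))
 (.child (.pre (.c 0 60 0 0 .nil) (.c 0x80017fff8001 60 (.t 2 1 (.t 0 16256 (.z 65536))) (.t 0 1 (.z 1)) .nil) .nil (.prune (.leaf 0x62100009310006128400600000303) .keep .gnil)) .cnil) (.brow 513 3 0 (.t 0 1 (.z 1)) 3 0 (.t 3 1 (.z 32768))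
 (.child (.pre (.c 1 60 61 0 .nil) .nil .nil (.dead (.t 0 1 (.z 0)))) .cnil) (.brow 511 3 0 (.t 1 1 (.t 0 53690 (.z 32768))) 3 0 (.t 3 1 (.z 32768))
 (.child (.pre (.c 0 60 0 0 (.c 5 60 0 0 .nil)) .nil .nil (.prune (.leaf 0x3194803e388004a220004b28c00380000304) .keep .gnil)) (.child (.pre (.c 0 60 0 0 (.c 0 61 0 0 .nil)) .nil .nil (.dead (.t 1 2 (.t 0 1 (.z 0))))) .cnil)) (.brow 510 3 0 (.t 1 1 (.t 0 64151 (.z 32768))) 3 0 (.t 3 1 (.z 32768))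
 (.child (.pre (.c 1 60 62 0 .nil) .nil .nil (.dead (.t 0 1 (.z 0)))) (.child (.pre (.c 1 60 61 0 .nil) .nil .nil (.dead (.t 0 1 (.z 0)))) .cnil)) (.brow 509 3 0 (.t 1 3 (.t 0 149226 (.z 65536))) 3 0 (.t 3 1 (.z 32768))
 (.child (.pre (.c 0 60 0 0 (.c 5 60 0 0 .nil)) (.c 0x7fff80008001 60 (.t 0 1 (.z 2)) (.z 1) .nil) .nil (.prune (.leaf 0x618800080000301) .keep .gnil)) (.child (.pre (.c 0 60 0 0 (.c 0 61 0 0 .nil)) .nil .nil (.dead (.t 1 2 (.t 0 1 (.z 0))))) .cnil)) (.brow 508 3 0 (.t 1 13 (.t 0 680594 (.z 262144))) 3 0 (.t 3 1 (.z 32768))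
 (.child (.pre (.c 1 60 62 0 .nil) .nil .nil (.dead (.t 0 1 (.z 0)))) (.child (.pre (.c 1 60 61 0 .nil) .nil .nil (.dead (.t 0 1 (.z 0)))) .cnil)) (.brow 507 3 0 (.t 1 61 (.t 0 3057137 (.z 1048576))) 3 0 (.t 3 1 (.z 32768))
 (.child (.pre (.c 0 60 0 0 (.c 5 60 0 0 .nil)) (.c 0x7fff80008001 60 (.t 0 1 (.z 2)) (.z 1) .nil) .nil (.prune (.leaf 0x6204000a38800080000302) .keep .gnil)) (.child (.pre (.c 0 60 0 0 (.c 0 61 0 0 .nil)) .nil .nil (.dead (.t 1 2 (.t 0 1 (.z 0))))) .cnil)) (.brow 505 3 0 (.t 1 3 (.t 0 116458 (.z 32768))) 3 0 (.t 3 1 (.z 32768))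
 (.child (.np 60 3) (.child (.pre (.c 1 60 62 0 .nil) .nil .nil (.dead (.t 0 1 (.z 0)))) (.child (.pre (.c 1 60 61 0 .nil) .nil .nil (.dead (.t 0 1 (.z 0)))) .cnil))) (.brow 505 2 0 (.z 1) 3 0 (.t 3 1 (.z 32768))
 (.child (.pre (.c 0 60 0 0 (.c 5 60 0 0 .nil)) (.c 0x800080018002 62 (.t 0 1 (.z 3)) (.z 1) .nil) .nil (.prune (.leaf 0x3088000e28800400000302) .keep .gnil)) (.child (.pre (.c 0 60 0 0 (.c 0 61 0 0 .nil)) .nil .nil (.dead (.t 1 2 (.t 0 1 (.z 0))))) .cnil)) (.brow 506 2 0 (.z 1) 3 0 (.t 3 1 (.z 32768))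
 .cnil (.brow 507 2 0 (.z 1) 3 0 (.z 1)
 .cnil (.brow 508 2 0 (.z 1) 3 0 (.z 1)
 .cnil (.brow 509 2 0 (.z 1) 3 0 (.z 1)
 .cnil (.brow 510 2 0 (.z 1) 3 0 (.z 1)
 .cnil (.brow 511 2 0 (.z 1) 3 0 (.z 1)
 .cnil (.brow 512 2 0 (.z 1) 3 0 (.z 1)
 .cnil (.brow 513 2 0 (.z 1) 3 0 (.z 1)
 .cnil (.brow 514 2 0 (.z 1) 3 0 (.z 1)
 .cnil (.brow 515 2 0 (.z 1) 3 0 (.z 1)
 .cnil (.brow 516 2 0 (.z 1) 3 0 (.z 1)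
 .cnil (.brow 517 2 0 (.z 1) 3 0 (.z 1)
 .cnil (.brow 518 2 0 (.z 1) 3 0 (.z 1)
 .cnil (.brow 519 2 0 (.z 1) 3 0 (.z 1)
 .cnil (.brow 520 2 0 (.z 1) 3 0 (.z 1)
 .cnil (.brow 521 2 0 (.z 1) 3 0 (.z 1)
 .cnil .bnil))))))))))))))))))))))))))))))))))))))))))))))))))))))))
 (.grow 481 (.brow 496 3 0 (.z 1) 2 0 (.z 1)
 .cnil (.brow 497 3 0 (.z 1) 2 0 (.z 1)
 .cnil (.brow 498 3 0 (.z 1) 2 0 (.z 1)
 .cnil (.brow 499 3 0 (.z 1) 2 0 (.z 1)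
 .cnil (.brow 500 3 0 (.z 1) 2 0 (.z 1)
 .cnil (.brow 501 3 0 (.z 1) 2 0 (.z 1)
 .cnil (.brow 502 3 0 (.z 1) 2 0 (.z 1)
 .cnil (.brow 503 3 0 (.z 1) 2 0 (.z 1)
 .cnil (.brow 504 3 0 (.z 1) 2 0 (.z 1)
 .cnil (.brow 505 3 0 (.z 1) 2 0 (.z 1)
 .cnil (.brow 506 3 0 (.z 1) 2 0 (.z 1)
 .cnil (.brow 507 3 0 (.z 1) 2 0 (.z 1)
 .cnil (.brow 508 3 0 (.z 1) 2 0 (.z 1)
 .cnil (.brow 509 3 0 (.z 1) 2 0 (.z 1)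
 .cnil (.brow 510 3 0 (.z 1) 2 0 (.z 1)
 .cnil (.brow 511 3 0 (.z 1) 2 0 (.z 1)
 .cnil (.brow 512 3 0 (.z 1) 2 0 (.z 1)
 .cnil (.brow 513 3 0 (.z 1) 2 0 (.z 1)
 .cnil (.brow 514 3 0 (.z 1) 2 0 (.z 1)
 .cnil (.brow 515 3 0 (.z 1) 2 0 (.z 1)
 .cnil (.brow 516 3 0 (.z 1) 2 0 (.z 1)
 .cnil (.brow 517 3 0 (.z 1) 2 0 (.z 1)
 .cnil (.brow 518 3 0 (.z 1) 2 0 (.z 1)
 .cnil (.brow 519 3 0 (.z 1) 2 0 (.z 1)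
 .cnil (.brow 519 3 0 (.z 1) 2 0 (.z 1)
 (.child (.pre (.c 5 60 0 0 (.c 0 60 0 0 .nil)) .nil .nil (.xsplit 0x800180007fff (.pre .nil (.c 0x7fff80008001 60 (.t 0 1 (.z 1)) (.z 1) .nil) .nil (.prune (.leaf 0x2108000e384004108400080000303) .keep .gnil)) (.label (.pre (.c 6 59 60 0 .nil) .nil .nil (.dead (.t 3 65536 (.t 0 1 (.z 0))))) (.forced (.pre (.c 2 59 62 64 .nil) .nil .nil (.dead (.t 0 1 (.z 0)))))))) .cnil) (.brow 518 3 0 (.z 1) 3 0 (.t 1 3 (.t 0 50922 (.z 32768)))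
 (.child (.pre (.c 5 60 0 0 (.c 0 60 0 0 .nil)) .nil .nil (.xsplit 0x800180007fff (.pre .nil (.c 0x7fff80008001 60 (.t 0 1 (.z 1)) (.z 1) .nil) .nil (.prune (.leaf 0x3084000e38400400000302) .keep .gnil)) (.label (.pre (.c 6 59 60 0 .nil) .nil .nil (.dead (.t 3 65536 (.t 0 1 (.z 0))))) (.forced (.pre (.c 2 59 62 63 .nil) .nil .nil (.dead (.t 0 1 (.z 0)))))))) (.child (.np 60 2) .cnil)) (.brow 517 3 0 (.z 1) 3 0 (.t 1 61 (.t 0 959985 (.z 1048576)))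
 (.child (.pre (.c 5 60 0 0 (.c 0 60 0 0 .nil)) .nil .nil (.xsplit 0x800180007fff (.pre .nil (.c 0x800180008001 61 (.t 1 1 (.z 1)) (.z 1) (.c 0x7fff80008001 60 (.t 0 1 (.z 1)) (.z 1) .nil)) .nil (.prune (.leaf 0x30840016384004900800080000303) .keep .gnil)) (.label (.pre (.c 6 59 60 0 .nil) .nil .nil (.dead (.t 3 65536 (.t 0 1 (.z 0))))) (.forced (.pre (.c 2 59 62 64 .nil) .nil .nil (.dead (.t 0 1 (.z 0)))))))) .cnil) (.brow 516 3 0 (.z 1) 3 0 (.t 1 13 (.t 0 156306 (.z 262144)))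
 (.child (.pre (.c 5 60 0 0 (.c 0 60 0 0 .nil)) .nil .nil (.xsplit 0x800180007fff (.pre .nil (.c 0x800180008001 61 (.t 1 1 (.z 1)) (.z 1) (.c 0x7fff80008001 60 (.t 0 1 (.z 1)) (.z 1) .nil)) .nil (.prune (.leaf 0x1084001131cc05e088202b008000939c00480000305) .keep .gnil)) (.label (.pre (.c 6 59 60 0 .nil) .nil .nil (.dead (.t 3 65536 (.t 0 1 (.z 0))))) (.forced (.pre (.c 2 59 62 63 .nil) .nil .nil (.dead (.t 0 1 (.z 0)))))))) .cnil) (.brow 515 3 0 (.z 1) 3 0 (.t 1 3 (.t 0 18154 (.z 65536)))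
 (.child (.pre (.c 5 60 0 0 (.c 0 60 0 0 .nil)) (.c 0x800780058003 70 (.z 1) (.z 1) (.c 0x80027fff8003 60 (.t 0 1 (.z 1)) (.t 0 1 (.t 1 2 (.z 1))) .nil)) .nil (.prune (.desc (.desc (.desc .keep (.desc .keep (.desc (.desc (.desc .keep (.desc .keep (.desc (.desc (.desc .keep (.desc .keep (.desc (.desc (.desc .keep (.desc .keep (.split 2 1 1 (.split 1 1 2 .keep (.leaf 0x4330201e2b1605c09040092a460100000304)) (.leaf 0x612480092a46013330201c2b160580000304)))) .keep) .keep))) .keep) .keep))) .keep) .keep))) .keep) .keep) .keep (.xsplit 0x800180007fff (.pre .nil (.c 0x800180008001 61 (.t 1 1 (.z 1)) (.z 1) (.c 0x7fff80008001 60 (.t 0 1 (.z 1)) (.z 1) .nil)) .nil (.prune (.leaf 0x280100010c07100e09c200281008004883280011c2100050044101c419c0008233800928c7301a1808100821180010000060c) .keep .gnil))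 (.xsplit 0x800280007fff (.label (.pre (.c 6 59 60 0 .nil) .nil .nil (.dead (.t 4 65536 (.t 0 1 (.z 0))))) (.forced (.pre (.c 2 59 62 64 .nil) .nil .nil (.dead (.t 0 1 (.z 0)))))) (.label (.pre (.c 6 59 60 0 .nil) .nil .nil (.dead (.t 4 65536 (.t 0 1 (.z 0))))) (.forced (.pre (.c 2 59 62 64 .nil) .nil .nil (.dead (.t 0 1 (.z 0)))))))))) .cnil) (.brow 514 3 0 (.z 1) 3 0 (.t 1 1 (.z 32768))
 (.child (.pre (.c 5 60 0 0 (.c 0 60 0 0 .nil)) (.c 0x80027fff8002 60 (.t 0 1 (.z 1)) (.t 0 1 (.t 1 2 (.z 1))) (.c 0x800380028001 67 (.z 1) (.z 1) .nil)) .nil (.prune (.desc (.desc (.desc .keep (.desc .keep (.desc (.desc (.desc .keep (.desc .keep (.leaf 0x740900032808100971100050426000ac06c2006f908000c512c80580000607))) .keep) .keep))) .keep) .keep) .keep .gnil)) .cnil) (.brow 513 3 0 (.z 1) 3 0 (.t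 1 1 (.z 32768))
 (.child (.pre (.c 5 60 0 0 (.c 0 60 0 0 .nil)) (.c 0x800780058003 70 (.z 1) (.z 1) (.c 0x80017fff8001 60 (.z 1) (.z 1) .nil)) .nil (.prune (.desc (.desc (.desc .keep (.desc .keep (.desc (.desc (.desc .keep (.desc .keep (.desc (.desc (.desc .keep (.desc .keep (.desc (.desc (.desc .keep (.desc .keep (.split 2 1 1 (.split 1 1 2 .keep (.leaf 0x88620088e10002204880182b160580000404)) (.leaf 0x2010000910c40162b160580000303)))) .keep) .keep))) .keep) .keep))) .keep) .keep))) .keep) .keep) .keep (.xsplit 0x800180007fff (.xsplit 0x80027fff8000 (.label (.pre (.c 6 59 60 0 .nil) .nil .nil (.dead (.t 4 65536 (.t 0 1 (.z 0))))) (.forced (.pre (.c 0 59 0 0 .nil) .nil .nil (.dead (.t 4 1 (.t 0 1 (.z 0))))))) (.label (.pre (.c 6 59 60 0 .nil) .nil .nil (.dead (.t 4 65536 (.t 0 1 (.z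 0))))) (.forced (.pre (.c 0 59 0 0 .nil) .nil .nil (.dead (.t 4 1 (.t 0 1 (.z 0)))))))) (.xsplit 0x80037fff8000 (.label (.pre (.c 6 59 60 0 .nil) .nil .nil (.dead (.t 4 65536 (.t 0 1 (.z 0))))) (.forced (.pre (.c 0 59 0 0 .nil) .nil .nil (.dead (.t 4 1 (.t 0 1 (.z 0))))))) (.label (.pre (.c 6 59 60 0 .nil) .nil .nil (.dead (.t 4 65536 (.t 0 1 (.z 0))))) (.forced (.pre (.c 0 59 0 0 .nil) .nil .nil (.dead (.t 4 1 (.t 0 1 (.z 0))))))))))) .cnil) (.brow 512 3 0 (.z 1) 3 0 (.t 3 1 (.z 32768))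
 (.child (.pre (.c 0 60 0 0 .nil) (.c 0x800780058003 70 (.z 1) (.z 1) .nil) .nil (.prune (.desc (.desc (.desc .keep (.desc .keep (.desc (.desc (.desc .keep (.desc .keep (.desc (.desc (.desc .keep (.desc .keep (.desc (.desc (.desc .keep (.desc .keep (.split 2 1 1 (.split 1 1 2 .keep (.leaf 0x4090400a230200e2ac405911c40080000304)) (.leaf 0x3094800e124800d0b060452b160500000304)))) .keep) .keep))) .keep) .keep))) .keep) .keep))) .keep) .keep) .keep (.label (.pre (.c 6 59 60 0 .nil) .nil .nil (.dead (.t 1 65536 (.t 0 1 (.z 0))))) (.forced (.pre (.c 0 59 0 0 .nil) .nil .nil (.dead (.t 1 1 (.t 0 1 (.z 0))))))))) .cnil) (.brow 511 3 0 (.t 1 1 (.t 0 78561 (.z 65536))) 3 0 (.t 3 1 (.z 32768))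
 (.child (.pre (.c 0 60 0 0 .nil) .nil .nil (.prune (.leaf 0x4088201b388005331c405231c404e38800480000305) .keep .gnil)) .cnil) (.brow 510 3 0 (.t 1 1 (.t 0 49742 (.z 32768))) 3 0 (.t 3 1 (.z 32768))
 (.child (.pre (.c 1 60 63 0 .nil) .nil .nil (.dead (.t 0 1 (.z 0)))) .cnil) (.brow 509 3 0 (.t 1 37 (.t 0 1926505 (.z 1048576))) 3 0 (.t 3 1 (.z 32768))
 (.child (.pre (.c 1 60 64 0 .nil) .nil .nil (.dead (.t 0 1 (.z 0)))) .cnil) (.brow 507 3 0 (.t 1 1 (.t 0 40562 (.z 16384))) 3 0 (.t 3 1 (.z 32768))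
 (.child (.np 60 2) (.child (.pre (.c 1 60 63 0 .nil) .nil .nil (.dead (.t 0 1 (.z 0)))) .cnil)) (.brow 506 3 0 (.t 1 1 (.t 0 45793 (.z 16384))) 3 0 (.t 3 1 (.z 32768))
 (.child (.pre (.c 2 60 63 64 (.c 5 60 0 0 .nil)) (.c 0x7fff80008002 60 (.t 0 3 (.t 1 2 (.z 1))) (.z 1) .nil) .nil (.prune (.leaf 0x3204000e38800080000302) .keep .gnil)) (.child (.pre (.c 1 60 64 0 .nil) .nil .nil (.dead (.t 0 1 (.z 0)))) .cnil)) (.brow 505 3 0 (.t 1 5 (.t 0 204096 (.z 65536))) 3 0 (.t 3 1 (.z 32768))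
 (.child (.np 60 2) (.child (.pre (.c 1 60 63 0 .nil) .nil .nil (.dead (.t 0 1 (.z 0)))) .cnil)) (.brow 505 2 0 (.z 1) 3 0 (.t 3 1 (.z 32768))
 (.child (.pre (.c 1 60 64 0 .nil) .nil .nil (.dead (.t 0 1 (.z 0)))) .cnil) (.brow 506 2 0 (.z 1) 3 0 (.z 1)
 .cnil (.brow 507 2 0 (.z 1) 3 0 (.z 1)
 .cnil (.brow 508 2 0 (.z 1) 3 0 (.z 1)
 .cnil (.brow 509 2 0 (.z 1) 3 0 (.z 1)
 .cnil (.brow 510 2 0 (.z 1) 3 0 (.z 1)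
 .cnil (.brow 511 2 0 (.z 1) 3 0 (.z 1)
 .cnil (.brow 512 2 0 (.z 1) 3 0 (.z 1)
 .cnil (.brow 513 2 0 (.z 1) 3 0 (.z 1)
 .cnil (.brow 514 2 0 (.z 1) 3 0 (.z 1)
 .cnil (.brow 515 2 0 (.z 1) 3 0 (.z 1)
 .cnil (.brow 516 2 0 (.z 1) 3 0 (.z 1)
 .cnil (.brow 517 2 0 (.z 1) 3 0 (.z 1)
 .cnil (.brow 518 2 0 (.z 1) 3 0 (.z 1)
 .cnil (.brow 519 2 0 (.z 1) 3 0 (.z 1)
 .cnil (.brow 520 2 0 (.z 1) 3 0 (.z 1)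
 .cnil (.brow 521 2 0 (.z 1) 3 0 (.z 1)
 .cnil (.brow 522 2 0 (.z 1) 3 0 (.z 1)
 .cnil (.brow 523 2 0 (.z 1) 3 0 (.z 1)
 .cnil .bnil)))))))))))))))))))))))))))))))))))))))))))))))))))))))))
 (.grow 483 (.brow 498 3 0 (.z 1) 2 0 (.z 1)
 .cnil (.brow 499 3 0 (.z 1) 2 0 (.z 1)
 .cnil (.brow 500 3 0 (.z 1) 2 0 (.z 1)
 .cnil (.brow 501 3 0 (.z 1) 2 0 (.z 1)
 .cnil (.brow 502 3 0 (.z 1) 2 0 (.z 1)
 .cnil (.brow 503 3 0 (.z 1) 2 0 (.z 1)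
 .cnil (.brow 504 3 0 (.z 1) 2 0 (.z 1)
 .cnil (.brow 505 3 0 (.z 1) 2 0 (.z 1)
 .cnil (.brow 506 3 0 (.z 1) 2 0 (.z 1)
 .cnil (.brow 507 3 0 (.z 1) 2 0 (.z 1)
 .cnil (.brow 508 3 0 (.z 1) 2 0 (.z 1)
 .cnil (.brow 509 3 0 (.z 1) 2 0 (.z 1)
 .cnil (.brow 510 3 0 (.z 1) 2 0 (.z 1)
 .cnil (.brow 511 3 0 (.z 1) 2 0 (.z 1)
 .cnil (.brow 512 3 0 (.z 1) 2 0 (.z 1)
 .cnil (.brow 513 3 0 (.z 1) 2 0 (.z 1)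
 .cnil (.brow 514 3 0 (.z 1) 2 0 (.z 1)
 .cnil (.brow 515 3 0 (.z 1) 2 0 (.z 1)
 .cnil (.brow 516 3 0 (.z 1) 2 0 (.z 1)
 .cnil (.brow 517 3 0 (.z 1) 2 0 (.z 1)
 .cnil (.brow 518 3 0 (.z 1) 2 0 (.z 1)
 .cnil (.brow 519 3 0 (.z 1) 2 0 (.z 1)
 .cnil (.brow 519 3 0 (.z 1) 2 0 (.z 1)
 (.child (.pre (.c 5 60 0 0 (.c 0 60 0 0 .nil)) .nil .nil (.xsplit 0x800180007fff (.pre .nil (.c 0x7fff80008001 60 (.t 0 1 (.z 1)) (.z 1) .nil) .nil (.prune (.leaf 0x61040043388000920400080000303) .keep .gnil)) (.label (.pre (.c 6 59 65 0 .nil) .nil .nil (.dead (.t 3 108991 (.t 1 131072 (.t 0 1 (.z 0)))))) (.forced (.pre (.c 2 59 63 64 .nil) .nil .nil (.dead (.t 0 1 (.z 0)))))))) .cnil) (.brow 518 3 0 (.z 1) 3 0 (.t 1 19 (.t 0 438964 (.z 262144)))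
 (.child (.pre (.c 5 60 0 0 (.c 1 60 62 0 (.c 0 60 0 0 .nil))) .nil .nil (.xsplit 0x800180007fff (.pre .nil (.c 0x7fff80008001 60 (.t 0 1 (.z 1)) (.z 1) .nil) .nil (.prune (.leaf 0x33880009204000e10400400000303) .keep .gnil)) (.label (.pre (.c 6 59 60 0 .nil) .nil .nil (.dead (.t 4 80659 (.t 3 47891 (.t 0 1 (.z 0)))))) (.forced (.pre (.c 0 59 0 0 .nil) .nil .nil (.dead (.t 4 1 (.t 3 1 (.t 0 1 (.z 0)))))))))) .cnil) (.brow 517 3 0 (.z 1) 3 0 (.t 1 1 (.t 0 22204 (.z 16384)))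
 (.child (.pre (.c 5 60 0 0 (.c 0 60 0 0 .nil)) .nil .nil (.xsplit 0x800180007fff (.pre .nil (.c 0x7fff80008001 60 (.t 0 1 (.z 1)) (.z 1) .nil) .nil (.prune (.leaf 0x2388000e104004220400080000303) .keep .gnil)) (.label (.pre (.c 6 59 65 0 .nil) .nil .nil (.dead (.t 3 112524 (.t 1 131072 (.t 0 1 (.z 0)))))) (.forced (.pre (.c 2 59 63 64 .nil) .nil .nil (.dead (.t 0 1 (.z 0)))))))) .cnil) (.brow 516 3 0 (.z 1) 3 0 (.t 1 1 (.t 0 16974 (.z 16384)))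
 (.child (.pre (.c 5 60 0 0 (.c 1 60 62 0 (.c 0 60 0 0 .nil))) .nil .nil (.xsplit 0x800180007fff (.pre .nil (.c 0x7fff80008001 60 (.t 0 1 (.z 1)) (.z 1) .nil) .nil (.prune (.leaf 0x61040041098004420400080000303) .keep .gnil)) (.label (.pre (.c 6 59 60 0 .nil) .nil .nil (.dead (.t 4 80099 (.t 3 47331 (.t 0 1 (.z 0)))))) (.forced (.pre (.c 0 59 0 0 .nil) .nil .nil (.dead (.t 4 1 (.t 3 1 (.t 0 1 (.z 0)))))))))) .cnil) (.brow 515 3 0 (.z 1) 3 0 (.t 1 3 (.t 0 46973 (.z 65536)))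
 (.child (.pre (.c 5 60 0 0 (.c 0 60 0 0 .nil)) (.c 0x80017fff8003 60 (.t 0 1 (.z 1)) (.t 0 1 (.t 1 2 (.z 1))) (.c 0x80007fff8003 60 (.z 1) (.z 1) (.c 0x800380028001 67 (.z 1) (.z 1) .nil))) .nil (.prune (.desc (.desc (.desc .keep (.desc .keep (.desc (.leaf 0x1230a00823b06010f0906020d1a40058110c4040112c806030b1200e01b0802042a4000b912c8018400070a) .keep))) .keep) .keep) .keep .gnil)) .cnil) (.brow 514 3 0 (.z 1) 3 0 (.t 1 1 (.t 0 13025 (.z 32768)))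
 (.child (.pre (.c 5 60 0 0 (.c 1 60 62 0 (.c 0 60 0 0 .nil))) (.c 0x80017fff8002 60 (.t 0 1 (.z 1)) (.t 0 1 (.t 2 2 (.z 1))) (.c 0x80007fff8002 60 (.z 1) (.z 1) (.c 0x800380028001 67 (.z 1) (.z 1) .nil))) .nil (.prune (.desc (.desc (.desc .keep (.desc .keep (.desc (.leaf 0x42a4000810140058110c404121a4005840b1200e01b08020112c806072a4600b512c80181130a010400070a) .keep))) .keep) .keep) .keep .gnil)) .cnil) (.brow 513 3 0 (.z 1) 3 0 (.t 1 1 (.t 0 2564 (.z 32768)))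
 (.child (.pre (.c 0 60 0 0 .nil) (.c 0x800180008001 62 (.t 2 1 (.t 0 27024 (.z 32768))) (.z 1) .nil) .nil (.prune (.leaf 0x2288000d09000420906046390004a1904021288003201c402421c004a11c00400000309) .keep .gnil)) .cnil) (.brow 512 3 0 (.z 1) 4 61 (.z 1)
 .cnil (.brow 511 3 0 (.t 1 1 (.t 0 49742 (.z 65536))) 4 61 (.z 1)
 .cnil (.brow 509 3 0 (.t 1 1 (.t 0 45793 (.z 32768))) 4 61 (.z 1)
 (.child (.pre (.c 1 60 61 0 .nil) .nil .nil (.dead (.t 0 1 (.z 0)))) .cnil) (.brow 508 3 0 (.t 1 3 (.t 0 112509 (.z 65536))) 4 61 (.z 1)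
 (.child (.pre (.c 0 60 0 0 (.c 5 60 0 0 .nil)) .nil .nil (.prune (.leaf 0x1314003e28800380000302) .keep .gnil)) .cnil) (.brow 507 3 0 (.t 1 1 (.t 0 33358 (.z 16384))) 4 61 (.z 1)
 (.child (.pre (.c 1 60 61 0 .nil) .nil .nil (.dead (.t 0 1 (.z 0)))) .cnil) (.brow 506 3 0 (.t 1 1 (.t 0 38588 (.z 16384))) 4 61 (.z 1)
 (.child (.pre (.c 0 60 0 0 (.c 5 60 0 0 .nil)) .nil .nil (.prune (.leaf 0x2304003e28800380000302) .keep .gnil)) .cnil) (.brow 505 3 0 (.t 1 19 (.t 0 701108 (.z 262144))) 4 61 (.z 1)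
 (.child (.pre (.c 1 60 61 0 .nil) .nil .nil (.dead (.t 0 1 (.z 0)))) .cnil) (.brow 504 2 0 (.z 1) 4 61 (.z 1)
 (.child (.pre (.c 0 60 0 0 (.c 5 60 0 0 .nil)) .nil .nil (.prune (.leaf 0x630400380000301) .keep .gnil)) .cnil) (.brow 505 2 0 (.z 1) 3 0 (.z 1)
 .cnil (.brow 506 2 0 (.z 1) 3 0 (.z 1)
 .cnil (.brow 507 2 0 (.z 1) 3 0 (.z 1)
 .cnil (.brow 508 2 0 (.z 1) 3 0 (.z 1)
 .cnil (.brow 509 2 0 (.z 1) 3 0 (.z 1)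
 .cnil (.brow 510 2 0 (.z 1) 3 0 (.z 1)
 .cnil (.brow 511 2 0 (.z 1) 3 0 (.z 1)
 .cnil (.brow 512 2 0 (.z 1) 3 0 (.z 1)
 .cnil (.brow 513 2 0 (.z 1) 3 0 (.z 1)
 .cnil (.brow 514 2 0 (.z 1) 3 0 (.z 1)
 .cnil (.brow 515 2 0 (.z 1) 3 0 (.z 1)
 .cnil (.brow 516 2 0 (.z 1) 3 0 (.z 1)
 .cnil (.brow 517 2 0 (.z 1) 3 0 (.z 1)
 .cnil (.brow 518 2 0 (.z 1) 3 0 (.z 1)
 .cnil (.brow 519 2 0 (.z 1) 3 0 (.z 1)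
 .cnil (.brow 520 2 0 (.z 1) 3 0 (.z 1)
 .cnil (.brow 521 2 0 (.z 1) 3 0 (.z 1)
 .cnil (.brow 522 2 0 (.z 1) 3 0 (.z 1)
 .cnil (.brow 523 2 0 (.z 1) 3 0 (.z 1)
 .cnil .bnil))))))))))))))))))))))))))))))))))))))))))))))))))))))))
 (.grow 485 (.brow 499 3 0 (.z 1) 2 0 (.z 1)
 .cnil (.brow 500 3 0 (.z 1) 2 0 (.z 1)
 .cnil (.brow 501 3 0 (.z 1) 2 0 (.z 1)
 .cnil (.brow 502 3 0 (.z 1) 2 0 (.z 1)
 .cnil (.brow 503 3 0 (.z 1) 2 0 (.z 1)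
 .cnil (.brow 504 3 0 (.z 1) 2 0 (.z 1)
 .cnil (.brow 505 3 0 (.z 1) 2 0 (.z 1)
 .cnil (.brow 506 3 0 (.z 1) 2 0 (.z 1)
 .cnil (.brow 507 3 0 (.z 1) 2 0 (.z 1)
 .cnil (.brow 508 3 0 (.z 1) 2 0 (.z 1)
 .cnil (.brow 509 3 0 (.z 1) 2 0 (.z 1)
 .cnil (.brow 510 3 0 (.z 1) 2 0 (.z 1)
 .cnil (.brow 511 3 0 (.z 1) 2 0 (.z 1)
 .cnil (.brow 512 3 0 (.z 1) 2 0 (.z 1)
 .cnil (.brow 513 3 0 (.z 1) 2 0 (.z 1)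
 .cnil (.brow 514 3 0 (.z 1) 2 0 (.z 1)
 .cnil (.brow 515 3 0 (.z 1) 2 0 (.z 1)
 .cnil (.brow 516 3 0 (.z 1) 2 0 (.z 1)
 .cnil (.brow 517 3 0 (.z 1) 2 0 (.z 1)
 .cnil (.brow 518 3 0 (.z 1) 2 0 (.z 1)
 .cnil (.brow 519 3 0 (.z 1) 2 0 (.z 1)
 .cnil (.brow 518 3 0 (.z 1) 3 0 (.t 1 5 (.t 0 138560 (.z 65536)))
 (.child (.pre (.c 5 60 0 0 (.c 1 60 63 0 (.c 0 60 0 0 .nil))) .nil .nil (.xsplit 0x800180007fff (.pre .nil (.c 0x7fff80008001 60 (.t 0 1 (.z 1)) (.z 1) .nil) .nil (.prune (.leaf 0x6388000e10400400000302) .keep .gnil)) (.label (.pre (.c 6 59 60 0 .nil) .nil .nil (.dead (.t 4 65536 (.t 3 65536 (.t 0 1 (.z 0)))))) (.forced (.pre (.c 0 59 0 0 (.c 0 61 0 0 (.c 1 59 61 0 .nil))) .nil .nil (.dead (.t 2 2 (.t 1 2 (.t 0 1 (.z 0)))))))))) .cnil) (.brow 517 3 0 (.z 1) 3 0 (.t 1 1 (.t 0 29409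 (.z 16384)))
 (.child (.pre (.c 5 60 0 0 (.c 1 60 64 0 (.c 0 60 0 0 .nil))) .nil .nil (.xsplit 0x800180007fff (.pre .nil (.c 0x7fff80008001 60 (.t 0 1 (.z 1)) (.z 1) .nil) .nil (.prune (.leaf 0x6388000e10400400000302) .keep .gnil)) (.label (.pre (.c 6 59 65 0 .nil) .nil .nil (.dead (.t 4 96671 (.t 3 77648 (.t 0 1 (.z 0)))))) (.forced (.pre (.c 0 59 0 0 .nil) .nil .nil (.dead (.t 4 1 (.t 1 2 (.t 0 1 (.z 0)))))))))) .cnil) (.brow 516 3 0 (.z 1) 3 0 (.t 1 1 (.t 0 24178 (.z 16384)))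
 (.child (.pre (.c 5 60 0 0 (.c 1 60 63 0 (.c 0 60 0 0 .nil))) .nil .nil (.xsplit 0x800280007fff (.xsplit 0x800180007fff (.pre .nil (.c 0x7fff80008001 60 (.t 0 1 (.z 1)) (.z 1) .nil) .nil (.prune (.leaf 0x2204000b388000e10400400000303) .keep .gnil)) (.pre .nil (.c 0x80017fff8003 60 (.t 0 1 (.t 2 1 (.z 1))) (.t 1 1 (.t 4 1 (.z 1))) .nil) .nil (.prune (.leaf 0x101400494620012828800084e600142314000c0410010709000400000507) .keep .gnil))) (.label (.pre (.c 6 59 60 0 .nil) .nil .nil (.dead (.t 4 65536 (.t 3 65536 (.t 0 1 (.z 0)))))) (.forced (.pre (.c 0 59 0 0 (.c 0 61 0 0 (.c 1 59 61 0 .nil))) .nil .nil (.dead (.t 2 2 (.t 1 2 (.t 0 1 (.z 0)))))))))) .cnil) (.brow 515 3 0 (.z 1) 3 0 (.t 1 37 (.t 0 877929 (.z 1048576)))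
 .cnil (.brow 514 3 0 (.z 1) 3 0 (.t 1 1 (.t 0 16974 (.z 32768)))
 .cnil (.brow 513 3 0 (.z 1) 3 0 (.t 1 1 (.t 0 13025 (.z 65536)))
 .cnil (.brow 512 3 0 (.z 1) 3 0 (.z 1)
 .cnil (.brow 510 3 0 (.t 1 1 (.t 0 20922 (.z 32768))) 3 0 (.z 1)
 (.child (.pre (.c 0 60 0 0 .nil) (.c 0x800780058003 70 (.z 1) (.z 1) .nil) .nil (.prune (.desc (.desc (.desc .keep (.desc .keep (.desc (.desc (.desc .keep (.desc .keep (.desc (.desc (.desc .keep (.desc .keep (.desc (.desc (.desc .keep (.desc .keep (.split 2 1 1 (.split 1 1 2 .keep (.leaf 0x40b060462b1605509040080000303)) (.leaf 0x52b16056124800d0b0604309480080000304)))) .keep) .keep))) .keep) .keep))) .keep) .keep))) .keep) .keep) .keep (.label (.pre (.c 6 59 60 0 .nil) .nil .nil (.dead (.t 3 1 (.t 1 44727 (.t 0 1 (.z 0)))))) (.forced (.pre (.c 0 59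 0 0 .nil) .nil .nil (.dead (.t 3 1 (.t 1 40135 (.t 0 58807 (.z 0)))))))))) .cnil) (.brow 509 3 0 (.t 1 1 (.t 0 31383 (.z 32768))) 3 0 (.z 1)
 (.child (.np 60 2) .cnil) (.brow 508 3 0 (.t 1 3 (.t 0 83690 (.z 65536))) 3 0 (.z 1)
 (.child (.np 60 3) .cnil) (.brow 507 3 0 (.t 1 13 (.t 0 418450 (.z 262144))) 3 0 (.z 1)
 (.child (.np 60 4) .cnil) (.brow 506 3 0 (.t 1 61 (.t 0 2008561 (.z 1048576))) 3 0 (.z 1)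
 (.child (.np 60 5) .cnil) (.brow 504 3 0 (.t 1 3 (.t 0 83690 (.z 32768))) 3 0 (.z 1)
 (.child (.pre (.c 0 60 0 0 (.c 5 60 0 0 .nil)) .nil .nil (.xsplit 0x800180007fff (.pre .nil (.c 0x7fff80008001 60 (.t 0 2 (.z 1)) (.z 1) .nil) .nil (.prune (.leaf 0x6388000e10400400000302) .keep .gnil)) (.label (.pre (.c 6 59 60 0 .nil) .nil .nil (.dead (.t 5 7 (.t 2 426272 (.t 0 4 (.z 0)))))) (.forced (.pre (.c 0 61 0 0 (.c 0 59 0 0 (.c 1 59 61 0 .nil))) .nil .nil (.dead (.t 2 2 (.t 1 1 (.t 0 2 (.z 0)))))))))) (.child (.np 60 6) .cnil)) (.brow 504 2 0 (.z 1) 3 0 (.z 1)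
 (.child (.np 60 7) .cnil) (.brow 505 2 0 (.z 1) 3 0 (.z 1)
 .cnil (.brow 506 2 0 (.z 1) 3 0 (.z 1)
 .cnil (.brow 507 2 0 (.z 1) 3 0 (.z 1)
 .cnil (.brow 508 2 0 (.z 1) 3 0 (.z 1)
 .cnil (.brow 509 2 0 (.z 1) 3 0 (.z 1)
 .cnil (.brow 510 2 0 (.z 1) 3 0 (.z 1)
 .cnil (.brow 511 2 0 (.z 1) 3 0 (.z 1)
 .cnil (.brow 512 2 0 (.z 1) 3 0 (.z 1)
 .cnil (.brow 513 2 0 (.z 1) 3 0 (.z 1)
 .cnil (.brow 514 2 0 (.z 1) 3 0 (.z 1)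
 .cnil (.brow 515 2 0 (.z 1) 3 0 (.z 1)
 .cnil (.brow 516 2 0 (.z 1) 3 0 (.z 1)
 .cnil (.brow 517 2 0 (.z 1) 3 0 (.z 1)
 .cnil (.brow 518 2 0 (.z 1) 3 0 (.z 1)
 .cnil (.brow 519 2 0 (.z 1) 3 0 (.z 1)
 .cnil (.brow 520 2 0 (.z 1) 3 0 (.z 1)
 .cnil (.brow 521 2 0 (.z 1) 3 0 (.z 1)
 .cnil (.brow 522 2 0 (.z 1) 3 0 (.z 1)
 .cnil (.brow 523 2 0 (.z 1) 3 0 (.z 1)
 .cnil (.brow 524 2 0 (.z 1) 3 0 (.z 1)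
 .cnil .bnil)))))))))))))))))))))))))))))))))))))))))))))))))))))))
 (.grow 486 (.brow 500 3 0 (.z 1) 2 0 (.z 1)
 .cnil (.brow 501 3 0 (.z 1) 2 0 (.z 1)
 .cnil (.brow 502 3 0 (.z 1) 2 0 (.z 1)
 .cnil (.brow 503 3 0 (.z 1) 2 0 (.z 1)
 .cnil (.brow 504 3 0 (.z 1) 2 0 (.z 1)
 .cnil (.brow 505 3 0 (.z 1) 2 0 (.z 1)
 .cnil (.brow 506 3 0 (.z 1) 2 0 (.z 1)
 .cnil (.brow 507 3 0 (.z 1) 2 0 (.z 1)
 .cnil (.brow 508 3 0 (.z 1) 2 0 (.z 1)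
 .cnil (.brow 509 3 0 (.z 1) 2 0 (.z 1)
 .cnil (.brow 510 3 0 (.z 1) 2 0 (.z 1)
 .cnil (.brow 511 3 0 (.z 1) 2 0 (.z 1)
 .cnil (.brow 512 3 0 (.z 1) 2 0 (.z 1)
 .cnil (.brow 513 3 0 (.z 1) 2 0 (.z 1)
 .cnil (.brow 514 3 0 (.z 1) 2 0 (.z 1)
 .cnil (.brow 515 3 0 (.z 1) 2 0 (.z 1)
 .cnil (.brow 516 3 0 (.z 1) 2 0 (.z 1)
 .cnil (.brow 517 3 0 (.z 1) 2 0 (.z 1)
 .cnil (.brow 518 3 0 (.z 1) 2 0 (.z 1)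
 .cnil (.brow 518 3 0 (.z 1) 2 0 (.z 1)
 (.child (.pre (.c 5 60 0 0 .nil) .nil .nil (.prune (.leaf 0x630400380000301) .keep .gnil)) .cnil) (.brow 517 3 0 (.z 1) 3 0 (.t 1 3 (.t 0 83690 (.z 32768)))
 (.child (.pre (.c 5 60 0 0 (.c 1 60 61 0 .nil)) .nil .nil (.dead (.t 1 1 (.t 0 2 (.z 0))))) (.child (.pre (.c 5 60 0 0 (.c 1 60 62 0 (.c 0 60 0 0 .nil))) .nil .nil (.xsplit 0x800280007fff (.xsplit 0x800180007fff (.pre .nil (.c 0x7fff80008001 60 (.t 0 2 (.z 1)) (.z 1) .nil) .nil (.prune (.leaf 0x5388000e304004120400080000303) .keep .gnil)) (.label (.pre (.c 6 59 60 0 .nil) .nil .nil (.dead (.t 5 79579 (.t 4 49152 (.t 0 1 (.z 0)))))) (.forced (.pre (.c 0 59 0 0 .nil) .nil .nil (.dead (.t 5 1 (.t 4 1 (.t 0 1 (.z 0))))))))) (.label (.pre (.c 6 59 60 0 .nil) .nil .nil (.dead (.t 4 79579 (.t 3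 49152 (.t 0 1 (.z 0)))))) (.forced (.pre (.c 0 59 0 0 .nil) .nil .nil (.dead (.t 4 1 (.t 3 1 (.t 0 1 (.z 0)))))))))) .cnil)) (.brow 516 3 0 (.z 1) 3 0 (.t 1 61 (.t 0 2008561 (.z 1048576)))
 (.child (.pre (.c 5 60 0 0 .nil) .nil .nil (.prune (.leaf 0x2304003e28800380000302) .keep .gnil)) .cnil) (.brow 515 3 0 (.z 1) 3 0 (.t 1 13 (.t 0 418450 (.z 262144)))
 (.child (.pre (.c 5 60 0 0 (.c 1 60 61 0 .nil)) .nil .nil (.dead (.t 1 1 (.t 0 2 (.z 0))))) .cnil) (.brow 514 3 0 (.z 1) 3 0 (.t 1 3 (.t 0 83690 (.z 65536)))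
 (.child (.pre (.c 5 60 0 0 .nil) .nil .nil (.prune (.leaf 0x1314003e28800380000302) .keep .gnil)) .cnil) (.brow 513 3 0 (.z 1) 3 0 (.t 1 1 (.t 0 31383 (.z 32768)))
 (.child (.pre (.c 5 60 0 0 (.c 1 60 61 0 .nil)) .nil .nil (.dead (.t 1 1 (.t 0 2 (.z 0))))) .cnil) (.brow 512 3 0 (.z 1) 3 0 (.t 1 1 (.t 0 20922 (.z 32768)))
 (.child (.pre (.c 5 60 0 0 .nil) (.c 0x800380028001 67 (.z 1) (.z 1) .nil) .nil (.prune (.desc (.leaf 0x40a9000e833000384e20014209060404e810121398000bc65201022a400414cc000413880008421050a) .keep) .keep .gnil)) .cnil) (.brow 511 3 0 (.z 1) 3 0 (.z 1)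
 .cnil (.brow 510 3 0 (.t 1 1 (.t 0 13025 (.z 65536))) 3 0 (.z 1)
 .cnil (.brow 509 3 0 (.t 1 1 (.t 0 16974 (.z 32768))) 3 0 (.z 1)
 .cnil (.brow 508 3 0 (.t 1 37 (.t 0 877929 (.z 1048576))) 3 0 (.z 1)
 .cnil (.brow 506 3 0 (.t 1 1 (.t 0 24178 (.z 16384))) 3 0 (.z 1)
 (.child (.pre (.c 0 60 0 0 (.c 1 60 62 0 (.c 5 60 0 0 .nil))) .nil .nil (.xsplit 0x800180007fff (.pre .nil (.c 0x80007fff8003 60 (.t 2 1 (.t 0 3 (.z 2))) (.t 0 1 (.t 3 1 (.z 1))) .nil) .nil (.prune (.leaf 0x2104004618800080000302) .keep .gnil)) (.label (.pre (.c 6 59 60 0 .nil) .nil .nil (.dead (.t 3 49152 (.t 2 85196 (.t 0 1 (.z 0)))))) (.forced (.pre (.c 0 59 0 0 .nil) .nil .nil (.dead (.t 3 1 (.t 2 1 (.t 0 1 (.z 0)))))))))) .cnil) (.brow 505 3 0 (.t 1 1 (.t 0 29409 (.z 16384))) 3 0 (.z 1)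
 (.child (.pre (.c 0 60 0 0 (.c 5 60 0 0 .nil)) .nil .nil (.xsplit 0x800180007fff (.pre .nil (.c 0x7fff80008001 60 (.t 0 1 (.z 1)) (.z 1) .nil) .nil (.prune (.leaf 0x2388000e104004220400080000303) .keep .gnil)) (.label (.pre (.c 6 59 60 0 .nil) .nil .nil (.dead (.t 5 2 (.t 2 96858 (.t 0 1 (.z 0)))))) (.forced (.pre (.c 2 59 63 64 .nil) .nil .nil (.dead (.t 5 1 (.t 2 43247 (.t 0 49471 (.z 0)))))))))) .cnil) (.brow 504 3 0 (.t 1 5 (.t 0 138560 (.z 65536))) 3 0 (.z 1)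
 (.child (.pre (.c 0 60 0 0 (.c 1 60 62 0 (.c 5 60 0 0 .nil))) .nil .nil (.xsplit 0x800180007fff (.pre .nil (.c 0x7fff80008001 60 (.t 0 1 (.z 1)) (.z 1) .nil) .nil (.prune (.leaf 0x33880009204000e10400400000303) .keep .gnil)) (.label (.pre (.c 6 59 60 0 .nil) .nil .nil (.dead (.t 3 49152 (.t 2 84260 (.t 0 1 (.z 0)))))) (.forced (.pre (.c 0 59 0 0 .nil) .nil .nil (.dead (.t 3 1 (.t 2 1 (.t 0 1 (.z 0)))))))))) .cnil) (.brow 503 2 0 (.z 1) 3 0 (.z 1)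
 (.child (.pre (.c 0 60 0 0 (.c 5 60 0 0 .nil)) .nil .nil (.xsplit 0x800180007fff (.pre .nil (.c 0x7fff80008001 60 (.t 0 1 (.z 1)) (.z 1) .nil) .nil (.prune (.leaf 0x61040043388000920400080000303) .keep .gnil)) (.label (.pre (.c 6 59 65 0 .nil) .nil .nil (.dead (.t 5 12 (.t 2 720157 (.t 0 5 (.z 0)))))) (.forced (.pre (.c 2 59 63 64 .nil) .nil .nil (.dead (.t 5 1 (.t 2 44803 (.t 0 49471 (.z 0)))))))))) .cnil) (.brow 504 2 0 (.z 1) 3 0 (.z 1)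
 .cnil (.brow 505 2 0 (.z 1) 3 0 (.z 1)
 .cnil (.brow 506 2 0 (.z 1) 3 0 (.z 1)
 .cnil (.brow 507 2 0 (.z 1) 3 0 (.z 1)
 .cnil (.brow 508 2 0 (.z 1) 3 0 (.z 1)
 .cnil (.brow 509 2 0 (.z 1) 3 0 (.z 1)
 .cnil (.brow 510 2 0 (.z 1) 3 0 (.z 1)
 .cnil (.brow 511 2 0 (.z 1) 3 0 (.z 1)
 .cnil (.brow 512 2 0 (.z 1) 3 0 (.z 1)
 .cnil (.brow 513 2 0 (.z 1) 3 0 (.z 1)
 .cnil (.brow 514 2 0 (.z 1) 3 0 (.z 1)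
 .cnil (.brow 515 2 0 (.z 1) 3 0 (.z 1)
 .cnil (.brow 516 2 0 (.z 1) 3 0 (.z 1)
 .cnil (.brow 517 2 0 (.z 1) 3 0 (.z 1)
 .cnil (.brow 518 2 0 (.z 1) 3 0 (.z 1)
 .cnil (.brow 519 2 0 (.z 1) 3 0 (.z 1)
 .cnil (.brow 520 2 0 (.z 1) 3 0 (.z 1)
 .cnil (.brow 521 2 0 (.z 1) 3 0 (.z 1)
 .cnil (.brow 522 2 0 (.z 1) 3 0 (.z 1)
 .cnil (.brow 523 2 0 (.z 1) 3 0 (.z 1)
 .cnil (.brow 524 2 0 (.z 1) 3 0 (.z 1)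
 .cnil (.brow 525 2 0 (.z 1) 3 0 (.z 1)
 .cnil .bnil))))))))))))))))))))))))))))))))))))))))))))))))))))))))
 (.grow 487 (.brow 500 3 0 (.z 1) 2 0 (.z 1)
 .cnil (.brow 501 3 0 (.z 1) 2 0 (.z 1)
 .cnil (.brow 502 3 0 (.z 1) 2 0 (.z 1)
 .cnil (.brow 503 3 0 (.z 1) 2 0 (.z 1)
 .cnil (.brow 504 3 0 (.z 1) 2 0 (.z 1)
 .cnil (.brow 505 3 0 (.z 1) 2 0 (.z 1)
 .cnil (.brow 506 3 0 (.z 1) 2 0 (.z 1)
 .cnil (.brow 507 3 0 (.z 1) 2 0 (.z 1)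
 .cnil (.brow 508 3 0 (.z 1) 2 0 (.z 1)
 .cnil (.brow 509 3 0 (.z 1) 2 0 (.z 1)
 .cnil (.brow 510 3 0 (.z 1) 2 0 (.z 1)
 .cnil (.brow 511 3 0 (.z 1) 2 0 (.z 1)
 .cnil (.brow 512 3 0 (.z 1) 2 0 (.z 1)
 .cnil (.brow 513 3 0 (.z 1) 2 0 (.z 1)
 .cnil (.brow 514 3 0 (.z 1) 2 0 (.z 1)
 .cnil (.brow 515 3 0 (.z 1) 2 0 (.z 1)
 .cnil (.brow 516 3 0 (.z 1) 2 0 (.z 1)
 .cnil (.brow 517 3 0 (.z 1) 2 0 (.z 1)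
 .cnil (.brow 517 3 0 (.z 1) 2 0 (.z 1)
 (.child (.pre (.c 5 60 0 0 (.c 0 61 0 0 .nil)) .nil .nil (.dead (.t 1 1 (.t 0 1 (.z 0))))) .cnil) (.brow 516 3 0 (.z 1) 3 0 (.t 1 19 (.t 0 701108 (.z 262144)))
 (.child (.pre (.c 5 60 0 0 (.c 0 61 0 0 .nil)) .nil .nil (.dead (.t 1 1 (.t 0 1 (.z 0))))) (.child (.np 60 2) .cnil)) (.brow 515 3 0 (.z 1) 3 0 (.t 1 1 (.t 0 38588 (.z 16384)))
 (.child (.pre (.c 5 60 0 0 (.c 0 61 0 0 .nil)) .nil .nil (.dead (.t 1 1 (.t 0 1 (.z 0))))) (.child (.pre (.c 5 60 0 0 (.c 2 60 63 64 .nil)) (.c 0x7fff80008002 60 (.t 0 4 (.t 1 3 (.z 1))) (.z 1) .nil) .nil (.prune (.leaf 0x3204000e38800080000302) .keep .gnil)) .cnil)) (.brow 514 3 0 (.z 1) 3 0 (.t 1 1 (.t 0 33358 (.z 16384)))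
 (.child (.pre (.c 5 60 0 0 (.c 0 61 0 0 .nil)) .nil .nil (.dead (.t 1 1 (.t 0 1 (.z 0))))) (.child (.np 60 2) .cnil)) (.brow 513 3 0 (.z 1) 3 0 (.t 1 3 (.t 0 112509 (.z 65536)))
 (.child (.pre (.c 5 60 0 0 (.c 0 61 0 0 .nil)) .nil .nil (.dead (.t 1 1 (.t 0 1 (.z 0))))) (.child (.pre (.c 5 60 0 0 (.c 2 60 63 64 .nil)) (.c 0x7fff80008001 60 (.t 0 3 (.t 1 2 (.z 1))) (.z 1) .nil) .nil (.prune (.leaf 0x2214000e38800080000302) .keep .gnil)) .cnil)) (.brow 512 3 0 (.z 1) 3 0 (.t 1 1 (.t 0 45793 (.z 32768)))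
 (.child (.pre (.c 5 60 0 0 (.c 0 61 0 0 .nil)) .nil .nil (.dead (.t 1 1 (.t 0 1 (.z 0))))) (.child (.np 60 2) .cnil)) (.brow 511 3 0 (.z 1) 3 0 (.t 1 1 (.t 0 49742 (.z 65536)))
 (.child (.pre (.c 5 60 0 0 (.c 0 61 0 0 .nil)) .nil .nil (.dead (.t 1 1 (.t 0 1 (.z 0))))) .cnil) (.brow 510 3 0 (.z 1) 3 0 (.z 1)
 (.child (.pre (.c 5 60 0 0 (.c 0 61 0 0 .nil)) .nil .nil (.dead (.t 1 1 (.t 0 1 (.z 0))))) .cnil) (.brow 509 3 0 (.t 1 1 (.t 0 2564 (.z 32768))) 3 0 (.z 1)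
 (.child (.pre (.c 5 60 0 0 .nil) (.c 0x800780058003 70 (.z 1) (.z 1) .nil) .nil (.prune (.desc (.desc (.desc .keep (.desc .keep (.desc (.desc (.desc .keep (.desc .keep (.desc (.desc (.desc .keep (.desc .keep (.desc (.desc (.desc .keep (.desc .keep (.split 2 1 1 (.split 1 1 2 .keep (.leaf 0x6210000e090400e02c00580000303)) (.leaf 0x3010000d0b060462b160500000303)))) .keep) .keep))) .keep) .keep))) .keep) .keep))) .keep) .keep) .keep (.label (.pre (.c 6 59 60 0 .nil) .nil .nil (.dead (.t 5 2 (.t 3 1 (.t 0 1 (.z 0)))))) (.forced (.pre (.c 0 61 0 0 (.c 0 59 0 0 .nil)) .nil .nil (.dead (.t 4 1 (.t 1 34726 (.t 0 37345 (.z 0)))))))))) .cnil) (.brow 508 3 0 (.t 1 1 (.t 0 13025 (.z 32768))) 3 0 (.z 1)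
 (.child (.pre (.c 0 60 0 0 (.c 1 60 63 0 (.c 5 60 0 0 .nil))) (.c 0x800780058003 70 (.z 1) (.z 1) (.c 0x80017fff8002 60 (.z 1) (.z 1) .nil)) .nil (.prune (.desc (.desc (.desc .keep (.desc .keep (.desc (.desc (.desc .keep (.desc .keep (.desc (.desc (.desc .keep (.desc .keep (.desc (.desc (.desc .keep (.desc .keep (.split 2 1 1 (.split 1 1 2 .keep (.leaf 0x4330201c0904009024400a2a460162b160580000305)) (.leaf 0x333020192a46016124800c2b160580000304)))) .keep) .keep))) .keep) .keep))) .keep) .keep))) .keep) .keep) .keep (.xsplit 0x800280007fff (.xsplit 0x800180007fff (.pre .nil (.c 0x800180008001 62 (.t 6 1 (.t 0 17161 (.z 65536))) (.z 1) (.c 0x7fff80008001 60 (.t 0 1 (.z 1)) (.z 1) (.c 0x80017fff8001 60 (.t 6 1 (.t 0 17161 (.z 65536))) (.t 0 1 (.t 4 1 (.z 1))) .nil))) .nil (.prune (.leaf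 0x329ca04109c8014190404531c4076008001a184000d00800080000307) .keep .gnil)) (.pre .nil (.c 0x80027fff8001 60 (.t 0 20808 (.t 6 1 (.z 65536))) (.t 1 1 (.t 4 1 (.z 1))) .nil) .nil (.prune (.desc (.desc (.desc .keep (.desc .keep (.desc (.leaf 0x2888002d012c80640120c04040b280248968030100800080000606) .keep))) .keep) .keep) .keep .gnil))) (.xsplit 0x800380007fff (.label (.pre (.c 6 59 60 0 .nil) .nil .nil (.dead (.t 7 3 (.t 3 4556 (.t 0 1 (.z 0)))))) (.forced (.pre (.c 1 59 61 0 .nil) .nil .nil (.dead (.t 0 1 (.z 0)))))) (.label (.pre (.c 6 59 60 0 .nil) .nil .nil (.dead (.t 7 3 (.t 3 4556 (.t 0 1 (.z 0)))))) (.forced (.pre (.c 1 59 61 0 .nil) .nil .nil (.dead (.t 0 1 (.z 0)))))))))) .cnil) (.brow 507 3 0 (.t 1 3 (.t 0 46973 (.z 65536))) 3 0 (.z 1)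
 (.child (.pre (.c 0 60 0 0 (.c 1 60 64 0 (.c 5 60 0 0 .nil))) (.c 0x800780058003 70 (.z 1) (.z 1) (.c 0x80007fff8003 60 (.t 0 2 (.t 2 1 (.z 1))) (.t 2 1 (.z 1)) .nil)) .nil (.prune (.desc (.desc (.desc .keep (.desc .keep (.desc (.desc (.desc .keep (.desc .keep (.desc (.desc (.desc .keep (.desc .keep (.desc (.desc (.desc .keep (.desc .keep (.split 2 1 1 (.split 1 1 2 .keep (.leaf 0x62b1605c0b160093b06012090400a23020080000305)) (.leaf 0x5094800b12480093b060162b160580000304)))) .keep) .keep))) .keep) .keep))) .keep) .keep))) .keep) .keep) .keep (.xsplit 0x800180007fff (.pre .nil (.c 0x80017fff8002 60 (.t 1 1 (.z 1)) (.t 0 1 (.t 3 1 (.z 1))) (.c 0x800180008001 62 (.t 1 1 (.z 1)) (.z 1) (.c 0x80007fff8001 61 (.t 1 1 (.z 1)) (.z 1) .nil))) .nil (.prune (.leaf 0x1308001d0882041190404631c4075008000d00800100000306)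 .keep .gnil)) (.xsplit 0x800380007fff (.label (.pre (.c 6 59 60 0 .nil) .nil .nil (.dead (.t 7 11 (.t 3 211189 (.t 0 4 (.z 0)))))) (.forced (.pre (.c 0 59 0 0 .nil) .nil .nil (.dead (.t 7 1 (.t 3 19004 (.t 0 23589 (.z 0)))))))) (.label (.pre (.c 6 59 60 0 .nil) .nil .nil (.dead (.t 7 11 (.t 3 211189 (.t 0 4 (.z 0)))))) (.forced (.pre (.c 0 59 0 0 .nil) .nil .nil (.dead (.t 7 1 (.t 3 19004 (.t 0 23589 (.z 0)))))))))))) .cnil) (.brow 506 3 0 (.t 1 1 (.t 0 16974 (.z 16384))) 3 0 (.z 1)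
 (.child (.pre (.c 0 60 0 0 (.c 1 60 63 0 (.c 5 60 0 0 .nil))) .nil .nil (.xsplit 0x800180007fff (.pre .nil (.c 0x80017fff8003 60 (.t 1 1 (.z 1)) (.t 0 1 (.t 3 1 (.z 1))) (.c 0x800180008001 61 (.t 3 1 (.t 2 2 (.z 3))) (.z 1) .nil)) .nil (.prune (.leaf 0x6008000b0080015088202c384004912020280000305) .keep .gnil)) (.label (.pre (.c 6 59 60 0 .nil) .nil .nil (.dead (.t 3 65536 (.t 2 65536 (.t 0 1 (.z 0)))))) (.forced (.pre (.c 1 59 61 0 .nil) .nil .nil (.dead (.t 0 1 (.z 0)))))))) .cnil) (.brow 505 3 0 (.t 1 1 (.t 0 22204 (.z 16384))) 3 0 (.z 1)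
 (.child (.pre (.c 0 60 0 0 (.c 1 60 64 0 (.c 5 60 0 0 .nil))) .nil .nil (.xsplit 0x80017fff8003 (.prune (.leaf 0x638400380000301) .keep .gnil) (.xsplit 0x800180007fff (.pre .nil (.c 0x800180008001 61 (.t 4 1 (.t 1 2 (.z 1))) (.z 1) (.c 0x7fff80008001 60 (.t 0 1 (.z 1)) (.z 1) .nil)) .nil (.prune (.leaf 0x30840016384004900800080000303) .keep .gnil)) (.label (.pre (.c 6 59 65 0 .nil) .nil .nil (.dead (.t 4 77648 (.t 3 109119 (.t 0 1 (.z 0)))))) (.forced (.pre (.c 0 59 0 0 .nil) .nil .nil (.dead (.t 3 1 (.t 2 2 (.t 0 1 (.z 0))))))))))) .cnil) (.brow 504 3 0 (.t 1 19 (.t 0 438964 (.z 262144))) 3 0 (.z 1)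
 (.child (.pre (.c 0 60 0 0 (.c 1 60 63 0 (.c 5 60 0 0 .nil))) .nil .nil (.xsplit 0x800180007fff (.pre .nil (.c 0x7fff80008001 60 (.t 0 1 (.z 1)) (.z 1) .nil) .nil (.prune (.leaf 0x3084000e38400400000302) .keep .gnil)) (.label (.pre (.c 6 59 60 0 .nil) .nil .nil (.dead (.t 3 65536 (.t 2 65536 (.t 0 1 (.z 0)))))) (.forced (.pre (.c 1 59 61 0 .nil) .nil .nil (.dead (.t 0 1 (.z 0)))))))) .cnil) (.brow 503 2 0 (.z 1) 3 0 (.z 1)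
 (.child (.pre (.c 0 60 0 0 (.c 1 60 64 0 (.c 5 60 0 0 .nil))) .nil .nil (.xsplit 0x800180007fff (.pre .nil (.c 0x7fff80008001 60 (.t 0 1 (.z 1)) (.z 1) .nil) .nil (.prune (.leaf 0x2108000e384004108400080000303) .keep .gnil)) (.label (.pre (.c 6 59 65 0 .nil) .nil .nil (.dead (.t 3 78167 (.t 2 107044 (.t 0 1 (.z 0)))))) (.forced (.pre (.c 0 59 0 0 .nil) .nil .nil (.dead (.t 2 3 (.t 1 3 (.t 0 1 (.z 0)))))))))) .cnil) (.brow 504 2 0 (.z 1) 3 0 (.z 1)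
 .cnil (.brow 505 2 0 (.z 1) 3 0 (.z 1)
 .cnil (.brow 506 2 0 (.z 1) 3 0 (.z 1)
 .cnil (.brow 507 2 0 (.z 1) 3 0 (.z 1)
 .cnil (.brow 508 2 0 (.z 1) 3 0 (.z 1)
 .cnil (.brow 509 2 0 (.z 1) 3 0 (.z 1)
 .cnil (.brow 510 2 0 (.z 1) 3 0 (.z 1)
 .cnil (.brow 511 2 0 (.z 1) 3 0 (.z 1)
 .cnil (.brow 512 2 0 (.z 1) 3 0 (.z 1)
 .cnil (.brow 513 2 0 (.z 1) 3 0 (.z 1)
 .cnil (.brow 514 2 0 (.z 1) 3 0 (.z 1)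
 .cnil (.brow 515 2 0 (.z 1) 3 0 (.z 1)
 .cnil (.brow 516 2 0 (.z 1) 3 0 (.z 1)
 .cnil (.brow 517 2 0 (.z 1) 3 0 (.z 1)
 .cnil (.brow 518 2 0 (.z 1) 3 0 (.z 1)
 .cnil (.brow 519 2 0 (.z 1) 3 0 (.z 1)
 .cnil (.brow 520 2 0 (.z 1) 3 0 (.z 1)
 .cnil (.brow 521 2 0 (.z 1) 3 0 (.z 1)
 .cnil (.brow 522 2 0 (.z 1) 3 0 (.z 1)
 .cnil (.brow 523 2 0 (.z 1) 3 0 (.z 1)
 .cnil (.brow 524 2 0 (.z 1) 3 0 (.z 1)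
 .cnil (.brow 525 2 0 (.z 1) 3 0 (.z 1)
 .cnil (.brow 526 2 0 (.z 1) 3 0 (.z 1)
 .cnil (.brow 527 2 0 (.z 1) 3 0 (.z 1)
 .cnil .bnil)))))))))))))))))))))))))))))))))))))))))))))))))))))))))
 (.grow 489 (.brow 502 3 0 (.z 1) 2 0 (.z 1)
 .cnil (.brow 503 3 0 (.z 1) 2 0 (.z 1)
 .cnil (.brow 504 3 0 (.z 1) 2 0 (.z 1)
 .cnil (.brow 505 3 0 (.z 1) 2 0 (.z 1)
 .cnil (.brow 506 3 0 (.z 1) 2 0 (.z 1)
 .cnil (.brow 507 3 0 (.z 1) 2 0 (.z 1)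
 .cnil (.brow 508 3 0 (.z 1) 2 0 (.z 1)
 .cnil (.brow 509 3 0 (.z 1) 2 0 (.z 1)
 .cnil (.brow 510 3 0 (.z 1) 2 0 (.z 1)
 .cnil (.brow 511 3 0 (.z 1) 2 0 (.z 1)
 .cnil (.brow 512 3 0 (.z 1) 2 0 (.z 1)
 .cnil (.brow 513 3 0 (.z 1) 2 0 (.z 1)
 .cnil (.brow 514 3 0 (.z 1) 2 0 (.z 1)
 .cnil (.brow 515 3 0 (.z 1) 2 0 (.z 1)
 .cnil (.brow 516 3 0 (.z 1) 2 0 (.z 1)
 .cnil (.brow 517 3 0 (.z 1) 2 0 (.z 1)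
 .cnil (.brow 517 3 0 (.t 3 1 (.z 32768)) 2 0 (.z 1)
 (.child (.pre (.c 5 60 0 0 .nil) (.c 0x800080018002 62 (.t 0 1 (.z 2)) (.z 1) .nil) .nil (.prune (.leaf 0x3088000e28800400000302) .keep .gnil)) .cnil) (.brow 516 3 0 (.t 3 1 (.z 32768)) 3 0 (.t 1 5 (.t 0 204096 (.z 65536)))
 (.child (.pre (.c 5 60 0 0 (.c 1 60 62 0 .nil)) .nil .nil (.dead (.t 1 1 (.t 0 2 (.z 0))))) (.child (.np 60 3) .cnil)) (.brow 515 3 0 (.t 3 1 (.z 32768)) 3 0 (.t 1 1 (.t 0 45793 (.z 16384)))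
 (.child (.pre (.c 5 60 0 0 .nil) (.c 0x7fff80008001 60 (.t 0 1 (.z 1)) (.z 1) .nil) .nil (.prune (.leaf 0x6204000a38800080000302) .keep .gnil)) (.child (.pre (.c 5 60 0 0 (.c 0 60 0 0 .nil)) (.c 0x7fff80008002 60 (.t 0 2 (.t 1 1 (.z 2))) (.z 1) .nil) .nil (.prune (.leaf 0x3004000e18800080000302) .keep .gnil)) .cnil)) (.brow 514 3 0 (.t 3 1 (.z 32768)) 3 0 (.t 1 1 (.t 0 40562 (.z 16384)))
 (.child (.pre (.c 5 60 0 0 (.c 1 60 62 0 .nil)) .nil .nil (.dead (.t 1 1 (.t 0 2 (.z 0))))) (.child (.pre (.c 0 60 0 0 (.c 5 60 0 0 (.c 1 60 61 0 .nil))) .nil .nil (.dead (.t 2 1 (.t 1 2 (.t 0 1 (.z 0)))))) .cnil)) (.brow 513 3 0 (.t 3 1 (.z 32768)) 3 0 (.t 1 37 (.t 0 1926505 (.z 1048576)))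
 (.child (.pre (.c 5 60 0 0 .nil) (.c 0x7fff80008001 60 (.t 0 1 (.z 1)) (.z 1) .nil) .nil (.prune (.leaf 0x618800080000301) .keep .gnil)) .cnil) (.brow 512 3 0 (.t 3 1 (.z 32768)) 3 0 (.t 1 1 (.t 0 49742 (.z 32768)))
 (.child (.pre (.c 5 60 0 0 (.c 1 60 62 0 .nil)) .nil .nil (.dead (.t 1 1 (.t 0 2 (.z 0))))) .cnil) (.brow 511 3 0 (.t 3 1 (.z 32768)) 3 0 (.t 1 1 (.t 0 78561 (.z 65536)))
 (.child (.pre (.c 5 60 0 0 .nil) (.c 0x7fff80018001 60 (.t 0 1 (.z 1)) (.z 1) .nil) .nil (.prune (.leaf 0x12140051020000e18c00080000303) .keep .gnil)) .cnil) (.brow 510 3 0 (.t 3 1 (.z 32768)) 3 0 (.z 1)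
 (.child (.pre (.c 5 60 0 0 (.c 1 60 62 0 .nil)) .nil .nil (.dead (.t 1 1 (.t 0 2 (.z 0))))) .cnil) (.brow 509 3 0 (.t 1 1 (.z 32768)) 3 0 (.z 1)
 (.child (.pre (.c 0 60 0 0 (.c 5 60 0 0 .nil)) (.c 0x800780058003 70 (.z 1) (.z 1) (.c 0x80017fff8001 60 (.t 3 1 (.t 1 19134 (.z 65536))) (.t 1 1 (.z 1)) .nil)) .nil (.prune (.desc (.desc (.desc .keep (.desc .keep (.desc (.desc (.desc .keep (.desc .keep (.desc (.desc (.desc .keep (.desc .keep (.desc (.desc (.desc .keep (.desc .keep (.split 2 1 1 (.split 1 1 2 .keep (.leaf 0x8862008c241002604880182b160580000404)) (.leaf 0x110c4016124800e2b160580000303)))) .keep) .keep))) .keep) .keep))) .keep) .keep))) .keep) .keep) .keep (.xsplit 0x800180007fff (.xsplit 0x80027fff8000 (.pre .nil (.c 0x7fff80008001 60 (.t 5 1 (.t 0 78561 (.z 65536))) (.z 1)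 .nil) .nil (.prune (.leaf 0x12100054310007209c8009318007609060500000305) .keep .gnil)) (.label (.pre (.c 6 59 65 0 .nil) .nil .nil (.dead (.t 6 2 (.t 1 131072 (.t 0 1 (.z 0)))))) (.forced (.pre (.c 2 59 63 64 .nil) .nil .nil (.dead (.t 3 2 (.t 0 1 (.z 0)))))))) (.xsplit 0x80037fff8000 (.label (.pre (.c 6 59 65 0 .nil) .nil .nil (.dead (.t 6 24 (.t 2 1048576 (.t 0 5 (.z 0)))))) (.forced (.pre (.c 2 59 63 64 .nil) .nil .nil (.dead (.t 3 2 (.t 0 1 (.z 0))))))) (.label (.pre (.c 6 59 65 0 .nil) .nil .nil (.dead (.t 6 24 (.t 2 1048576 (.t 0 5 (.z 0)))))) (.forced (.pre (.c 2 59 63 64 .nil) .nil .nil (.dead (.t 3 2 (.t 0 1 (.z 0))))))))))) .cnil) (.brow 508 3 0 (.t 1 1 (.z 32768)) 3 0 (.z 1)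
 (.child (.pre (.c 0 60 0 0 (.c 1 60 62 0 (.c 5 60 0 0 .nil))) (.c 0x800780058003 70 (.z 1) (.z 1) .nil) .nil (.prune (.desc (.desc (.desc .keep (.desc .keep (.desc (.desc (.desc .keep (.desc .keep (.desc (.desc (.desc .keep (.desc .keep (.desc (.desc (.desc .keep (.desc .keep (.split 2 1 1 (.split 1 1 2 .keep (.leaf 0x2090400b024400e2b160504210303)) (.leaf 0x62b1605612480084210302)))) .keep) .keep))) .keep) .keep))) .keep) .keep))) .keep) .keep) .keep (.xsplit 0x800180007fff (.pre .nil (.c 0x800380028001 67 (.z 1) (.z 1) (.c 0x800180008001 61 (.t 2 1 (.z 2)) (.z 1) (.c 0x7fff80008001 60 (.t 0 1 (.z 1)) (.z 1) .nil))) .nil (.prune (.leaf 0x28118801a6010201902100012010c404e0088203951b08028709c0019d09c0062c1100062a0a88008139c0050539c0010000070c) .keep .gnil)) (.xsplit 0x800280007fff (.pre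 .nil (.c 0x80037fff8001 60 (.t 1 1 (.t 2 1 (.z 1))) (.t 0 1 (.t 4 1 (.z 1))) .nil) .nil (.prune (.desc (.desc (.desc .keep (.desc .keep (.desc (.desc (.desc .keep (.desc .keep (.desc (.leaf 0x2e5308011802000e6108000c52ad2008a26000a284400150096402c102c00080000608) .keep))) .keep) .keep))) .keep) .keep) .keep .gnil)) (.label (.pre (.c 6 59 60 0 .nil) .nil .nil (.dead (.t 4 45875 (.t 3 91750 (.t 0 1 (.z 0)))))) (.forced (.pre (.c 0 59 0 0 .nil) .nil .nil (.dead (.t 4 2 (.t 3 4 (.t 0 3 (.z 0)))))))))))) .cnil) (.brow 507 3 0 (.t 1 3 (.t 0 18154 (.z 65536))) 3 0 (.z 1)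
 (.child (.pre (.c 0 60 0 0 (.c 5 60 0 0 .nil)) (.c 0x800780058003 70 (.z 1) (.z 1) (.c 0x80027fff8003 60 (.z 1) (.z 1) .nil)) .nil (.prune (.desc (.desc (.desc .keep (.desc .keep (.desc (.desc (.desc .keep (.desc .keep (.desc (.desc (.desc .keep (.desc .keep (.desc (.desc (.desc .keep (.desc .keep (.split 2 1 1 (.split 1 1 2 .keep (.leaf 0x4330201e2b1605c09040092a460100000304)) (.leaf 0x12a46013330201e124800c2b160580000304)))) .keep) .keep))) .keep) .keep))) .keep) .keep))) .keep) .keep) .keep (.xsplit 0x80027fff8002 (.pre .nil (.c 0x800180008001 61 (.t 1 1 (.z 1)) (.z 1) .nil) .nil (.prune (.leaf 0x6384005618400080000302) .keep .gnil)) (.xsplit 0x800180007fff (.pre .nil (.c 0x80027fff8002 60 (.t 1 1 (.z 1)) (.t 0 1 (.t 3 1 (.z 1))) (.c 0x800180008001 61 (.t 1 1 (.z 1)) (.z 1) (.c 0x7fff80008001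 60 (.t 0 1 (.z 1)) (.z 1) .nil))) .nil (.prune (.leaf 0x84e000c444001b811040831840012008100d8462006410800d100800080000408) .keep .gnil)) (.label (.pre (.c 6 59 65 0 .nil) .nil .nil (.dead (.t 3 568032 (.t 2 1048576 (.t 0 7 (.z 0)))))) (.forced (.pre (.c 2 59 63 64 .nil) .nil .nil (.dead (.t 3 2 (.t 0 1 (.z 0))))))))))) .cnil) (.brow 506 3 0 (.t 1 13 (.t 0 156306 (.z 262144))) 3 0 (.z 1)
 (.child (.pre (.c 0 60 0 0 (.c 1 60 62 0 (.c 5 60 0 0 .nil))) .nil .nil (.xsplit 0x800180007fff (.pre .nil (.c 0x800180008001 61 (.t 2 1 (.z 2)) (.z 1) (.c 0x7fff80008001 60 (.t 0 1 (.z 1)) (.z 1) .nil)) .nil (.prune (.leaf 0x2084001101c402e184000908820280000304) .keep .gnil)) (.label (.pre (.c 6 59 60 0 .nil) .nil .nil (.dead (.t 3 47331 (.t 2 87381 (.t 0 1 (.z 0)))))) (.forced (.pre (.c 0 59 0 0 .nil)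 .nil .nil (.dead (.t 3 1 (.t 2 1 (.t 0 1 (.z 0)))))))))) .cnil) (.brow 505 3 0 (.t 1 61 (.t 0 959985 (.z 1048576))) 3 0 (.z 1)
 (.child (.pre (.c 0 60 0 0 (.c 5 60 0 0 .nil)) .nil .nil (.xsplit 0x800180007fff (.pre .nil (.c 0x800180008001 61 (.t 1 1 (.z 1)) (.z 1) (.c 0x7fff80008001 60 (.t 0 1 (.z 1)) (.z 1) .nil)) .nil (.prune (.leaf 0x2084001101c402e18400080000303) .keep .gnil)) (.label (.pre (.c 6 59 65 0 .nil) .nil .nil (.dead (.t 2 1326486 (.t 1 1048576 (.t 0 6 (.z 0)))))) (.forced (.pre (.c 2 59 63 64 .nil) .nil .nil (.dead (.t 2 2 (.t 0 1 (.z 0))))))))) .cnil) (.brow 503 3 0 (.t 1 3 (.t 0 50922 (.z 32768))) 3 0 (.z 1)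
 (.child (.pre (.c 5 60 0 0 (.c 0 60 0 0 (.c 1 60 61 0 .nil))) .nil .nil (.dead (.t 2 1 (.t 1 1 (.t 0 2 (.z 0)))))) (.child (.pre (.c 0 60 0 0 (.c 1 60 62 0 (.c 5 60 0 0 .nil))) .nil .nil (.xsplit 0x800180007fff (.pre .nil (.c 0x800180008001 61 (.t 2 1 (.z 2)) (.z 1) (.c 0x7fff80008001 60 (.t 0 1 (.z 1)) (.z 1) .nil)) .nil (.prune (.leaf 0x30840013184000e38400480000303) .keep .gnil)) (.label (.pre (.c 6 59 60 0 .nil) .nil .nil (.dead (.t 3 47891 (.t 2 85700 (.t 0 1 (.z 0)))))) (.forced (.pre (.c 0 59 0 0 .nil) .nil .nil (.dead (.t 3 1 (.t 2 1 (.t 0 1 (.z 0)))))))))) .cnil)) (.brow 502 2 0 (.z 1) 3 0 (.z 1)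
 (.child (.pre (.c 0 60 0 0 (.c 5 60 0 0 .nil)) .nil .nil (.xsplit 0x7fff80017ffe (.xsplit 0x80017fff8003 (.pre .nil (.c 0x80017fff8003 60 (.t 2 1 (.z 2)) (.t 0 1 (.z 1)) .nil) .nil (.prune (.leaf 0x5008000e38400400000302) .keep .gnil)) (.label (.pre (.c 6 59 60 0 .nil) .nil .nil (.dead (.t 6 509 (.t 3 18854706 (.t 0 192 (.z 0)))))) (.forced (.pre (.c 0 59 0 0 .nil) .nil .nil (.dead (.t 6 1 (.t 3 37036 (.t 0 24716 (.z 0))))))))) (.pre .nil (.c 0x800180008001 61 (.t 2 162612 (.t 4 26 (.z 1048576))) (.z 1) .nil) .nil (.prune (.leaf 0x6184000e38400400000302) .keep .gnil)))) (.child (.pre (.c 0 60 0 0 (.c 5 60 0 0 .nil)) .nil .nil (.xsplit 0x800180007fff (.pre .nil (.c 0x7fff80008001 60 (.t 0 1 (.z 1)) (.z 1) .nil) .nil (.prune (.leaf 0x2084000e38400400000302) .keep .gnil)) (.label (.pre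 (.c 6 59 65 0 .nil) .nil .nil (.dead (.t 2 1187318 (.t 1 1048576 (.t 0 5 (.z 0)))))) (.forced (.pre (.c 2 59 63 64 .nil) .nil .nil (.dead (.t 2 2 (.t 0 1 (.z 0))))))))) .cnil)) (.brow 503 2 0 (.z 1) 3 0 (.z 1)
 .cnil (.brow 504 2 0 (.z 1) 3 0 (.z 1)
 .cnil (.brow 505 2 0 (.z 1) 3 0 (.z 1)
 .cnil (.brow 506 2 0 (.z 1) 3 0 (.z 1)
 .cnil (.brow 507 2 0 (.z 1) 3 0 (.z 1)
 .cnil (.brow 508 2 0 (.z 1) 3 0 (.z 1)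
 .cnil (.brow 509 2 0 (.z 1) 3 0 (.z 1)
 .cnil (.brow 510 2 0 (.z 1) 3 0 (.z 1)
 .cnil (.brow 511 2 0 (.z 1) 3 0 (.z 1)
 .cnil (.brow 512 2 0 (.z 1) 3 0 (.z 1)
 .cnil (.brow 513 2 0 (.z 1) 3 0 (.z 1)
 .cnil (.brow 514 2 0 (.z 1) 3 0 (.z 1)
 .cnil (.brow 515 2 0 (.z 1) 3 0 (.z 1)
 .cnil (.brow 516 2 0 (.z 1) 3 0 (.z 1)
 .cnil (.brow 517 2 0 (.z 1) 3 0 (.z 1)
 .cnil (.brow 518 2 0 (.z 1) 3 0 (.z 1)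
 .cnil (.brow 519 2 0 (.z 1) 3 0 (.z 1)
 .cnil (.brow 520 2 0 (.z 1) 3 0 (.z 1)
 .cnil (.brow 521 2 0 (.z 1) 3 0 (.z 1)
 .cnil (.brow 522 2 0 (.z 1) 3 0 (.z 1)
 .cnil (.brow 523 2 0 (.z 1) 3 0 (.z 1)
 .cnil (.brow 524 2 0 (.z 1) 3 0 (.z 1)
 .cnil (.brow 525 2 0 (.z 1) 3 0 (.z 1)
 .cnil (.brow 526 2 0 (.z 1) 3 0 (.z 1)
 .cnil (.brow 527 2 0 (.z 1) 3 0 (.z 1)
 .cnil .bnil))))))))))))))))))))))))))))))))))))))))))))))))))))))))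
 (.grow 490 (.brow 502 3 0 (.z 1) 2 0 (.z 1)
 .cnil (.brow 503 3 0 (.z 1) 2 0 (.z 1)
 .cnil (.brow 504 3 0 (.z 1) 2 0 (.z 1)
 .cnil (.brow 505 3 0 (.z 1) 2 0 (.z 1)
 .cnil (.brow 506 3 0 (.z 1) 2 0 (.z 1)
 .cnil (.brow 507 3 0 (.z 1) 2 0 (.z 1)
 .cnil (.brow 508 3 0 (.z 1) 2 0 (.z 1)
 .cnil (.brow 509 3 0 (.z 1) 2 0 (.z 1)
 .cnil (.brow 510 3 0 (.z 1) 2 0 (.z 1)
 .cnil (.brow 511 3 0 (.z 1) 2 0 (.z 1)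
 .cnil (.brow 512 3 0 (.z 1) 2 0 (.z 1)
 .cnil (.brow 513 3 0 (.z 1) 2 0 (.z 1)
 .cnil (.brow 514 3 0 (.z 1) 2 0 (.z 1)
 .cnil (.brow 515 3 0 (.z 1) 2 0 (.z 1)
 .cnil (.brow 516 3 0 (.z 1) 2 0 (.z 1)
 .cnil (.brow 516 3 0 (.t 3 1 (.z 32768)) 2 0 (.z 1)
 (.child (.pre (.c 5 60 0 0 (.c 0 61 0 0 .nil)) .nil .nil (.dead (.t 1 2 (.t 0 1 (.z 0))))) .cnil) (.brow 515 3 0 (.t 3 1 (.z 32768)) 2 0 (.z 1)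
 (.child (.np 60 2) (.child (.pre (.c 5 60 0 0 (.c 1 60 63 0 .nil)) (.c 0x7fff80008001 60 (.t 0 1 (.z 2)) (.z 1) .nil) .nil (.prune (.leaf 0x6204000c38800080000302) .keep .gnil)) (.child (.np 60 2) .cnil))) (.brow 514 3 0 (.t 3 1 (.z 32768)) 3 0 (.t 1 61 (.t 0 3057137 (.z 1048576)))
 (.child (.pre (.c 5 60 0 0 (.c 0 61 0 0 .nil)) .nil .nil (.dead (.t 1 2 (.t 0 1 (.z 0))))) (.child (.pre (.c 5 60 0 0 (.c 1 60 64 0 .nil)) (.c 0x7ffe80018004 60 (.t 0 1 (.z 1)) (.t 1 1 (.z 2)) (.c 0x7fff80008001 60 (.t 0 1 (.z 2)) (.z 1) .nil)) .nil (.prune (.leaf 0x6188000e20400100000302) .keep .gnil)) .cnil)) (.brow 513 3 0 (.t 3 1 (.z 32768)) 3 0 (.t 1 13 (.t 0 680594 (.z 262144)))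
 (.child (.np 60 2) (.child (.pre (.c 5 60 0 0 (.c 1 60 63 0 .nil)) (.c 0x7fff80008001 60 (.t 0 1 (.z 2)) (.z 1) .nil) .nil (.prune (.leaf 0x618800080000301) .keep .gnil)) .cnil)) (.brow 512 3 0 (.t 3 1 (.z 32768)) 3 0 (.t 1 3 (.t 0 149226 (.z 65536)))
 (.child (.pre (.c 5 60 0 0 (.c 0 61 0 0 .nil)) .nil .nil (.dead (.t 1 2 (.t 0 1 (.z 0))))) (.child (.pre (.c 5 60 0 0 (.c 1 60 64 0 .nil)) (.c 0x800080018001 62 (.t 0 1 (.z 3)) (.z 1) (.c 0x7fff80008001 60 (.t 0 1 (.z 2)) (.z 1) .nil)) .nil (.prune (.leaf 0x6188001308800080000302) .keep .gnil)) .cnil)) (.brow 511 3 0 (.t 3 1 (.z 32768)) 3 0 (.t 1 1 (.t 0 64151 (.z 32768)))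
 (.child (.np 60 2) (.child (.pre (.c 5 60 0 0 (.c 1 60 63 0 .nil)) (.c 0x7fff80008001 60 (.t 0 1 (.z 2)) (.z 1) .nil) .nil (.prune (.leaf 0x6188000e38800511202025088202331c405122000500000306) .keep .gnil)) .cnil)) (.brow 510 3 0 (.t 3 1 (.z 32768)) 3 0 (.t 1 1 (.t 0 53690 (.z 32768)))
 (.child (.pre (.c 5 60 0 0 (.c 0 61 0 0 .nil)) .nil .nil (.dead (.t 1 2 (.t 0 1 (.z 0))))) (.child (.pre (.c 5 60 0 0 (.c 0 60 0 0 .nil)) (.c 0x7ffe80018001 60 (.t 0 1 (.z 1)) (.t 1 1 (.z 1)) .nil) .nil (.prune (.leaf 0x1214005618c000902000080000303) .keep .gnil)) .cnil)) (.brow 509 3 0 (.t 3 1 (.z 32768)) 3 0 (.t 0 1 (.z 1))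
 (.child (.np 60 2) .cnil) (.brow 508 3 0 (.t 1 1 (.z 32768)) 3 0 (.t 0 1 (.z 1))
 (.child (.pre (.c 5 60 0 0 .nil) .nil .nil (.prune (.leaf 0x6284005e01000500000302) .keep .gnil)) .cnil) (.brow 507 3 0 (.t 1 1 (.z 32768)) 3 0 (.t 0 1 (.z 1))
 (.child (.np 60 2) .cnil) (.brow 506 3 0 (.t 1 1 (.t 0 2564 (.z 16384))) 3 0 (.t 0 1 (.z 1))
 (.child (.pre (.c 2 60 63 64 (.c 5 60 0 0 .nil)) (.c 0x800180008001 62 (.t 3 1 (.t 1 20009 (.z 16384))) (.z 1) (.c 0x80017fff8001 60 (.t 3 1 (.t 1 20009 (.z 16384))) (.t 3 9 (.t 1 274137 (.z 65536))) .nil)) .nil (.prune (.leaf 0x3384000e00800100000302) .keep .gnil)) .cnil) (.brow 505 3 0 (.t 1 1 (.t 0 7794 (.z 16384))) 3 0 (.t 0 1 (.z 1))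
 (.child (.np 60 2) .cnil) (.brow 504 3 0 (.t 1 1 (.t 0 13025 (.z 16384))) 3 0 (.t 0 1 (.z 1))
 (.child (.pre (.c 0 60 0 0 (.c 2 60 63 64 (.c 5 60 0 0 .nil))) .nil .nil (.xsplit 0x80027fff8002 (.pre .nil (.c 0x80007fff8003 60 (.t 1 1 (.t 0 1 (.z 1))) (.t 3 2 (.t 2 1 (.z 2))) (.c 0x800180008001 61 (.t 3 2 (.t 2 3 (.z 2))) (.z 1) .nil)) .nil (.prune (.leaf 0x3084000e184001408820280000303) .keep .gnil)) (.label (.pre (.c 6 59 60 0 .nil) .nil .nil (.dead (.t 3 117964 (.t 2 39321 (.t 0 1 (.z 0)))))) (.forced (.pre (.c 0 59 0 0 .nil) .nil .nil (.dead (.t 3 4 (.t 2 1 (.t 0 2 (.z 0)))))))))) .cnil) (.brow 503 3 0 (.t 1 5 (.t 0 73024 (.z 65536))) 3 0 (.t 0 1 (.z 1))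
 (.child (.np 60 2) .cnil) (.brow 502 2 0 (.z 1) 3 0 (.t 0 1 (.z 1))
 (.child (.pre (.c 0 60 0 0 (.c 2 60 63 64 (.c 5 60 0 0 .nil))) .nil .nil (.xsplit 0x80027fff8003 (.label (.pre (.c 6 59 60 0 .nil) .nil .nil (.dead (.t 3 131072 (.t 2 21845 (.t 0 1 (.z 0)))))) (.forced (.pre (.c 0 59 0 0 .nil) .nil .nil (.dead (.t 3 4 (.t 2 1 (.t 0 2 (.z 0)))))))) (.label (.pre (.c 6 59 60 0 .nil) .nil .nil (.dead (.t 3 131072 (.t 2 21845 (.t 0 1 (.z 0)))))) (.forced (.pre (.c 0 59 0 0 .nil) .nil .nil (.dead (.t 3 4 (.t 2 1 (.t 0 2 (.z 0)))))))))) .cnil) (.brow 503 2 0 (.z 1) 3 0 (.z 1)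
 .cnil (.brow 504 2 0 (.z 1) 3 0 (.z 1)
 .cnil (.brow 505 2 0 (.z 1) 3 0 (.z 1)
 .cnil (.brow 506 2 0 (.z 1) 3 0 (.z 1)
 .cnil (.brow 507 2 0 (.z 1) 3 0 (.z 1)
 .cnil (.brow 508 2 0 (.z 1) 3 0 (.z 1)
 .cnil (.brow 509 2 0 (.z 1) 3 0 (.z 1)
 .cnil (.brow 510 2 0 (.z 1) 3 0 (.z 1)
 .cnil (.brow 511 2 0 (.z 1) 3 0 (.z 1)
 .cnil (.brow 512 2 0 (.z 1) 3 0 (.z 1)
 .cnil (.brow 513 2 0 (.z 1) 3 0 (.z 1)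
 .cnil (.brow 514 2 0 (.z 1) 3 0 (.z 1)
 .cnil (.brow 515 2 0 (.z 1) 3 0 (.z 1)
 .cnil (.brow 516 2 0 (.z 1) 3 0 (.z 1)
 .cnil (.brow 517 2 0 (.z 1) 3 0 (.z 1)
 .cnil (.brow 518 2 0 (.z 1) 3 0 (.z 1)
 .cnil (.brow 519 2 0 (.z 1) 3 0 (.z 1)
 .cnil (.brow 520 2 0 (.z 1) 3 0 (.z 1)
 .cnil (.brow 521 2 0 (.z 1) 3 0 (.z 1)
 .cnil (.brow 522 2 0 (.z 1) 3 0 (.z 1)
 .cnil (.brow 523 2 0 (.z 1) 3 0 (.z 1)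
 .cnil (.brow 524 2 0 (.z 1) 3 0 (.z 1)
 .cnil (.brow 525 2 0 (.z 1) 3 0 (.z 1)
 .cnil (.brow 526 2 0 (.z 1) 3 0 (.z 1)
 .cnil (.brow 527 2 0 (.z 1) 3 0 (.z 1)
 .cnil (.brow 528 2 0 (.z 1) 3 0 (.z 1)
 .cnil (.brow 529 2 0 (.z 1) 3 0 (.z 1)
 .cnil .bnil)))))))))))))))))))))))))))))))))))))))))))))))))))))))))
 (.grow 492 (.brow 504 3 0 (.z 1) 2 0 (.z 1)
 .cnil (.brow 505 3 0 (.z 1) 2 0 (.z 1)
 .cnil (.brow 506 3 0 (.z 1) 2 0 (.z 1)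
 .cnil (.brow 507 3 0 (.z 1) 2 0 (.z 1)
 .cnil (.brow 508 3 0 (.z 1) 2 0 (.z 1)
 .cnil (.brow 509 3 0 (.z 1) 2 0 (.z 1)
 .cnil (.brow 510 3 0 (.z 1) 2 0 (.z 1)
 .cnil (.brow 511 3 0 (.z 1) 2 0 (.z 1)
 .cnil (.brow 512 3 0 (.z 1) 2 0 (.z 1)
 .cnil (.brow 513 3 0 (.z 1) 2 0 (.z 1)
 .cnil (.brow 514 3 0 (.z 1) 2 0 (.z 1)
 .cnil (.brow 515 3 0 (.z 1) 2 0 (.z 1)
 .cnil (.brow 516 3 0 (.t 3 1 (.z 16384)) 2 0 (.z 1)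
 .cnil (.brow 516 3 0 (.t 3 1 (.z 32768)) 2 0 (.z 1)
 (.child (.pre (.c 5 60 0 0 .nil) (.c 0x7fff80018003 60 (.t 0 1 (.z 2)) (.z 1) .nil) .nil (.prune (.leaf 0x6004000919800080000302) .keep .gnil)) .cnil) (.brow 515 3 0 (.t 3 1 (.z 32768)) 3 0 (.t 1 19 (.t 0 963252 (.z 262144)))
 (.child (.pre (.c 5 60 0 0 (.c 1 60 61 0 .nil)) .nil .nil (.dead (.t 1 1 (.t 0 1 (.z 0))))) (.child (.pre (.c 5 60 0 0 (.c 1 60 62 0 .nil)) (.c 0x7fff80008001 60 (.t 0 1 (.z 2)) (.z 1) .nil) .nil (.prune (.leaf 0x6204000939800080000302) .keep .gnil)) .cnil)) (.brow 514 3 0 (.t 3 1 (.z 32768)) 3 0 (.t 1 1 (.t 0 54972 (.z 16384)))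
 (.child (.pre (.c 5 60 0 0 .nil) (.c 0x7fff80018002 60 (.t 0 1 (.z 2)) (.z 1) .nil) .nil (.prune (.leaf 0x638800080000301) .keep .gnil)) (.child (.pre (.c 5 60 0 0 (.c 0 60 0 0 .nil)) (.c 0x7fff80008001 60 (.t 0 1 (.z 2)) (.z 1) .nil) .nil (.prune (.leaf 0x618800080000301) .keep .gnil)) .cnil)) (.brow 513 3 0 (.t 3 1 (.z 32768)) 3 0 (.t 1 1 (.t 0 49742 (.z 16384)))
 (.child (.pre (.c 5 60 0 0 (.c 1 60 61 0 .nil)) .nil .nil (.dead (.t 1 1 (.t 0 1 (.z 0))))) (.child (.pre (.c 5 60 0 0 (.c 1 60 62 0 .nil)) (.c 0x800080018001 62 (.t 1 1 (.t 0 2 (.z 3))) (.z 1) (.c 0x7fff80008001 60 (.t 0 1 (.z 2)) (.z 1) .nil)) .nil (.prune (.leaf 0x6188001208800080000302) .keep .gnil)) .cnil)) (.brow 512 3 0 (.t 3 1 (.z 32768)) 3 0 (.t 1 3 (.t 0 178045 (.z 65536)))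
 (.child (.pre (.c 5 60 0 0 .nil) (.c 0x7fff80018001 60 (.t 0 1 (.z 2)) (.z 1) .nil) .nil (.prune (.leaf 0x1220000e388000b388005201c40200000304) .keep .gnil)) (.child (.pre (.c 5 60 0 0 (.c 0 60 0 0 .nil)) (.c 0x800080018001 62 (.t 3 1 (.t 0 70126 (.z 262144))) (.z 1) (.c 0x7fff80008001 60 (.t 0 1 (.z 2)) (.z 1) .nil)) .nil (.prune (.leaf 0x6188001308800080000302) .keep .gnil)) .cnil)) (.brow 511 3 0 (.t 3 1 (.z 32768)) 3 0 (.t 1 1 (.t 0 78561 (.z 32768)))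
 (.child (.pre (.c 5 60 0 0 (.c 1 60 61 0 .nil)) .nil .nil (.dead (.t 1 1 (.t 0 1 (.z 0))))) (.child (.pre (.c 5 60 0 0 (.c 1 60 62 0 .nil)) (.c 0x7fff80008001 60 (.t 0 1 (.z 2)) (.z 1) .nil) .nil (.prune (.leaf 0x6188000a01c402112020212200053088202638800500000306) .keep .gnil)) .cnil)) (.brow 510 3 0 (.t 3 1 (.z 32768)) 3 0 (.t 1 1 (.t 0 115278 (.z 65536)))
 (.child (.pre (.c 5 60 0 0 .nil) (.c 0x7ffe80028001 60 (.t 0 1 (.z 1)) (.t 4 1 (.z 32768)) .nil) .nil (.prune (.leaf 0x11a4005638c00080000302) .keep .gnil)) .cnil) (.brow 509 3 0 (.t 3 1 (.z 32768)) 3 0 (.t 0 1 (.z 1))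
 (.child (.pre (.c 5 60 0 0 (.c 0 60 0 0 (.c 1 60 61 0 .nil))) .nil .nil (.dead (.t 2 1 (.t 1 1 (.t 0 2 (.z 0)))))) .cnil) (.brow 508 3 0 (.t 3 3 (.z 65536)) 3 0 (.t 0 1 (.z 1))
 (.child (.pre (.c 0 60 0 0 (.c 5 60 0 0 .nil)) .nil .nil (.prune (.leaf 0x408c005e010005138c002919c00500000304) .keep .gnil)) .cnil) (.brow 507 3 0 (.t 3 2 (.t 1 1 (.z 65536))) 3 0 (.t 0 1 (.z 1))
 (.child (.pre (.c 5 60 0 0 (.c 0 60 0 0 (.c 1 60 61 0 .nil))) .nil .nil (.dead (.t 2 1 (.t 1 1 (.t 0 2 (.z 0)))))) .cnil) (.brow 506 3 0 (.t 3 1 (.t 1 2 (.z 65536))) 3 0 (.t 0 1 (.z 1))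
 (.child (.pre (.c 0 60 0 0 (.c 5 60 0 0 .nil)) (.c 0x800180008001 61 (.t 0 1 (.z 2)) (.z 1) (.c 0x80027fff8001 60 (.t 0 1 (.z 2)) (.t 3 7 (.t 1 243764 (.z 131072))) .nil)) .nil (.prune (.leaf 0x20944016184001638400090840054210000911000500000306) .keep .gnil)) .cnil) (.brow 505 3 0 (.t 1 1 (.t 0 590 (.z 16384))) 3 0 (.t 0 1 (.z 1))
 (.child (.pre (.c 5 60 0 0 (.c 0 60 0 0 (.c 1 60 61 0 .nil))) .nil .nil (.dead (.t 2 1 (.t 1 1 (.t 0 2 (.z 0)))))) .cnil) (.brow 504 3 0 (.t 1 1 (.t 0 5820 (.z 16384))) 3 0 (.t 0 1 (.z 1))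
 (.child (.pre (.c 0 60 0 0 (.c 5 60 0 0 .nil)) .nil .nil (.xsplit 0x80027fff8002 (.pre .nil (.c 0x80027fff8002 60 (.t 1 1 (.z 2)) (.t 0 1 (.z 1)) (.c 0x800180008001 61 (.t 1 1 (.z 2)) (.z 1) .nil)) .nil (.prune (.leaf 0x6184001618400080000302) .keep .gnil)) (.label (.pre (.c 6 59 65 0 .nil) .nil .nil (.dead (.t 2 701029 (.t 1 1048576 (.t 0 6 (.z 0)))))) (.forced (.pre (.c 0 59 0 0 .nil) .nil .nil (.dead (.t 2 3 (.t 1 3 (.t 0 2 (.z 0)))))))))) .cnil) (.brow 503 3 0 (.t 1 19 (.t 0 176820 (.z 262144))) 3 0 (.t 0 1 (.z 1))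
 (.child (.pre (.c 5 60 0 0 (.c 0 60 0 0 (.c 1 60 61 0 .nil))) .nil .nil (.dead (.t 2 1 (.t 1 1 (.t 0 2 (.z 0)))))) .cnil) (.brow 502 3 0 (.t 1 1353 (.t 0 16672683 (.z 16777216))) 3 0 (.t 0 1 (.z 1))
 (.child (.pre (.c 0 60 0 0 (.c 5 60 0 0 .nil)) .nil .nil (.xsplit 0x80027fff8003 (.pre .nil (.c 0x80027fff8003 60 (.t 1 1 (.z 2)) (.t 0 1 (.z 1)) (.c 0x800180008001 61 (.t 1 1 (.z 2)) (.z 1) .nil)) .nil (.prune (.leaf 0x6184001518400080000302) .keep .gnil)) (.label (.pre (.c 6 59 65 0 .nil) .nil .nil (.dead (.t 2 597445 (.t 1 1048576 (.t 0 6 (.z 0)))))) (.forced (.pre (.c 0 59 0 0 .nil) .nil .nil (.dead (.t 2 1 (.t 1 3 (.t 0 1 (.z 0)))))))))) .cnil) (.brow 502 2 0 (.z 1) 3 0 (.t 0 1 (.z 1))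
 .cnil (.brow 503 2 0 (.z 1) 3 0 (.z 1)
 .cnil (.brow 504 2 0 (.z 1) 3 0 (.z 1)
 .cnil (.brow 505 2 0 (.z 1) 3 0 (.z 1)
 .cnil (.brow 506 2 0 (.z 1) 3 0 (.z 1)
 .cnil (.brow 507 2 0 (.z 1) 3 0 (.z 1)
 .cnil (.brow 508 2 0 (.z 1) 3 0 (.z 1)
 .cnil (.brow 509 2 0 (.z 1) 3 0 (.z 1)
 .cnil (.brow 510 2 0 (.z 1) 3 0 (.z 1)
 .cnil (.brow 511 2 0 (.z 1) 3 0 (.z 1)
 .cnil (.brow 512 2 0 (.z 1) 3 0 (.z 1)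
 .cnil (.brow 513 2 0 (.z 1) 3 0 (.z 1)
 .cnil (.brow 514 2 0 (.z 1) 3 0 (.z 1)
 .cnil (.brow 515 2 0 (.z 1) 3 0 (.z 1)
 .cnil (.brow 516 2 0 (.z 1) 3 0 (.z 1)
 .cnil (.brow 517 2 0 (.z 1) 3 0 (.z 1)
 .cnil (.brow 518 2 0 (.z 1) 3 0 (.z 1)
 .cnil (.brow 519 2 0 (.z 1) 3 0 (.z 1)
 .cnil (.brow 520 2 0 (.z 1) 3 0 (.z 1)
 .cnil (.brow 521 2 0 (.z 1) 3 0 (.z 1)
 .cnil (.brow 522 2 0 (.z 1) 3 0 (.z 1)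
 .cnil (.brow 523 2 0 (.z 1) 3 0 (.z 1)
 .cnil (.brow 524 2 0 (.z 1) 3 0 (.z 1)
 .cnil (.brow 525 2 0 (.z 1) 3 0 (.z 1)
 .cnil (.brow 526 2 0 (.z 1) 3 0 (.z 1)
 .cnil (.brow 527 2 0 (.z 1) 3 0 (.z 1)
 .cnil (.brow 528 2 0 (.z 1) 3 0 (.z 1)
 .cnil (.brow 529 2 0 (.z 1) 3 0 (.z 1)
 .cnil .bnil))))))))))))))))))))))))))))))))))))))))))))))))))))))))
 (.grow 493 (.brow 504 3 0 (.z 1) 2 0 (.z 1)
 .cnil (.brow 505 3 0 (.z 1) 2 0 (.z 1)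
 .cnil (.brow 506 3 0 (.z 1) 2 0 (.z 1)
 .cnil (.brow 507 3 0 (.z 1) 2 0 (.z 1)
 .cnil (.brow 508 3 0 (.z 1) 2 0 (.z 1)
 .cnil (.brow 509 3 0 (.z 1) 2 0 (.z 1)
 .cnil (.brow 510 3 0 (.z 1) 2 0 (.z 1)
 .cnil (.brow 511 3 0 (.z 1) 2 0 (.z 1)
 .cnil (.brow 512 3 0 (.z 1) 2 0 (.z 1)
 .cnil (.brow 513 3 0 (.z 1) 2 0 (.z 1)
 .cnil (.brow 514 3 0 (.z 1) 2 0 (.z 1)
 .cnil (.brow 515 3 0 (.t 3 1 (.z 16384)) 2 0 (.z 1)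
 .cnil (.brow 515 3 0 (.t 3 1 (.z 16384)) 2 0 (.z 1)
 (.child (.pre (.c 5 60 0 0 (.c 0 61 0 0 .nil)) .nil .nil (.dead (.t 1 3 (.t 0 1 (.z 0))))) .cnil) (.brow 514 3 0 (.t 3 1 (.z 16384)) 2 0 (.z 1)
 (.child (.np 60 3) (.child (.np 60 2) (.child (.pre (.c 5 60 0 0 (.c 1 60 63 0 (.c 0 60 0 0 .nil))) (.c 0x7fff80008001 60 (.t 0 1 (.z 3)) (.z 1) .nil) .nil (.prune (.leaf 0x618800080000301) .keep .gnil)) .cnil))) (.brow 513 3 0 (.t 3 1 (.z 16384)) 3 0 (.t 1 1 (.t 0 62177 (.z 16384)))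
 (.child (.pre (.c 5 60 0 0 (.c 0 61 0 0 .nil)) .nil .nil (.dead (.t 1 3 (.t 0 1 (.z 0))))) (.child (.pre (.c 5 60 0 0 (.c 2 60 63 64 .nil)) (.c 0x7fff80018002 60 (.t 0 2 (.t 1 1 (.z 2))) (.z 1) .nil) .nil (.prune (.leaf 0x3014000e18800080000302) .keep .gnil)) (.child (.pre (.c 5 60 0 0 (.c 0 60 0 0 .nil)) (.c 0x800080018001 62 (.t 0 1 (.z 5)) (.z 1) (.c 0x7fff80008001 60 (.t 0 1 (.z 3)) (.z 1) .nil)) .nil (.prune (.leaf 0x2088000e18800100000302) .keep .gnil)) .cnil))) (.brow 512 3 0 (.t 3 1 (.z 16384)) 3 0 (.t 1 1 (.t 0 56946 (.z 16384)))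
 (.child (.pre (.c 5 60 0 0 (.c 0 61 0 0 .nil)) .nil .nil (.dead (.t 1 3 (.t 0 1 (.z 0))))) (.child (.np 60 2) (.child (.pre (.c 5 60 0 0 (.c 1 60 63 0 (.c 0 60 0 0 .nil))) (.c 0x800080018001 62 (.t 4 1 (.t 0 55326 (.z 262144))) (.z 1) (.c 0x7fff80008001 60 (.t 0 1 (.z 3)) (.z 1) .nil)) .nil (.prune (.leaf 0x6188001308800080000302) .keep .gnil)) .cnil))) (.brow 511 3 0 (.t 3 1 (.z 16384)) 3 0 (.t 1 37 (.t 0 2975081 (.z 1048576)))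
 (.child (.np 60 3) (.child (.pre (.c 5 60 0 0 (.c 2 60 63 64 .nil)) (.c 0x800080018001 62 (.t 3 1 (.t 0 33634 (.z 131072))) (.z 1) (.c 0x7fff80018001 60 (.t 0 2 (.t 1 1 (.z 2))) (.z 1) .nil)) .nil (.prune (.leaf 0x6388001128800080000302) .keep .gnil)) .cnil)) (.brow 510 3 0 (.t 3 1 (.z 16384)) 3 0 (.t 1 1 (.t 0 82510 (.z 32768)))
 (.child (.pre (.c 5 60 0 0 (.c 0 61 0 0 .nil)) .nil .nil (.dead (.t 1 3 (.t 0 1 (.z 0))))) (.child (.np 60 2) .cnil)) (.brow 509 3 0 (.t 3 1 (.z 16384)) 3 0 (.t 1 1 (.t 0 144097 (.z 65536)))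
 (.child (.pre (.c 5 60 0 0 (.c 0 61 0 0 .nil)) .nil .nil (.dead (.t 1 3 (.t 0 1 (.z 0))))) (.child (.pre (.c 5 60 0 0 (.c 2 60 63 64 .nil)) (.c 0x7ffd80028001 60 (.t 0 1 (.z 1)) (.t 1 1 (.z 2)) .nil) .nil (.prune (.leaf 0x638c00080000301) .keep .gnil)) .cnil)) (.brow 508 3 0 (.t 3 1 (.z 16384)) 3 0 (.t 0 1 (.z 1))
 (.child (.np 60 3) (.child (.np 60 2) .cnil)) (.brow 507 3 0 (.t 3 1 (.z 16384)) 3 0 (.t 0 1 (.z 1))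
 (.child (.pre (.c 0 61 0 0 (.c 5 60 0 0 .nil)) .nil .nil (.dead (.t 5 1 (.t 1 28190 (.t 0 19034 (.z 0)))))) (.child (.pre (.c 2 60 63 64 (.c 5 60 0 0 .nil)) (.c 0x80027fff8001 60 (.t 0 7896 (.t 3 1 (.z 65536))) (.t 1 1 (.z 2)) .nil) .nil (.prune (.leaf 0x438c0009110006608c00600000303) .keep .gnil)) .cnil)) (.brow 506 3 0 (.t 1 1 (.z 16384)) 3 0 (.t 0 1 (.z 1))
 (.child (.pre (.c 1 60 63 0 (.c 5 60 0 0 .nil)) (.c 0x80017fff8001 60 (.t 3 1 (.t 1 6248 (.z 32768))) (.t 1 1 (.z 2)) .nil) .nil (.prune (.leaf 0x6210000d284006338c00080000303) .keep .gnil)) (.child (.np 60 2) .cnil)) (.brow 505 3 0 (.t 1 1 (.z 16384)) 3 0 (.t 0 1 (.z 1))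
 (.child (.np 60 3) (.child (.pre (.c 0 60 0 0 (.c 2 60 63 64 (.c 5 60 0 0 .nil))) (.c 0x80017fff8002 60 (.t 4 169 (.t 2 2084615 (.z 4194304))) (.t 2 2 (.t 1 1 (.z 2))) (.c 0x800180008001 61 (.t 0 1 (.z 2)) (.z 1) .nil)) .nil (.prune (.leaf 0x309c0055086201f064100a27380012284006910800044a7000a2420002711000500000409) .keep .gnil)) .cnil)) (.brow 504 3 0 (.t 1 1 (.z 16384)) 3 0 (.t 0 1 (.z 1))
 (.child (.pre (.c 1 60 63 0 (.c 5 60 0 0 .nil)) (.c 0x80017fff8001 60 (.t 3 3 (.t 1 32262 (.z 65536))) (.t 3 5 (.t 1 110500 (.z 65536))) .nil) .nil (.prune (.leaf 0x618400080000301) .keep .gnil)) (.child (.np 60 2) .cnil)) (.brow 503 3 0 (.t 1 1 (.t 0 3846 (.z 16384))) 3 0 (.t 0 1 (.z 1))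
 (.child (.pre (.c 1 60 64 0 (.c 5 60 0 0 .nil)) (.c 0x80017fff8002 60 (.t 3 25 (.t 1 401818 (.z 65536))) (.t 3 15 (.t 1 280412 (.z 65536))) (.c 0x80007fff8001 61 (.t 3 3 (.t 1 30351 (.z 32768))) (.z 1) .nil)) .nil (.prune (.leaf 0x6384000b08400100000302) .keep .gnil)) (.child (.pre (.c 0 60 0 0 (.c 2 60 63 64 (.c 5 60 0 0 .nil))) .nil .nil (.xsplit 0x80037fff8002 (.pre .nil (.c 0x80017fff8003 60 (.t 1 1 (.t 0 1 (.z 1))) (.t 3 2 (.t 2 1 (.z 2))) (.c 0x800180008001 61 (.t 2 1 (.z 2)) (.z 1) .nil)) .nil (.prune (.leaf 0x8880028c8400050708002638400080000404) .keep .gnil)) (.label (.pre (.c 6 59 60 0 .nil) .nil .nil (.dead (.t 3 87381 (.t 2 65536 (.t 0 1 (.z 0)))))) (.forced (.pre (.c 0 59 0 0 .nil) .nil .nil (.dead (.t 3 3 (.t 2 2 (.t 0 2 (.z 0)))))))))) .cnil)) (.brow 502 3 0 (.t 1 3 (.t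 0 18154 (.z 32768))) 3 0 (.t 0 1 (.z 1))
 (.child (.np 60 3) (.child (.np 60 2) .cnil)) (.brow 501 2 0 (.z 1) 3 0 (.t 0 1 (.z 1))
 (.child (.pre (.c 0 60 0 0 (.c 1 60 64 0 (.c 5 60 0 0 .nil))) .nil .nil (.xsplit 0x80027fff8002 (.label (.pre (.c 6 59 60 0 .nil) .nil .nil (.dead (.t 6 149 (.t 2 1823503 (.t 0 28 (.z 0)))))) (.forced (.pre (.c 0 59 0 0 .nil) .nil .nil (.dead (.t 6 1 (.t 2 12242 (.t 0 12319 (.z 0)))))))) (.label (.pre (.c 6 59 60 0 .nil) .nil .nil (.dead (.t 6 149 (.t 2 1823503 (.t 0 28 (.z 0)))))) (.forced (.pre (.c 0 59 0 0 .nil) .nil .nil (.dead (.t 6 1 (.t 2 12242 (.t 0 12319 (.z 0)))))))))) (.child (.pre (.c 0 60 0 0 (.c 2 60 63 64 (.c 5 60 0 0 .nil))) .nil .nil (.xsplit 0x80037fff8003 (.label (.pre (.c 6 59 60 0 .nil) .nil .nil (.dead (.t 3 102985 (.t 2 46811 (.t 0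 1 (.z 0)))))) (.forced (.pre (.c 0 59 0 0 .nil) .nil .nil (.dead (.t 3 3 (.t 2 2 (.t 0 2 (.z 0)))))))) (.label (.pre (.c 6 59 60 0 .nil) .nil .nil (.dead (.t 3 102985 (.t 2 46811 (.t 0 1 (.z 0)))))) (.forced (.pre (.c 0 59 0 0 .nil) .nil .nil (.dead (.t 3 3 (.t 2 2 (.t 0 2 (.z 0)))))))))) .cnil)) (.brow 502 2 0 (.z 1) 3 0 (.t 0 1 (.z 1))
 .cnil (.brow 503 2 0 (.z 1) 3 0 (.z 1)
 .cnil (.brow 504 2 0 (.z 1) 3 0 (.z 1)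
 .cnil (.brow 505 2 0 (.z 1) 3 0 (.z 1)
 .cnil (.brow 506 2 0 (.z 1) 3 0 (.z 1)
 .cnil (.brow 507 2 0 (.z 1) 3 0 (.z 1)
 .cnil (.brow 508 2 0 (.z 1) 3 0 (.z 1)
 .cnil (.brow 509 2 0 (.z 1) 3 0 (.z 1)
 .cnil (.brow 510 2 0 (.z 1) 3 0 (.z 1)
 .cnil (.brow 511 2 0 (.z 1) 3 0 (.z 1)
 .cnil (.brow 512 2 0 (.z 1) 3 0 (.z 1)
 .cnil (.brow 513 2 0 (.z 1) 3 0 (.z 1)
 .cnil (.brow 514 2 0 (.z 1) 3 0 (.z 1)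
 .cnil (.brow 515 2 0 (.z 1) 3 0 (.z 1)
 .cnil (.brow 516 2 0 (.z 1) 3 0 (.z 1)
 .cnil (.brow 517 2 0 (.z 1) 3 0 (.z 1)
 .cnil (.brow 518 2 0 (.z 1) 3 0 (.z 1)
 .cnil (.brow 519 2 0 (.z 1) 3 0 (.z 1)
 .cnil (.brow 520 2 0 (.z 1) 3 0 (.z 1)
 .cnil (.brow 521 2 0 (.z 1) 3 0 (.z 1)
 .cnil (.brow 522 2 0 (.z 1) 3 0 (.z 1)
 .cnil (.brow 523 2 0 (.z 1) 3 0 (.z 1)
 .cnil (.brow 524 2 0 (.z 1) 3 0 (.z 1)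
 .cnil (.brow 525 2 0 (.z 1) 3 0 (.z 1)
 .cnil (.brow 526 2 0 (.z 1) 3 0 (.z 1)
 .cnil (.brow 527 2 0 (.z 1) 3 0 (.z 1)
 .cnil (.brow 528 2 0 (.z 1) 3 0 (.z 1)
 .cnil (.brow 529 2 0 (.z 1) 3 0 (.z 1)
 .cnil (.brow 530 2 0 (.z 1) 3 0 (.z 1)
 .cnil (.brow 531 2 0 (.z 1) 3 0 (.z 1)
 .cnil .bnil)))))))))))))))))))))))))))))))))))))))))))))))))))))))))
 (.grow 495 (.brow 506 3 0 (.z 1) 2 0 (.z 1)
 .cnil (.brow 507 3 0 (.z 1) 2 0 (.z 1)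
 .cnil (.brow 508 3 0 (.z 1) 2 0 (.z 1)
 .cnil (.brow 509 3 0 (.z 1) 2 0 (.z 1)
 .cnil (.brow 510 3 0 (.z 1) 2 0 (.z 1)
 .cnil (.brow 511 3 0 (.z 1) 2 0 (.z 1)
 .cnil (.brow 512 3 0 (.z 1) 2 0 (.z 1)
 .cnil (.brow 513 3 0 (.z 1) 2 0 (.z 1)
 .cnil (.brow 514 3 0 (.z 1) 2 0 (.z 1)
 .cnil (.brow 515 3 0 (.t 3 1 (.z 16384)) 2 0 (.z 1)
 .cnil (.brow 515 3 0 (.t 3 1 (.z 16384)) 2 0 (.z 1)
 (.child (.pre (.c 5 60 0 0 .nil) (.c 0x7fff80018002 60 (.t 0 1 (.z 2)) (.z 1) .nil) .nil (.prune (.leaf 0x638800080000301) .keep .gnil)) .cnil) (.brow 514 3 0 (.t 3 1 (.z 16384)) 2 0 (.z 1)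
 (.child (.pre (.c 5 60 0 0 (.c 1 60 62 0 .nil)) .nil .nil (.dead (.t 1 2 (.t 0 3 (.z 0))))) (.child (.pre (.c 5 60 0 0 (.c 1 60 61 0 .nil)) .nil .nil (.dead (.t 1 1 (.t 0 1 (.z 0))))) (.child (.pre (.c 5 60 0 0 (.c 1 60 62 0 (.c 0 60 0 0 .nil))) (.c 0x800080018001 62 (.t 0 1 (.z 6)) (.z 1) (.c 0x7fff80008001 60 (.t 0 1 (.z 3)) (.z 1) .nil)) .nil (.prune (.leaf 0x6188001208800080000302) .keep .gnil)) .cnil))) (.brow 513 3 0 (.t 3 1 (.z 16384)) 3 0 (.t 1 61 (.t 0 4105713 (.z 1048576)))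
 (.child (.pre (.c 5 60 0 0 .nil) (.c 0x7ffe80028003 60 (.t 0 2 (.z 3)) (.t 4 1 (.z 32768)) .nil) .nil (.prune (.leaf 0x6388000b39800080000302) .keep .gnil)) (.child (.pre (.c 5 60 0 0 (.c 0 60 0 0 .nil)) (.c 0x7ffe80018002 60 (.t 0 1 (.z 2)) (.t 1 1 (.z 3)) (.c 0x800080018001 62 (.t 0 1 (.z 5)) (.z 1) .nil)) .nil (.prune (.leaf 0x2088001638800080000302) .keep .gnil)) .cnil)) (.brow 512 3 0 (.t 3 1 (.z 16384)) 3 0 (.t 1 13 (.t 0 942738 (.z 262144)))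
 (.child (.pre (.c 5 60 0 0 (.c 1 60 62 0 .nil)) .nil .nil (.dead (.t 1 2 (.t 0 3 (.z 0))))) (.child (.pre (.c 5 60 0 0 (.c 1 60 61 0 .nil)) .nil .nil (.dead (.t 1 1 (.t 0 1 (.z 0))))) .cnil)) (.brow 511 3 0 (.t 3 1 (.z 16384)) 3 0 (.t 1 3 (.t 0 214762 (.z 65536)))
 (.child (.pre (.c 5 60 0 0 .nil) (.c 0x7fff80018001 60 (.t 0 1 (.z 2)) (.z 1) .nil) .nil (.prune (.leaf 0x1014000e18800080000302) .keep .gnil)) (.child (.pre (.c 5 60 0 0 (.c 0 60 0 0 .nil)) (.c 0x800080018001 62 (.t 3 1 (.t 0 29281 (.z 131072))) (.z 1) (.c 0x7ffe80018001 60 (.t 0 1 (.z 2)) (.t 1 1 (.z 3)) .nil)) .nil (.prune (.leaf 0x6388001328800093a0802b01c402922000580000305) .keep .gnil)) .cnil)) (.brow 510 3 0 (.t 3 1 (.z 16384)) 3 0 (.t 1 1 (.t 0 96919 (.z 32768)))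
 (.child (.pre (.c 5 60 0 0 (.c 1 60 62 0 .nil)) .nil .nil (.dead (.t 1 2 (.t 0 3 (.z 0))))) (.child (.pre (.c 5 60 0 0 (.c 1 60 61 0 .nil)) .nil .nil (.dead (.t 1 1 (.t 0 1 (.z 0))))) .cnil)) (.brow 509 3 0 (.t 3 1 (.z 16384)) 3 0 (.t 1 1 (.t 0 86458 (.z 32768)))
 (.child (.pre (.c 5 60 0 0 .nil) .nil .nil (.prune (.leaf 0x12200051120201e38c005101c4019120e01d18c00480000306) .keep .gnil)) (.child (.pre (.c 5 60 0 0 (.c 0 60 0 0 .nil)) (.c 0x80027fff8000 60 (.t 1 31662 (.t 3 1 (.z 131072))) (.t 0 1 (.z 2)) .nil) .nil (.prune (.leaf 0x6388000c18c0052010005101c40200000304) .keep .gnil)) .cnil)) (.brow 508 3 0 (.t 3 1 (.z 16384)) 3 0 (.t 0 2 (.z 1))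
 (.child (.pre (.c 5 60 0 0 (.c 0 60 0 0 (.c 1 60 62 0 .nil))) .nil .nil (.dead (.t 2 3 (.t 1 2 (.t 0 6 (.z 0)))))) .cnil) (.brow 507 3 0 (.t 3 1 (.z 16384)) 3 0 (.t 0 2 (.z 1))
 (.child (.pre (.c 5 60 0 0 .nil) .nil .nil (.prune (.leaf 0x618c005508c005c01000500000303) .keep .gnil)) .cnil) (.brow 506 3 0 (.t 1 1 (.z 16384)) 3 0 (.t 0 2 (.z 1))
 (.child (.pre (.c 1 60 62 0 (.c 5 60 0 0 .nil)) .nil .nil (.dead (.t 3 1 (.t 1 96152 (.t 0 57412 (.z 0)))))) .cnil) (.brow 505 3 0 (.t 1 1 (.z 16384)) 3 0 (.t 0 2 (.z 1))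
 (.child (.pre (.c 0 60 0 0 (.c 5 60 0 0 .nil)) (.c 0x80017fff8001 60 (.t 3 1 (.t 1 5601 (.z 32768))) (.t 1 1 (.z 3)) .nil) .nil (.prune (.leaf 0x638400080000301) .keep .gnil)) .cnil) (.brow 504 3 0 (.t 1 1 (.z 16384)) 3 0 (.t 0 2 (.z 1))
 (.child (.pre (.c 1 60 62 0 (.c 5 60 0 0 .nil)) (.c 0x80017fff8001 60 (.t 3 1 (.t 1 7721 (.z 32768))) (.t 3 7 (.t 1 211566 (.z 262144))) .nil) .nil (.prune (.leaf 0x618400080000301) .keep .gnil)) .cnil) (.brow 503 3 0 (.t 1 1 (.z 16384)) 3 0 (.t 0 2 (.z 1))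
 (.child (.pre (.c 0 60 0 0 (.c 5 60 0 0 .nil)) (.c 0x80017fff8002 60 (.t 3 21 (.t 1 259028 (.z 262144))) (.t 3 5 (.t 1 180765 (.z 262144))) (.c 0x800180008001 61 (.t 0 1 (.z 3)) (.z 1) .nil)) .nil (.prune (.leaf 0x6384000d3840011210000908400500000304) .keep .gnil)) .cnil) (.brow 502 3 0 (.t 1 5 (.t 0 7488 (.z 65536))) 3 0 (.t 0 2 (.z 1))
 (.child (.pre (.c 0 60 0 0 (.c 1 60 62 0 (.c 5 60 0 0 .nil))) (.c 0x80017fff8002 60 (.t 0 4 (.t 2 3 (.z 3))) (.t 0 2 (.t 2 3 (.z 3))) (.c 0x80007fff8001 61 (.t 0 1 (.z 2)) (.z 1) .nil)) .nil (.prune (.leaf 0x3084001638400080000302) .keep .gnil)) .cnil) (.brow 501 3 0 (.t 1 11 (.t 0 56822 (.z 131072))) 3 0 (.t 0 2 (.z 1))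
 (.child (.pre (.c 0 60 0 0 (.c 5 60 0 0 .nil)) .nil .nil (.xsplit 0x80027fff8002 (.pre .nil (.c 0x80027fff8002 60 (.t 1 1 (.z 3)) (.t 0 1 (.z 1)) (.c 0x800180008001 61 (.t 1 1 (.z 3)) (.z 1) .nil)) .nil (.prune (.leaf 0x6184001618400080000302) .keep .gnil)) (.label (.pre (.c 6 59 65 0 .nil) .nil .nil (.dead (.t 2 755149 (.t 1 1048576 (.t 0 6 (.z 0)))))) (.forced (.pre (.c 2 59 63 64 .nil) .nil .nil (.dead (.t 2 4 (.t 0 3 (.z 0))))))))) .cnil) (.brow 501 2 0 (.z 1) 3 0 (.t 0 2 (.z 1))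
 .cnil (.brow 502 2 0 (.z 1) 3 0 (.z 1)
 .cnil (.brow 503 2 0 (.z 1) 3 0 (.z 1)
 .cnil (.brow 504 2 0 (.z 1) 3 0 (.z 1)
 .cnil (.brow 505 2 0 (.z 1) 3 0 (.z 1)
 .cnil (.brow 506 2 0 (.z 1) 3 0 (.z 1)
 .cnil (.brow 507 2 0 (.z 1) 3 0 (.z 1)
 .cnil (.brow 508 2 0 (.z 1) 3 0 (.z 1)
 .cnil (.brow 509 2 0 (.z 1) 3 0 (.z 1)
 .cnil (.brow 510 2 0 (.z 1) 3 0 (.z 1)
 .cnil (.brow 511 2 0 (.z 1) 3 0 (.z 1)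
 .cnil (.brow 512 2 0 (.z 1) 3 0 (.z 1)
 .cnil (.brow 513 2 0 (.z 1) 3 0 (.z 1)
 .cnil (.brow 514 2 0 (.z 1) 3 0 (.z 1)
 .cnil (.brow 515 2 0 (.z 1) 3 0 (.z 1)
 .cnil (.brow 516 2 0 (.z 1) 3 0 (.z 1)
 .cnil (.brow 517 2 0 (.z 1) 3 0 (.z 1)
 .cnil (.brow 518 2 0 (.z 1) 3 0 (.z 1)
 .cnil (.brow 519 2 0 (.z 1) 3 0 (.z 1)
 .cnil (.brow 520 2 0 (.z 1) 3 0 (.z 1)
 .cnil (.brow 521 2 0 (.z 1) 3 0 (.z 1)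
 .cnil (.brow 522 2 0 (.z 1) 3 0 (.z 1)
 .cnil (.brow 523 2 0 (.z 1) 3 0 (.z 1)
 .cnil (.brow 524 2 0 (.z 1) 3 0 (.z 1)
 .cnil (.brow 525 2 0 (.z 1) 3 0 (.z 1)
 .cnil (.brow 526 2 0 (.z 1) 3 0 (.z 1)
 .cnil (.brow 527 2 0 (.z 1) 3 0 (.z 1)
 .cnil (.brow 528 2 0 (.z 1) 3 0 (.z 1)
 .cnil (.brow 529 2 0 (.z 1) 3 0 (.z 1)
 .cnil (.brow 530 2 0 (.z 1) 3 0 (.z 1)
 .cnil (.brow 531 2 0 (.z 1) 3 0 (.z 1)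
 .cnil .bnil))))))))))))))))))))))))))))))))))))))))))))))))))))))))
 (.grow 496 (.brow 506 3 0 (.z 1) 2 0 (.z 1)
 .cnil (.brow 507 3 0 (.z 1) 2 0 (.z 1)
 .cnil (.brow 508 3 0 (.z 1) 2 0 (.z 1)
 .cnil (.brow 509 3 0 (.z 1) 2 0 (.z 1)
 .cnil (.brow 510 3 0 (.z 1) 2 0 (.z 1)
 .cnil (.brow 511 3 0 (.z 1) 2 0 (.z 1)
 .cnil (.brow 512 3 0 (.z 1) 2 0 (.z 1)
 .cnil (.brow 513 3 0 (.z 1) 2 0 (.z 1)
 .cnil (.brow 514 3 0 (.t 3 1 (.z 16384)) 2 0 (.z 1)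
 .cnil (.brow 514 3 0 (.t 3 1 (.z 16384)) 2 0 (.z 1)
 (.child (.pre (.c 5 60 0 0 (.c 0 61 0 0 .nil)) .nil .nil (.dead (.t 1 4 (.t 0 1 (.z 0))))) .cnil) (.brow 513 3 0 (.t 3 1 (.z 16384)) 2 0 (.z 1)
 (.child (.np 60 2) (.child (.pre (.c 5 60 0 0 (.c 1 60 63 0 .nil)) (.c 0x7ffe80018002 60 (.t 0 1 (.z 2)) (.t 1 1 (.z 4)) (.c 0x800080018001 62 (.t 0 1 (.z 5)) (.z 1) .nil)) .nil (.prune (.leaf 0x12140009088001638800080000303) .keep .gnil)) (.child (.np 60 2) .cnil))) (.brow 512 3 0 (.t 3 1 (.z 16384)) 3 0 (.t 1 1 (.t 0 71356 (.z 16384)))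
 (.child (.pre (.c 5 60 0 0 (.c 0 61 0 0 .nil)) .nil .nil (.dead (.t 1 4 (.t 0 1 (.z 0))))) (.child (.pre (.c 5 60 0 0 (.c 1 60 64 0 .nil)) (.c 0x7ffe80018002 60 (.t 0 1 (.z 2)) (.t 1 1 (.z 4)) .nil) .nil (.prune (.leaf 0x618800080000301) .keep .gnil)) (.child (.pre (.c 5 60 0 0 (.c 2 60 63 64 .nil)) (.c 0x7ffe80018002 60 (.t 0 2 (.t 1 1 (.z 2))) (.t 1 1 (.z 3)) .nil) .nil (.prune (.leaf 0x6388000a39800080000302) .keep .gnil)) .cnil))) (.brow 511 3 0 (.t 3 1 (.z 16384)) 3 0 (.t 1 1 (.t 0 66126 (.z 16384)))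
 (.child (.np 60 4) (.child (.pre (.c 5 60 0 0 (.c 1 60 63 0 .nil)) (.c 0x800080018001 62 (.t 3 1 (.t 0 25925 (.z 131072))) (.z 1) (.c 0x7fff80018001 60 (.t 0 1 (.z 3)) (.z 1) .nil)) .nil (.prune (.leaf 0x6388001128800080000302) .keep .gnil)) (.child (.np 60 2) .cnil))) (.brow 510 3 0 (.t 3 1 (.z 16384)) 3 0 (.t 1 3 (.t 0 243581 (.z 65536)))
 (.child (.pre (.c 5 60 0 0 (.c 0 61 0 0 .nil)) .nil .nil (.dead (.t 1 4 (.t 0 1 (.z 0))))) (.child (.pre (.c 5 60 0 0 (.c 1 60 64 0 .nil)) (.c 0x7ffe80018001 60 (.t 0 1 (.z 2)) (.t 1 1 (.z 4)) .nil) .nil (.prune (.leaf 0x1214000e38800080000302) .keep .gnil)) (.child (.pre (.c 5 60 0 0 (.c 2 60 63 64 .nil)) (.c 0x800080018001 62 (.t 3 1 (.t 0 25925 (.z 131072))) (.z 1) (.c 0x7fff80018001 61 (.t 3 1 (.t 0 25925 (.z 131072))) (.t 1 1 (.z 4)) (.c 0x7ffe80018001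 60 (.t 0 2 (.t 1 1 (.z 2))) (.t 1 1 (.z 4)) .nil))) .nil (.prune (.leaf 0x2288000e388001921400100000303) .keep .gnil)) .cnil))) (.brow 509 3 0 (.t 3 1 (.z 16384)) 3 0 (.t 1 1 (.t 0 111329 (.z 32768)))
 (.child (.np 60 2) (.child (.pre (.c 5 60 0 0 (.c 1 60 63 0 .nil)) (.c 0x7fff80018001 60 (.t 3 1 (.t 0 108115 (.z 262144))) (.z 1) .nil) .nil (.prune (.leaf 0x618c000a01c402208820210200009220005338800500000306) .keep .gnil)) (.child (.np 60 2) .cnil))) (.brow 508 3 0 (.t 3 1 (.z 16384)) 3 0 (.t 1 1 (.t 0 180814 (.z 65536)))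
 (.child (.pre (.c 5 60 0 0 (.c 0 61 0 0 .nil)) .nil .nil (.dead (.t 1 4 (.t 0 1 (.z 0))))) (.child (.pre (.c 5 60 0 0 (.c 1 60 64 0 .nil)) .nil .nil (.prune (.leaf 0x101c4019120201e38c0051120e01d18c00480000305) .keep .gnil)) .cnil)) (.brow 507 3 0 (.t 3 1 (.z 16384)) 3 0 (.t 0 2 (.z 1))
 (.child (.np 60 4) (.child (.pre (.c 1 60 63 0 (.c 5 60 0 0 .nil)) (.c 0x80027fff8000 60 (.t 0 1 (.z 4)) (.t 1 1 (.z 2)) .nil) .nil (.prune (.leaf 0x618c00080000301) .keep .gnil)) .cnil)) (.brow 506 3 0 (.t 3 1 (.z 16384)) 3 0 (.t 0 2 (.z 1))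
 (.child (.pre (.c 0 61 0 0 (.c 5 60 0 0 .nil)) .nil .nil (.dead (.t 5 1 (.t 1 28190 (.t 0 47224 (.z 0)))))) (.child (.pre (.c 1 60 64 0 (.c 5 60 0 0 .nil)) (.c 0x800380008001 64 (.t 0 1 (.z 4)) (.z 1) .nil) .nil (.prune (.leaf 0x1210000c010005e18c00580000303) .keep .gnil)) .cnil)) (.brow 505 3 0 (.t 1 1 (.z 16384)) 3 0 (.t 0 2 (.z 1))
 (.child (.np 60 2) (.child (.pre (.c 1 60 63 0 (.c 5 60 0 0 .nil)) (.c 0x800280008001 62 (.t 0 25453 (.t 3 3 (.z 262144))) (.z 1) (.c 0x80027fff8001 60 (.t 0 25453 (.t 3 3 (.z 262144))) (.t 1 1 (.z 2)) .nil)) .nil (.prune (.leaf 0x138c001338c000e21000100000303) .keep .gnil)) .cnil)) (.brow 504 3 0 (.t 1 1 (.z 16384)) 3 0 (.t 0 2 (.z 1))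
 (.child (.pre (.c 2 60 63 64 (.c 5 60 0 0 .nil)) (.c 0x80017fff8001 60 (.t 3 1 (.t 1 5075 (.z 32768))) (.t 1 1 (.z 3)) (.c 0x80017ffe8001 61 (.t 0 1 (.z 2)) (.t 1 2 (.t 0 1 (.z 4))) .nil)) .nil (.prune (.leaf 0x3384001638400080000302) .keep .gnil)) (.child (.pre (.c 0 60 0 0 (.c 1 60 64 0 (.c 5 60 0 0 .nil))) (.c 0x80027fff8001 60 (.t 0 1 (.z 3)) (.t 4 1 (.t 2 45824 (.z 65536))) .nil) .nil (.prune (.leaf 0x618400080000301) .keep .gnil)) .cnil)) (.brow 503 3 0 (.t 1 1 (.z 16384)) 3 0 (.t 0 2 (.z 1))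
 (.child (.np 60 4) (.child (.pre (.c 0 60 0 0 (.c 1 60 63 0 (.c 5 60 0 0 .nil))) (.c 0x80027fff8001 60 (.t 0 1 (.z 3)) (.t 4 1 (.t 2 28612 (.z 32768))) (.c 0x80017fff8001 61 (.t 0 1 (.z 2)) (.z 1) .nil)) .nil (.prune (.leaf 0x6184000e38400100000302) .keep .gnil)) .cnil)) (.brow 502 3 0 (.t 1 1 (.z 16384)) 3 0 (.t 0 2 (.z 1))
 (.child (.pre (.c 2 60 63 64 (.c 5 60 0 0 .nil)) (.c 0x80017fff8001 60 (.t 3 1 (.t 1 10101 (.z 32768))) (.t 3 1 (.t 1 17299 (.z 16384))) .nil) .nil (.prune (.leaf 0x618400080000301) .keep .gnil)) (.child (.pre (.c 0 60 0 0 (.c 1 60 64 0 (.c 5 60 0 0 .nil))) .nil .nil (.xsplit 0x7fff80017ffe (.pre .nil (.c 0x800180008001 61 (.t 1 1 (.z 3)) (.z 1) (.c 0x80027fff8001 60 (.t 1 1 (.z 3)) (.t 0 2 (.t 3 1 (.z 1))) .nil)) .nil (.prune (.leaf 0x6384000d1840011110005221000080000304)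 .keep .gnil)) (.xsplit 0x800080017ffe (.label (.pre (.c 6 59 65 0 .nil) .nil .nil (.dead (.t 4 68830 (.t 3 116380 (.t 0 1 (.z 0)))))) (.forced (.pre (.c 0 59 0 0 .nil) .nil .nil (.dead (.t 3 7 (.t 2 7 (.t 0 2 (.z 0)))))))) (.pre .nil (.c 0x80007fff8002 60 (.t 6 337 (.t 4 4167194 (.z 4194304))) (.t 0 1 (.z 1)) (.c 0x800180008001 61 (.t 0 60979 (.t 6 3 (.z 131072))) (.z 1) .nil)) .nil (.prune (.leaf 0x44400142220001510c403884e0007022080a410800a338400100000407) .keep .gnil))))) .cnil)) (.brow 501 0 0 (.z 1) 3 0 (.t 0 2 (.z 1))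
 (.child (.np 60 2) (.child (.pre (.c 0 60 0 0 (.c 1 60 63 0 (.c 5 60 0 0 .nil))) (.c 0x80027fff8002 60 (.t 0 2 (.t 2 1 (.z 3))) (.t 0 4 (.t 2 5 (.z 3))) (.c 0x800180008001 61 (.t 1 1 (.z 4)) (.z 1) .nil)) .nil (.prune (.leaf 0x6184000a38400100000302) .keep .gnil)) .cnil)) (.brow 501 0 0 (.z 1) 3 0 (.t 0 2 (.z 1))
 (.child (.pre (.c 0 60 0 0 (.c 1 60 64 0 (.c 5 60 0 0 .nil))) .nil .nil (.xsplit 0x80027fff8002 (.pre .nil (.c 0x80027fff8002 60 (.t 1 1 (.t 0 1 (.z 2))) (.t 1 1 (.t 0 5 (.z 2))) (.c 0x80007fff8001 61 (.t 1 1 (.t 0 1 (.z 1))) (.z 1) .nil)) .nil (.prune (.leaf 0x6184000e08400100000302) .keep .gnil)) (.label (.pre (.c 6 59 65 0 .nil) .nil .nil (.dead (.t 3 71009 (.t 2 113268 (.t 0 1 (.z 0)))))) (.forced (.pre (.c 0 59 0 0 .nil) .nil .nil (.dead (.t 2 3 (.t 1 4 (.t 0 2 (.z 0))))))))))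 .cnil) (.brow 501 0 0 (.z 1) 3 0 (.t 0 2 (.z 1))
 .cnil (.brow 502 2 0 (.z 1) 3 0 (.z 1)
 .cnil (.brow 503 2 0 (.z 1) 3 0 (.z 1)
 .cnil (.brow 504 2 0 (.z 1) 3 0 (.z 1)
 .cnil (.brow 505 2 0 (.z 1) 3 0 (.z 1)
 .cnil (.brow 506 2 0 (.z 1) 3 0 (.z 1)
 .cnil (.brow 507 2 0 (.z 1) 3 0 (.z 1)
 .cnil (.brow 508 2 0 (.z 1) 3 0 (.z 1)
 .cnil (.brow 509 2 0 (.z 1) 3 0 (.z 1)
 .cnil (.brow 510 2 0 (.z 1) 3 0 (.z 1)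
 .cnil (.brow 511 2 0 (.z 1) 3 0 (.z 1)
 .cnil (.brow 512 2 0 (.z 1) 3 0 (.z 1)
 .cnil (.brow 513 2 0 (.z 1) 3 0 (.z 1)
 .cnil (.brow 514 2 0 (.z 1) 3 0 (.z 1)
 .cnil (.brow 515 2 0 (.z 1) 3 0 (.z 1)
 .cnil (.brow 516 2 0 (.z 1) 3 0 (.z 1)
 .cnil (.brow 517 2 0 (.z 1) 3 0 (.z 1)
 .cnil (.brow 518 2 0 (.z 1) 3 0 (.z 1)
 .cnil (.brow 519 2 0 (.z 1) 3 0 (.z 1)
 .cnil (.brow 520 2 0 (.z 1) 3 0 (.z 1)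
 .cnil (.brow 521 2 0 (.z 1) 3 0 (.z 1)
 .cnil (.brow 522 2 0 (.z 1) 3 0 (.z 1)
 .cnil (.brow 523 2 0 (.z 1) 3 0 (.z 1)
 .cnil (.brow 524 2 0 (.z 1) 3 0 (.z 1)
 .cnil (.brow 525 2 0 (.z 1) 3 0 (.z 1)
 .cnil (.brow 526 2 0 (.z 1) 3 0 (.z 1)
 .cnil (.brow 527 2 0 (.z 1) 3 0 (.z 1)
 .cnil (.brow 528 2 0 (.z 1) 3 0 (.z 1)
 .cnil (.brow 529 2 0 (.z 1) 3 0 (.z 1)
 .cnil (.brow 530 2 0 (.z 1) 3 0 (.z 1)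
 .cnil (.brow 531 2 0 (.z 1) 3 0 (.z 1)
 .cnil (.brow 532 2 0 (.z 1) 3 0 (.z 1)
 .cnil (.brow 533 2 0 (.z 1) 3 0 (.z 1)
 .cnil .bnil)))))))))))))))))))))))))))))))))))))))))))))))))))))))))
 (.grow 498 (.brow 508 3 0 (.z 1) 2 0 (.z 1)
 .cnil (.brow 509 3 0 (.z 1) 2 0 (.z 1)
 .cnil (.brow 510 3 0 (.z 1) 2 0 (.z 1)
 .cnil (.brow 511 3 0 (.z 1) 2 0 (.z 1)
 .cnil (.brow 512 3 0 (.z 1) 2 0 (.z 1)
 .cnil (.brow 513 3 0 (.t 3 1 (.z 8192)) 2 0 (.z 1)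
 .cnil (.brow 514 3 0 (.t 3 1 (.z 16384)) 2 0 (.z 1)
 .cnil (.brow 514 3 0 (.t 3 1 (.z 16384)) 2 0 (.z 1)
 (.child (.pre (.c 5 60 0 0 .nil) (.c 0x7ffe80028003 60 (.t 0 1 (.z 2)) (.t 4 1 (.z 32768)) (.c 0x7fff80018002 60 (.t 0 1 (.z 3)) (.z 1) (.c 0x800080018001 62 (.t 0 1 (.z 5)) (.z 1) .nil))) .nil (.prune (.leaf 0x61880013088001b38800080000303) .keep .gnil)) .cnil) (.brow 513 3 0 (.t 3 1 (.z 16384)) 2 0 (.z 1)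
 (.child (.pre (.c 5 60 0 0 (.c 1 60 61 0 .nil)) .nil .nil (.dead (.t 1 1 (.t 0 1 (.z 0))))) (.child (.np 60 3) (.child (.pre (.c 5 60 0 0 (.c 1 60 61 0 .nil)) .nil .nil (.dead (.t 1 1 (.t 0 1 (.z 0))))) .cnil))) (.brow 512 3 0 (.t 3 1 (.z 16384)) 3 0 (.t 1 1 (.t 0 78561 (.z 16384)))
 (.child (.pre (.c 5 60 0 0 .nil) (.c 0x800080018001 62 (.t 0 1 (.z 5)) (.z 1) (.c 0x7fff80018001 60 (.t 0 1 (.z 3)) (.z 1) .nil)) .nil (.prune (.leaf 0x12140011288000e38800100000303) .keep .gnil)) (.child (.pre (.c 5 60 0 0 (.c 0 60 0 0 .nil)) (.c 0x7fff80018001 60 (.t 0 1 (.z 3)) (.z 1) (.c 0x7ffe80008001 62 (.t 0 1 (.z 2)) (.t 1 1 (.z 5)) (.c 0x800280008000 62 (.t 1 35333 (.t 3 3 (.z 262144))) (.z 1) .nil))) .nil (.prune (.leaf 0x1388001e388000a18800100000303) .keep .gnil)) (.child (.pre (.c 5 60 0 0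 (.c 0 60 0 0 .nil)) (.c 0x7ffd80018002 60 (.t 0 1 (.z 2)) (.t 1 1 (.z 3)) (.c 0x7ffe80008001 61 (.t 0 1 (.z 4)) (.t 1 38634 (.t 3 1 (.z 131072))) .nil)) .nil (.prune (.leaf 0x2188001638800080000302) .keep .gnil)) .cnil))) (.brow 511 3 0 (.t 3 1 (.z 16384)) 3 0 (.t 1 1 (.t 0 73330 (.z 16384)))
 (.child (.pre (.c 5 60 0 0 (.c 1 60 61 0 .nil)) .nil .nil (.dead (.t 1 1 (.t 0 1 (.z 0))))) (.child (.pre (.c 5 60 0 0 (.c 1 60 62 0 .nil)) .nil .nil (.dead (.t 1 3 (.t 0 4 (.z 0))))) (.child (.pre (.c 5 60 0 0 (.c 1 60 61 0 .nil)) .nil .nil (.dead (.t 1 1 (.t 0 1 (.z 0))))) .cnil))) (.brow 510 3 0 (.t 3 1 (.z 16384)) 3 0 (.t 1 37 (.t 0 4023657 (.z 1048576)))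
 (.child (.pre (.c 5 60 0 0 .nil) (.c 0x7fff80018001 60 (.t 0 1 (.z 3)) (.z 1) .nil) .nil (.prune (.leaf 0x6188000a388005121400500000303) .keep .gnil)) (.child (.np 60 3) .cnil)) (.brow 509 3 0 (.t 3 1 (.z 16384)) 3 0 (.t 1 1 (.t 0 115278 (.z 32768)))
 (.child (.pre (.c 5 60 0 0 (.c 1 60 61 0 .nil)) .nil .nil (.dead (.t 1 1 (.t 0 1 (.z 0))))) (.child (.pre (.c 5 60 0 0 (.c 1 60 62 0 .nil)) .nil .nil (.dead (.t 1 3 (.t 0 4 (.z 0))))) .cnil)) (.brow 508 3 0 (.t 3 1 (.z 16384)) 3 0 (.t 1 1 (.t 0 209633 (.z 65536)))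
 (.child (.pre (.c 5 60 0 0 .nil) .nil .nil (.prune (.leaf 0x638c0052120e01c18c00480000303) .keep .gnil)) (.child (.pre (.c 5 60 0 0 (.c 0 60 0 0 .nil)) .nil .nil (.prune (.leaf 0x101c4019120201e38c0051120e01d18c00480000305) .keep .gnil)) .cnil)) (.brow 507 3 0 (.t 3 1 (.z 16384)) 3 0 (.t 0 2 (.z 1))
 (.child (.pre (.c 5 60 0 0 (.c 0 60 0 0 (.c 1 60 61 0 .nil))) .nil .nil (.dead (.t 2 1 (.t 1 1 (.t 0 2 (.z 0)))))) (.child (.np 60 3) .cnil)) (.brow 506 3 0 (.t 3 1 (.z 16384)) 3 0 (.t 0 2 (.z 1))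
 (.child (.pre (.c 5 60 0 0 .nil) .nil .nil (.prune (.leaf 0x3010005408c005e18c00500000303) .keep .gnil)) (.child (.pre (.c 0 60 0 0 (.c 5 60 0 0 .nil)) (.c 0x80027fff8000 60 (.t 0 1 (.z 3)) (.t 3 1 (.t 1 70394 (.z 131072))) .nil) .nil (.prune (.leaf 0x118c000c010000e18400580000303) .keep .gnil)) .cnil)) (.brow 505 3 0 (.t 3 5 (.z 65536)) 3 0 (.t 0 2 (.z 1))
 (.child (.pre (.c 5 60 0 0 (.c 0 60 0 0 (.c 1 60 61 0 .nil))) .nil .nil (.dead (.t 2 1 (.t 1 1 (.t 0 2 (.z 0)))))) (.child (.pre (.c 1 60 62 0 (.c 5 60 0 0 .nil)) (.c 0x80027fff8001 60 (.t 0 18793 (.t 3 3 (.z 262144))) (.t 1 1 (.z 2)) .nil) .nil (.prune (.leaf 0x1110006638c0009210000d08c00600000304) .keep .gnil)) .cnil)) (.brow 504 3 0 (.t 3 4 (.t 1 1 (.z 65536))) 3 0 (.t 0 2 (.z 1))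
 (.child (.pre (.c 0 60 0 0 (.c 5 60 0 0 .nil)) (.c 0x80037ffd8002 60 (.t 0 2 (.z 3)) (.t 3 1 (.t 1 112738 (.z 131072))) (.c 0x80027fff8001 61 (.t 0 1 (.z 2)) (.z 1) (.c 0x80027ffe8001 60 (.t 0 1 (.z 2)) (.t 3 1 (.t 1 47202 (.z 65536))) .nil))) .nil (.prune (.leaf 0x1210000928400741840016184001901000180000305) .keep .gnil)) (.child (.np 60 3) .cnil)) (.brow 503 3 0 (.t 3 2 (.t 1 3 (.z 65536))) 3 0 (.t 0 2 (.z 1))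
 (.child (.pre (.c 5 60 0 0 (.c 0 60 0 0 (.c 1 60 61 0 .nil))) .nil .nil (.dead (.t 2 1 (.t 1 1 (.t 0 2 (.z 0)))))) (.child (.pre (.c 0 60 0 0 (.c 1 60 62 0 (.c 5 60 0 0 .nil))) (.c 0x80037fff8002 61 (.t 1 1 (.z 2)) (.z 1) (.c 0x80027fff8001 60 (.t 0 1 (.z 3)) (.t 4 5 (.t 2 170477 (.z 262144))) (.c 0x80017fff8001 61 (.t 0 1 (.z 2)) (.z 1) .nil))) .nil (.prune (.leaf 0x61840012384000b38400180000303) .keep .gnil)) .cnil)) (.brow 502 0 0 (.z 1) 3 0 (.t 0 2 (.z 1))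
 (.child (.pre (.c 0 60 0 0 (.c 5 60 0 0 .nil)) (.c 0x80017fff8001 60 (.t 3 1 (.t 1 6005 (.z 32768))) (.t 3 1 (.t 1 20568 (.z 32768))) .nil) .nil (.prune (.leaf 0x618400080000301) .keep .gnil)) (.child (.pre (.c 0 60 0 0 (.c 5 60 0 0 .nil)) .nil .nil (.xsplit 0x7fff80017ffe (.pre .nil (.c 0x80017fff8002 60 (.t 0 1 (.z 1)) (.t 2 1 (.z 3)) (.c 0x800180008001 61 (.t 1 1 (.z 3)) (.z 1) .nil)) .nil (.prune (.leaf 0x11100054210000e284006a384001121000100000305) .keep .gnil)) (.xsplit 0x800080017ffe (.label (.pre (.c 6 59 65 0 .nil) .nil .nil (.dead (.t 3 1355478 (.t 2 1048576 (.t 0 5 (.z 0)))))) (.forced (.pre (.c 2 59 63 64 .nil) .nil .nil (.dead (.t 3 4 (.t 0 3 (.z 0))))))) (.label (.pre (.c 6 59 65 0 .nil) .nil .nil (.dead (.t 3 1355478 (.t 2 1048576 (.t 0 5 (.z 0)))))) (.forced (.pre (.c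 2 59 63 64 .nil) .nil .nil (.dead (.t 3 4 (.t 0 3 (.z 0)))))))))) .cnil)) (.brow 502 0 0 (.z 1) 3 0 (.t 0 2 (.z 1))
 (.child (.np 60 3) .cnil) (.brow 502 0 0 (.z 1) 3 0 (.t 0 2 (.z 1))
 .cnil (.brow 502 0 0 (.z 1) 3 0 (.t 0 2 (.z 1))
 .cnil (.brow 502 0 0 (.z 1) 3 0 (.z 1)
 .cnil (.brow 502 0 0 (.z 1) 3 0 (.z 1)
 .cnil (.brow 503 2 0 (.z 1) 3 0 (.z 1)
 .cnil (.brow 504 2 0 (.z 1) 3 0 (.z 1)
 .cnil (.brow 505 2 0 (.z 1) 3 0 (.z 1)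
 .cnil (.brow 506 2 0 (.z 1) 3 0 (.z 1)
 .cnil (.brow 507 2 0 (.z 1) 3 0 (.z 1)
 .cnil (.brow 508 2 0 (.z 1) 3 0 (.z 1)
 .cnil (.brow 509 2 0 (.z 1) 3 0 (.z 1)
 .cnil (.brow 510 2 0 (.z 1) 3 0 (.z 1)
 .cnil (.brow 511 2 0 (.z 1) 3 0 (.z 1)
 .cnil (.brow 512 2 0 (.z 1) 3 0 (.z 1)
 .cnil (.brow 513 2 0 (.z 1) 3 0 (.z 1)
 .cnil (.brow 514 2 0 (.z 1) 3 0 (.z 1)
 .cnil (.brow 515 2 0 (.z 1) 3 0 (.z 1)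
 .cnil (.brow 516 2 0 (.z 1) 3 0 (.z 1)
 .cnil (.brow 517 2 0 (.z 1) 3 0 (.z 1)
 .cnil (.brow 518 2 0 (.z 1) 3 0 (.z 1)
 .cnil (.brow 519 2 0 (.z 1) 3 0 (.z 1)
 .cnil (.brow 520 2 0 (.z 1) 3 0 (.z 1)
 .cnil (.brow 521 2 0 (.z 1) 3 0 (.z 1)
 .cnil (.brow 522 2 0 (.z 1) 3 0 (.z 1)
 .cnil (.brow 523 2 0 (.z 1) 3 0 (.z 1)
 .cnil (.brow 524 2 0 (.z 1) 3 0 (.z 1)
 .cnil (.brow 525 2 0 (.z 1) 3 0 (.z 1)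
 .cnil (.brow 526 2 0 (.z 1) 3 0 (.z 1)
 .cnil (.brow 527 2 0 (.z 1) 3 0 (.z 1)
 .cnil (.brow 528 2 0 (.z 1) 3 0 (.z 1)
 .cnil (.brow 529 2 0 (.z 1) 3 0 (.z 1)
 .cnil (.brow 530 2 0 (.z 1) 3 0 (.z 1)
 .cnil (.brow 531 2 0 (.z 1) 3 0 (.z 1)
 .cnil (.brow 532 2 0 (.z 1) 3 0 (.z 1)
 .cnil (.brow 533 2 0 (.z 1) 3 0 (.z 1)
 .cnil .bnil))))))))))))))))))))))))))))))))))))))))))))))))))))))))
 (.grow 499 (.brow 508 3 0 (.z 1) 2 0 (.z 1)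
 .cnil (.brow 509 3 0 (.z 1) 2 0 (.z 1)
 .cnil (.brow 510 3 0 (.z 1) 2 0 (.z 1)
 .cnil (.brow 511 3 0 (.z 1) 2 0 (.z 1)
 .cnil (.brow 512 3 0 (.t 3 1 (.z 8192)) 2 0 (.z 1)
 .cnil (.brow 513 3 0 (.t 3 1 (.z 16384)) 2 0 (.z 1)
 .cnil (.brow 513 3 0 (.t 3 1 (.z 16384)) 2 0 (.z 1)
 (.child (.pre (.c 5 60 0 0 (.c 0 61 0 0 .nil)) .nil .nil (.dead (.t 1 5 (.t 0 1 (.z 0))))) .cnil) (.brow 512 3 0 (.t 3 1 (.z 16384)) 2 0 (.z 1)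
 (.child (.pre (.c 5 60 0 0 (.c 0 61 0 0 .nil)) .nil .nil (.dead (.t 1 5 (.t 0 1 (.z 0))))) (.child (.np 60 2) (.child (.pre (.c 5 60 0 0 (.c 1 60 63 0 .nil)) (.c 0x7ffe80018002 60 (.t 0 1 (.z 3)) (.t 1 1 (.z 4)) .nil) .nil (.prune (.leaf 0x1014000e18800080000302) .keep .gnil)) .cnil))) (.brow 511 3 0 (.t 3 1 (.z 16384)) 3 0 (.t 1 61 (.t 0 5154289 (.z 1048576)))
 (.child (.np 60 5) (.child (.pre (.c 5 60 0 0 (.c 2 60 63 64 .nil)) (.c 0x800080018001 62 (.t 3 1 (.t 0 21091 (.z 131072))) (.z 1) (.c 0x7fff80018001 60 (.t 0 1 (.z 3)) (.z 1) .nil)) .nil (.prune (.leaf 0x6388001128800080000302) .keep .gnil)) (.child (.pre (.c 5 60 0 0 (.c 1 60 64 0 .nil)) (.c 0x7ffd80018002 60 (.t 0 1 (.z 2)) (.t 1 1 (.z 4)) (.c 0x800280008000 62 (.t 1 12413 (.t 3 1 (.z 131072))) (.z 1) .nil)) .nil (.prune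 (.leaf 0x1388001618800080000302) .keep .gnil)) .cnil))) (.brow 510 3 0 (.t 3 1 (.z 16384)) 3 0 (.t 1 13 (.t 0 1204882 (.z 262144)))
 (.child (.pre (.c 5 60 0 0 (.c 0 61 0 0 .nil)) .nil .nil (.dead (.t 1 5 (.t 0 1 (.z 0))))) (.child (.np 60 2) (.child (.pre (.c 5 60 0 0 (.c 1 60 63 0 .nil)) (.c 0x800080018001 62 (.t 3 1 (.t 0 21091 (.z 131072))) (.z 1) (.c 0x7fff80018001 61 (.t 3 1 (.t 0 21091 (.z 131072))) (.t 1 1 (.z 4)) (.c 0x7ffe80018001 60 (.t 0 1 (.z 3)) (.t 1 1 (.z 4)) .nil))) .nil (.prune (.leaf 0x1288000e388001921400100000303) .keep .gnil)) .cnil))) (.brow 509 3 0 (.t 3 1 (.z 16384)) 3 0 (.t 1 3 (.t 0 280298 (.z 65536)))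
 (.child (.pre (.c 5 60 0 0 (.c 0 61 0 0 .nil)) .nil .nil (.dead (.t 1 5 (.t 0 1 (.z 0))))) (.child (.pre (.c 5 60 0 0 (.c 2 60 63 64 .nil)) (.c 0x7ffe80018001 60 (.t 0 1 (.z 2)) (.t 1 1 (.z 4)) .nil) .nil (.prune (.leaf 0x6188000a38800500000302) .keep .gnil)) (.child (.pre (.c 5 60 0 0 (.c 0 60 0 0 .nil)) (.c 0x7ffe80018001 60 (.t 0 1 (.z 3)) (.t 1 1 (.z 3)) .nil) .nil (.prune (.leaf 0x1014000e18800080000302) .keep .gnil)) .cnil))) (.brow 508 3 0 (.t 3 1 (.z 16384)) 3 0 (.t 1 1 (.t 0 129687 (.z 32768)))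
 (.child (.pre (.c 5 60 0 0 (.c 0 61 0 0 .nil)) .nil .nil (.dead (.t 1 5 (.t 0 1 (.z 0))))) (.child (.np 60 2) (.child (.pre (.c 5 60 0 0 (.c 1 60 63 0 .nil)) (.c 0x7ffe80018001 60 (.t 3 1 (.t 0 113066 (.z 262144))) (.t 1 1 (.z 4)) .nil) .nil (.prune (.leaf 0x618c0009220005201c40233880051020000908820200000306) .keep .gnil)) .cnil))) (.brow 507 3 0 (.t 3 1 (.z 16384)) 3 0 (.t 1 1 (.t 0 119226 (.z 32768)))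
 (.child (.pre (.c 5 60 0 0 (.c 0 61 0 0 .nil)) .nil .nil (.dead (.t 1 5 (.t 0 1 (.z 0))))) (.child (.pre (.c 5 60 0 0 (.c 2 60 63 64 .nil)) (.c 0x80027fff8000 60 (.t 1 19535 (.t 3 1 (.z 131072))) (.t 0 1 (.z 2)) .nil) .nil (.prune (.leaf 0x638c000b18c00500000302) .keep .gnil)) (.child (.pre (.c 5 60 0 0 (.c 0 60 0 0 .nil)) (.c 0x80027fff8000 60 (.t 1 22123 (.t 3 1 (.z 131072))) (.t 0 1 (.z 3)) .nil) .nil (.prune (.leaf 0x638c00091202022120e02518c00500000304) .keep .gnil)) .cnil))) (.brow 506 3 0 (.t 3 1 (.z 16384)) 3 0 (.t 0 3 (.z 1))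
 (.child (.np 60 5) (.child (.np 60 2) .cnil)) (.brow 505 3 0 (.t 3 1 (.z 16384)) 3 0 (.t 0 3 (.z 1))
 (.child (.pre (.c 0 61 0 0 (.c 5 60 0 0 .nil)) .nil .nil (.dead (.t 5 1 (.t 1 28190 (.t 0 75414 (.z 0)))))) (.child (.pre (.c 2 60 63 64 (.c 5 60 0 0 .nil)) .nil .nil (.prune (.leaf 0x3010005618c00500000302) .keep .gnil)) .cnil)) (.brow 504 3 0 (.t 3 3 (.z 32768)) 3 0 (.t 0 3 (.z 1))
 (.child (.pre (.c 1 60 63 0 (.c 5 60 0 0 .nil)) .nil .nil (.dead (.t 5 1 (.t 1 19034 (.t 0 4939 (.z 0)))))) (.child (.np 60 2) .cnil)) (.brow 503 0 0 (.z 1) 3 0 (.t 0 3 (.z 1))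
 (.child (.pre (.c 5 60 0 0 .nil) (.c 0x80027ffe8001 60 (.t 2 1 (.z 32768)) (.t 2 1 (.t 0 44117 (.z 65536))) .nil) .nil (.prune (.leaf 0x5010000e18c000c28400600000303) .keep .gnil)) (.child (.pre (.c 2 60 63 64 (.c 5 60 0 0 .nil)) (.c 0x80027fff8001 60 (.t 0 25453 (.t 3 3 (.z 262144))) (.t 1 1 (.z 3)) .nil) .nil (.prune (.leaf 0x638400080000301) .keep .gnil)) .cnil)) (.brow 503 0 0 (.z 1) 3 0 (.t 0 3 (.z 1))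
 (.child (.np 60 2) .cnil) (.brow 503 0 0 (.z 1) 3 0 (.t 0 3 (.z 1))
 .cnil (.brow 503 0 0 (.z 1) 3 0 (.t 0 3 (.z 1))
 .cnil (.brow 503 0 0 (.z 1) 3 0 (.t 0 3 (.z 1))
 .cnil (.brow 503 0 0 (.z 1) 3 0 (.z 1)
 .cnil (.brow 503 0 0 (.z 1) 3 0 (.z 1)
 .cnil (.brow 503 0 0 (.z 1) 3 0 (.z 1)
 .cnil (.brow 503 0 0 (.z 1) 3 0 (.z 1)
 .cnil (.brow 504 2 0 (.z 1) 3 0 (.z 1)
 .cnil (.brow 505 2 0 (.z 1) 3 0 (.z 1)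
 .cnil (.brow 506 2 0 (.z 1) 3 0 (.z 1)
 .cnil (.brow 507 2 0 (.z 1) 3 0 (.z 1)
 .cnil (.brow 508 2 0 (.z 1) 3 0 (.z 1)
 .cnil (.brow 509 2 0 (.z 1) 3 0 (.z 1)
 .cnil (.brow 510 2 0 (.z 1) 3 0 (.z 1)
 .cnil (.brow 511 2 0 (.z 1) 3 0 (.z 1)
 .cnil (.brow 512 2 0 (.z 1) 3 0 (.z 1)
 .cnil (.brow 513 2 0 (.z 1) 3 0 (.z 1)
 .cnil (.brow 514 2 0 (.z 1) 3 0 (.z 1)
 .cnil (.brow 515 2 0 (.z 1) 3 0 (.z 1)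
 .cnil (.brow 516 2 0 (.z 1) 3 0 (.z 1)
 .cnil (.brow 517 2 0 (.z 1) 3 0 (.z 1)
 .cnil (.brow 518 2 0 (.z 1) 3 0 (.z 1)
 .cnil (.brow 519 2 0 (.z 1) 3 0 (.z 1)
 .cnil (.brow 520 2 0 (.z 1) 3 0 (.z 1)
 .cnil (.brow 521 2 0 (.z 1) 3 0 (.z 1)
 .cnil (.brow 522 2 0 (.z 1) 3 0 (.z 1)
 .cnil (.brow 523 2 0 (.z 1) 3 0 (.z 1)
 .cnil (.brow 524 2 0 (.z 1) 3 0 (.z 1)
 .cnil (.brow 525 2 0 (.z 1) 3 0 (.z 1)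
 .cnil (.brow 526 2 0 (.z 1) 3 0 (.z 1)
 .cnil (.brow 527 2 0 (.z 1) 3 0 (.z 1)
 .cnil (.brow 528 2 0 (.z 1) 3 0 (.z 1)
 .cnil (.brow 529 2 0 (.z 1) 3 0 (.z 1)
 .cnil (.brow 530 2 0 (.z 1) 3 0 (.z 1)
 .cnil (.brow 531 2 0 (.z 1) 3 0 (.z 1)
 .cnil (.brow 532 2 0 (.z 1) 3 0 (.z 1)
 .cnil (.brow 533 2 0 (.z 1) 3 0 (.z 1)
 .cnil (.brow 534 2 0 (.z 1) 3 0 (.z 1)
 .cnil (.brow 535 2 0 (.z 1) 3 0 (.z 1)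
 .cnil .bnil)))))))))))))))))))))))))))))))))))))))))))))))))))))))))
 (.grow 501 (.brow 510 3 0 (.z 1) 2 0 (.z 1)
 .cnil (.brow 511 3 0 (.z 1) 2 0 (.z 1)
 .cnil (.brow 512 3 0 (.t 3 1 (.z 8192)) 2 0 (.z 1)
 .cnil (.brow 513 3 0 (.t 3 1 (.z 16384)) 2 0 (.z 1)
 .cnil (.brow 513 3 0 (.t 3 3 (.z 32768)) 2 0 (.z 1)
 (.child (.pre (.c 5 60 0 0 .nil) (.c 0x7fff80028002 62 (.t 0 1 (.z 3)) (.z 1) (.c 0x7fff80018001 60 (.t 0 1 (.z 3)) (.z 1) .nil)) .nil (.prune (.leaf 0x63880011388005a38800080000303) .keep .gnil)) .cnil) (.brow 512 3 0 (.t 3 3 (.z 32768)) 2 0 (.z 1)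
 (.child (.pre (.c 5 60 0 0 (.c 1 60 62 0 .nil)) .nil .nil (.dead (.t 1 3 (.t 0 4 (.z 0))))) (.child (.pre (.c 5 60 0 0 (.c 1 60 61 0 .nil)) .nil .nil (.dead (.t 1 1 (.t 0 1 (.z 0))))) (.child (.pre (.c 5 60 0 0 (.c 1 60 62 0 .nil)) (.c 0x7ffd80018002 60 (.t 0 1 (.z 2)) (.t 1 1 (.z 4)) .nil) .nil (.prune (.leaf 0x1214000e38800080000302) .keep .gnil)) .cnil))) (.brow 511 3 0 (.t 3 3 (.z 32768)) 3 0 (.t 1 1 (.t 0 87740 (.z 16384)))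
 (.child (.pre (.c 5 60 0 0 .nil) (.c 0x7fff80018001 60 (.t 0 1 (.z 3)) (.z 1) .nil) .nil (.prune (.leaf 0x1014000e18800080000302) .keep .gnil)) (.child (.pre (.c 5 60 0 0 (.c 0 60 0 0 .nil)) (.c 0x800080018001 62 (.t 3 1 (.t 0 19292 (.z 131072))) (.z 1) (.c 0x7fff80018001 60 (.t 0 1 (.z 4)) (.z 1) .nil)) .nil (.prune (.leaf 0x338c0016388001128800080000303) .keep .gnil)) (.child (.pre (.c 5 60 0 0 (.c 0 60 0 0 .nil)) (.c 0x7ffd80018002 60 (.t 0 1 (.z 2)) (.t 1 1 (.z 3)) (.c 0x800080018001 62 (.t 3 1 (.t 0 18168 (.z 131072))) (.z 1) .nil)) .nil (.prune (.leaf 0x12880016188000931400100000303) .keep .gnil)) .cnil))) (.brow 510 3 0 (.t 3 3 (.z 32768)) 3 0 (.t 1 1 (.t 0 82510 (.z 16384)))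
 (.child (.pre (.c 5 60 0 0 (.c 1 60 62 0 .nil)) .nil .nil (.dead (.t 1 3 (.t 0 4 (.z 0))))) (.child (.pre (.c 5 60 0 0 (.c 1 60 61 0 .nil)) .nil .nil (.dead (.t 1 1 (.t 0 1 (.z 0))))) (.child (.pre (.c 5 60 0 0 (.c 1 60 62 0 .nil)) (.c 0x800080018001 62 (.t 1 3 (.t 0 4 (.z 4))) (.z 1) (.c 0x7ffe80018001 60 (.t 0 1 (.z 3)) (.t 1 1 (.z 4)) .nil)) .nil (.prune (.leaf 0x12140012288000e38800100000303) .keep .gnil)) .cnil))) (.brow 509 3 0 (.t 3 3 (.z 32768)) 3 0 (.t 1 3 (.t 0 309117 (.z 65536)))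
 (.child (.pre (.c 5 60 0 0 .nil) (.c 0x7fff80028001 62 (.t 0 1 (.z 3)) (.z 1) (.c 0x7ffe80028001 60 (.t 0 1 (.z 2)) (.t 4 1 (.z 32768)) .nil)) .nil (.prune (.leaf 0x33880014388000e38c00100000303) .keep .gnil)) (.child (.pre (.c 5 60 0 0 (.c 0 60 0 0 .nil)) (.c 0x7ffe80018001 60 (.t 0 1 (.z 3)) (.t 1 1 (.z 4)) .nil) .nil (.prune (.leaf 0x23880056188000921400500000303) .keep .gnil)) (.child (.pre (.c 5 60 0 0 (.c 0 60 0 0 .nil)) (.c 0x7ffd80018001 60 (.t 0 1 (.z 2)) (.t 1 1 (.z 3)) .nil) .nil (.prune (.leaf 0x1214000e38800080000302) .keep .gnil)) .cnil))) (.brow 508 3 0 (.t 3 3 (.z 32768)) 3 0 (.t 1 1 (.t 0 144097 (.z 32768)))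
 (.child (.pre (.c 5 60 0 0 (.c 1 60 62 0 .nil)) .nil .nil (.dead (.t 1 3 (.t 0 4 (.z 0))))) (.child (.pre (.c 5 60 0 0 (.c 1 60 61 0 .nil)) .nil .nil (.dead (.t 1 1 (.t 0 1 (.z 0))))) (.child (.pre (.c 5 60 0 0 (.c 1 60 62 0 .nil)) (.c 0x7ffe80018001 60 (.t 3 3 (.t 0 408243 (.z 1048576))) (.t 1 1 (.z 4)) .nil) .nil (.prune (.leaf 0x618c0009220005201c40233880051020000908820200000306) .keep .gnil)) .cnil))) (.brow 507 3 0 (.t 3 3 (.z 32768)) 3 0 (.t 1 1 (.t 0 246350 (.z 65536)))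
 (.child (.pre (.c 5 60 0 0 .nil) .nil .nil (.prune (.leaf 0x638c005418c00480000302) .keep .gnil)) (.child (.pre (.c 5 60 0 0 (.c 0 60 0 0 .nil)) (.c 0x80027fff8000 60 (.t 1 42696 (.t 3 1 (.z 262144))) (.t 0 1 (.z 3)) .nil) .nil (.prune (.leaf 0x638c000b18c00500000302) .keep .gnil)) .cnil)) (.brow 506 3 0 (.t 3 3 (.z 32768)) 3 0 (.t 0 3 (.z 1))
 (.child (.pre (.c 5 60 0 0 (.c 0 60 0 0 (.c 1 60 62 0 .nil))) .nil .nil (.dead (.t 2 5 (.t 1 4 (.t 0 10 (.z 0)))))) (.child (.pre (.c 5 60 0 0 (.c 0 60 0 0 (.c 1 60 61 0 .nil))) .nil .nil (.dead (.t 2 1 (.t 1 1 (.t 0 2 (.z 0)))))) .cnil)) (.brow 505 3 0 (.t 3 3 (.z 32768)) 3 0 (.t 0 3 (.z 1))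
 (.child (.pre (.c 5 60 0 0 .nil) .nil .nil (.prune (.leaf 0x618c005201000500000302) .keep .gnil)) (.child (.pre (.c 0 60 0 0 (.c 5 60 0 0 .nil)) .nil .nil (.prune (.leaf 0x618c005201000500000302) .keep .gnil)) .cnil)) (.brow 504 0 0 (.z 1) 3 0 (.t 0 3 (.z 1))
 (.child (.pre (.c 1 60 62 0 (.c 5 60 0 0 .nil)) .nil .nil (.dead (.t 3 1 (.t 1 111648 (.t 0 80656 (.z 0)))))) (.child (.pre (.c 5 60 0 0 (.c 0 60 0 0 (.c 1 60 61 0 .nil))) .nil .nil (.dead (.t 2 1 (.t 1 1 (.t 0 2 (.z 0)))))) .cnil)) (.brow 504 0 0 (.z 1) 3 0 (.t 0 3 (.z 1))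
 (.child (.pre (.c 0 60 0 0 (.c 5 60 0 0 .nil)) (.c 0x80027fff8001 60 (.t 0 116844 (.t 3 9 (.z 1048576))) (.t 1 1 (.z 3)) .nil) .nil (.prune (.leaf 0x1210000e38400080000302) .keep .gnil)) .cnil) (.brow 504 0 0 (.z 1) 3 0 (.t 0 3 (.z 1))
 .cnil (.brow 504 0 0 (.z 1) 3 0 (.t 0 3 (.z 1))
 .cnil (.brow 504 0 0 (.z 1) 3 0 (.t 0 3 (.z 1))
 .cnil (.brow 504 0 0 (.z 1) 3 0 (.z 1)
 .cnil (.brow 504 0 0 (.z 1) 3 0 (.z 1)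
 .cnil (.brow 504 0 0 (.z 1) 3 0 (.z 1)
 .cnil (.brow 504 0 0 (.z 1) 3 0 (.z 1)
 .cnil (.brow 504 0 0 (.z 1) 3 0 (.z 1)
 .cnil (.brow 504 0 0 (.z 1) 3 0 (.z 1)
 .cnil (.brow 504 0 0 (.z 1) 3 0 (.z 1)
 .cnil (.brow 505 2 0 (.z 1) 3 0 (.z 1)
 .cnil (.brow 506 2 0 (.z 1) 3 0 (.z 1)
 .cnil (.brow 507 2 0 (.z 1) 3 0 (.z 1)
 .cnil (.brow 508 2 0 (.z 1) 3 0 (.z 1)
 .cnil (.brow 509 2 0 (.z 1) 3 0 (.z 1)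
 .cnil (.brow 510 2 0 (.z 1) 3 0 (.z 1)
 .cnil (.brow 511 2 0 (.z 1) 3 0 (.z 1)
 .cnil (.brow 512 2 0 (.z 1) 3 0 (.z 1)
 .cnil (.brow 513 2 0 (.z 1) 3 0 (.z 1)
 .cnil (.brow 514 2 0 (.z 1) 3 0 (.z 1)
 .cnil (.brow 515 2 0 (.z 1) 3 0 (.z 1)
 .cnil (.brow 516 2 0 (.z 1) 3 0 (.z 1)
 .cnil (.brow 517 2 0 (.z 1) 3 0 (.z 1)
 .cnil (.brow 518 2 0 (.z 1) 3 0 (.z 1)
 .cnil (.brow 519 2 0 (.z 1) 3 0 (.z 1)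
 .cnil (.brow 520 2 0 (.z 1) 3 0 (.z 1)
 .cnil (.brow 521 2 0 (.z 1) 3 0 (.z 1)
 .cnil (.brow 522 2 0 (.z 1) 3 0 (.z 1)
 .cnil (.brow 523 2 0 (.z 1) 3 0 (.z 1)
 .cnil (.brow 524 2 0 (.z 1) 3 0 (.z 1)
 .cnil (.brow 525 2 0 (.z 1) 3 0 (.z 1)
 .cnil (.brow 526 2 0 (.z 1) 3 0 (.z 1)
 .cnil (.brow 527 2 0 (.z 1) 3 0 (.z 1)
 .cnil (.brow 528 2 0 (.z 1) 3 0 (.z 1)
 .cnil (.brow 529 2 0 (.z 1) 3 0 (.z 1)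
 .cnil (.brow 530 2 0 (.z 1) 3 0 (.z 1)
 .cnil (.brow 531 2 0 (.z 1) 3 0 (.z 1)
 .cnil (.brow 532 2 0 (.z 1) 3 0 (.z 1)
 .cnil (.brow 533 2 0 (.z 1) 3 0 (.z 1)
 .cnil (.brow 534 2 0 (.z 1) 3 0 (.z 1)
 .cnil (.brow 535 2 0 (.z 1) 3 0 (.z 1)
 .cnil .bnil))))))))))))))))))))))))))))))))))))))))))))))))))))))))
 (.grow 502 (.brow 511 3 0 (.t 3 1 (.z 8192)) 2 0 (.z 1)
 .cnil (.brow 512 3 0 (.t 3 1 (.z 8192)) 2 0 (.z 1)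
 .cnil (.brow 513 3 0 (.t 3 3 (.z 32768)) 2 0 (.z 1)
 .cnil (.brow 512 3 0 (.t 3 3 (.z 32768)) 2 0 (.z 1)
 (.child (.pre (.c 5 60 0 0 (.c 0 61 0 0 .nil)) .nil .nil (.dead (.t 1 6 (.t 0 1 (.z 0))))) (.child (.pre (.c 5 60 0 0 (.c 1 60 64 0 .nil)) (.c 0x7fff80018001 60 (.t 0 1 (.z 4)) (.z 1) (.c 0x7ffe80008001 62 (.t 0 1 (.z 3)) (.t 1 1 (.z 8)) (.c 0x800280008000 62 (.t 1 10806 (.t 3 1 (.z 131072))) (.z 1) .nil))) .nil (.prune (.leaf 0x21880016388000938800180000303) .keep .gnil)) .cnil)) (.brow 511 3 0 (.t 3 3 (.z 32768)) 2 0 (.z 1)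
 (.child (.np 60 6) (.child (.pre (.c 5 60 0 0 (.c 1 60 63 0 .nil)) (.c 0x800080018001 62 (.t 3 1 (.t 0 17776 (.z 131072))) (.z 1) (.c 0x7fff80018001 60 (.t 0 1 (.z 4)) (.z 1) .nil)) .nil (.prune (.leaf 0x6388001128800080000302) .keep .gnil)) (.child (.np 60 2) (.child (.np 60 3) .cnil)))) (.brow 510 3 0 (.t 3 3 (.z 32768)) 3 0 (.t 1 1 (.t 0 94945 (.z 16384)))
 (.child (.pre (.c 5 60 0 0 (.c 0 61 0 0 .nil)) .nil .nil (.dead (.t 1 6 (.t 0 1 (.z 0))))) (.child (.pre (.c 5 60 0 0 (.c 1 60 64 0 .nil)) (.c 0x7ffd80028002 60 (.t 0 1 (.z 2)) (.t 1 1 (.z 3)) .nil) .nil (.prune (.leaf 0x1214000e38800080000302) .keep .gnil)) (.child (.pre (.c 5 60 0 0 (.c 2 60 63 64 .nil)) (.c 0x7fff80018001 60 (.t 0 2 (.t 1 1 (.z 4))) (.z 1) .nil) .nil (.prune (.leaf 0x2388000e38c00080000302) .keep .gnil)) (.child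 (.pre (.c 5 60 0 0 (.c 0 60 0 0 .nil)) (.c 0x800080018001 62 (.t 3 1 (.t 0 16817 (.z 131072))) (.z 1) (.c 0x7fff80018001 61 (.t 3 1 (.t 0 16817 (.z 131072))) (.t 1 1 (.z 5)) (.c 0x7ffe80018001 60 (.t 0 1 (.z 3)) (.t 1 1 (.z 5)) .nil))) .nil (.prune (.leaf 0x6388001b288000921400100000303) .keep .gnil)) .cnil)))) (.brow 509 3 0 (.t 3 3 (.z 32768)) 3 0 (.t 1 1 (.t 0 89714 (.z 16384)))
 (.child (.np 60 2) (.child (.pre (.c 5 60 0 0 (.c 1 60 63 0 .nil)) (.c 0x7ffe80018001 60 (.t 0 1 (.z 3)) (.t 1 1 (.z 6)) (.c 0x800280008000 62 (.t 1 13307 (.t 3 1 (.z 131072))) (.z 1) .nil)) .nil (.prune (.leaf 0x6188000938800100000302) .keep .gnil)) (.child (.np 60 4) (.child (.pre (.c 5 60 0 0 (.c 1 60 63 0 (.c 0 60 0 0 .nil))) (.c 0x800080018001 62 (.t 4 1 (.t 0 17776 (.z 131072))) (.z 1) (.c 0x7ffe80018001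 60 (.t 0 1 (.z 3)) (.t 1 1 (.z 4)) .nil)) .nil (.prune (.leaf 0x12140012288000e38800100000303) .keep .gnil)) .cnil)))) (.brow 508 3 0 (.t 3 3 (.z 32768)) 3 0 (.t 1 37 (.t 0 5072233 (.z 1048576)))
 (.child (.np 60 3) (.child (.pre (.c 5 60 0 0 (.c 1 60 64 0 .nil)) (.c 0x7fff80028001 62 (.t 3 1 (.t 0 37278 (.z 131072))) (.z 1) (.c 0x7ffe80028001 60 (.t 0 2 (.z 5)) (.t 1 1 (.z 4)) .nil)) .nil (.prune (.leaf 0x638c001238800080000302) .keep .gnil)) (.child (.pre (.c 5 60 0 0 (.c 2 60 63 64 .nil)) (.c 0x7ffe80018001 60 (.t 0 1 (.z 3)) (.t 1 1 (.z 4)) .nil) .nil (.prune (.leaf 0x23880056188000921400500000303) .keep .gnil)) .cnil))) (.brow 507 3 0 (.t 3 3 (.z 32768)) 3 0 (.t 1 1 (.t 0 148046 (.z 32768)))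
 (.child (.np 60 2) (.child (.pre (.c 5 60 0 0 (.c 1 60 63 0 .nil)) (.c 0x7ffe80028001 60 (.t 3 2 (.t 0 456282 (.z 1048576))) (.t 1 1 (.z 3)) .nil) .nil (.prune (.leaf 0x618c000a18c00500000302) .keep .gnil)) (.child (.np 60 2) .cnil))) (.brow 506 3 0 (.t 3 3 (.z 32768)) 3 0 (.t 1 1 (.t 0 275169 (.z 65536)))
 (.child (.pre (.c 5 60 0 0 (.c 0 61 0 0 .nil)) .nil .nil (.dead (.t 1 6 (.t 0 1 (.z 0))))) (.child (.pre (.c 5 60 0 0 (.c 1 60 64 0 .nil)) (.c 0x80027fff8000 60 (.t 1 30098 (.t 3 1 (.z 262144))) (.t 0 1 (.z 3)) .nil) .nil (.prune (.leaf 0x218c005638c00080000302) .keep .gnil)) (.child (.pre (.c 5 60 0 0 (.c 2 60 63 64 .nil)) (.c 0x80027fff8000 60 (.t 1 15831 (.t 3 1 (.z 131072))) (.t 0 1 (.z 3)) .nil) .nil (.prune (.leaf 0x638c000c18c00500000302) .keep .gnil)) .cnil))) (.brow 505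 0 0 (.z 1) 3 0 (.t 0 3 (.z 1))
 (.child (.np 60 6) (.child (.pre (.c 1 60 63 0 (.c 5 60 0 0 .nil)) (.c 0x80037ffe8000 60 (.t 0 1 (.z 3)) (.t 1 1 (.z 2)) .nil) .nil (.prune (.leaf 0x618c00080000301) .keep .gnil)) (.child (.np 60 4) .cnil))) (.brow 505 0 0 (.z 1) 3 0 (.t 0 3 (.z 1))
 (.child (.pre (.c 1 60 64 0 (.c 5 60 0 0 .nil)) .nil .nil (.prune (.leaf 0x618c005201000500000302) .keep .gnil)) (.child (.pre (.c 2 60 63 64 (.c 5 60 0 0 .nil)) (.c 0x80027fff8000 60 (.t 0 1 (.z 4)) (.t 3 1 (.t 1 51269 (.z 131072))) .nil) .nil (.prune (.leaf 0x618c000d08c0061010000901000500000304) .keep .gnil)) .cnil)) (.brow 505 0 0 (.z 1) 3 0 (.t 0 3 (.z 1))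
 (.child (.np 60 2) .cnil) (.brow 505 0 0 (.z 1) 3 0 (.t 0 3 (.z 1))
 .cnil (.brow 505 0 0 (.z 1) 3 0 (.t 0 3 (.z 1))
 .cnil (.brow 505 0 0 (.z 1) 3 0 (.t 0 3 (.z 1))
 .cnil (.brow 505 0 0 (.z 1) 3 0 (.z 1)
 .cnil (.brow 505 0 0 (.z 1) 3 0 (.z 1)
 .cnil (.brow 505 0 0 (.z 1) 3 0 (.z 1)
 .cnil (.brow 505 0 0 (.z 1) 3 0 (.z 1)
 .cnil (.brow 505 0 0 (.z 1) 3 0 (.z 1)
 .cnil (.brow 505 0 0 (.z 1) 3 0 (.z 1)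
 .cnil (.brow 505 0 0 (.z 1) 3 0 (.z 1)
 .cnil (.brow 505 0 0 (.z 1) 3 0 (.z 1)
 .cnil (.brow 505 0 0 (.z 1) 3 0 (.z 1)
 .cnil (.brow 505 0 0 (.z 1) 3 0 (.z 1)
 .cnil (.brow 506 2 0 (.z 1) 3 0 (.z 1)
 .cnil (.brow 507 2 0 (.z 1) 3 0 (.z 1)
 .cnil (.brow 508 2 0 (.z 1) 3 0 (.z 1)
 .cnil (.brow 509 2 0 (.z 1) 3 0 (.z 1)
 .cnil (.brow 510 2 0 (.z 1) 3 0 (.z 1)
 .cnil (.brow 511 2 0 (.z 1) 3 0 (.z 1)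
 .cnil (.brow 512 2 0 (.z 1) 3 0 (.z 1)
 .cnil (.brow 513 2 0 (.z 1) 3 0 (.z 1)
 .cnil (.brow 514 2 0 (.z 1) 3 0 (.z 1)
 .cnil (.brow 515 2 0 (.z 1) 3 0 (.z 1)
 .cnil (.brow 516 2 0 (.z 1) 3 0 (.z 1)
 .cnil (.brow 517 2 0 (.z 1) 3 0 (.z 1)
 .cnil (.brow 518 2 0 (.z 1) 3 0 (.z 1)
 .cnil (.brow 519 2 0 (.z 1) 3 0 (.z 1)
 .cnil (.brow 520 2 0 (.z 1) 3 0 (.z 1)
 .cnil (.brow 521 2 0 (.z 1) 3 0 (.z 1)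
 .cnil (.brow 522 2 0 (.z 1) 3 0 (.z 1)
 .cnil (.brow 523 2 0 (.z 1) 3 0 (.z 1)
 .cnil (.brow 524 2 0 (.z 1) 3 0 (.z 1)
 .cnil (.brow 525 2 0 (.z 1) 3 0 (.z 1)
 .cnil (.brow 526 2 0 (.z 1) 3 0 (.z 1)
 .cnil (.brow 527 2 0 (.z 1) 3 0 (.z 1)
 .cnil (.brow 528 2 0 (.z 1) 3 0 (.z 1)
 .cnil (.brow 529 2 0 (.z 1) 3 0 (.z 1)
 .cnil (.brow 530 2 0 (.z 1) 3 0 (.z 1)
 .cnil (.brow 531 2 0 (.z 1) 3 0 (.z 1)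
 .cnil (.brow 532 2 0 (.z 1) 3 0 (.z 1)
 .cnil (.brow 533 2 0 (.z 1) 3 0 (.z 1)
 .cnil (.brow 534 2 0 (.z 1) 3 0 (.z 1)
 .cnil (.brow 535 2 0 (.z 1) 3 0 (.z 1)
 .cnil (.brow 536 2 0 (.z 1) 3 0 (.z 1)
 .cnil .bnil)))))))))))))))))))))))))))))))))))))))))))))))))))))))))
 (.grow 504 (.brow 512 3 0 (.t 3 1 (.z 8192)) 2 0 (.z 1)
 .cnil (.brow 512 3 0 (.t 3 3 (.z 32768)) 2 0 (.z 1)
 (.child (.pre (.c 5 60 0 0 .nil) (.c 0x800080018001 62 (.t 0 1 (.z 7)) (.z 1) (.c 0x7fff80018001 60 (.t 0 1 (.z 4)) (.z 1) .nil)) .nil (.prune (.leaf 0x1288000e38800100000302) .keep .gnil)) .cnil) (.brow 511 3 0 (.t 3 3 (.z 32768)) 2 0 (.z 1)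
 (.child (.pre (.c 5 60 0 0 (.c 1 60 61 0 .nil)) .nil .nil (.dead (.t 1 1 (.t 0 1 (.z 0))))) (.child (.pre (.c 5 60 0 0 (.c 1 60 62 0 .nil)) .nil .nil (.dead (.t 1 4 (.t 0 5 (.z 0))))) (.child (.pre (.c 5 60 0 0 (.c 1 60 61 0 .nil)) .nil .nil (.dead (.t 1 1 (.t 0 1 (.z 0))))) .cnil))) (.brow 510 3 0 (.t 3 3 (.z 32768)) 3 0 (.t 1 61 (.t 0 6202865 (.z 1048576)))
 (.child (.pre (.c 5 60 0 0 .nil) (.c 0x7fff80018001 60 (.t 0 1 (.z 4)) (.z 1) .nil) .nil (.prune (.leaf 0x61880009388005121400500000303) .keep .gnil)) (.child (.pre (.c 5 60 0 0 (.c 0 60 0 0 .nil)) (.c 0x7ffd80028002 60 (.t 0 1 (.z 2)) (.t 1 1 (.z 3)) .nil) .nil (.prune (.leaf 0x1014000e18800080000302) .keep .gnil)) (.child (.pre (.c 5 60 0 0 (.c 0 60 0 0 .nil)) (.c 0x800080018001 62 (.t 3 1 (.t 0 16481 (.z 131072))) (.z 1) (.c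 0x7ffe80018001 60 (.t 0 1 (.z 3)) (.t 1 1 (.z 5)) .nil)) .nil (.prune (.leaf 0x12140012288000e38800100000303) .keep .gnil)) .cnil))) (.brow 509 3 0 (.t 3 3 (.z 32768)) 3 0 (.t 1 13 (.t 0 1467026 (.z 262144)))
 (.child (.pre (.c 5 60 0 0 (.c 1 60 61 0 .nil)) .nil .nil (.dead (.t 1 1 (.t 0 1 (.z 0))))) (.child (.pre (.c 5 60 0 0 (.c 1 60 62 0 .nil)) .nil .nil (.dead (.t 1 4 (.t 0 5 (.z 0))))) (.child (.pre (.c 5 60 0 0 (.c 1 60 61 0 .nil)) .nil .nil (.dead (.t 1 1 (.t 0 1 (.z 0))))) .cnil))) (.brow 508 3 0 (.t 3 3 (.z 32768)) 3 0 (.t 1 3 (.t 0 345834 (.z 65536)))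
 (.child (.pre (.c 5 60 0 0 .nil) (.c 0x7ffe80028001 60 (.t 0 1 (.z 3)) (.t 4 1 (.z 32768)) .nil) .nil (.prune (.leaf 0x638c00080000301) .keep .gnil)) (.child (.pre (.c 5 60 0 0 (.c 0 60 0 0 .nil)) (.c 0x7fff80028001 62 (.t 3 1 (.t 0 68100 (.z 262144))) (.z 1) (.c 0x7ffd80028001 60 (.t 0 1 (.z 2)) (.t 1 1 (.z 3)) .nil)) .nil (.prune (.leaf 0x4388000b388001638c00100000303) .keep .gnil)) (.child (.pre (.c 5 60 0 0 (.c 0 60 0 0 .nil)) (.c 0x7ffd80018001 60 (.t 0 1 (.z 3)) (.t 1 1 (.z 4)) .nil) .nil (.prune (.leaf 0x2388005618800080000302) .keep .gnil)) .cnil))) (.brow 507 3 0 (.t 3 3 (.z 32768)) 3 0 (.t 1 1 (.t 0 162455 (.z 32768)))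
 (.child (.pre (.c 5 60 0 0 (.c 1 60 61 0 .nil)) .nil .nil (.dead (.t 1 1 (.t 0 1 (.z 0))))) (.child (.pre (.c 5 60 0 0 (.c 1 60 62 0 .nil)) .nil .nil (.dead (.t 1 4 (.t 0 5 (.z 0))))) (.child (.pre (.c 5 60 0 0 (.c 1 60 61 0 .nil)) .nil .nil (.dead (.t 1 1 (.t 0 1 (.z 0))))) .cnil))) (.brow 506 0 0 (.z 1) 3 0 (.t 1 1 (.t 0 151994 (.z 32768)))
 (.child (.pre (.c 5 60 0 0 .nil) (.c 0x80027fff8000 62 (.t 4 1 (.z 32768)) (.z 1) .nil) .nil (.prune (.leaf 0x638c005c38800080000302) .keep .gnil)) (.child (.pre (.c 5 60 0 0 (.c 0 60 0 0 .nil)) (.c 0x80027fff8000 60 (.t 1 36716 (.t 3 1 (.z 262144))) (.t 0 1 (.z 3)) .nil) .nil (.prune (.leaf 0x638c000a18c00500000302) .keep .gnil)) (.child (.pre (.c 5 60 0 0 (.c 0 60 0 0 .nil)) (.c 0x80027fff8000 60 (.t 1 17001 (.t 3 1 (.z 131072))) (.t 0 1 (.z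 3)) .nil) .nil (.prune (.leaf 0x638c000a120e02418c00500000303) .keep .gnil)) .cnil))) (.brow 506 0 0 (.z 1) 3 0 (.t 0 4 (.z 1))
 (.child (.pre (.c 5 60 0 0 (.c 0 60 0 0 (.c 1 60 62 0 .nil))) .nil .nil (.dead (.t 2 5 (.t 1 2 (.t 0 8 (.z 0)))))) .cnil) (.brow 506 0 0 (.z 1) 3 0 (.t 0 4 (.z 1))
 .cnil (.brow 506 0 0 (.z 1) 3 0 (.t 0 4 (.z 1))
 .cnil (.brow 506 0 0 (.z 1) 3 0 (.t 0 4 (.z 1))
 .cnil (.brow 506 0 0 (.z 1) 3 0 (.t 0 4 (.z 1))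
 .cnil (.brow 506 0 0 (.z 1) 3 0 (.z 1)
 .cnil (.brow 506 0 0 (.z 1) 3 0 (.z 1)
 .cnil (.brow 506 0 0 (.z 1) 3 0 (.z 1)
 .cnil (.brow 506 0 0 (.z 1) 3 0 (.z 1)
 .cnil (.brow 506 0 0 (.z 1) 3 0 (.z 1)
 .cnil (.brow 506 0 0 (.z 1) 3 0 (.z 1)
 .cnil (.brow 506 0 0 (.z 1) 3 0 (.z 1)
 .cnil (.brow 506 0 0 (.z 1) 3 0 (.z 1)
 .cnil (.brow 506 0 0 (.z 1) 3 0 (.z 1)
 .cnil (.brow 506 0 0 (.z 1) 3 0 (.z 1)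
 .cnil (.brow 506 0 0 (.z 1) 3 0 (.z 1)
 .cnil (.brow 506 0 0 (.z 1) 3 0 (.z 1)
 .cnil (.brow 507 2 0 (.z 1) 3 0 (.z 1)
 .cnil (.brow 508 2 0 (.z 1) 3 0 (.z 1)
 .cnil (.brow 509 2 0 (.z 1) 3 0 (.z 1)
 .cnil (.brow 510 2 0 (.z 1) 3 0 (.z 1)
 .cnil (.brow 511 2 0 (.z 1) 3 0 (.z 1)
 .cnil (.brow 512 2 0 (.z 1) 3 0 (.z 1)
 .cnil (.brow 513 2 0 (.z 1) 3 0 (.z 1)
 .cnil (.brow 514 2 0 (.z 1) 3 0 (.z 1)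
 .cnil (.brow 515 2 0 (.z 1) 3 0 (.z 1)
 .cnil (.brow 516 2 0 (.z 1) 3 0 (.z 1)
 .cnil (.brow 517 2 0 (.z 1) 3 0 (.z 1)
 .cnil (.brow 518 2 0 (.z 1) 3 0 (.z 1)
 .cnil (.brow 519 2 0 (.z 1) 3 0 (.z 1)
 .cnil (.brow 520 2 0 (.z 1) 3 0 (.z 1)
 .cnil (.brow 521 2 0 (.z 1) 3 0 (.z 1)
 .cnil (.brow 522 2 0 (.z 1) 3 0 (.z 1)
 .cnil (.brow 523 2 0 (.z 1) 3 0 (.z 1)
 .cnil (.brow 524 2 0 (.z 1) 3 0 (.z 1)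
 .cnil (.brow 525 2 0 (.z 1) 3 0 (.z 1)
 .cnil (.brow 526 2 0 (.z 1) 3 0 (.z 1)
 .cnil (.brow 527 2 0 (.z 1) 3 0 (.z 1)
 .cnil (.brow 528 2 0 (.z 1) 3 0 (.z 1)
 .cnil (.brow 529 2 0 (.z 1) 3 0 (.z 1)
 .cnil (.brow 530 2 0 (.z 1) 3 0 (.z 1)
 .cnil (.brow 531 2 0 (.z 1) 3 0 (.z 1)
 .cnil (.brow 532 2 0 (.z 1) 3 0 (.z 1)
 .cnil (.brow 533 2 0 (.z 1) 3 0 (.z 1)
 .cnil (.brow 534 2 0 (.z 1) 3 0 (.z 1)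
 .cnil (.brow 535 2 0 (.z 1) 3 0 (.z 1)
 .cnil (.brow 536 2 0 (.z 1) 3 0 (.z 1)
 .cnil (.brow 537 2 0 (.z 1) 3 0 (.z 1)
 .cnil .bnil))))))))))))))))))))))))))))))))))))))))))))))))))))))))
 (.grow 505 (.brow 511 1 0 (.z 1) 2 0 (.z 1)
 (.child (.np 60 7) (.child (.pre (.c 5 60 0 0 (.c 2 60 63 64 .nil)) (.c 0x800080018001 62 (.t 3 1 (.t 0 15362 (.z 131072))) (.z 1) (.c 0x7fff80018001 60 (.t 0 1 (.z 4)) (.z 1) .nil)) .nil (.prune (.leaf 0x6388001128800080000302) .keep .gnil)) .cnil)) (.brow 510 1 0 (.z 1) 2 0 (.z 1)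
 (.child (.pre (.c 5 60 0 0 (.c 0 61 0 0 .nil)) .nil .nil (.dead (.t 1 7 (.t 0 1 (.z 0))))) (.child (.np 60 2) (.child (.pre (.c 5 60 0 0 (.c 1 60 63 0 .nil)) (.c 0x7fff80018001 60 (.t 0 1 (.z 5)) (.z 1) .nil) .nil (.prune (.leaf 0x4388000e38c00080000302) .keep .gnil)) (.child (.np 60 2) .cnil)))) (.brow 509 1 0 (.z 1) 3 0 (.t 1 1 (.t 0 104124 (.z 16384)))
 (.child (.pre (.c 5 60 0 0 (.c 0 61 0 0 .nil)) .nil .nil (.dead (.t 1 7 (.t 0 1 (.z 0))))) (.child (.pre (.c 5 60 0 0 (.c 2 60 63 64 .nil)) (.c 0x7ffe80018001 60 (.t 0 1 (.z 3)) (.t 1 1 (.z 6)) (.c 0x800280008000 62 (.t 1 11927 (.t 3 1 (.z 131072))) (.z 1) .nil)) .nil (.prune (.leaf 0x6188000938800100000302) .keep .gnil)) (.child (.pre (.c 5 60 0 0 (.c 1 60 64 0 .nil)) (.c 0x7ffe80018001 60 (.t 0 1 (.z 3)) (.t 1 1 (.z 6)) .nil) .nil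 (.prune (.leaf 0x638800080000301) .keep .gnil)) (.child (.pre (.c 5 60 0 0 (.c 2 60 63 64 .nil)) (.c 0x800080018001 62 (.t 3 1 (.t 0 15362 (.z 131072))) (.z 1) (.c 0x7ffe80018001 60 (.t 0 2 (.t 1 1 (.z 4))) (.t 1 1 (.z 6)) .nil)) .nil (.prune (.leaf 0x12140012288000e38800100000303) .keep .gnil)) .cnil)))) (.brow 508 1 0 (.z 1) 3 0 (.t 1 1 (.t 0 98894 (.z 16384)))
 (.child (.pre (.c 5 60 0 0 (.c 0 61 0 0 .nil)) .nil .nil (.dead (.t 1 7 (.t 0 1 (.z 0))))) (.child (.np 60 2) (.child (.pre (.c 5 60 0 0 (.c 1 60 63 0 .nil)) (.c 0x7ffe80018001 60 (.t 0 1 (.z 3)) (.t 1 1 (.z 6)) (.c 0x800280008000 62 (.t 1 11478 (.t 3 1 (.z 131072))) (.z 1) .nil)) .nil (.prune (.leaf 0x61880009388001121400580000303) .keep .gnil)) (.child (.np 60 2) .cnil)))) (.brow 507 0 0 (.z 1) 3 0 (.t 1 3 (.t 0 374653 (.z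 65536)))
 (.child (.pre (.c 5 60 0 0 (.c 0 61 0 0 .nil)) .nil .nil (.dead (.t 1 7 (.t 0 1 (.z 0))))) (.child (.pre (.c 5 60 0 0 (.c 2 60 63 64 .nil)) (.c 0x7ffe80028001 60 (.t 0 1 (.z 3)) (.t 1 1 (.z 4)) .nil) .nil (.prune (.leaf 0x638c00080000301) .keep .gnil)) (.child (.pre (.c 5 60 0 0 (.c 1 60 64 0 .nil)) (.c 0x7fff80028001 62 (.t 3 1 (.t 0 62673 (.z 262144))) (.z 1) (.c 0x7ffd80028001 60 (.t 0 2 (.z 5)) (.t 1 1 (.z 4)) .nil)) .nil (.prune (.leaf 0x2388000e38c00100000302) .keep .gnil)) (.child (.pre (.c 5 60 0 0 (.c 2 60 63 64 .nil)) (.c 0x7ffd80018001 60 (.t 0 1 (.z 3)) (.t 1 1 (.z 4)) .nil) .nil (.prune (.leaf 0x6188000a388005121400500000303) .keep .gnil)) .cnil)))) (.brow 507 0 0 (.z 1) 3 0 (.t 1 1 (.t 0 176865 (.z 32768)))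
 (.child (.np 60 2) (.child (.pre (.c 5 60 0 0 (.c 1 60 63 0 .nil)) (.c 0x7ffd80028001 60 (.t 3 1 (.t 0 116946 (.z 262144))) (.t 1 1 (.z 3)) .nil) .nil (.prune (.leaf 0x618c000a18c00500000302) .keep .gnil)) (.child (.np 60 2) .cnil))) (.brow 507 0 0 (.z 1) 3 0 (.t 1 1 (.t 0 311886 (.z 65536)))
 (.child (.pre (.c 5 60 0 0 (.c 1 60 64 0 .nil)) (.c 0x80027fff8000 60 (.t 1 12750 (.t 3 1 (.z 131072))) (.t 0 1 (.z 3)) .nil) .nil (.prune (.leaf 0x638c000b18c00500000302) .keep .gnil)) .cnil) (.brow 507 0 0 (.z 1) 3 0 (.t 0 4 (.z 1))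
 .cnil (.brow 507 0 0 (.z 1) 3 0 (.t 0 4 (.z 1))
 .cnil (.brow 507 0 0 (.z 1) 3 0 (.t 0 4 (.z 1))
 .cnil (.brow 507 0 0 (.z 1) 3 0 (.t 0 4 (.z 1))
 .cnil (.brow 507 0 0 (.z 1) 3 0 (.z 1)
 .cnil (.brow 507 0 0 (.z 1) 3 0 (.z 1)
 .cnil (.brow 507 0 0 (.z 1) 3 0 (.z 1)
 .cnil (.brow 507 0 0 (.z 1) 3 0 (.z 1)
 .cnil (.brow 507 0 0 (.z 1) 3 0 (.z 1)
 .cnil (.brow 507 0 0 (.z 1) 3 0 (.z 1)
 .cnil (.brow 507 0 0 (.z 1) 3 0 (.z 1)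
 .cnil (.brow 507 0 0 (.z 1) 3 0 (.z 1)
 .cnil (.brow 507 0 0 (.z 1) 3 0 (.z 1)
 .cnil (.brow 507 0 0 (.z 1) 3 0 (.z 1)
 .cnil (.brow 507 0 0 (.z 1) 3 0 (.z 1)
 .cnil (.brow 507 0 0 (.z 1) 3 0 (.z 1)
 .cnil (.brow 507 0 0 (.z 1) 3 0 (.z 1)
 .cnil (.brow 507 0 0 (.z 1) 3 0 (.z 1)
 .cnil (.brow 507 0 0 (.z 1) 3 0 (.z 1)
 .cnil (.brow 508 2 0 (.z 1) 3 0 (.z 1)
 .cnil (.brow 509 2 0 (.z 1) 3 0 (.z 1)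
 .cnil (.brow 510 2 0 (.z 1) 3 0 (.z 1)
 .cnil (.brow 511 2 0 (.z 1) 3 0 (.z 1)
 .cnil (.brow 512 2 0 (.z 1) 3 0 (.z 1)
 .cnil (.brow 513 2 0 (.z 1) 3 0 (.z 1)
 .cnil (.brow 514 2 0 (.z 1) 3 0 (.z 1)
 .cnil (.brow 515 2 0 (.z 1) 3 0 (.z 1)
 .cnil (.brow 516 2 0 (.z 1) 3 0 (.z 1)
 .cnil (.brow 517 2 0 (.z 1) 3 0 (.z 1)
 .cnil (.brow 518 2 0 (.z 1) 3 0 (.z 1)
 .cnil (.brow 519 2 0 (.z 1) 3 0 (.z 1)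
 .cnil (.brow 520 2 0 (.z 1) 3 0 (.z 1)
 .cnil (.brow 521 2 0 (.z 1) 3 0 (.z 1)
 .cnil (.brow 522 2 0 (.z 1) 3 0 (.z 1)
 .cnil (.brow 523 2 0 (.z 1) 3 0 (.z 1)
 .cnil (.brow 524 2 0 (.z 1) 3 0 (.z 1)
 .cnil (.brow 525 2 0 (.z 1) 3 0 (.z 1)
 .cnil (.brow 526 2 0 (.z 1) 3 0 (.z 1)
 .cnil (.brow 527 2 0 (.z 1) 3 0 (.z 1)
 .cnil (.brow 528 2 0 (.z 1) 3 0 (.z 1)
 .cnil (.brow 529 2 0 (.z 1) 3 0 (.z 1)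
 .cnil (.brow 530 2 0 (.z 1) 3 0 (.z 1)
 .cnil (.brow 531 2 0 (.z 1) 3 0 (.z 1)
 .cnil (.brow 532 2 0 (.z 1) 3 0 (.z 1)
 .cnil (.brow 533 2 0 (.z 1) 3 0 (.z 1)
 .cnil (.brow 534 2 0 (.z 1) 3 0 (.z 1)
 .cnil (.brow 535 2 0 (.z 1) 3 0 (.z 1)
 .cnil (.brow 536 2 0 (.z 1) 3 0 (.z 1)
 .cnil (.brow 537 2 0 (.z 1) 3 0 (.z 1)
 .cnil (.brow 538 2 0 (.z 1) 3 0 (.z 1)
 .cnil .bnil)))))))))))))))))))))))))))))))))))))))))))))))))))))))))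
 (.grow 507 (.brow 512 1 0 (.z 1) 3 0 (.t 1 1 (.t 0 111329 (.z 16384)))
 (.child (.pre (.c 5 60 0 0 (.c 0 60 0 0 .nil)) (.c 0x800080018001 62 (.t 3 1 (.t 0 14385 (.z 131072))) (.z 1) (.c 0x7ffe80018001 60 (.t 0 1 (.z 4)) (.t 1 1 (.z 5)) .nil)) .nil (.prune (.leaf 0x1288000e38800100000302) .keep .gnil)) .cnil) (.brow 511 1 0 (.z 1) 3 0 (.t 1 1 (.t 0 106098 (.z 16384)))
 (.child (.pre (.c 5 60 0 0 (.c 1 60 61 0 .nil)) .nil .nil (.dead (.t 1 1 (.t 0 1 (.z 0))))) .cnil) (.brow 510 1 0 (.z 1) 3 0 (.t 1 37 (.t 0 6120809 (.z 1048576)))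
 .cnil (.brow 509 1 0 (.z 1) 3 0 (.t 1 1 (.t 0 180814 (.z 32768)))
 .cnil (.brow 508 0 0 (.z 1) 3 0 (.t 1 1 (.t 0 340705 (.z 65536)))
 .cnil (.brow 508 0 0 (.z 1) 3 0 (.t 0 5 (.z 1))
 .cnil (.brow 508 0 0 (.z 1) 3 0 (.t 0 5 (.z 1))
 .cnil (.brow 508 0 0 (.z 1) 3 0 (.t 0 5 (.z 1))
 .cnil (.brow 508 0 0 (.z 1) 3 0 (.z 1)
 .cnil (.brow 508 0 0 (.z 1) 3 0 (.z 1)
 .cnil (.brow 508 0 0 (.z 1) 3 0 (.z 1)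
 .cnil (.brow 508 0 0 (.z 1) 3 0 (.z 1)
 .cnil (.brow 508 0 0 (.z 1) 3 0 (.z 1)
 .cnil (.brow 508 0 0 (.z 1) 3 0 (.z 1)
 .cnil (.brow 508 0 0 (.z 1) 3 0 (.z 1)
 .cnil (.brow 508 0 0 (.z 1) 3 0 (.z 1)
 .cnil (.brow 508 0 0 (.z 1) 3 0 (.z 1)
 .cnil (.brow 508 0 0 (.z 1) 3 0 (.z 1)
 .cnil (.brow 508 0 0 (.z 1) 3 0 (.z 1)
 .cnil (.brow 508 0 0 (.z 1) 3 0 (.z 1)
 .cnil (.brow 508 0 0 (.z 1) 3 0 (.z 1)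
 .cnil (.brow 508 0 0 (.z 1) 3 0 (.z 1)
 .cnil (.brow 508 0 0 (.z 1) 3 0 (.z 1)
 .cnil (.brow 508 0 0 (.z 1) 3 0 (.z 1)
 .cnil (.brow 508 0 0 (.z 1) 3 0 (.z 1)
 .cnil (.brow 509 2 0 (.z 1) 3 0 (.z 1)
 .cnil (.brow 510 2 0 (.z 1) 3 0 (.z 1)
 .cnil (.brow 511 2 0 (.z 1) 3 0 (.z 1)
 .cnil (.brow 512 2 0 (.z 1) 3 0 (.z 1)
 .cnil (.brow 513 2 0 (.z 1) 3 0 (.z 1)
 .cnil (.brow 514 2 0 (.z 1) 3 0 (.z 1)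
 .cnil (.brow 515 2 0 (.z 1) 3 0 (.z 1)
 .cnil (.brow 516 2 0 (.z 1) 3 0 (.z 1)
 .cnil (.brow 517 2 0 (.z 1) 3 0 (.z 1)
 .cnil (.brow 518 2 0 (.z 1) 3 0 (.z 1)
 .cnil (.brow 519 2 0 (.z 1) 3 0 (.z 1)
 .cnil (.brow 520 2 0 (.z 1) 3 0 (.z 1)
 .cnil (.brow 521 2 0 (.z 1) 3 0 (.z 1)
 .cnil (.brow 522 2 0 (.z 1) 3 0 (.z 1)
 .cnil (.brow 523 2 0 (.z 1) 3 0 (.z 1)
 .cnil (.brow 524 2 0 (.z 1) 3 0 (.z 1)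
 .cnil (.brow 525 2 0 (.z 1) 3 0 (.z 1)
 .cnil (.brow 526 2 0 (.z 1) 3 0 (.z 1)
 .cnil (.brow 527 2 0 (.z 1) 3 0 (.z 1)
 .cnil (.brow 528 2 0 (.z 1) 3 0 (.z 1)
 .cnil (.brow 529 2 0 (.z 1) 3 0 (.z 1)
 .cnil (.brow 530 2 0 (.z 1) 3 0 (.z 1)
 .cnil (.brow 531 2 0 (.z 1) 3 0 (.z 1)
 .cnil (.brow 532 2 0 (.z 1) 3 0 (.z 1)
 .cnil (.brow 533 2 0 (.z 1) 3 0 (.z 1)
 .cnil (.brow 534 2 0 (.z 1) 3 0 (.z 1)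
 .cnil (.brow 535 2 0 (.z 1) 3 0 (.z 1)
 .cnil (.brow 536 2 0 (.z 1) 3 0 (.z 1)
 .cnil (.brow 537 2 0 (.z 1) 3 0 (.z 1)
 .cnil (.brow 538 2 0 (.z 1) 3 0 (.z 1)
 .cnil (.brow 539 2 0 (.z 1) 3 0 (.z 1)
 .cnil .bnil))))))))))))))))))))))))))))))))))))))))))))))))))))))))
 (.grow 508 (.brow 513 1 0 (.z 1) 3 0 (.t 1 1 (.t 0 118534 (.z 16384)))
 .cnil (.brow 512 1 0 (.z 1) 3 0 (.t 1 1 (.t 0 113303 (.z 16384)))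
 .cnil (.brow 511 1 0 (.z 1) 3 0 (.t 1 1 (.t 0 108073 (.z 16384)))
 .cnil (.brow 510 1 0 (.z 1) 3 0 (.t 1 1 (.t 0 102842 (.z 16384)))
 .cnil (.brow 509 0 0 (.z 1) 3 0 (.t 0 5 (.z 1))
 .cnil (.brow 509 0 0 (.z 1) 3 0 (.t 0 5 (.z 1))
 .cnil (.brow 509 0 0 (.z 1) 3 0 (.z 1)
 .cnil (.brow 509 0 0 (.z 1) 3 0 (.z 1)
 .cnil (.brow 509 0 0 (.z 1) 3 0 (.z 1)
 .cnil (.brow 509 0 0 (.z 1) 3 0 (.z 1)
 .cnil (.brow 509 0 0 (.z 1) 3 0 (.z 1)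
 .cnil (.brow 509 0 0 (.z 1) 3 0 (.z 1)
 .cnil (.brow 509 0 0 (.z 1) 3 0 (.z 1)
 .cnil (.brow 509 0 0 (.z 1) 3 0 (.z 1)
 .cnil (.brow 509 0 0 (.z 1) 3 0 (.z 1)
 .cnil (.brow 509 0 0 (.z 1) 3 0 (.z 1)
 .cnil (.brow 509 0 0 (.z 1) 3 0 (.z 1)
 .cnil (.brow 509 0 0 (.z 1) 3 0 (.z 1)
 .cnil (.brow 509 0 0 (.z 1) 3 0 (.z 1)
 .cnil (.brow 509 0 0 (.z 1) 3 0 (.z 1)
 .cnil (.brow 509 0 0 (.z 1) 3 0 (.z 1)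
 .cnil (.brow 509 0 0 (.z 1) 3 0 (.z 1)
 .cnil (.brow 509 0 0 (.z 1) 3 0 (.z 1)
 .cnil (.brow 509 0 0 (.z 1) 3 0 (.z 1)
 .cnil (.brow 509 0 0 (.z 1) 3 0 (.z 1)
 .cnil (.brow 509 0 0 (.z 1) 3 0 (.z 1)
 .cnil (.brow 510 2 0 (.z 1) 3 0 (.z 1)
 .cnil (.brow 511 2 0 (.z 1) 3 0 (.z 1)
 .cnil (.brow 512 2 0 (.z 1) 3 0 (.z 1)
 .cnil (.brow 513 2 0 (.z 1) 3 0 (.z 1)
 .cnil (.brow 514 2 0 (.z 1) 3 0 (.z 1)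
 .cnil (.brow 515 2 0 (.z 1) 3 0 (.z 1)
 .cnil (.brow 516 2 0 (.z 1) 3 0 (.z 1)
 .cnil (.brow 517 2 0 (.z 1) 3 0 (.z 1)
 .cnil (.brow 518 2 0 (.z 1) 3 0 (.z 1)
 .cnil (.brow 519 2 0 (.z 1) 3 0 (.z 1)
 .cnil (.brow 520 2 0 (.z 1) 3 0 (.z 1)
 .cnil (.brow 521 2 0 (.z 1) 3 0 (.z 1)
 .cnil (.brow 522 2 0 (.z 1) 3 0 (.z 1)
 .cnil (.brow 523 2 0 (.z 1) 3 0 (.z 1)
 .cnil (.brow 524 2 0 (.z 1) 3 0 (.z 1)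
 .cnil (.brow 525 2 0 (.z 1) 3 0 (.z 1)
 .cnil (.brow 526 2 0 (.z 1) 3 0 (.z 1)
 .cnil (.brow 527 2 0 (.z 1) 3 0 (.z 1)
 .cnil (.brow 528 2 0 (.z 1) 3 0 (.z 1)
 .cnil (.brow 529 2 0 (.z 1) 3 0 (.z 1)
 .cnil (.brow 530 2 0 (.z 1) 3 0 (.z 1)
 .cnil (.brow 531 2 0 (.z 1) 3 0 (.z 1)
 .cnil (.brow 532 2 0 (.z 1) 3 0 (.z 1)
 .cnil (.brow 533 2 0 (.z 1) 3 0 (.z 1)
 .cnil (.brow 534 2 0 (.z 1) 3 0 (.z 1)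
 .cnil (.brow 535 2 0 (.z 1) 3 0 (.z 1)
 .cnil (.brow 536 2 0 (.z 1) 3 0 (.z 1)
 .cnil (.brow 537 2 0 (.z 1) 3 0 (.z 1)
 .cnil (.brow 538 2 0 (.z 1) 3 0 (.z 1)
 .cnil (.brow 539 2 0 (.z 1) 3 0 (.z 1)
 .cnil (.brow 540 2 0 (.z 1) 3 0 (.z 1)
 .cnil .bnil)))))))))))))))))))))))))))))))))))))))))))))))))))))))))
 .gnil)))))))))))))))))))))))))))))))))))

theorem v_B1_20 : run [] c_B1_20 (Arg.st s_B1_20) = true := by decide +kernel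

end Pool.Agent.Helper54.Cert
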