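import Pool.Agent.Lib.Helper54.S18919.RunSound
import Pool.Agent.Lib.Helper54.S18919.Root
import Pool.Agent.Lib.Helper54.S18919.Data.D00
import Pool.Agent.Lib.Helper54.S18919.Data.D01
import Pool.Agent.Lib.Helper54.S18919.Data.D02
import Pool.Agent.Lib.Helper54.S18919.Data.D03
import Pool.Agent.Lib.Helper54.S18919.Data.D04
import Pool.Agent.Lib.Helper54.S18919.Data.D05
import Pool.Agent.Lib.Helper54.S18919.Data.D06
import Pool.Agent.Lib.Helper54.S18919.Data.D07
import Pool.Agent.Lib.Helper54.S18919.Data.D08
import Pool.Agent.Lib.Helper54.S18919.Data.D09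
import Pool.Agent.Lib.Helper54.S18919.Data.D10
import Pool.Agent.Lib.Helper54.S18919.Data.D11
import Pool.Agent.Lib.Helper54.S18919.Data.D12
import Pool.Agent.Lib.Helper54.S18919.Data.D13
import Pool.Agent.Lib.Helper54.S18919.Data.D14
import Pool.Agent.Lib.Helper54.S18919.Data.D15
import Pool.Agent.Lib.Helper54.S18919.Data.D16
import Pool.Agent.Lib.Helper54.S18919.Data.D17
import Pool.Agent.Lib.Helper54.S18919.Data.D18
import Pool.Agent.Lib.Helper54.S18919.Data.D19
import Pool.Agent.Lib.Helper54.S18919.Data.D20
import Pool.Agent.Lib.Helper54.S18919.Data.D21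
import Pool.Agent.Lib.Helper54.S18919.Data.D22
import Pool.Agent.Lib.Helper54.S18919.Data.D23
import Pool.Agent.Lib.Helper54.S18919.Data.D24
import Pool.Agent.Lib.Helper54.S18919.Data.D25
import Pool.Agent.Lib.Helper54.S18919.Data.D26
import Pool.Agent.Lib.Helper54.S18919.Data.D27
import Pool.Agent.Lib.Helper54.S18919.Data.D28
import Pool.Agent.Lib.Helper54.S18919.Data.D29
import Pool.Agent.Lib.Helper54.S18919.Data.D30
import Pool.Agent.Lib.Helper54.S18919.Data.D31
import Pool.Agent.Lib.Helper54.S18919.Data.D32
import Pool.Agent.Lib.Helper54.S18919.Data.D33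
import Pool.Agent.Lib.Helper54.S18919.Data.D34
import Pool.Agent.Lib.Helper54.S18919.Data.D35
import Pool.Agent.Lib.Helper54.S18919.Data.D36
import Pool.Agent.Lib.Helper54.S18919.Data.D37
import Pool.Agent.Lib.Helper54.S18919.Data.D38
import Pool.Agent.Lib.Helper54.S18919.Data.D39
import Pool.Agent.Lib.Helper54.S18919.Data.D40
import Pool.Agent.Lib.Helper54.S18919.Data.D41
import Pool.Agent.Lib.Helper54.S18919.Data.D42
import Pool.Agent.Lib.Helper54.S18919.Data.D43
import Pool.Agent.Lib.Helper54.S18919.Data.D44

/-!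
# The certificate is valid
-/

set_option autoImplicit false

namespace Pool.Agent.Helper54.Cert

theorem valid_stop0 : Valid s_stop0 :=
  run_sound _ (by intro T hT; simp at hT) c_stop0 (Arg.st s_stop0) v_stop0

theorem valid_B1_29 : Valid s_B1_29 :=
  run_sound _ (by intro T hT; simp at hT) c_B1_29 (Arg.st s_B1_29) v_B1_29

theorem valid_B1_21 : Valid s_B1_21 :=
  run_sound _ (by intro T hT; simp at hT) c_B1_21 (Arg.st s_B1_21) v_B1_21

theorem valid_B1_20 : Valid s_B1_20 :=
  run_sound _ (by intro T hT; simp at hT) c_B1_20 (Arg.st s_B1_20) v_B1_20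

theorem valid_B1_15 : Valid s_B1_15 :=
  run_sound _ (by
    intro T hT
    simp only [List.mem_cons, List.not_mem_nil, or_false] at hT
    rcases hT with rfl
    · exact valid_B1_20) c_B1_15 (Arg.st s_B1_15) v_B1_15

theorem valid_B1_11 : Valid s_B1_11 :=
  run_sound _ (by
    intro T hT
    simp only [List.mem_cons, List.not_mem_nil, or_false] at hT
    rcases hT with rfl | rfl
    · exact valid_B1_21
    · exact valid_B1_15) c_B1_11 (Arg.st s_B1_11) v_B1_11

theorem valid_B1_9 : Valid s_B1_9 :=
  run_sound _ (by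
    intro T hT
    simp only [List.mem_cons, List.not_mem_nil, or_false] at hT
    rcases hT with rfl | rfl
    · exact valid_B1_29
    · exact valid_B1_11) c_B1_9 (Arg.st s_B1_9) v_B1_9

theorem valid_B1_7 : Valid s_B1_7 :=
  run_sound _ (by
    intro T hT
    simp only [List.mem_cons, List.not_mem_nil, or_false] at hT
    rcases hT with rfl
    · exact valid_B1_9) c_B1_7 (Arg.st s_B1_7) v_B1_7

theorem valid_stop1 : Valid s_stop1 :=
  run_sound _ (by
    intro T hT
    simp only [List.mem_cons, List.not_mem_nil, or_false] at hT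
    rcases hT with rfl
    · exact valid_B1_7) c_stop1 (Arg.st s_stop1) v_stop1

theorem valid_B2_24 : Valid s_B2_24 :=
  run_sound _ (by intro T hT; simp at hT) c_B2_24 (Arg.st s_B2_24) v_B2_24

theorem valid_B2_16 : Valid s_B2_16 :=
  run_sound _ (by intro T hT; simp at hT) c_B2_16 (Arg.st s_B2_16) v_B2_16

theorem valid_B2_11 : Valid s_B2_11 :=
  run_sound _ (by
    intro T hT
    simp only [List.mem_cons, List.not_mem_nil, or_false] at hT
    rcases hT with rfl | rfl
    · exact valid_B2_24
    · exact valid_B2_16) c_B2_11 (Arg.st s_B2_11) v_B2_11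

theorem valid_B2_5 : Valid s_B2_5 :=
  run_sound _ (by
    intro T hT
    simp only [List.mem_cons, List.not_mem_nil, or_false] at hT
    rcases hT with rfl
    · exact valid_B2_11) c_B2_5 (Arg.st s_B2_5) v_B2_5

theorem valid_stop2 : Valid s_stop2 :=
  run_sound _ (by
    intro T hT
    simp only [List.mem_cons, List.not_mem_nil, or_false] at hT
    rcases hT with rfl
    · exact valid_B2_5) c_stop2 (Arg.st s_stop2) v_stop2

theorem valid_B3_20 : Valid s_B3_20 :=
  run_sound _ (by intro T hT; simp at hT) c_B3_20 (Arg.st s_B3_20) v_B3_20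

theorem valid_B3_29 : Valid s_B3_29 :=
  run_sound _ (by intro T hT; simp at hT) c_B3_29 (Arg.st s_B3_29) v_B3_29

theorem valid_B3_26 : Valid s_B3_26 :=
  run_sound _ (by
    intro T hT
    simp only [List.mem_cons, List.not_mem_nil, or_false] at hT
    rcases hT with rfl
    · exact valid_B3_29) c_B3_26 (Arg.st s_B3_26) v_B3_26

theorem valid_B3_40 : Valid s_B3_40 :=
  run_sound _ (by intro T hT; simp at hT) c_B3_40 (Arg.st s_B3_40) v_B3_40

theorem valid_B3_38 : Valid s_B3_38 :=
  run_sound _ (by
    intro T hT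
    simp only [List.mem_cons, List.not_mem_nil, or_false] at hT
    rcases hT with rfl
    · exact valid_B3_40) c_B3_38 (Arg.st s_B3_38) v_B3_38

theorem valid_B3_36 : Valid s_B3_36 :=
  run_sound _ (by
    intro T hT
    simp only [List.mem_cons, List.not_mem_nil, or_false] at hT
    rcases hT with rfl
    · exact valid_B3_38) c_B3_36 (Arg.st s_B3_36) v_B3_36

theorem valid_B3_25 : Valid s_B3_25 :=
  run_sound _ (by
    intro T hT
    simp only [List.mem_cons, List.not_mem_nil, or_false] at hT
    rcases hT with rfl | rfl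
    · exact valid_B3_26
    · exact valid_B3_36) c_B3_25 (Arg.st s_B3_25) v_B3_25

theorem valid_B3_18 : Valid s_B3_18 :=
  run_sound _ (by
    intro T hT
    simp only [List.mem_cons, List.not_mem_nil, or_false] at hT
    rcases hT with rfl | rfl
    · exact valid_B3_20
    · exact valid_B3_25) c_B3_18 (Arg.st s_B3_18) v_B3_18

theorem valid_B3_14 : Valid s_B3_14 :=
  run_sound _ (by
    intro T hT
    simp only [List.mem_cons, List.not_mem_nil, or_false] at hT
    rcases hT with rfl
    · exact valid_B3_18) c_B3_14 (Arg.st s_B3_14) v_B3_14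

theorem valid_B3_8 : Valid s_B3_8 :=
  run_sound _ (by
    intro T hT
    simp only [List.mem_cons, List.not_mem_nil, or_false] at hT
    rcases hT with rfl
    · exact valid_B3_14) c_B3_8 (Arg.st s_B3_8) v_B3_8

theorem valid_stop3 : Valid s_stop3 :=
  run_sound _ (by
    intro T hT
    simp only [List.mem_cons, List.not_mem_nil, or_false] at hT
    rcases hT with rfl
    · exact valid_B3_8) c_stop3 (Arg.st s_stop3) v_stop3

theorem valid_C35 : Valid s_C35 :=
  run_sound _ (by
    intro T hT
    simp only [List.mem_cons, List.not_mem_nil, or_false] at hT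
    rcases hT with rfl | rfl | rfl | rfl
    · exact valid_stop0
    · exact valid_stop1
    · exact valid_stop2
    · exact valid_stop3) c_C35 (Arg.st s_C35) v_C35

theorem valid_B4_118 : Valid s_B4_118 :=
  run_sound _ (by intro T hT; simp at hT) c_B4_118 (Arg.st s_B4_118) v_B4_118

theorem valid_B4_112 : Valid s_B4_112 :=
  run_sound _ (by intro T hT; simp at hT) c_B4_112 (Arg.st s_B4_112) v_B4_112

theorem valid_B4_107 : Valid s_B4_107 :=
  run_sound _ (by
    intro T hT
    simp only [List.mem_cons, List.not_mem_nil, or_false] at hT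
    rcases hT with rfl | rfl
    · exact valid_B4_118
    · exact valid_B4_112) c_B4_107 (Arg.st s_B4_107) v_B4_107

theorem valid_B4_101 : Valid s_B4_101 :=
  run_sound _ (by
    intro T hT
    simp only [List.mem_cons, List.not_mem_nil, or_false] at hT
    rcases hT with rfl
    · exact valid_B4_107) c_B4_101 (Arg.st s_B4_101) v_B4_101

theorem valid_B4_96 : Valid s_B4_96 :=
  run_sound _ (by intro T hT; simp at hT) c_B4_96 (Arg.st s_B4_96) v_B4_96

theorem valid_B4_92 : Valid s_B4_92 :=
  run_sound _ (by
    intro T hT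
    simp only [List.mem_cons, List.not_mem_nil, or_false] at hT
    rcases hT with rfl
    · exact valid_B4_96) c_B4_92 (Arg.st s_B4_92) v_B4_92

theorem valid_B4_90 : Valid s_B4_90 :=
  run_sound _ (by intro T hT; simp at hT) c_B4_90 (Arg.st s_B4_90) v_B4_90

theorem valid_B4_86 : Valid s_B4_86 :=
  run_sound _ (by
    intro T hT
    simp only [List.mem_cons, List.not_mem_nil, or_false] at hT
    rcases hT with rfl | rfl
    · exact valid_B4_92
    · exact valid_B4_90) c_B4_86 (Arg.st s_B4_86) v_B4_86

theorem valid_B4_76 : Valid s_B4_76 :=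
  run_sound _ (by intro T hT; simp at hT) c_B4_76 (Arg.st s_B4_76) v_B4_76

theorem valid_B4_75 : Valid s_B4_75 :=
  run_sound _ (by
    intro T hT
    simp only [List.mem_cons, List.not_mem_nil, or_false] at hT
    rcases hT with rfl | rfl
    · exact valid_B4_86
    · exact valid_B4_76) c_B4_75 (Arg.st s_B4_75) v_B4_75

theorem valid_B4_23 : Valid s_B4_23 :=
  run_sound _ (by intro T hT; simp at hT) c_B4_23 (Arg.st s_B4_23) v_B4_23

theorem valid_B4_59 : Valid s_B4_59 :=
  run_sound _ (by intro T hT; simp at hT) c_B4_59 (Arg.st s_B4_59) v_B4_59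

theorem valid_B4_56 : Valid s_B4_56 :=
  run_sound _ (by
    intro T hT
    simp only [List.mem_cons, List.not_mem_nil, or_false] at hT
    rcases hT with rfl
    · exact valid_B4_59) c_B4_56 (Arg.st s_B4_56) v_B4_56

theorem valid_B4_54 : Valid s_B4_54 :=
  run_sound _ (by
    intro T hT
    simp only [List.mem_cons, List.not_mem_nil, or_false] at hT
    rcases hT with rfl
    · exact valid_B4_56) c_B4_54 (Arg.st s_B4_54) v_B4_54

theorem valid_B4_52 : Valid s_B4_52 :=
  run_sound _ (by
    intro T hT
    simp only [List.mem_cons, List.not_mem_nil, or_false] at hT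
    rcases hT with rfl
    · exact valid_B4_54) c_B4_52 (Arg.st s_B4_52) v_B4_52

theorem valid_B4_64 : Valid s_B4_64 :=
  run_sound _ (by intro T hT; simp at hT) c_B4_64 (Arg.st s_B4_64) v_B4_64

theorem valid_B4_50 : Valid s_B4_50 :=
  run_sound _ (by
    intro T hT
    simp only [List.mem_cons, List.not_mem_nil, or_false] at hT
    rcases hT with rfl | rfl
    · exact valid_B4_52
    · exact valid_B4_64) c_B4_50 (Arg.st s_B4_50) v_B4_50

theorem valid_B4_48 : Valid s_B4_48 :=
  run_sound _ (by
    intro T hT
    simp only [List.mem_cons, List.not_mem_nil, or_false] at hT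
    rcases hT with rfl
    · exact valid_B4_50) c_B4_48 (Arg.st s_B4_48) v_B4_48

theorem valid_B4_40 : Valid s_B4_40 :=
  run_sound _ (by intro T hT; simp at hT) c_B4_40 (Arg.st s_B4_40) v_B4_40

theorem valid_B4_45 : Valid s_B4_45 :=
  run_sound _ (by intro T hT; simp at hT) c_B4_45 (Arg.st s_B4_45) v_B4_45

theorem valid_B4_42 : Valid s_B4_42 :=
  run_sound _ (by
    intro T hT
    simp only [List.mem_cons, List.not_mem_nil, or_false] at hT
    rcases hT with rfl
    · exact valid_B4_45) c_B4_42 (Arg.st s_B4_42) v_B4_42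

theorem valid_B4_34 : Valid s_B4_34 :=
  run_sound _ (by
    intro T hT
    simp only [List.mem_cons, List.not_mem_nil, or_false] at hT
    rcases hT with rfl | rfl
    · exact valid_B4_40
    · exact valid_B4_42) c_B4_34 (Arg.st s_B4_34) v_B4_34

theorem valid_B4_30 : Valid s_B4_30 :=
  run_sound _ (by intro T hT; simp at hT) c_B4_30 (Arg.st s_B4_30) v_B4_30

theorem valid_B4_29 : Valid s_B4_29 :=
  run_sound _ (by
    intro T hT
    simp only [List.mem_cons, List.not_mem_nil, or_false] at hT
    rcases hT with rfl | rfl | rfl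
    · exact valid_B4_48
    · exact valid_B4_34
    · exact valid_B4_30) c_B4_29 (Arg.st s_B4_29) v_B4_29

theorem valid_B4_27 : Valid s_B4_27 :=
  run_sound _ (by
    intro T hT
    simp only [List.mem_cons, List.not_mem_nil, or_false] at hT
    rcases hT with rfl
    · exact valid_B4_29) c_B4_27 (Arg.st s_B4_27) v_B4_27

theorem valid_B4_22 : Valid s_B4_22 :=
  run_sound _ (by
    intro T hT
    simp only [List.mem_cons, List.not_mem_nil, or_false] at hT
    rcases hT with rfl | rfl
    · exact valid_B4_23
    · exact valid_B4_27) c_B4_22 (Arg.st s_B4_22) v_B4_22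

theorem valid_B4_21 : Valid s_B4_21 :=
  run_sound _ (by intro T hT; simp at hT) c_B4_21 (Arg.st s_B4_21) v_B4_21

theorem valid_B4_19 : Valid s_B4_19 :=
  run_sound _ (by
    intro T hT
    simp only [List.mem_cons, List.not_mem_nil, or_false] at hT
    rcases hT with rfl
    · exact valid_B4_21) c_B4_19 (Arg.st s_B4_19) v_B4_19

theorem valid_B4_18 : Valid s_B4_18 :=
  run_sound _ (by
    intro T hT
    simp only [List.mem_cons, List.not_mem_nil, or_false] at hT
    rcases hT with rfl | rfl
    · exact valid_B4_22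
    · exact valid_B4_19) c_B4_18 (Arg.st s_B4_18) v_B4_18

theorem valid_B4_15 : Valid s_B4_15 :=
  run_sound _ (by
    intro T hT
    simp only [List.mem_cons, List.not_mem_nil, or_false] at hT
    rcases hT with rfl
    · exact valid_B4_18) c_B4_15 (Arg.st s_B4_15) v_B4_15

theorem valid_B4_9 : Valid s_B4_9 :=
  run_sound _ (by
    intro T hT
    simp only [List.mem_cons, List.not_mem_nil, or_false] at hT
    rcases hT with rfl | rfl
    · exact valid_B4_75
    · exact valid_B4_15) c_B4_9 (Arg.st s_B4_9) v_B4_9

theorem valid_stop4 : Valid s_stop4 :=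
  run_sound _ (by
    intro T hT
    simp only [List.mem_cons, List.not_mem_nil, or_false] at hT
    rcases hT with rfl | rfl
    · exact valid_B4_101
    · exact valid_B4_9) c_stop4 (Arg.st s_stop4) v_stop4

theorem valid_B5_79 : Valid s_B5_79 :=
  run_sound _ (by intro T hT; simp at hT) c_B5_79 (Arg.st s_B5_79) v_B5_79

theorem valid_B5_75 : Valid s_B5_75 :=
  run_sound _ (by
    intro T hT
    simp only [List.mem_cons, List.not_mem_nil, or_false] at hT
    rcases hT with rfl
    · exact valid_B5_79) c_B5_75 (Arg.st s_B5_75) v_B5_75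

theorem valid_B5_86 : Valid s_B5_86 :=
  run_sound _ (by intro T hT; simp at hT) c_B5_86 (Arg.st s_B5_86) v_B5_86

theorem valid_B5_90 : Valid s_B5_90 :=
  run_sound _ (by intro T hT; simp at hT) c_B5_90 (Arg.st s_B5_90) v_B5_90

theorem valid_B5_87 : Valid s_B5_87 :=
  run_sound _ (by
    intro T hT
    simp only [List.mem_cons, List.not_mem_nil, or_false] at hT
    rcases hT with rfl
    · exact valid_B5_90) c_B5_87 (Arg.st s_B5_87) v_B5_87

theorem valid_B5_73 : Valid s_B5_73 :=
  run_sound _ (by
    intro T hT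
    simp only [List.mem_cons, List.not_mem_nil, or_false] at hT
    rcases hT with rfl | rfl | rfl
    · exact valid_B5_75
    · exact valid_B5_86
    · exact valid_B5_87) c_B5_73 (Arg.st s_B5_73) v_B5_73

theorem valid_B5_64 : Valid s_B5_64 :=
  run_sound _ (by intro T hT; simp at hT) c_B5_64 (Arg.st s_B5_64) v_B5_64

theorem valid_B5_65 : Valid s_B5_65 :=
  run_sound _ (by intro T hT; simp at hT) c_B5_65 (Arg.st s_B5_65) v_B5_65

theorem valid_B5_63 : Valid s_B5_63 :=
  run_sound _ (by
    intro T hT
    simp only [List.mem_cons, List.not_mem_nil, or_false] at hT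
    rcases hT with rfl | rfl
    · exact valid_B5_64
    · exact valid_B5_65) c_B5_63 (Arg.st s_B5_63) v_B5_63

theorem valid_B5_62 : Valid s_B5_62 :=
  run_sound _ (by
    intro T hT
    simp only [List.mem_cons, List.not_mem_nil, or_false] at hT
    rcases hT with rfl
    · exact valid_B5_63) c_B5_62 (Arg.st s_B5_62) v_B5_62

theorem valid_B5_61 : Valid s_B5_61 :=
  run_sound _ (by
    intro T hT
    simp only [List.mem_cons, List.not_mem_nil, or_false] at hT
    rcases hT with rfl
    · exact valid_B5_62) c_B5_61 (Arg.st s_B5_61) v_B5_61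

theorem valid_B5_68 : Valid s_B5_68 :=
  run_sound _ (by intro T hT; simp at hT) c_B5_68 (Arg.st s_B5_68) v_B5_68

theorem valid_B5_59 : Valid s_B5_59 :=
  run_sound _ (by
    intro T hT
    simp only [List.mem_cons, List.not_mem_nil, or_false] at hT
    rcases hT with rfl | rfl
    · exact valid_B5_61
    · exact valid_B5_68) c_B5_59 (Arg.st s_B5_59) v_B5_59

theorem valid_B5_70 : Valid s_B5_70 :=
  run_sound _ (by intro T hT; simp at hT) c_B5_70 (Arg.st s_B5_70) v_B5_70

theorem valid_B5_55 : Valid s_B5_55 :=
  run_sound _ (by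
    intro T hT
    simp only [List.mem_cons, List.not_mem_nil, or_false] at hT
    rcases hT with rfl | rfl
    · exact valid_B5_59
    · exact valid_B5_70) c_B5_55 (Arg.st s_B5_55) v_B5_55

theorem valid_B5_52 : Valid s_B5_52 :=
  run_sound _ (by intro T hT; simp at hT) c_B5_52 (Arg.st s_B5_52) v_B5_52

theorem valid_B5_51 : Valid s_B5_51 :=
  run_sound _ (by
    intro T hT
    simp only [List.mem_cons, List.not_mem_nil, or_false] at hT
    rcases hT with rfl
    · exact valid_B5_52) c_B5_51 (Arg.st s_B5_51) v_B5_51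

theorem valid_B5_54 : Valid s_B5_54 :=
  run_sound _ (by intro T hT; simp at hT) c_B5_54 (Arg.st s_B5_54) v_B5_54

theorem valid_B5_49 : Valid s_B5_49 :=
  run_sound _ (by
    intro T hT
    simp only [List.mem_cons, List.not_mem_nil, or_false] at hT
    rcases hT with rfl | rfl
    · exact valid_B5_51
    · exact valid_B5_54) c_B5_49 (Arg.st s_B5_49) v_B5_49

theorem valid_B5_45 : Valid s_B5_45 :=
  run_sound _ (by intro T hT; simp at hT) c_B5_45 (Arg.st s_B5_45) v_B5_45

theorem valid_B5_43 : Valid s_B5_43 :=
  run_sound _ (by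
    intro T hT
    simp only [List.mem_cons, List.not_mem_nil, or_false] at hT
    rcases hT with rfl
    · exact valid_B5_45) c_B5_43 (Arg.st s_B5_43) v_B5_43

theorem valid_B5_48 : Valid s_B5_48 :=
  run_sound _ (by intro T hT; simp at hT) c_B5_48 (Arg.st s_B5_48) v_B5_48

theorem valid_B5_41 : Valid s_B5_41 :=
  run_sound _ (by
    intro T hT
    simp only [List.mem_cons, List.not_mem_nil, or_false] at hT
    rcases hT with rfl | rfl
    · exact valid_B5_43
    · exact valid_B5_48) c_B5_41 (Arg.st s_B5_41) v_B5_41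

theorem valid_B5_72 : Valid s_B5_72 :=
  run_sound _ (by intro T hT; simp at hT) c_B5_72 (Arg.st s_B5_72) v_B5_72

theorem valid_B5_39 : Valid s_B5_39 :=
  run_sound _ (by
    intro T hT
    simp only [List.mem_cons, List.not_mem_nil, or_false] at hT
    rcases hT with rfl | rfl | rfl | rfl
    · exact valid_B5_55
    · exact valid_B5_49
    · exact valid_B5_41
    · exact valid_B5_72) c_B5_39 (Arg.st s_B5_39) v_B5_39

theorem valid_B5_91 : Valid s_B5_91 :=
  run_sound _ (by intro T hT; simp at hT) c_B5_91 (Arg.st s_B5_91) v_B5_91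

theorem valid_B5_37 : Valid s_B5_37 :=
  run_sound _ (by
    intro T hT
    simp only [List.mem_cons, List.not_mem_nil, or_false] at hT
    rcases hT with rfl | rfl | rfl
    · exact valid_B5_73
    · exact valid_B5_39
    · exact valid_B5_91) c_B5_37 (Arg.st s_B5_37) v_B5_37

theorem valid_B5_28 : Valid s_B5_28 :=
  run_sound _ (by intro T hT; simp at hT) c_B5_28 (Arg.st s_B5_28) v_B5_28

theorem valid_B5_24 : Valid s_B5_24 :=
  run_sound _ (by intro T hT; simp at hT) c_B5_24 (Arg.st s_B5_24) v_B5_24

theorem valid_B5_23 : Valid s_B5_23 :=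
  run_sound _ (by
    intro T hT
    simp only [List.mem_cons, List.not_mem_nil, or_false] at hT
    rcases hT with rfl | rfl
    · exact valid_B5_28
    · exact valid_B5_24) c_B5_23 (Arg.st s_B5_23) v_B5_23

theorem valid_B5_22 : Valid s_B5_22 :=
  run_sound _ (by
    intro T hT
    simp only [List.mem_cons, List.not_mem_nil, or_false] at hT
    rcases hT with rfl
    · exact valid_B5_23) c_B5_22 (Arg.st s_B5_22) v_B5_22

theorem valid_B5_36 : Valid s_B5_36 :=
  run_sound _ (by intro T hT; simp at hT) c_B5_36 (Arg.st s_B5_36) v_B5_36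

theorem valid_B5_20 : Valid s_B5_20 :=
  run_sound _ (by
    intro T hT
    simp only [List.mem_cons, List.not_mem_nil, or_false] at hT
    rcases hT with rfl | rfl | rfl
    · exact valid_B5_37
    · exact valid_B5_22
    · exact valid_B5_36) c_B5_20 (Arg.st s_B5_20) v_B5_20

theorem valid_B5_18 : Valid s_B5_18 :=
  run_sound _ (by
    intro T hT
    simp only [List.mem_cons, List.not_mem_nil, or_false] at hT
    rcases hT with rfl
    · exact valid_B5_20) c_B5_18 (Arg.st s_B5_18) v_B5_18

theorem valid_B5_14 : Valid s_B5_14 :=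
  run_sound _ (by
    intro T hT
    simp only [List.mem_cons, List.not_mem_nil, or_false] at hT
    rcases hT with rfl
    · exact valid_B5_18) c_B5_14 (Arg.st s_B5_14) v_B5_14

theorem valid_B5_8 : Valid s_B5_8 :=
  run_sound _ (by
    intro T hT
    simp only [List.mem_cons, List.not_mem_nil, or_false] at hT
    rcases hT with rfl
    · exact valid_B5_14) c_B5_8 (Arg.st s_B5_8) v_B5_8

theorem valid_stop5 : Valid s_stop5 :=
  run_sound _ (by
    intro T hT
    simp only [List.mem_cons, List.not_mem_nil, or_false] at hT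
    rcases hT with rfl
    · exact valid_B5_8) c_stop5 (Arg.st s_stop5) v_stop5

theorem valid_B6_11 : Valid s_B6_11 :=
  run_sound _ (by intro T hT; simp at hT) c_B6_11 (Arg.st s_B6_11) v_B6_11

theorem valid_B6_2 : Valid s_B6_2 :=
  run_sound _ (by
    intro T hT
    simp only [List.mem_cons, List.not_mem_nil, or_false] at hT
    rcases hT with rfl
    · exact valid_B6_11) c_B6_2 (Arg.st s_B6_2) v_B6_2

theorem valid_stop6 : Valid s_stop6 :=
  run_sound _ (by
    intro T hT
    simp only [List.mem_cons, List.not_mem_nil, or_false] at hT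
    rcases hT with rfl
    · exact valid_B6_2) c_stop6 (Arg.st s_stop6) v_stop6

theorem valid_C22 : Valid s_C22 :=
  run_sound _ (by
    intro T hT
    simp only [List.mem_cons, List.not_mem_nil, or_false] at hT
    rcases hT with rfl | rfl | rfl
    · exact valid_stop4
    · exact valid_stop5
    · exact valid_stop6) c_C22 (Arg.st s_C22) v_C22

theorem valid_B7_12 : Valid s_B7_12 :=
  run_sound _ (by intro T hT; simp at hT) c_B7_12 (Arg.st s_B7_12) v_B7_12

theorem valid_B7_10 : Valid s_B7_10 :=
  run_sound _ (by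
    intro T hT
    simp only [List.mem_cons, List.not_mem_nil, or_false] at hT
    rcases hT with rfl
    · exact valid_B7_12) c_B7_10 (Arg.st s_B7_10) v_B7_10

theorem valid_stop7 : Valid s_stop7 :=
  run_sound _ (by
    intro T hT
    simp only [List.mem_cons, List.not_mem_nil, or_false] at hT
    rcases hT with rfl
    · exact valid_B7_10) c_stop7 (Arg.st s_stop7) v_stop7

theorem valid_C6 : Valid s_C6 :=
  run_sound _ (by intro T hT; simp at hT) c_C6 (Arg.st s_C6) v_C6

theorem valid_C3 : Valid s_C3 :=
  run_sound _ (by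
    intro T hT
    simp only [List.mem_cons, List.not_mem_nil, or_false] at hT
    rcases hT with rfl | rfl | rfl | rfl
    · exact valid_C35
    · exact valid_C22
    · exact valid_stop7
    · exact valid_C6) c_C3 (Arg.st s_C3) v_C3

theorem valid_C40 : Valid s_C40 :=
  run_sound _ (by intro T hT; simp at hT) c_C40 (Arg.st s_C40) v_C40

theorem valid_C2 : Valid s_C2 :=
  run_sound _ (by
    intro T hT
    simp only [List.mem_cons, List.not_mem_nil, or_false] at hT
    rcases hT with rfl | rfl
    · exact valid_C3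
    · exact valid_C40) c_C2 (Arg.st s_C2) v_C2

theorem valid_C0 : Valid s_C0 :=
  run_sound _ (by
    intro T hT
    simp only [List.mem_cons, List.not_mem_nil, or_false] at hT
    rcases hT with rfl
    · exact valid_C2) c_C0 (Arg.st s_C0) v_C0

theorem valid_root : Valid rootSt := valid_C0

end Pool.Agent.Helper54.Cert
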