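import Pool.Agent.Lib.Helper54.S18919.Check

set_option autoImplicit false
set_option maxRecDepth 100000

namespace Pool.Agent.Helper54.Cert

noncomputable def s_stop0 : St :=
  ⟨3,67,[⟨0,1,0,0,1,0⟩,⟨0,0,1,0,0,0⟩,⟨0,0,1,0,1,0⟩,⟨1,0,1,0,1,0⟩,⟨1,0,1,0,2,0⟩,⟨1,0,2,0,2,0⟩,⟨1,0,2,0,3,0⟩],3,65,[1,1,1,1,2],[⟨⟨0,1,0,0,1,0⟩,true⟩,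
 ⟨⟨0,152352,49472,0,0,49471⟩,true⟩,
 ⟨⟨0,86816,115008,0,0,115007⟩,true⟩,
 ⟨⟨0,28190,65536,0,0,65536⟩,true⟩,
 ⟨⟨0,28190,65536,0,0,0⟩,true⟩],[],[],(.s 2 1 1 .c (.s 0 2 1 .e (.s 1 1 1 (.s 0 1 2 .e (.s 1 2 1 (.s 0 1 4 (.s 2 1 1 (.s 1 1 2 .e (.s 2 2 1 (.s 1 1 4 .e .c) .e)) .e) (.s 1 4 1 (.s 0 1 8 (.s 2 1 1 (.s 1 1 2 .e .c) .e) .c) .e)) .e)) (.s 2 2 1 (.s 1 1 2 .e .c) (.s 0 1 1 .e (.s 1 2 1 .c .e)))))),.c⟩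

noncomputable def s_B1_29 : St :=
  ⟨3,71,[⟨0,0,0,0,1,0⟩,⟨0,0,1,0,0,0⟩,⟨0,0,1,0,1,0⟩,⟨1,0,1,0,1,0⟩,⟨1,0,1,0,2,0⟩,⟨1,0,2,0,2,0⟩,⟨1,0,2,0,3,0⟩,⟨2,0,3,0,4,0⟩,⟨2,0,4,0,5,0⟩,⟨3,0,5,0,7,0⟩,⟨3,0,6,0,8,0⟩],3,69,[1,1,1,1,2,2,2,2,2],[⟨⟨0,1,1,0,0,1⟩,false⟩,
 ⟨⟨0,86816,49472,0,0,49471⟩,true⟩,
 ⟨⟨0,86816,115008,0,0,115007⟩,true⟩,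
 ⟨⟨0,28190,65536,0,0,65536⟩,true⟩,
 ⟨⟨0,28190,65536,0,0,0⟩,true⟩],[],[],(.s 2 1 1 (.s 1 1 2 (.s 0 1 1 (.s 2 1 2 .c .e) (.s 1 2 1 .e (.s 2 1 1 (.s 1 1 2 (.s 0 1 1 .e (.s 1 2 1 .e .c)) .e) .c))) .e) .e),(.s 2 2 1 .e (.s 0 1 1 .c (.s 1 2 1 .e (.s 2 1 1 .e (.s 0 2 1 (.s 2 1 2 (.s 1 1 2 (.s 0 1 1 (.s 2 1 2 .e (.s 0 2 1 (.s 2 1 4 .e .c) .e)) .e) (.s 2 2 1 .e (.s 0 2 1 (.s 2 1 2 .e .c) .e))) .c) .e)))))⟩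

noncomputable def s_B1_21 : St :=
  ⟨3,72,[⟨0,0,0,0,1,0⟩,⟨0,0,1,0,0,0⟩,⟨0,0,1,0,1,0⟩,⟨1,0,1,0,1,0⟩,⟨1,0,1,0,2,0⟩,⟨1,0,2,0,2,0⟩,⟨1,0,2,0,3,0⟩,⟨2,0,3,0,4,0⟩,⟨2,0,4,0,5,0⟩,⟨3,0,5,0,7,0⟩,⟨4,0,7,0,9,0⟩,⟨5,0,9,0,12,0⟩],3,70,[1,1,1,1,2,2,2,2,2,2],[⟨⟨0,86816,49472,0,0,49471⟩,true⟩,
 ⟨⟨0,86816,115008,0,0,115007⟩,true⟩,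
 ⟨⟨0,28190,65536,0,0,65536⟩,true⟩,
 ⟨⟨0,28190,65536,0,0,0⟩,true⟩],[],[],(.s 2 1 1 (.s 1 1 2 (.s 0 1 1 (.s 2 1 2 (.s 1 1 1 (.s 0 1 2 (.s 2 1 1 (.s 1 1 2 (.s 0 1 1 .e .c) .e) .e) .c) .e) (.s 0 2 1 .e (.s 1 2 1 .c (.s 2 1 1 (.s 1 1 2 .c .e) .e)))) (.s 1 2 1 .e .c)) .e) .e),(.s 2 2 1 .e (.s 0 1 1 .c (.s 1 2 1 .e (.s 2 1 1 .e (.s 0 2 1 (.s 2 1 2 (.s 1 1 2 (.s 0 1 1 (.s 2 1 2 .e (.s 0 2 1 (.s 2 1 4 .e .c) .e)) .e) (.s 2 2 1 .e (.s 0 2 1 (.s 2 1 2 .e .c) .e))) .c) .e)))))⟩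

noncomputable def s_B1_20 : St :=
  ⟨3,72,[⟨0,0,0,0,1,0⟩,⟨0,0,1,0,0,0⟩,⟨0,0,1,0,1,0⟩,⟨1,0,1,0,1,0⟩,⟨1,0,1,0,2,0⟩,⟨1,0,2,0,2,0⟩,⟨1,0,2,0,3,0⟩,⟨2,0,3,0,4,0⟩,⟨2,0,4,0,5,0⟩,⟨3,0,5,0,7,0⟩,⟨4,0,7,0,9,0⟩,⟨5,0,8,0,11,0⟩],4,70,[2,1,1,1,1,2,2,2,2,2,2],[⟨⟨0,0,0,1,2,0⟩,true⟩,
 ⟨⟨0,86816,49472,0,0,49471⟩,true⟩,
 ⟨⟨0,86816,115008,0,0,115007⟩,true⟩,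
 ⟨⟨0,28190,65536,0,0,65536⟩,true⟩,
 ⟨⟨0,28190,65536,0,0,0⟩,true⟩],[],[],(.s 2 1 1 (.s 1 1 2 (.s 0 1 1 .e (.s 1 2 1 .e (.s 2 1 1 (.s 1 1 2 (.s 0 1 1 .e (.s 1 2 1 .e (.s 2 1 1 (.s 1 1 2 (.s 0 1 1 .e (.s 1 2 1 .e (.s 2 1 1 (.s 1 1 2 (.s 0 1 1 .e (.s 1 2 1 .e .c)) .e) .e))) .e) .e))) .e) .e))) .e) .e),.e⟩

noncomputable def s_B1_15 : St :=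
  ⟨3,72,[⟨0,0,0,0,1,0⟩,⟨0,0,1,0,0,0⟩,⟨0,0,1,0,1,0⟩,⟨1,0,1,0,1,0⟩,⟨1,0,1,0,2,0⟩,⟨1,0,2,0,2,0⟩,⟨1,0,2,0,3,0⟩,⟨2,0,3,0,4,0⟩,⟨2,0,4,0,5,0⟩,⟨3,0,5,0,7,0⟩,⟨4,0,7,0,9,0⟩,⟨5,0,8,0,11,0⟩],3,70,[1,1,1,1,2,2,2,2,2,2],[⟨⟨0,86816,49472,0,0,49471⟩,true⟩,
 ⟨⟨0,86816,115008,0,0,115007⟩,true⟩,
 ⟨⟨0,28190,65536,0,0,65536⟩,true⟩,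
 ⟨⟨0,28190,65536,0,0,0⟩,true⟩],[],[],(.s 2 1 1 (.s 1 1 2 (.s 0 1 1 (.s 2 1 2 (.s 1 1 1 (.s 0 1 2 (.s 2 1 1 (.s 1 1 2 (.s 0 1 1 .e .c) .e) .e) .c) .e) (.s 0 2 1 .e (.s 1 2 1 .c (.s 2 1 1 (.s 1 1 2 .c .e) .e)))) (.s 1 2 1 .e .c)) .e) .e),(.s 2 2 1 .e (.s 0 1 1 .c (.s 1 2 1 .e (.s 2 1 1 .e (.s 0 2 1 (.s 2 1 2 (.s 1 1 2 (.s 0 1 1 (.s 2 1 2 .e (.s 0 2 1 (.s 2 1 4 .e .c) .e)) .e) (.s 2 2 1 .e (.s 0 2 1 (.s 2 1 2 .e .c) .e))) .c) .e)))))⟩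

noncomputable def s_B1_11 : St :=
  ⟨3,71,[⟨0,0,0,0,1,0⟩,⟨0,0,1,0,0,0⟩,⟨0,0,1,0,1,0⟩,⟨1,0,1,0,1,0⟩,⟨1,0,1,0,2,0⟩,⟨1,0,2,0,2,0⟩,⟨1,0,2,0,3,0⟩,⟨2,0,3,0,4,0⟩,⟨2,0,4,0,5,0⟩,⟨3,0,5,0,7,0⟩,⟨4,0,7,0,9,0⟩],3,69,[1,1,1,1,2,2,2,2,2],[⟨⟨0,86816,49472,0,0,49471⟩,true⟩,
 ⟨⟨0,86816,115008,0,0,115007⟩,true⟩,
 ⟨⟨0,28190,65536,0,0,65536⟩,true⟩,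
 ⟨⟨0,28190,65536,0,0,0⟩,true⟩],[],[],(.s 2 1 1 (.s 1 1 2 .c .e) .e),(.s 2 2 1 .e (.s 0 1 1 .c (.s 1 2 1 .e (.s 2 1 1 .e (.s 0 2 1 (.s 2 1 2 (.s 1 1 2 (.s 0 1 1 (.s 2 1 2 .e (.s 0 2 1 (.s 2 1 4 .e .c) .e)) .e) (.s 2 2 1 .e (.s 0 2 1 (.s 2 1 2 .e .c) .e))) .c) .e)))))⟩

noncomputable def s_B1_9 : St :=
  ⟨3,70,[⟨0,0,0,0,1,0⟩,⟨0,0,1,0,0,0⟩,⟨0,0,1,0,1,0⟩,⟨1,0,1,0,1,0⟩,⟨1,0,1,0,2,0⟩,⟨1,0,2,0,2,0⟩,⟨1,0,2,0,3,0⟩,⟨2,0,3,0,4,0⟩,⟨2,0,4,0,5,0⟩,⟨3,0,5,0,7,0⟩],3,68,[1,1,1,1,2,2,2,2],[⟨⟨0,86816,49472,0,0,49471⟩,true⟩,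
 ⟨⟨0,86816,115008,0,0,115007⟩,true⟩,
 ⟨⟨0,28190,65536,0,0,65536⟩,true⟩,
 ⟨⟨0,28190,65536,0,0,0⟩,true⟩],[],[],(.s 2 1 1 (.s 1 1 2 .c .e) .e),(.s 2 2 1 .e (.s 0 1 1 .c (.s 1 2 1 .e (.s 2 1 1 .e (.s 0 2 1 (.s 2 1 2 (.s 1 1 2 (.s 0 1 1 (.s 2 1 2 .e (.s 0 2 1 (.s 2 1 4 .e .c) .e)) .e) (.s 2 2 1 .e (.s 0 2 1 (.s 2 1 2 .e .c) .e))) .c) .e)))))⟩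

noncomputable def s_B1_7 : St :=
  ⟨3,69,[⟨0,0,0,0,1,0⟩,⟨0,0,1,0,0,0⟩,⟨0,0,1,0,1,0⟩,⟨1,0,1,0,1,0⟩,⟨1,0,1,0,2,0⟩,⟨1,0,2,0,2,0⟩,⟨1,0,2,0,3,0⟩,⟨2,0,3,0,4,0⟩,⟨2,0,4,0,5,0⟩],3,67,[1,1,1,1,2,2,2],[⟨⟨0,86816,49472,0,0,49471⟩,true⟩,
 ⟨⟨0,86816,115008,0,0,115007⟩,true⟩,
 ⟨⟨0,28190,65536,0,0,65536⟩,true⟩,
 ⟨⟨0,28190,65536,0,0,0⟩,true⟩],[],[],(.s 2 1 1 (.s 1 1 2 .c .e) .e),(.s 2 2 1 .e (.s 0 1 1 .c (.s 1 2 1 .e (.s 2 1 1 .e (.s 0 2 1 (.s 2 1 2 (.s 1 1 2 (.s 0 1 1 (.s 2 1 2 .e (.s 0 2 1 (.s 2 1 4 .e .c) .e)) .e) (.s 2 2 1 .e (.s 0 2 1 (.s 2 1 2 .e .c) .e))) .c) .e)))))⟩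

noncomputable def s_stop1 : St :=
  ⟨3,67,[⟨0,0,0,0,1,0⟩,⟨0,0,1,0,0,0⟩,⟨0,0,1,0,1,0⟩,⟨1,0,1,0,1,0⟩,⟨1,0,1,0,2,0⟩,⟨1,0,2,0,2,0⟩,⟨1,0,2,0,3,0⟩],3,65,[1,1,1,1,2],[⟨⟨0,86816,49472,0,0,49471⟩,true⟩,
 ⟨⟨0,86816,115008,0,0,115007⟩,true⟩,
 ⟨⟨0,28190,65536,0,0,65536⟩,true⟩,
 ⟨⟨0,28190,65536,0,0,0⟩,true⟩],[],[],(.s 2 1 1 .c (.s 0 2 1 .e (.s 1 1 1 (.s 0 1 2 .e (.s 1 2 1 (.s 0 1 4 .e (.s 1 4 1 (.s 0 1 8 .e (.s 1 8 1 (.s 0 1 16 .e .c) .e)) .e)) .e)) (.s 2 2 1 (.s 1 1 2 .e (.s 2 4 1 (.s 1 1 4 .e (.s 2 8 1 (.s 1 1 8 .e (.s 2 16 1 .c .e)) .e)) .e)) .e)))),.c⟩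

noncomputable def s_B2_24 : St :=
  ⟨3,71,[⟨1,0,0,0,0,0⟩,⟨0,0,1,0,0,0⟩,⟨0,0,1,0,1,0⟩,⟨1,0,1,0,1,0⟩,⟨1,0,1,0,2,0⟩,⟨1,0,2,0,2,0⟩,⟨1,0,2,0,3,0⟩,⟨2,0,3,0,4,0⟩,⟨2,0,4,0,5,0⟩,⟨3,0,5,0,7,0⟩,⟨3,0,6,0,8,0⟩],3,69,[1,1,1,1,2,2,2,2,2],[⟨⟨0,1,1,0,0,0⟩,true⟩,
 ⟨⟨0,21280,49472,0,0,115007⟩,true⟩,
 ⟨⟨0,86816,115008,0,0,115007⟩,true⟩,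
 ⟨⟨0,28190,65536,0,0,65536⟩,true⟩,
 ⟨⟨0,28190,65536,0,0,0⟩,true⟩],[],[],(.s 2 1 1 (.s 1 1 2 (.s 0 1 1 .c (.s 1 2 1 .e (.s 2 1 1 .e (.s 0 2 1 .c .e)))) .e) (.s 0 2 1 .e (.s 1 1 1 .e (.s 2 2 1 .c (.s 0 1 1 .e (.s 1 2 1 .c .e)))))),.c⟩

noncomputable def s_B2_16 : St :=
  ⟨3,71,[⟨1,0,0,0,0,0⟩,⟨0,0,1,0,0,0⟩,⟨0,0,1,0,1,0⟩,⟨1,0,1,0,1,0⟩,⟨1,0,1,0,2,0⟩,⟨1,0,2,0,2,0⟩,⟨1,0,2,0,3,0⟩,⟨2,0,3,0,4,0⟩,⟨2,0,4,0,5,0⟩,⟨3,0,5,0,7,0⟩,⟨4,0,7,0,9,0⟩],3,69,[1,1,1,1,2,2,2,2,2],[⟨⟨0,1,1,0,0,0⟩,true⟩,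
 ⟨⟨0,21280,49472,0,0,115007⟩,true⟩,
 ⟨⟨0,86816,115008,0,0,115007⟩,true⟩,
 ⟨⟨0,28190,65536,0,0,65536⟩,true⟩,
 ⟨⟨0,28190,65536,0,0,0⟩,true⟩],[],[],(.s 2 1 1 (.s 1 1 2 (.s 0 1 1 .c (.s 1 2 1 .e (.s 2 1 1 .e (.s 0 2 1 .c .e)))) .e) (.s 0 2 1 .e (.s 1 1 1 .e (.s 2 2 1 .c (.s 0 1 1 .e (.s 1 2 1 .c .e)))))),.c⟩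

noncomputable def s_B2_11 : St :=
  ⟨3,70,[⟨1,0,0,0,0,0⟩,⟨0,0,1,0,0,0⟩,⟨0,0,1,0,1,0⟩,⟨1,0,1,0,1,0⟩,⟨1,0,1,0,2,0⟩,⟨1,0,2,0,2,0⟩,⟨1,0,2,0,3,0⟩,⟨2,0,3,0,4,0⟩,⟨2,0,4,0,5,0⟩,⟨3,0,5,0,7,0⟩],3,68,[1,1,1,1,2,2,2,2],[⟨⟨0,1,1,0,0,0⟩,true⟩,
 ⟨⟨0,21280,49472,0,0,115007⟩,true⟩,
 ⟨⟨0,86816,115008,0,0,115007⟩,true⟩,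
 ⟨⟨0,28190,65536,0,0,65536⟩,true⟩,
 ⟨⟨0,28190,65536,0,0,0⟩,true⟩],[],[],(.s 2 1 1 (.s 1 1 2 (.s 0 1 1 .c (.s 1 2 1 .e (.s 2 1 1 .e (.s 0 2 1 .c .e)))) .e) (.s 0 2 1 .e (.s 1 1 1 .e (.s 2 2 1 .c (.s 0 1 1 .e (.s 1 2 1 .c .e)))))),.c⟩

noncomputable def s_B2_5 : St :=
  ⟨3,68,[⟨1,0,0,0,0,0⟩,⟨0,0,1,0,0,0⟩,⟨0,0,1,0,1,0⟩,⟨1,0,1,0,1,0⟩,⟨1,0,1,0,2,0⟩,⟨1,0,2,0,2,0⟩,⟨1,0,2,0,3,0⟩,⟨2,0,3,0,4,0⟩],3,66,[1,1,1,1,2,2],[⟨⟨0,1,1,0,0,0⟩,true⟩,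
 ⟨⟨0,21280,49472,0,0,115007⟩,true⟩,
 ⟨⟨0,86816,115008,0,0,115007⟩,true⟩,
 ⟨⟨0,28190,65536,0,0,65536⟩,true⟩,
 ⟨⟨0,28190,65536,0,0,0⟩,true⟩],[],[],(.s 2 1 1 (.s 1 1 2 .c (.s 2 2 1 .e (.s 0 2 1 .e (.s 1 1 1 (.s 0 1 2 (.s 2 1 1 .e (.s 0 2 1 .e (.s 1 1 1 (.s 0 1 2 (.s 2 1 1 .e (.s 0 2 1 .e (.s 1 1 1 (.s 0 1 2 (.s 2 1 1 .e (.s 0 2 1 .e (.s 1 1 1 (.s 0 1 2 .c .e) .e))) .e) .e))) .e) .e))) .e) .e)))) (.s 0 2 1 .e (.s 1 1 1 (.s 0 1 2 (.s 2 1 1 (.s 1 1 2 .e (.s 2 2 1 (.s 1 1 4 .e (.s 2 4 1 (.s 1 1 8 .e (.s 2 8 1 (.s 1 1 16 .e (.s 2 16 1 (.s 1 1 32 .e (.s 2 32 1 (.s 1 1 64 .e (.s 2 64 1 (.s 1 1 128 .e .c) .e)) .e))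 .e)) .e)) .e)) .e)) .e) .c) (.s 2 2 1 .c (.s 0 1 1 .e (.s 1 2 1 .c .e)))))),.c⟩

noncomputable def s_stop2 : St :=
  ⟨3,67,[⟨1,0,0,0,0,0⟩,⟨0,0,1,0,0,0⟩,⟨0,0,1,0,1,0⟩,⟨1,0,1,0,1,0⟩,⟨1,0,1,0,2,0⟩,⟨1,0,2,0,2,0⟩,⟨1,0,2,0,3,0⟩],3,65,[1,1,1,1,2],[⟨⟨0,1,1,0,0,0⟩,true⟩,
 ⟨⟨0,21280,49472,0,0,115007⟩,true⟩,
 ⟨⟨0,86816,115008,0,0,115007⟩,true⟩,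
 ⟨⟨0,28190,65536,0,0,65536⟩,true⟩,
 ⟨⟨0,28190,65536,0,0,0⟩,true⟩],[],[],(.s 2 1 1 (.s 1 1 2 .c (.s 2 2 1 .e (.s 0 2 1 .e (.s 1 1 1 (.s 0 1 2 (.s 2 1 1 .e .c) .e) .e)))) (.s 0 2 1 .e (.s 1 1 1 (.s 0 1 2 (.s 2 1 1 (.s 1 1 2 .e (.s 2 2 1 (.s 1 1 4 .e (.s 2 4 1 (.s 1 1 8 .e (.s 2 8 1 (.s 1 1 16 .e (.s 2 16 1 (.s 1 1 32 .e (.s 2 32 1 (.s 1 1 64 .e (.s 2 64 1 (.s 1 1 128 .e .c) .e)) .e)) .e)) .e)) .e)) .e)) .e) .c) (.s 2 2 1 .c (.s 0 1 1 .e (.s 1 2 1 .c .e)))))),.c⟩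

noncomputable def s_B3_20 : St :=
  ⟨3,72,[⟨1,0,0,0,1,0⟩,⟨0,0,1,0,0,0⟩,⟨0,0,1,0,1,0⟩,⟨1,0,1,0,1,0⟩,⟨1,0,1,0,2,0⟩,⟨1,0,2,0,2,0⟩,⟨1,0,2,0,3,0⟩,⟨2,0,3,0,4,0⟩,⟨2,0,4,0,5,0⟩,⟨3,0,5,0,7,0⟩,⟨4,0,7,0,9,0⟩,⟨5,0,9,0,12,0⟩],3,70,[1,1,1,1,2,2,2,2,2,2],[⟨⟨1,0,0,0,0,1⟩,false⟩,
 ⟨⟨0,1,1,0,0,2⟩,false⟩,
 ⟨⟨0,1,1,0,0,1⟩,true⟩,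
 ⟨⟨0,86816,115008,0,0,115007⟩,true⟩,
 ⟨⟨0,28190,65536,0,0,65536⟩,true⟩,
 ⟨⟨0,28190,65536,0,0,0⟩,true⟩],[],[],(.s 2 1 1 (.s 1 1 2 (.s 0 1 1 (.s 2 1 2 (.s 1 1 1 (.s 0 1 2 .e (.s 1 2 1 (.s 0 1 4 (.s 2 1 1 (.s 1 1 2 .e .c) (.s 0 2 1 .e (.s 1 1 1 .e (.s 2 2 1 .c .e)))) (.s 1 4 1 .e (.s 2 2 1 (.s 1 1 2 .e (.s 2 4 1 .c .e)) .e))) .c)) .e) (.s 0 2 1 .e .c)) (.s 1 2 1 .e (.s 2 1 1 .e (.s 0 2 1 .c .e)))) .e) (.s 0 2 1 .e (.s 1 1 1 (.s 0 1 2 (.s 2 1 1 (.s 1 1 2 .e (.s 2 2 1 (.s 1 1 4 .e (.s 2 4 1 (.s 1 1 8 .e (.s 2 8 1 (.s 1 1 16 .e .c) .e)) .e)) .e)) .e) .c) (.s 2 2 1 .c (.s 0 1 1 .e (.s 1 2 1 .c .e)))))),.c⟩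

noncomputable def s_B3_29 : St :=
  ⟨4,72,[⟨0,0,0,0,1,0⟩,⟨1,0,0,0,1,0⟩,⟨0,0,1,0,0,0⟩,⟨0,0,1,0,1,0⟩,⟨1,0,1,0,1,0⟩,⟨1,0,1,0,2,0⟩,⟨1,0,2,0,2,0⟩,⟨1,0,2,0,3,0⟩,⟨2,0,3,0,4,0⟩,⟨2,0,4,0,5,0⟩,⟨3,0,5,0,7,0⟩,⟨4,0,7,0,9,0⟩,⟨5,0,9,0,12,0⟩],4,71,[1,1,1,1,1,2,2,2,2,2,2,2],[⟨⟨1,0,0,0,0,1⟩,false⟩,
 ⟨⟨1,0,0,1,2,0⟩,false⟩,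
 ⟨⟨0,1,1,0,0,1⟩,true⟩,
 ⟨⟨0,86816,115008,0,0,115007⟩,true⟩,
 ⟨⟨0,28190,65536,0,0,65536⟩,true⟩,
 ⟨⟨0,28190,65536,0,0,0⟩,true⟩],[],[],(.s 2 1 1 (.s 1 1 2 (.s 0 1 1 (.s 2 1 2 (.s 1 1 1 (.s 0 1 2 .e (.s 1 2 1 (.s 0 1 4 (.s 2 1 1 (.s 1 1 2 .e .c) (.s 0 2 1 .e (.s 1 1 1 .e (.s 2 2 1 .c .e)))) (.s 1 4 1 .e (.s 2 2 1 (.s 1 1 2 .e (.s 2 4 1 .c .e)) .e))) .c)) .e) (.s 0 2 1 .e .c)) (.s 1 2 1 .e (.s 2 1 1 .e (.s 0 2 1 .c .e)))) .e) (.s 0 2 1 .e (.s 1 1 1 (.s 0 1 2 (.s 2 1 1 (.s 1 1 2 .e (.s 2 2 1 (.s 1 1 4 .e (.s 2 4 1 (.s 1 1 8 .e (.s 2 8 1 (.s 1 1 16 .e .c) .e)) .e)) .e)) .e) .c) (.s 2 2 1 .c (.s 0 1 1 .e (.s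 1 2 1 .c .e)))))),.c⟩

noncomputable def s_B3_26 : St :=
  ⟨3,72,[⟨1,0,0,0,1,0⟩,⟨0,0,1,0,0,0⟩,⟨0,0,1,0,1,0⟩,⟨1,0,1,0,1,0⟩,⟨1,0,1,0,2,0⟩,⟨1,0,2,0,2,0⟩,⟨1,0,2,0,3,0⟩,⟨2,0,3,0,4,0⟩,⟨2,0,4,0,5,0⟩,⟨3,0,5,0,7,0⟩,⟨4,0,7,0,9,0⟩,⟨5,0,9,0,12,0⟩],3,70,[1,1,1,1,2,2,2,2,2,2],[⟨⟨1,0,0,0,0,1⟩,false⟩,
 ⟨⟨1,0,0,1,2,0⟩,false⟩,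
 ⟨⟨0,1,1,0,0,1⟩,true⟩,
 ⟨⟨0,86816,115008,0,0,115007⟩,true⟩,
 ⟨⟨0,28190,65536,0,0,65536⟩,true⟩,
 ⟨⟨0,28190,65536,0,0,0⟩,true⟩],[],[],(.s 2 1 1 (.s 1 1 2 (.s 0 1 1 (.s 2 1 2 (.s 1 1 1 (.s 0 1 2 .e (.s 1 2 1 (.s 0 1 4 (.s 2 1 1 (.s 1 1 2 .e .c) (.s 0 2 1 .e (.s 1 1 1 .e (.s 2 2 1 .c .e)))) (.s 1 4 1 .e (.s 2 2 1 (.s 1 1 2 .e (.s 2 4 1 .c .e)) .e))) .c)) .e) (.s 0 2 1 .e .c)) (.s 1 2 1 .e (.s 2 1 1 .e (.s 0 2 1 .c .e)))) .e) (.s 0 2 1 .e (.s 1 1 1 (.s 0 1 2 (.s 2 1 1 (.s 1 1 2 .e (.s 2 2 1 (.s 1 1 4 .e (.s 2 4 1 (.s 1 1 8 .e (.s 2 8 1 (.s 1 1 16 .e .c) .e)) .e)) .e)) .e) .c) (.s 2 2 1 .c (.s 0 1 1 .e (.s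 1 2 1 .c .e)))))),.c⟩

noncomputable def s_B3_40 : St :=
  ⟨5,72,[⟨1,0,0,0,0,0⟩,⟨0,0,0,0,1,0⟩,⟨1,0,0,0,1,0⟩,⟨0,0,1,0,0,0⟩,⟨0,0,1,0,1,0⟩,⟨1,0,1,0,1,0⟩,⟨1,0,1,0,2,0⟩,⟨1,0,2,0,2,0⟩,⟨1,0,2,0,3,0⟩,⟨2,0,3,0,4,0⟩,⟨2,0,4,0,5,0⟩,⟨3,0,5,0,7,0⟩,⟨4,0,7,0,9,0⟩,⟨5,0,9,0,12,0⟩],6,71,[2,1,1,1,1,1,1,2,2,2,2,2,2,2],[⟨⟨102882,0,0,86816,86817,0⟩,true⟩,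
 ⟨⟨0,1,0,0,1,0⟩,true⟩,
 ⟨⟨37346,0,0,86816,152353,0⟩,true⟩,
 ⟨⟨49472,0,0,28190,28192,0⟩,true⟩,
 ⟨⟨115008,0,0,28190,28192,0⟩,true⟩,
 ⟨⟨0,1,0,0,1,0⟩,false⟩,
 ⟨⟨1,0,0,1,2,0⟩,false⟩,
 ⟨⟨0,1,1,0,0,1⟩,true⟩,
 ⟨⟨0,86816,115008,0,0,115007⟩,true⟩,
 ⟨⟨0,28190,65536,0,0,65536⟩,true⟩,
 ⟨⟨0,28190,65536,0,0,0⟩,true⟩],[],[],(.s 2 1 1 (.s 1 1 2 (.s 0 1 1 (.s 2 1 2 (.s 1 1 1 (.s 0 1 2 .e (.s 1 2 1 (.s 0 1 4 (.s 2 1 1 (.s 1 1 2 .e .c) (.s 0 2 1 .e (.s 1 1 1 .e (.s 2 2 1 .c .e)))) (.s 1 4 1 .e (.s 2 2 1 (.s 1 1 2 .e (.s 2 4 1 .c .e)) .e))) .c)) .e) (.s 0 2 1 .e .c)) (.s 1 2 1 .e (.s 2 1 1 .e (.s 0 2 1 .c .e)))) .e) (.s 0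 2 1 .e (.s 1 1 1 (.s 0 1 2 (.s 2 1 1 (.s 1 1 2 .e (.s 2 2 1 (.s 1 1 4 .e (.s 2 4 1 (.s 1 1 8 .e (.s 2 8 1 (.s 1 1 16 .e .c) .e)) .e)) .e)) .e) .c) (.s 2 2 1 .c (.s 0 1 1 .e (.s 1 2 1 .c .e)))))),.c⟩

noncomputable def s_B3_38 : St :=
  ⟨5,72,[⟨1,0,0,0,0,0⟩,⟨0,0,0,0,1,0⟩,⟨1,0,0,0,1,0⟩,⟨0,0,1,0,0,0⟩,⟨0,0,1,0,1,0⟩,⟨1,0,1,0,1,0⟩,⟨1,0,1,0,2,0⟩,⟨1,0,2,0,2,0⟩,⟨1,0,2,0,3,0⟩,⟨2,0,3,0,4,0⟩,⟨2,0,4,0,5,0⟩,⟨3,0,5,0,7,0⟩,⟨4,0,7,0,9,0⟩,⟨5,0,9,0,12,0⟩],5,71,[1,1,1,1,1,1,2,2,2,2,2,2,2],[⟨⟨37346,0,0,86816,152353,0⟩,true⟩,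
 ⟨⟨49472,0,0,28190,28192,0⟩,true⟩,
 ⟨⟨115008,0,0,28190,28192,0⟩,true⟩,
 ⟨⟨0,1,0,0,1,0⟩,false⟩,
 ⟨⟨1,0,0,1,2,0⟩,false⟩,
 ⟨⟨0,1,1,0,0,1⟩,true⟩,
 ⟨⟨0,86816,115008,0,0,115007⟩,true⟩,
 ⟨⟨0,28190,65536,0,0,65536⟩,true⟩,
 ⟨⟨0,28190,65536,0,0,0⟩,true⟩],[],[],(.s 2 1 1 (.s 1 1 2 (.s 0 1 1 (.s 2 1 2 (.s 1 1 1 (.s 0 1 2 .e (.s 1 2 1 (.s 0 1 4 (.s 2 1 1 (.s 1 1 2 .e .c) (.s 0 2 1 .e (.s 1 1 1 .e (.s 2 2 1 .c .e)))) (.s 1 4 1 .e (.s 2 2 1 (.s 1 1 2 .e (.s 2 4 1 .c .e)) .e))) .c)) .e) (.s 0 2 1 .e .c)) (.s 1 2 1 .e (.s 2 1 1 .e (.s 0 2 1 .c .e)))) .e) (.s 0 2 1 .e (.s 1 1 1 (.s 0 1 2 (.s 2 1 1 (.s 1 1 2 .e (.s 2 2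 1 (.s 1 1 4 .e (.s 2 4 1 (.s 1 1 8 .e (.s 2 8 1 (.s 1 1 16 .e .c) .e)) .e)) .e)) .e) .c) (.s 2 2 1 .c (.s 0 1 1 .e (.s 1 2 1 .c .e)))))),.c⟩

noncomputable def s_B3_36 : St :=
  ⟨4,72,[⟨0,0,0,0,1,0⟩,⟨1,0,0,0,1,0⟩,⟨0,0,1,0,0,0⟩,⟨0,0,1,0,1,0⟩,⟨1,0,1,0,1,0⟩,⟨1,0,1,0,2,0⟩,⟨1,0,2,0,2,0⟩,⟨1,0,2,0,3,0⟩,⟨2,0,3,0,4,0⟩,⟨2,0,4,0,5,0⟩,⟨3,0,5,0,7,0⟩,⟨4,0,7,0,9,0⟩,⟨5,0,9,0,12,0⟩],4,71,[1,1,1,1,1,2,2,2,2,2,2,2],[⟨⟨115008,0,0,28190,28192,0⟩,true⟩,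
 ⟨⟨0,1,0,0,1,0⟩,false⟩,
 ⟨⟨1,0,0,1,2,0⟩,false⟩,
 ⟨⟨0,1,1,0,0,1⟩,true⟩,
 ⟨⟨0,86816,115008,0,0,115007⟩,true⟩,
 ⟨⟨0,28190,65536,0,0,65536⟩,true⟩,
 ⟨⟨0,28190,65536,0,0,0⟩,true⟩],[],[],(.s 2 1 1 (.s 1 1 2 (.s 0 1 1 (.s 2 1 2 (.s 1 1 1 (.s 0 1 2 .e (.s 1 2 1 (.s 0 1 4 (.s 2 1 1 (.s 1 1 2 .e .c) (.s 0 2 1 .e (.s 1 1 1 .e (.s 2 2 1 .c .e)))) (.s 1 4 1 .e (.s 2 2 1 (.s 1 1 2 .e (.s 2 4 1 .c .e)) .e))) .c)) .e) (.s 0 2 1 .e .c)) (.s 1 2 1 .e (.s 2 1 1 .e (.s 0 2 1 .c .e)))) .e) (.s 0 2 1 .e (.s 1 1 1 (.s 0 1 2 (.s 2 1 1 (.s 1 1 2 .e (.s 2 2 1 (.s 1 1 4 .e (.s 2 4 1 (.s 1 1 8 .e (.s 2 8 1 (.s 1 1 16 .e .c) .e))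 .e)) .e)) .e) .c) (.s 2 2 1 .c (.s 0 1 1 .e (.s 1 2 1 .c .e)))))),.c⟩

noncomputable def s_B3_25 : St :=
  ⟨3,72,[⟨1,0,0,0,1,0⟩,⟨0,0,1,0,0,0⟩,⟨0,0,1,0,1,0⟩,⟨1,0,1,0,1,0⟩,⟨1,0,1,0,2,0⟩,⟨1,0,2,0,2,0⟩,⟨1,0,2,0,3,0⟩,⟨2,0,3,0,4,0⟩,⟨2,0,4,0,5,0⟩,⟨3,0,5,0,7,0⟩,⟨4,0,7,0,9,0⟩,⟨5,0,9,0,12,0⟩],3,70,[1,1,1,1,2,2,2,2,2,2],[⟨⟨1,0,0,1,2,0⟩,false⟩,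
 ⟨⟨0,1,1,0,0,1⟩,true⟩,
 ⟨⟨0,86816,115008,0,0,115007⟩,true⟩,
 ⟨⟨0,28190,65536,0,0,65536⟩,true⟩,
 ⟨⟨0,28190,65536,0,0,0⟩,true⟩],[],[],(.s 2 1 1 (.s 1 1 2 (.s 0 1 1 (.s 2 1 2 (.s 1 1 1 (.s 0 1 2 .e (.s 1 2 1 (.s 0 1 4 (.s 2 1 1 (.s 1 1 2 .e .c) (.s 0 2 1 .e (.s 1 1 1 .e (.s 2 2 1 .c .e)))) (.s 1 4 1 .e (.s 2 2 1 (.s 1 1 2 .e (.s 2 4 1 .c .e)) .e))) .c)) .e) (.s 0 2 1 .e .c)) (.s 1 2 1 .e (.s 2 1 1 .e (.s 0 2 1 .c .e)))) .e) (.s 0 2 1 .e (.s 1 1 1 (.s 0 1 2 (.s 2 1 1 (.s 1 1 2 .e (.s 2 2 1 (.s 1 1 4 .e (.s 2 4 1 (.s 1 1 8 .e (.s 2 8 1 (.s 1 1 16 .e .c) .e)) .e)) .e)) .e) .c) (.s 2 2 1 .c (.s 0 1 1 .e (.s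 1 2 1 .c .e)))))),.c⟩

noncomputable def s_B3_18 : St :=
  ⟨3,72,[⟨1,0,0,0,1,0⟩,⟨0,0,1,0,0,0⟩,⟨0,0,1,0,1,0⟩,⟨1,0,1,0,1,0⟩,⟨1,0,1,0,2,0⟩,⟨1,0,2,0,2,0⟩,⟨1,0,2,0,3,0⟩,⟨2,0,3,0,4,0⟩,⟨2,0,4,0,5,0⟩,⟨3,0,5,0,7,0⟩,⟨4,0,7,0,9,0⟩,⟨5,0,9,0,12,0⟩],3,70,[1,1,1,1,2,2,2,2,2,2],[⟨⟨0,1,1,0,0,1⟩,true⟩,
 ⟨⟨0,86816,115008,0,0,115007⟩,true⟩,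
 ⟨⟨0,28190,65536,0,0,65536⟩,true⟩,
 ⟨⟨0,28190,65536,0,0,0⟩,true⟩],[],[],(.s 2 1 1 (.s 1 1 2 (.s 0 1 1 (.s 2 1 2 (.s 1 1 1 (.s 0 1 2 .e (.s 1 2 1 (.s 0 1 4 (.s 2 1 1 (.s 1 1 2 .e .c) (.s 0 2 1 .e (.s 1 1 1 .e (.s 2 2 1 .c .e)))) (.s 1 4 1 .e (.s 2 2 1 (.s 1 1 2 .e (.s 2 4 1 .c .e)) .e))) .c)) .e) (.s 0 2 1 .e .c)) (.s 1 2 1 .e (.s 2 1 1 .e (.s 0 2 1 .c .e)))) .e) (.s 0 2 1 .e (.s 1 1 1 (.s 0 1 2 (.s 2 1 1 (.s 1 1 2 .e (.s 2 2 1 (.s 1 1 4 .e (.s 2 4 1 (.s 1 1 8 .e (.s 2 8 1 (.s 1 1 16 .e .c) .e)) .e)) .e)) .e) .c) (.s 2 2 1 .c (.s 0 1 1 .e (.s 1 2 1 .c .e)))))),.c⟩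

noncomputable def s_B3_14 : St :=
  ⟨3,71,[⟨1,0,0,0,1,0⟩,⟨0,0,1,0,0,0⟩,⟨0,0,1,0,1,0⟩,⟨1,0,1,0,1,0⟩,⟨1,0,1,0,2,0⟩,⟨1,0,2,0,2,0⟩,⟨1,0,2,0,3,0⟩,⟨2,0,3,0,4,0⟩,⟨2,0,4,0,5,0⟩,⟨3,0,5,0,7,0⟩,⟨4,0,7,0,9,0⟩],3,69,[1,1,1,1,2,2,2,2,2],[⟨⟨0,1,1,0,0,1⟩,true⟩,
 ⟨⟨0,86816,115008,0,0,115007⟩,true⟩,
 ⟨⟨0,28190,65536,0,0,65536⟩,true⟩,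
 ⟨⟨0,28190,65536,0,0,0⟩,true⟩],[],[],(.s 2 1 1 (.s 1 1 2 (.s 0 1 1 (.s 2 1 2 (.s 1 1 1 (.s 0 1 2 (.s 2 1 1 .e (.s 0 2 1 .e (.s 1 1 1 (.s 0 1 2 (.s 2 1 1 .e (.s 0 2 1 .e (.s 1 1 1 (.s 0 1 2 (.s 2 1 1 (.s 1 1 2 .e (.s 2 2 1 (.s 1 1 4 .e .c) .e)) .e) .e) .e))) .e) .e))) .c) .e) (.s 0 2 1 .e .c)) (.s 1 2 1 .e (.s 2 1 1 .e (.s 0 2 1 .c .e)))) .e) (.s 0 2 1 .e (.s 1 1 1 (.s 0 1 2 (.s 2 1 1 (.s 1 1 2 .e (.s 2 2 1 (.s 1 1 4 .e (.s 2 4 1 (.s 1 1 8 .e (.s 2 8 1 (.s 1 1 16 .e .c) .e)) .e)) .e)) .e) .c) (.s 2 2 1 .c (.s 0 1 1 .e (.s 1 2 1 .c .e)))))),.c⟩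

noncomputable def s_B3_8 : St :=
  ⟨3,70,[⟨1,0,0,0,1,0⟩,⟨0,0,1,0,0,0⟩,⟨0,0,1,0,1,0⟩,⟨1,0,1,0,1,0⟩,⟨1,0,1,0,2,0⟩,⟨1,0,2,0,2,0⟩,⟨1,0,2,0,3,0⟩,⟨2,0,3,0,4,0⟩,⟨2,0,4,0,5,0⟩,⟨3,0,5,0,7,0⟩],3,68,[1,1,1,1,2,2,2,2],[⟨⟨0,1,1,0,0,1⟩,true⟩,
 ⟨⟨0,86816,115008,0,0,115007⟩,true⟩,
 ⟨⟨0,28190,65536,0,0,65536⟩,true⟩,
 ⟨⟨0,28190,65536,0,0,0⟩,true⟩],[],[],(.s 2 1 1 (.s 1 1 2 (.s 0 1 1 (.s 2 1 2 (.s 1 1 1 (.s 0 1 2 (.s 2 1 1 (.s 1 1 2 (.s 0 1 1 .e .c) .e) (.s 0 2 1 .e (.s 1 1 1 .c .e))) .c) .e) (.s 0 2 1 .e .c)) (.s 1 2 1 .e (.s 2 1 1 .e (.s 0 2 1 .c .e)))) .e) (.s 0 2 1 .e (.s 1 1 1 (.s 0 1 2 (.s 2 1 1 (.s 1 1 2 .e (.s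 2 2 1 (.s 1 1 4 .e (.s 2 4 1 (.s 1 1 8 .e (.s 2 8 1 (.s 1 1 16 .e .c) .e)) .e)) .e)) .e) .c) (.s 2 2 1 .c (.s 0 1 1 .e (.s 1 2 1 .c .e)))))),.c⟩

noncomputable def s_stop3 : St :=
  ⟨3,67,[⟨1,0,0,0,1,0⟩,⟨0,0,1,0,0,0⟩,⟨0,0,1,0,1,0⟩,⟨1,0,1,0,1,0⟩,⟨1,0,1,0,2,0⟩,⟨1,0,2,0,2,0⟩,⟨1,0,2,0,3,0⟩],3,65,[1,1,1,1,2],[⟨⟨0,1,1,0,0,1⟩,true⟩,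
 ⟨⟨0,86816,115008,0,0,115007⟩,true⟩,
 ⟨⟨0,28190,65536,0,0,65536⟩,true⟩,
 ⟨⟨0,28190,65536,0,0,0⟩,true⟩],[],[],(.s 2 1 1 (.s 1 1 2 .c .e) (.s 0 2 1 .e (.s 1 1 1 (.s 0 1 2 (.s 2 1 1 (.s 1 1 2 .e (.s 2 2 1 (.s 1 1 4 .e (.s 2 4 1 (.s 1 1 8 .e (.s 2 8 1 (.s 1 1 16 .e .c) .e)) .e)) .e)) .e) .c) (.s 2 2 1 .c (.s 0 1 1 .e (.s 1 2 1 .c .e)))))),.c⟩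

noncomputable def s_C35 : St :=
  ⟨2,67,[⟨0,0,1,0,0,0⟩,⟨0,0,1,0,1,0⟩,⟨1,0,1,0,1,0⟩,⟨1,0,1,0,2,0⟩,⟨1,0,2,0,2,0⟩,⟨1,0,2,0,3,0⟩],2,65,[1,1,1,2],[⟨⟨0,28190,65536,0,0,0⟩,true⟩],[],[],.c,.c⟩

noncomputable def s_B4_118 : St :=
  ⟨7,70,[⟨0,1,1,0,0,0⟩,⟨0,1,0,0,1,0⟩,⟨1,0,0,0,0,0⟩,⟨0,0,1,0,0,0⟩,⟨0,0,0,0,1,0⟩,⟨1,0,0,0,1,0⟩,⟨0,0,1,0,1,0⟩,⟨1,0,1,0,1,0⟩,⟨1,0,1,0,2,0⟩,⟨1,0,2,0,2,0⟩,⟨1,0,2,0,3,0⟩,⟨2,0,3,0,4,0⟩,⟨2,0,4,0,5,0⟩,⟨3,0,5,0,6,0⟩],8,68,[1,1,1,1,1,1,1,1,1,2,2,2,2],[⟨⟨0,121917,16065,0,49472,0⟩,true⟩,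
 ⟨⟨0,0,0,1,1,0⟩,true⟩,
 ⟨⟨0,121917,0,49471,115008,0⟩,true⟩,
 ⟨⟨2,0,0,0,0,1⟩,true⟩,
 ⟨⟨143200,0,21281,0,0,86816⟩,true⟩,
 ⟨⟨0,1,1,0,0,0⟩,true⟩,
 ⟨⟨16065,0,28192,0,0,28190⟩,true⟩,
 ⟨⟨0,49471,93728,0,0,28190⟩,true⟩,
 ⟨⟨0,0,0,1,1,0⟩,true⟩,
 ⟨⟨21281,0,0,115007,115008,0⟩,true⟩,
 ⟨⟨28192,0,0,65536,65536,0⟩,true⟩,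
 ⟨⟨93728,0,0,65536,65536,0⟩,true⟩,
 ⟨⟨0,1,1,0,0,0⟩,true⟩,
 ⟨⟨0,28190,65536,0,0,0⟩,true⟩],[],[],(.s 2 1 1 .e (.s 0 2 1 .e (.s 1 1 1 .e (.s 2 2 1 .e (.s 0 1 1 .e (.s 1 2 1 (.s 0 1 2 .e (.s 1 4 1 (.s 0 1 4 (.s 2 1 2 (.s 1 1 1 .e (.s 2 2 1 .e (.s 0 1 1 .e (.s 1 2 1 .e (.s 2 1 1 .e (.s 0 2 1 .e (.s 1 1 1 .e (.s 2 2 1 .c .e)))))))) .e) .e) .e)) .e)))))),.e⟩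

noncomputable def s_B4_112 : St :=
  ⟨6,70,[⟨0,1,1,0,0,0⟩,⟨1,0,0,0,0,0⟩,⟨0,0,1,0,0,0⟩,⟨0,0,0,0,1,0⟩,⟨1,0,0,0,1,0⟩,⟨0,0,1,0,1,0⟩,⟨1,0,1,0,1,0⟩,⟨1,0,1,0,2,0⟩,⟨1,0,2,0,2,0⟩,⟨1,0,2,0,3,0⟩,⟨2,0,3,0,4,0⟩,⟨2,0,4,0,5,0⟩,⟨3,0,5,0,6,0⟩],6,68,[1,1,1,1,1,1,1,2,2,2,2],[⟨⟨143200,0,21281,0,0,86816⟩,true⟩,
 ⟨⟨0,1,1,0,0,0⟩,true⟩,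
 ⟨⟨16065,0,28192,0,0,28190⟩,true⟩,
 ⟨⟨0,49471,93728,0,0,28190⟩,true⟩,
 ⟨⟨0,0,0,1,1,0⟩,true⟩,
 ⟨⟨21281,0,0,115007,115008,0⟩,true⟩,
 ⟨⟨28192,0,0,65536,65536,0⟩,true⟩,
 ⟨⟨93728,0,0,65536,65536,0⟩,true⟩,
 ⟨⟨0,1,1,0,0,0⟩,true⟩,
 ⟨⟨0,28190,65536,0,0,0⟩,true⟩],[],[],(.s 2 1 1 .e (.s 0 2 1 .e (.s 1 1 1 .e (.s 2 2 1 .e (.s 0 1 1 .e (.s 1 2 1 (.s 0 1 2 .e (.s 1 4 1 (.s 0 1 4 (.s 2 1 2 (.s 1 1 1 .e (.s 2 2 1 .e (.s 0 1 1 .e (.s 1 2 1 .e (.s 2 1 1 .e (.s 0 2 1 .e (.s 1 1 1 .e (.s 2 2 1 .c .e)))))))) .e) .e) .e)) .e)))))),.e⟩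

noncomputable def s_B4_107 : St :=
  ⟨4,70,[⟨0,0,1,0,0,0⟩,⟨0,0,0,0,1,0⟩,⟨1,0,0,0,1,0⟩,⟨0,0,1,0,1,0⟩,⟨1,0,1,0,1,0⟩,⟨1,0,1,0,2,0⟩,⟨1,0,2,0,2,0⟩,⟨1,0,2,0,3,0⟩,⟨2,0,3,0,4,0⟩,⟨2,0,4,0,5,0⟩,⟨3,0,5,0,6,0⟩],4,68,[1,1,1,1,1,2,2,2,2],[⟨⟨21281,0,0,115007,115008,0⟩,true⟩,
 ⟨⟨28192,0,0,65536,65536,0⟩,true⟩,
 ⟨⟨93728,0,0,65536,65536,0⟩,true⟩,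
 ⟨⟨0,1,1,0,0,0⟩,true⟩,
 ⟨⟨0,28190,65536,0,0,0⟩,true⟩],[],[],(.s 2 1 1 .e (.s 0 2 1 .e (.s 1 1 1 .e (.s 2 2 1 .e (.s 0 1 1 .e (.s 1 2 1 (.s 0 1 2 .e (.s 1 4 1 (.s 0 1 4 (.s 2 1 2 (.s 1 1 1 .e (.s 2 2 1 .e (.s 0 1 1 .e (.s 1 2 1 .e (.s 2 1 1 .e .c))))) .e) .e) .e)) .e)))))),.e⟩

noncomputable def s_B4_101 : St :=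
  ⟨3,70,[⟨0,0,0,0,1,0⟩,⟨1,0,0,0,1,0⟩,⟨0,0,1,0,1,0⟩,⟨1,0,1,0,1,0⟩,⟨1,0,1,0,2,0⟩,⟨1,0,2,0,2,0⟩,⟨1,0,2,0,3,0⟩,⟨2,0,3,0,4,0⟩,⟨2,0,4,0,5,0⟩,⟨3,0,5,0,6,0⟩],3,68,[1,1,1,1,2,2,2,2],[⟨⟨28192,0,0,65536,65536,0⟩,true⟩,
 ⟨⟨93728,0,0,65536,65536,0⟩,true⟩,
 ⟨⟨0,1,1,0,0,0⟩,true⟩,
 ⟨⟨0,28190,65536,0,0,0⟩,true⟩],[],[],(.s 2 1 1 (.s 1 1 2 (.s 0 1 1 (.s 2 1 2 (.s 1 1 1 .c .e) (.s 0 2 1 .e .c)) (.s 1 2 1 .e (.s 2 1 1 .e .c))) .e) (.s 0 2 1 .e (.s 1 1 1 (.s 0 1 2 (.s 2 1 1 (.s 1 1 2 .e (.s 2 2 1 (.s 1 1 4 .e .c) (.s 0 2 1 .e .c))) .e) (.s 1 2 1 .e (.s 2 2 1 .c .e))) .c))),(.s 2 2 1 .e .c)⟩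

noncomputable def s_B4_96 : St :=
  ⟨7,72,[⟨0,1,1,0,0,0⟩,⟨0,1,0,0,1,0⟩,⟨1,0,0,0,0,0⟩,⟨0,0,1,0,0,0⟩,⟨0,0,0,0,1,0⟩,⟨1,0,0,0,1,0⟩,⟨0,0,1,0,1,0⟩,⟨1,0,1,0,1,0⟩,⟨1,0,1,0,2,0⟩,⟨1,0,2,0,2,0⟩,⟨1,0,2,0,3,0⟩,⟨2,0,3,0,4,0⟩,⟨2,0,4,0,5,0⟩,⟨3,0,5,0,7,0⟩,⟨4,0,7,0,9,0⟩,⟨5,0,8,0,11,0⟩],8,70,[1,1,1,1,1,1,1,1,1,2,2,2,2,2,2],[⟨⟨0,121917,16065,0,49472,0⟩,true⟩,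
 ⟨⟨0,0,0,1,1,0⟩,true⟩,
 ⟨⟨0,121917,0,49471,115008,0⟩,true⟩,
 ⟨⟨2,0,0,0,0,1⟩,true⟩,
 ⟨⟨143200,0,21281,0,0,86816⟩,true⟩,
 ⟨⟨0,1,1,0,0,0⟩,true⟩,
 ⟨⟨16065,0,28192,0,0,28190⟩,true⟩,
 ⟨⟨0,49471,93728,0,0,28190⟩,true⟩,
 ⟨⟨0,0,0,1,1,0⟩,true⟩,
 ⟨⟨21281,0,0,115007,115008,0⟩,true⟩,
 ⟨⟨28192,0,0,65536,65536,0⟩,true⟩,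
 ⟨⟨93728,0,0,65536,65536,0⟩,true⟩,
 ⟨⟨0,1,1,0,0,0⟩,true⟩,
 ⟨⟨0,28190,65536,0,0,0⟩,true⟩],[],[],(.s 2 1 1 (.s 1 1 2 (.s 0 1 1 .e (.s 1 2 1 .e (.s 2 1 1 .e (.s 0 2 1 (.s 2 1 2 (.s 1 1 2 (.s 0 1 1 .e (.s 1 2 1 .e (.s 2 1 1 .e (.s 0 2 1 (.s 2 1 2 (.s 1 1 2 (.s 0 1 1 .e (.s 1 2 1 .e .c)) .e) (.s 0 4 1 .e (.s 1 1 1 .e (.s 2 2 1 .e (.s 0 1 1 .e (.s 1 2 1 .c .e)))))) (.s 1 1 1 .e (.s 2 2 1 .e (.s 0 1 1 (.s 2 1 2 (.s 1 1 1 .e (.s 2 2 1 .e .c)) .e) .e))))))) .e) .e) .e)))) .e) .e),.e⟩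

noncomputable def s_B4_92 : St :=
  ⟨6,72,[⟨0,1,0,0,1,0⟩,⟨1,0,0,0,0,0⟩,⟨0,0,1,0,0,0⟩,⟨0,0,0,0,1,0⟩,⟨1,0,0,0,1,0⟩,⟨0,0,1,0,1,0⟩,⟨1,0,1,0,1,0⟩,⟨1,0,1,0,2,0⟩,⟨1,0,2,0,2,0⟩,⟨1,0,2,0,3,0⟩,⟨2,0,3,0,4,0⟩,⟨2,0,4,0,5,0⟩,⟨3,0,5,0,7,0⟩,⟨4,0,7,0,9,0⟩,⟨5,0,8,0,11,0⟩],6,70,[1,1,1,1,1,1,1,2,2,2,2,2,2],[⟨⟨143200,0,21281,0,0,86816⟩,true⟩,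
 ⟨⟨0,1,1,0,0,0⟩,true⟩,
 ⟨⟨16065,0,28192,0,0,28190⟩,true⟩,
 ⟨⟨0,49471,93728,0,0,28190⟩,true⟩,
 ⟨⟨0,0,0,1,1,0⟩,true⟩,
 ⟨⟨21281,0,0,115007,115008,0⟩,true⟩,
 ⟨⟨28192,0,0,65536,65536,0⟩,true⟩,
 ⟨⟨93728,0,0,65536,65536,0⟩,true⟩,
 ⟨⟨0,1,1,0,0,0⟩,true⟩,
 ⟨⟨0,28190,65536,0,0,0⟩,true⟩],[],[],(.s 2 1 1 (.s 1 1 2 (.s 0 1 1 .e (.s 1 2 1 .e (.s 2 1 1 .e (.s 0 2 1 (.s 2 1 2 (.s 1 1 2 (.s 0 1 1 .e (.s 1 2 1 .e (.s 2 1 1 .e (.s 0 2 1 (.s 2 1 2 (.s 1 1 2 (.s 0 1 1 .e (.s 1 2 1 .e .c)) .e) (.s 0 4 1 .e (.s 1 1 1 .e (.s 2 2 1 .e (.s 0 1 1 .e .c))))) (.s 1 1 1 .e (.s 2 2 1 .e (.s 0 1 1 (.s 2 1 2 (.s 1 1 1 .e (.s 2 2 1 .e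 .c)) .e) (.s 1 2 1 .e (.s 2 1 1 .e (.s 0 2 1 .e .c)))))))))) .e) .e) .e)))) .e) .e),.e⟩

noncomputable def s_B4_90 : St :=
  ⟨6,72,[⟨0,1,1,0,0,0⟩,⟨1,0,0,0,0,0⟩,⟨0,0,1,0,0,0⟩,⟨0,0,0,0,1,0⟩,⟨1,0,0,0,1,0⟩,⟨0,0,1,0,1,0⟩,⟨1,0,1,0,1,0⟩,⟨1,0,1,0,2,0⟩,⟨1,0,2,0,2,0⟩,⟨1,0,2,0,3,0⟩,⟨2,0,3,0,4,0⟩,⟨2,0,4,0,5,0⟩,⟨3,0,5,0,7,0⟩,⟨4,0,7,0,9,0⟩,⟨5,0,8,0,11,0⟩],6,70,[1,1,1,1,1,1,1,2,2,2,2,2,2],[⟨⟨143200,0,21281,0,0,86816⟩,true⟩,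
 ⟨⟨0,1,1,0,0,0⟩,true⟩,
 ⟨⟨16065,0,28192,0,0,28190⟩,true⟩,
 ⟨⟨0,49471,93728,0,0,28190⟩,true⟩,
 ⟨⟨0,0,0,1,1,0⟩,true⟩,
 ⟨⟨21281,0,0,115007,115008,0⟩,true⟩,
 ⟨⟨28192,0,0,65536,65536,0⟩,true⟩,
 ⟨⟨93728,0,0,65536,65536,0⟩,true⟩,
 ⟨⟨0,1,1,0,0,0⟩,true⟩,
 ⟨⟨0,28190,65536,0,0,0⟩,true⟩],[],[],(.s 2 1 1 (.s 1 1 2 (.s 0 1 1 .e (.s 1 2 1 .e (.s 2 1 1 .e (.s 0 2 1 (.s 2 1 2 (.s 1 1 2 (.s 0 1 1 .e (.s 1 2 1 .e (.s 2 1 1 .e (.s 0 2 1 (.s 2 1 2 (.s 1 1 2 (.s 0 1 1 .e (.s 1 2 1 .e .c)) .e) (.s 0 4 1 .e (.s 1 1 1 .e (.s 2 2 1 .e (.s 0 1 1 .e .c))))) (.s 1 1 1 .e (.s 2 2 1 .e (.s 0 1 1 (.s 2 1 2 (.s 1 1 1 .e (.s 2 2 1 .e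 .c)) .e) (.s 1 2 1 .e (.s 2 1 1 .e (.s 0 2 1 .e .c)))))))))) .e) .e) .e)))) .e) .e),.e⟩

noncomputable def s_B4_86 : St :=
  ⟨5,72,[⟨1,0,0,0,0,0⟩,⟨0,0,1,0,0,0⟩,⟨0,0,0,0,1,0⟩,⟨1,0,0,0,1,0⟩,⟨0,0,1,0,1,0⟩,⟨1,0,1,0,1,0⟩,⟨1,0,1,0,2,0⟩,⟨1,0,2,0,2,0⟩,⟨1,0,2,0,3,0⟩,⟨2,0,3,0,4,0⟩,⟨2,0,4,0,5,0⟩,⟨3,0,5,0,7,0⟩,⟨4,0,7,0,9,0⟩,⟨5,0,8,0,11,0⟩],6,70,[1,1,1,1,1,1,1,2,2,2,2,2,2],[⟨⟨0,1,1,0,0,0⟩,true⟩,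
 ⟨⟨16065,0,28192,0,0,28190⟩,true⟩,
 ⟨⟨0,49471,93728,0,0,28190⟩,true⟩,
 ⟨⟨0,0,0,1,1,0⟩,true⟩,
 ⟨⟨21281,0,0,115007,115008,0⟩,true⟩,
 ⟨⟨28192,0,0,65536,65536,0⟩,true⟩,
 ⟨⟨93728,0,0,65536,65536,0⟩,true⟩,
 ⟨⟨0,1,1,0,0,0⟩,true⟩,
 ⟨⟨0,28190,65536,0,0,0⟩,true⟩],[],[],(.s 2 1 1 (.s 1 1 2 (.s 0 1 1 .e (.s 1 2 1 .e (.s 2 1 1 .e (.s 0 2 1 (.s 2 1 2 (.s 1 1 2 (.s 0 1 1 .e (.s 1 2 1 .e (.s 2 1 1 .e (.s 0 2 1 (.s 2 1 2 (.s 1 1 2 (.s 0 1 1 .e (.s 1 2 1 .e .c)) .e) (.s 0 4 1 .e (.s 1 1 1 .e (.s 2 2 1 .e (.s 0 1 1 .e .c))))) (.s 1 1 1 .e (.s 2 2 1 .e (.s 0 1 1 (.s 2 1 2 (.s 1 1 1 .e (.s 2 2 1 .e .c)) .e) (.s 1 2 1 .e (.s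 2 1 1 .e (.s 0 2 1 .e .c)))))))))) .e) .e) .e)))) .e) .e),.e⟩

noncomputable def s_B4_76 : St :=
  ⟨4,72,[⟨1,0,0,0,0,0⟩,⟨0,0,0,0,1,0⟩,⟨1,0,0,0,1,0⟩,⟨0,0,1,0,1,0⟩,⟨1,0,1,0,1,0⟩,⟨1,0,1,0,2,0⟩,⟨1,0,2,0,2,0⟩,⟨1,0,2,0,3,0⟩,⟨2,0,3,0,4,0⟩,⟨2,0,4,0,5,0⟩,⟨3,0,5,0,7,0⟩,⟨4,0,7,0,9,0⟩,⟨5,0,8,0,11,0⟩],4,70,[1,1,1,1,1,2,2,2,2,2,2],[⟨⟨21281,0,0,115007,115008,0⟩,true⟩,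
 ⟨⟨28192,0,0,65536,65536,0⟩,true⟩,
 ⟨⟨93728,0,0,65536,65536,0⟩,true⟩,
 ⟨⟨0,1,1,0,0,0⟩,true⟩,
 ⟨⟨0,28190,65536,0,0,0⟩,true⟩],[],[],(.s 2 1 1 (.s 1 1 2 (.s 0 1 1 .e (.s 1 2 1 .e (.s 2 1 1 .e (.s 0 2 1 (.s 2 1 2 (.s 1 1 2 (.s 0 1 1 .e (.s 1 2 1 .e (.s 2 1 1 .e (.s 0 2 1 (.s 2 1 2 (.s 1 1 2 (.s 0 1 1 .e (.s 1 2 1 .e .c)) .e) (.s 0 4 1 (.s 2 1 4 (.s 1 1 2 (.s 0 1 1 .e .c) .e) .e) (.s 1 1 1 .e (.s 2 2 1 .e .c)))) (.s 1 1 1 .e (.s 2 2 1 .e .c)))))) .e) .e) .e)))) .e) .e),.e⟩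

noncomputable def s_B4_75 : St :=
  ⟨3,72,[⟨0,0,0,0,1,0⟩,⟨1,0,0,0,1,0⟩,⟨0,0,1,0,1,0⟩,⟨1,0,1,0,1,0⟩,⟨1,0,1,0,2,0⟩,⟨1,0,2,0,2,0⟩,⟨1,0,2,0,3,0⟩,⟨2,0,3,0,4,0⟩,⟨2,0,4,0,5,0⟩,⟨3,0,5,0,7,0⟩,⟨4,0,7,0,9,0⟩,⟨5,0,8,0,11,0⟩],4,70,[1,1,1,1,1,2,2,2,2,2,2],[⟨⟨21281,0,0,115007,115008,0⟩,true⟩,
 ⟨⟨28192,0,0,65536,65536,0⟩,true⟩,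
 ⟨⟨93728,0,0,65536,65536,0⟩,true⟩,
 ⟨⟨0,1,1,0,0,0⟩,true⟩,
 ⟨⟨0,28190,65536,0,0,0⟩,true⟩],[],[],(.s 2 1 1 (.s 1 1 2 (.s 0 1 1 .e (.s 1 2 1 .e (.s 2 1 1 .e (.s 0 2 1 (.s 2 1 2 (.s 1 1 2 (.s 0 1 1 .e (.s 1 2 1 .e (.s 2 1 1 .e (.s 0 2 1 (.s 2 1 2 (.s 1 1 2 (.s 0 1 1 .e (.s 1 2 1 .e .c)) .e) (.s 0 4 1 (.s 2 1 4 (.s 1 1 2 (.s 0 1 1 .e .c) .e) .e) (.s 1 1 1 .e (.s 2 2 1 .e .c)))) (.s 1 1 1 .e (.s 2 2 1 .e .c)))))) .e) .e) .e)))) .e) .e),.e⟩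

noncomputable def s_B4_23 : St :=
  ⟨4,72,[⟨0,0,1,0,0,0⟩,⟨0,0,0,0,1,0⟩,⟨1,0,0,0,1,0⟩,⟨0,0,1,0,1,0⟩,⟨1,0,1,0,1,0⟩,⟨1,0,1,0,2,0⟩,⟨1,0,2,0,2,0⟩,⟨1,0,2,0,3,0⟩,⟨2,0,3,0,4,0⟩,⟨2,0,4,0,5,0⟩,⟨3,0,5,0,7,0⟩,⟨4,0,7,0,9,0⟩,⟨5,0,9,0,12,0⟩],4,71,[1,1,1,1,1,2,2,2,2,2,2,2],[⟨⟨0,1,0,1,1,0⟩,false⟩,
 ⟨⟨0,0,0,1,1,0⟩,true⟩,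
 ⟨⟨21281,0,0,115007,115008,0⟩,true⟩,
 ⟨⟨28192,0,0,65536,65536,0⟩,true⟩,
 ⟨⟨93728,0,0,65536,65536,0⟩,true⟩,
 ⟨⟨0,1,1,0,0,0⟩,true⟩,
 ⟨⟨0,28190,65536,0,0,0⟩,true⟩],[],[],(.s 2 1 1 (.s 1 1 2 (.s 0 1 1 (.s 2 1 2 (.s 1 1 1 (.s 0 1 2 .e (.s 1 2 1 (.s 0 1 4 (.s 2 1 1 (.s 1 1 2 .e .c) (.s 0 2 1 .e (.s 1 1 1 .e .c))) (.s 1 4 1 .e (.s 2 2 1 (.s 1 1 2 .e .c) .e))) .c)) .e) (.s 0 2 1 .e .c)) (.s 1 2 1 .e (.s 2 1 1 .e .c))) .e) (.s 0 2 1 .e (.s 1 1 1 (.s 0 1 2 (.s 2 1 1 (.s 1 1 2 .e (.s 2 2 1 (.s 1 1 4 .e .c) (.s 0 2 1 .e .c))) .e) (.s 1 2 1 .e (.s 2 2 1 .c .e))) .c))),(.s 2 2 1 .e .c)⟩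

noncomputable def s_B4_59 : St :=
  ⟨8,72,[⟨0,0,0,1,1,0⟩,⟨0,1,1,0,0,0⟩,⟨0,1,0,0,1,0⟩,⟨1,0,0,0,0,0⟩,⟨0,0,1,0,0,0⟩,⟨0,0,0,0,1,0⟩,⟨1,0,0,0,1,0⟩,⟨0,0,1,0,1,0⟩,⟨1,0,1,0,1,0⟩,⟨1,0,1,0,2,0⟩,⟨1,0,2,0,2,0⟩,⟨1,0,2,0,3,0⟩,⟨2,0,3,0,4,0⟩,⟨2,0,4,0,5,0⟩,⟨3,0,5,0,7,0⟩,⟨4,0,7,0,9,0⟩,⟨5,0,9,0,12,0⟩],9,71,[2,1,1,1,1,1,1,1,1,1,2,2,2,2,2,2,2],[⟨⟨0,223105,12128,0,102882,0⟩,true⟩,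
 ⟨⟨0,1,2,0,0,1⟩,true⟩,
 ⟨⟨0,288641,143200,0,37346,0⟩,true⟩,
 ⟨⟨0,2,0,1,2,0⟩,false⟩,
 ⟨⟨0,121917,16065,0,49472,0⟩,true⟩,
 ⟨⟨0,0,0,1,1,0⟩,true⟩,
 ⟨⟨0,121917,0,49471,115008,0⟩,true⟩,
 ⟨⟨2,0,0,0,0,1⟩,true⟩,
 ⟨⟨143200,0,21281,0,0,86816⟩,true⟩,
 ⟨⟨0,1,1,0,0,0⟩,true⟩,
 ⟨⟨16065,0,28192,0,0,28190⟩,true⟩,
 ⟨⟨0,49471,93728,0,0,28190⟩,true⟩,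
 ⟨⟨1,0,1,0,0,1⟩,false⟩,
 ⟨⟨0,0,0,1,1,0⟩,true⟩,
 ⟨⟨21281,0,0,115007,115008,0⟩,true⟩,
 ⟨⟨28192,0,0,65536,65536,0⟩,true⟩,
 ⟨⟨93728,0,0,65536,65536,0⟩,true⟩,
 ⟨⟨0,1,1,0,0,0⟩,true⟩,
 ⟨⟨0,28190,65536,0,0,0⟩,true⟩],[],[],(.s 2 1 1 (.s 1 1 2 (.s 0 1 1 (.s 2 1 2 (.s 1 1 1 (.s 0 1 2 .e (.s 1 2 1 (.s 0 1 4 (.s 2 1 1 (.s 1 1 2 .e (.s 2 2 1 (.s 1 1 4 .e (.s 2 4 1 (.s 1 1 8 (.s 0 1 1 (.s 2 1 2 .e (.s 0 2 1 (.s 2 1 4 .c .e) .e)) .e) (.s 2 8 1 (.s 1 1 16 (.s 0 1 1 (.s 2 1 2 .e .c) .e) .c) (.s 0 2 1 (.s 2 1 2 (.s 1 1 2 .c .e) (.s 0 4 1 .e .c)) (.s 1 1 1 .e .c)))) .e)) .e)) .e) .e) .c)) .e) (.s 0 2 1 .e .c)) (.s 1 2 1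 .e (.s 2 1 1 .e .c))) .e) (.s 0 2 1 .e (.s 1 1 1 (.s 0 1 2 (.s 2 1 1 (.s 1 1 2 .e (.s 2 2 1 (.s 1 1 4 .e .c) (.s 0 2 1 .e .c))) .e) (.s 1 2 1 .e (.s 2 2 1 .c .e))) .c))),(.s 2 2 1 .e .c)⟩

noncomputable def s_B4_56 : St :=
  ⟨8,72,[⟨0,0,0,1,1,0⟩,⟨0,1,1,0,0,0⟩,⟨0,1,0,0,1,0⟩,⟨1,0,0,0,0,0⟩,⟨0,0,1,0,0,0⟩,⟨0,0,0,0,1,0⟩,⟨1,0,0,0,1,0⟩,⟨0,0,1,0,1,0⟩,⟨1,0,1,0,1,0⟩,⟨1,0,1,0,2,0⟩,⟨1,0,2,0,2,0⟩,⟨1,0,2,0,3,0⟩,⟨2,0,3,0,4,0⟩,⟨2,0,4,0,5,0⟩,⟨3,0,5,0,7,0⟩,⟨4,0,7,0,9,0⟩,⟨5,0,9,0,12,0⟩],8,71,[1,1,1,1,1,1,1,1,1,2,2,2,2,2,2,2],[⟨⟨0,288641,143200,0,37346,0⟩,true⟩,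
 ⟨⟨0,2,0,1,2,0⟩,false⟩,
 ⟨⟨0,121917,16065,0,49472,0⟩,true⟩,
 ⟨⟨0,0,0,1,1,0⟩,true⟩,
 ⟨⟨0,121917,0,49471,115008,0⟩,true⟩,
 ⟨⟨2,0,0,0,0,1⟩,true⟩,
 ⟨⟨143200,0,21281,0,0,86816⟩,true⟩,
 ⟨⟨0,1,1,0,0,0⟩,true⟩,
 ⟨⟨16065,0,28192,0,0,28190⟩,true⟩,
 ⟨⟨0,49471,93728,0,0,28190⟩,true⟩,
 ⟨⟨1,0,1,0,0,1⟩,false⟩,
 ⟨⟨0,0,0,1,1,0⟩,true⟩,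
 ⟨⟨21281,0,0,115007,115008,0⟩,true⟩,
 ⟨⟨28192,0,0,65536,65536,0⟩,true⟩,
 ⟨⟨93728,0,0,65536,65536,0⟩,true⟩,
 ⟨⟨0,1,1,0,0,0⟩,true⟩,
 ⟨⟨0,28190,65536,0,0,0⟩,true⟩],[],[],(.s 2 1 1 (.s 1 1 2 (.s 0 1 1 (.s 2 1 2 (.s 1 1 1 (.s 0 1 2 .e (.s 1 2 1 (.s 0 1 4 (.s 2 1 1 (.s 1 1 2 .e (.s 2 2 1 (.s 1 1 4 .e (.s 2 4 1 (.s 1 1 8 (.s 0 1 1 (.s 2 1 2 .e (.s 0 2 1 (.s 2 1 4 .c .e) .e)) .e) (.s 2 8 1 (.s 1 1 16 (.s 0 1 1 (.s 2 1 2 .e .c) .e) .c) (.s 0 2 1 (.s 2 1 2 (.s 1 1 2 .c .e) (.s 0 4 1 .e .c)) (.s 1 1 1 .e .c)))) (.s 0 2 1 .e (.s 1 1 1 .e (.s 2 2 1 .c .e))))) .e)) .e) .e) .c)) .e) (.s 0 2 1 .e .c)) (.s 1 2 1 .e (.s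 2 1 1 .e .c))) .e) (.s 0 2 1 .e (.s 1 1 1 (.s 0 1 2 (.s 2 1 1 (.s 1 1 2 .e (.s 2 2 1 (.s 1 1 4 .e .c) (.s 0 2 1 .e .c))) .e) (.s 1 2 1 .e (.s 2 2 1 .c .e))) .c))),(.s 2 2 1 .e .c)⟩

noncomputable def s_B4_54 : St :=
  ⟨7,72,[⟨0,1,1,0,0,0⟩,⟨0,1,0,0,1,0⟩,⟨1,0,0,0,0,0⟩,⟨0,0,1,0,0,0⟩,⟨0,0,0,0,1,0⟩,⟨1,0,0,0,1,0⟩,⟨0,0,1,0,1,0⟩,⟨1,0,1,0,1,0⟩,⟨1,0,1,0,2,0⟩,⟨1,0,2,0,2,0⟩,⟨1,0,2,0,3,0⟩,⟨2,0,3,0,4,0⟩,⟨2,0,4,0,5,0⟩,⟨3,0,5,0,7,0⟩,⟨4,0,7,0,9,0⟩,⟨5,0,9,0,12,0⟩],8,71,[1,1,1,1,1,1,1,1,1,2,2,2,2,2,2,2],[⟨⟨0,2,0,1,2,0⟩,false⟩,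
 ⟨⟨0,121917,16065,0,49472,0⟩,true⟩,
 ⟨⟨0,0,0,1,1,0⟩,true⟩,
 ⟨⟨0,121917,0,49471,115008,0⟩,true⟩,
 ⟨⟨2,0,0,0,0,1⟩,true⟩,
 ⟨⟨143200,0,21281,0,0,86816⟩,true⟩,
 ⟨⟨0,1,1,0,0,0⟩,true⟩,
 ⟨⟨16065,0,28192,0,0,28190⟩,true⟩,
 ⟨⟨0,49471,93728,0,0,28190⟩,true⟩,
 ⟨⟨1,0,1,0,0,1⟩,false⟩,
 ⟨⟨0,0,0,1,1,0⟩,true⟩,
 ⟨⟨21281,0,0,115007,115008,0⟩,true⟩,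
 ⟨⟨28192,0,0,65536,65536,0⟩,true⟩,
 ⟨⟨93728,0,0,65536,65536,0⟩,true⟩,
 ⟨⟨0,1,1,0,0,0⟩,true⟩,
 ⟨⟨0,28190,65536,0,0,0⟩,true⟩],[],[],(.s 2 1 1 (.s 1 1 2 (.s 0 1 1 (.s 2 1 2 (.s 1 1 1 (.s 0 1 2 .e (.s 1 2 1 (.s 0 1 4 (.s 2 1 1 (.s 1 1 2 .e (.s 2 2 1 (.s 1 1 4 .e (.s 2 4 1 (.s 1 1 8 (.s 0 1 1 (.s 2 1 2 .e (.s 0 2 1 (.s 2 1 4 .c .e) .e)) .e) (.s 2 8 1 (.s 1 1 16 (.s 0 1 1 (.s 2 1 2 .e .c) .e) .c) (.s 0 2 1 (.s 2 1 2 (.s 1 1 2 .c .e) (.s 0 4 1 .e .c)) (.s 1 1 1 .e .c)))) (.s 0 2 1 (.s 2 1 2 (.s 1 1 2 .c .e) (.s 0 4 1 .e .c)) (.s 1 1 1 .e (.s 2 2 1 .c .e))))) .e)) .e) .e) .c)) .e) (.s 0 2 1 .e .c)) (.s 1 2 1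 .e (.s 2 1 1 .e .c))) .e) (.s 0 2 1 .e (.s 1 1 1 (.s 0 1 2 (.s 2 1 1 (.s 1 1 2 .e (.s 2 2 1 (.s 1 1 4 .e .c) (.s 0 2 1 .e .c))) .e) (.s 1 2 1 .e (.s 2 2 1 .c .e))) .c))),(.s 2 2 1 .e .c)⟩

end Pool.Agent.Helper54.Cert
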