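import Pool.Agent.Lib.Helper54.S18919.Check

set_option autoImplicit false
set_option maxRecDepth 100000

namespace Pool.Agent.Helper54.Cert

noncomputable def s_B4_52 : St :=
  ⟨7,72,[⟨0,1,1,0,0,0⟩,⟨0,1,0,0,1,0⟩,⟨1,0,0,0,0,0⟩,⟨0,0,1,0,0,0⟩,⟨0,0,0,0,1,0⟩,⟨1,0,0,0,1,0⟩,⟨0,0,1,0,1,0⟩,⟨1,0,1,0,1,0⟩,⟨1,0,1,0,2,0⟩,⟨1,0,2,0,2,0⟩,⟨1,0,2,0,3,0⟩,⟨2,0,3,0,4,0⟩,⟨2,0,4,0,5,0⟩,⟨3,0,5,0,7,0⟩,⟨4,0,7,0,9,0⟩,⟨5,0,9,0,12,0⟩],7,71,[1,1,1,1,1,1,1,1,2,2,2,2,2,2,2],[⟨⟨0,2,0,1,2,0⟩,false⟩,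
 ⟨⟨0,121917,16065,0,49472,0⟩,true⟩,
 ⟨⟨0,0,0,1,1,0⟩,true⟩,
 ⟨⟨0,121917,0,49471,115008,0⟩,true⟩,
 ⟨⟨2,0,0,0,0,1⟩,true⟩,
 ⟨⟨143200,0,21281,0,0,86816⟩,true⟩,
 ⟨⟨0,1,1,0,0,0⟩,true⟩,
 ⟨⟨16065,0,28192,0,0,28190⟩,true⟩,
 ⟨⟨0,49471,93728,0,0,28190⟩,true⟩,
 ⟨⟨1,0,1,0,0,1⟩,false⟩,
 ⟨⟨0,0,0,1,1,0⟩,true⟩,
 ⟨⟨21281,0,0,115007,115008,0⟩,true⟩,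
 ⟨⟨28192,0,0,65536,65536,0⟩,true⟩,
 ⟨⟨93728,0,0,65536,65536,0⟩,true⟩,
 ⟨⟨0,1,1,0,0,0⟩,true⟩,
 ⟨⟨0,28190,65536,0,0,0⟩,true⟩],[],[],(.s 2 1 1 (.s 1 1 2 (.s 0 1 1 (.s 2 1 2 (.s 1 1 1 (.s 0 1 2 .e (.s 1 2 1 (.s 0 1 4 (.s 2 1 1 (.s 1 1 2 .e (.s 2 2 1 (.s 1 1 4 .e (.s 2 4 1 (.s 1 1 8 (.s 0 1 1 (.s 2 1 2 .e .c) .e) .c) (.s 0 2 1 (.s 2 1 2 (.s 1 1 2 .c .e) (.s 0 4 1 .e .c)) (.s 1 1 1 .e (.s 2 2 1 .c .e))))) .e)) .e) .e) .c)) .e) (.s 0 2 1 .e .c)) (.s 1 2 1 .e (.s 2 1 1 .e .c))) .e) (.s 0 2 1 .e (.s 1 1 1 (.s 0 1 2 (.s 2 1 1 (.s 1 1 2 .e (.s 2 2 1 (.s 1 1 4 .e .c) (.s 0 2 1 .e .c))) .e) (.s 1 2 1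 .e (.s 2 2 1 .c .e))) .c))),(.s 2 2 1 .e .c)⟩

noncomputable def s_B4_64 : St :=
  ⟨7,72,[⟨0,1,1,0,0,0⟩,⟨0,1,0,0,1,0⟩,⟨1,0,0,0,0,0⟩,⟨0,0,1,0,0,0⟩,⟨0,0,0,0,1,0⟩,⟨1,0,0,0,1,0⟩,⟨0,0,1,0,1,0⟩,⟨1,0,1,0,1,0⟩,⟨1,0,1,0,2,0⟩,⟨1,0,2,0,2,0⟩,⟨1,0,2,0,3,0⟩,⟨2,0,3,0,4,0⟩,⟨2,0,4,0,5,0⟩,⟨3,0,5,0,7,0⟩,⟨4,0,7,0,9,0⟩,⟨5,0,9,0,12,0⟩],8,71,[1,1,1,1,1,1,1,1,1,2,2,2,2,2,2,2],[⟨⟨2,0,1,0,0,2⟩,false⟩,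
 ⟨⟨0,121917,16065,0,49472,0⟩,true⟩,
 ⟨⟨0,0,0,1,1,0⟩,true⟩,
 ⟨⟨0,121917,0,49471,115008,0⟩,true⟩,
 ⟨⟨2,0,0,0,0,1⟩,true⟩,
 ⟨⟨143200,0,21281,0,0,86816⟩,true⟩,
 ⟨⟨0,1,1,0,0,0⟩,true⟩,
 ⟨⟨16065,0,28192,0,0,28190⟩,true⟩,
 ⟨⟨0,49471,93728,0,0,28190⟩,true⟩,
 ⟨⟨1,0,1,0,0,1⟩,false⟩,
 ⟨⟨0,0,0,1,1,0⟩,true⟩,
 ⟨⟨21281,0,0,115007,115008,0⟩,true⟩,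
 ⟨⟨28192,0,0,65536,65536,0⟩,true⟩,
 ⟨⟨93728,0,0,65536,65536,0⟩,true⟩,
 ⟨⟨0,1,1,0,0,0⟩,true⟩,
 ⟨⟨0,28190,65536,0,0,0⟩,true⟩],[],[],(.s 2 1 1 (.s 1 1 2 (.s 0 1 1 (.s 2 1 2 (.s 1 1 1 (.s 0 1 2 .e (.s 1 2 1 (.s 0 1 4 (.s 2 1 1 (.s 1 1 2 .e (.s 2 2 1 (.s 1 1 4 .e (.s 2 4 1 (.s 1 1 8 (.s 0 1 1 (.s 2 1 2 .e (.s 0 2 1 (.s 2 1 4 .c .e) .e)) .e) (.s 2 8 1 (.s 1 1 16 (.s 0 1 1 (.s 2 1 2 .e .c) .e) .c) (.s 0 2 1 (.s 2 1 2 (.s 1 1 2 .c .e) (.s 0 4 1 .e .c)) (.s 1 1 1 .e .c)))) (.s 0 2 1 (.s 2 1 2 (.s 1 1 2 .c .e) (.s 0 4 1 .e .c)) (.s 1 1 1 .e (.s 2 2 1 .c .e))))) .e)) .e) .e) .c)) .e) (.s 0 2 1 .e .c))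 (.s 1 2 1 .e (.s 2 1 1 .e .c))) .e) (.s 0 2 1 .e (.s 1 1 1 (.s 0 1 2 (.s 2 1 1 (.s 1 1 2 .e (.s 2 2 1 (.s 1 1 4 .e .c) (.s 0 2 1 .e .c))) .e) (.s 1 2 1 .e (.s 2 2 1 .c .e))) .c))),(.s 2 2 1 .e .c)⟩

noncomputable def s_B4_50 : St :=
  ⟨7,72,[⟨0,1,1,0,0,0⟩,⟨0,1,0,0,1,0⟩,⟨1,0,0,0,0,0⟩,⟨0,0,1,0,0,0⟩,⟨0,0,0,0,1,0⟩,⟨1,0,0,0,1,0⟩,⟨0,0,1,0,1,0⟩,⟨1,0,1,0,1,0⟩,⟨1,0,1,0,2,0⟩,⟨1,0,2,0,2,0⟩,⟨1,0,2,0,3,0⟩,⟨2,0,3,0,4,0⟩,⟨2,0,4,0,5,0⟩,⟨3,0,5,0,7,0⟩,⟨4,0,7,0,9,0⟩,⟨5,0,9,0,12,0⟩],7,71,[1,1,1,1,1,1,1,1,2,2,2,2,2,2,2],[⟨⟨0,121917,0,49471,115008,0⟩,true⟩,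
 ⟨⟨2,0,0,0,0,1⟩,true⟩,
 ⟨⟨143200,0,21281,0,0,86816⟩,true⟩,
 ⟨⟨0,1,1,0,0,0⟩,true⟩,
 ⟨⟨16065,0,28192,0,0,28190⟩,true⟩,
 ⟨⟨0,49471,93728,0,0,28190⟩,true⟩,
 ⟨⟨1,0,1,0,0,1⟩,false⟩,
 ⟨⟨0,0,0,1,1,0⟩,true⟩,
 ⟨⟨21281,0,0,115007,115008,0⟩,true⟩,
 ⟨⟨28192,0,0,65536,65536,0⟩,true⟩,
 ⟨⟨93728,0,0,65536,65536,0⟩,true⟩,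
 ⟨⟨0,1,1,0,0,0⟩,true⟩,
 ⟨⟨0,28190,65536,0,0,0⟩,true⟩],[],[],(.s 2 1 1 (.s 1 1 2 (.s 0 1 1 (.s 2 1 2 (.s 1 1 1 (.s 0 1 2 .e (.s 1 2 1 (.s 0 1 4 (.s 2 1 1 (.s 1 1 2 .e .c) (.s 0 2 1 .e (.s 1 1 1 .e .c))) (.s 1 4 1 .e (.s 2 2 1 (.s 1 1 2 .e .c) .e))) .c)) .e) (.s 0 2 1 .e .c)) (.s 1 2 1 .e (.s 2 1 1 .e .c))) .e) (.s 0 2 1 .e (.s 1 1 1 (.s 0 1 2 (.s 2 1 1 (.s 1 1 2 .e (.s 2 2 1 (.s 1 1 4 .e .c) (.s 0 2 1 .e .c))) .e) (.s 1 2 1 .e (.s 2 2 1 .c .e))) .c))),(.s 2 2 1 .e .c)⟩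

noncomputable def s_B4_48 : St :=
  ⟨6,72,[⟨0,1,0,0,1,0⟩,⟨1,0,0,0,0,0⟩,⟨0,0,1,0,0,0⟩,⟨0,0,0,0,1,0⟩,⟨1,0,0,0,1,0⟩,⟨0,0,1,0,1,0⟩,⟨1,0,1,0,1,0⟩,⟨1,0,1,0,2,0⟩,⟨1,0,2,0,2,0⟩,⟨1,0,2,0,3,0⟩,⟨2,0,3,0,4,0⟩,⟨2,0,4,0,5,0⟩,⟨3,0,5,0,7,0⟩,⟨4,0,7,0,9,0⟩,⟨5,0,9,0,12,0⟩],6,71,[1,1,1,1,1,1,1,2,2,2,2,2,2,2],[⟨⟨143200,0,21281,0,0,86816⟩,true⟩,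
 ⟨⟨0,1,1,0,0,0⟩,true⟩,
 ⟨⟨16065,0,28192,0,0,28190⟩,true⟩,
 ⟨⟨0,49471,93728,0,0,28190⟩,true⟩,
 ⟨⟨1,0,1,0,0,1⟩,false⟩,
 ⟨⟨0,0,0,1,1,0⟩,true⟩,
 ⟨⟨21281,0,0,115007,115008,0⟩,true⟩,
 ⟨⟨28192,0,0,65536,65536,0⟩,true⟩,
 ⟨⟨93728,0,0,65536,65536,0⟩,true⟩,
 ⟨⟨0,1,1,0,0,0⟩,true⟩,
 ⟨⟨0,28190,65536,0,0,0⟩,true⟩],[],[],(.s 2 1 1 (.s 1 1 2 (.s 0 1 1 (.s 2 1 2 (.s 1 1 1 (.s 0 1 2 .e (.s 1 2 1 (.s 0 1 4 (.s 2 1 1 (.s 1 1 2 .e .c) (.s 0 2 1 .e (.s 1 1 1 .e .c))) (.s 1 4 1 .e (.s 2 2 1 (.s 1 1 2 .e .c) .e))) .c)) .e) (.s 0 2 1 .e .c)) (.s 1 2 1 .e (.s 2 1 1 .e .c))) .e) (.s 0 2 1 .e (.s 1 1 1 (.s 0 1 2 (.s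 2 1 1 (.s 1 1 2 .e (.s 2 2 1 (.s 1 1 4 .e .c) (.s 0 2 1 .e .c))) .e) (.s 1 2 1 .e (.s 2 2 1 .c .e))) .c))),(.s 2 2 1 .e .c)⟩

noncomputable def s_B4_40 : St :=
  ⟨6,72,[⟨0,1,1,0,0,0⟩,⟨1,0,0,0,0,0⟩,⟨0,0,1,0,0,0⟩,⟨0,0,0,0,1,0⟩,⟨1,0,0,0,1,0⟩,⟨0,0,1,0,1,0⟩,⟨1,0,1,0,1,0⟩,⟨1,0,1,0,2,0⟩,⟨1,0,2,0,2,0⟩,⟨1,0,2,0,3,0⟩,⟨2,0,3,0,4,0⟩,⟨2,0,4,0,5,0⟩,⟨3,0,5,0,7,0⟩,⟨4,0,7,0,9,0⟩,⟨5,0,9,0,12,0⟩],7,71,[2,1,1,1,1,1,1,1,2,2,2,2,2,2,2],[⟨⟨2,0,0,0,0,1⟩,false⟩,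
 ⟨⟨0,1,1,0,0,0⟩,true⟩,
 ⟨⟨12128,0,86817,0,0,86816⟩,true⟩,
 ⟨⟨2,0,0,1,0,0⟩,true⟩,
 ⟨⟨143200,0,21281,0,0,86816⟩,true⟩,
 ⟨⟨0,1,1,0,0,0⟩,true⟩,
 ⟨⟨16065,0,28192,0,0,28190⟩,true⟩,
 ⟨⟨0,49471,93728,0,0,28190⟩,true⟩,
 ⟨⟨1,0,1,0,0,1⟩,false⟩,
 ⟨⟨0,0,0,1,1,0⟩,true⟩,
 ⟨⟨21281,0,0,115007,115008,0⟩,true⟩,
 ⟨⟨28192,0,0,65536,65536,0⟩,true⟩,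
 ⟨⟨93728,0,0,65536,65536,0⟩,true⟩,
 ⟨⟨0,1,1,0,0,0⟩,true⟩,
 ⟨⟨0,28190,65536,0,0,0⟩,true⟩],[],[],(.s 2 1 1 (.s 1 1 2 (.s 0 1 1 (.s 2 1 2 (.s 1 1 1 (.s 0 1 2 .e (.s 1 2 1 (.s 0 1 4 (.s 2 1 1 (.s 1 1 2 .e (.s 2 2 1 (.s 1 1 4 .e (.s 2 4 1 (.s 1 1 8 (.s 0 1 1 (.s 2 1 2 .e (.s 0 2 1 (.s 2 1 4 .c .e) .e)) .e) (.s 2 8 1 (.s 1 1 16 (.s 0 1 1 (.s 2 1 2 .e .c) .e) .c) (.s 0 2 1 (.s 2 1 2 (.s 1 1 2 .c .e) (.s 0 4 1 .e .c)) (.s 1 1 1 .e .c)))) (.s 0 2 1 (.s 2 1 2 (.s 1 1 2 .c .e) (.s 0 4 1 .e .c)) (.s 1 1 1 .e .c)))) .c)) (.s 0 2 1 .e (.s 1 1 1 .e .c))) (.s 1 4 1 .e (.s 2 2 1 (.s 1 1 2 .e .c) .e))) .c))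 .e) (.s 0 2 1 .e .c)) (.s 1 2 1 .e (.s 2 1 1 .e .c))) .e) (.s 0 2 1 .e (.s 1 1 1 (.s 0 1 2 (.s 2 1 1 (.s 1 1 2 .e (.s 2 2 1 (.s 1 1 4 .e .c) (.s 0 2 1 .e .c))) .e) (.s 1 2 1 .e (.s 2 2 1 .c .e))) .c))),(.s 2 2 1 .e .c)⟩

noncomputable def s_B4_45 : St :=
  ⟨6,72,[⟨0,1,1,0,0,0⟩,⟨1,0,0,0,0,0⟩,⟨0,0,1,0,0,0⟩,⟨0,0,0,0,1,0⟩,⟨1,0,0,0,1,0⟩,⟨0,0,1,0,1,0⟩,⟨1,0,1,0,1,0⟩,⟨1,0,1,0,2,0⟩,⟨1,0,2,0,2,0⟩,⟨1,0,2,0,3,0⟩,⟨2,0,3,0,4,0⟩,⟨2,0,4,0,5,0⟩,⟨3,0,5,0,7,0⟩,⟨4,0,7,0,9,0⟩,⟨5,0,9,0,12,0⟩],7,71,[1,1,1,1,1,1,1,1,2,2,2,2,2,2,2],[⟨⟨0,121917,131072,0,0,65536⟩,true⟩,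
 ⟨⟨0,2,0,0,1,0⟩,false⟩,
 ⟨⟨0,1,1,0,0,0⟩,true⟩,
 ⟨⟨12128,0,86817,0,0,86816⟩,true⟩,
 ⟨⟨2,0,0,1,0,0⟩,true⟩,
 ⟨⟨143200,0,21281,0,0,86816⟩,true⟩,
 ⟨⟨0,1,1,0,0,0⟩,true⟩,
 ⟨⟨16065,0,28192,0,0,28190⟩,true⟩,
 ⟨⟨0,49471,93728,0,0,28190⟩,true⟩,
 ⟨⟨1,0,1,0,0,1⟩,false⟩,
 ⟨⟨0,0,0,1,1,0⟩,true⟩,
 ⟨⟨21281,0,0,115007,115008,0⟩,true⟩,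
 ⟨⟨28192,0,0,65536,65536,0⟩,true⟩,
 ⟨⟨93728,0,0,65536,65536,0⟩,true⟩,
 ⟨⟨0,1,1,0,0,0⟩,true⟩,
 ⟨⟨0,28190,65536,0,0,0⟩,true⟩],[],[],(.s 2 1 1 (.s 1 1 2 (.s 0 1 1 (.s 2 1 2 (.s 1 1 1 (.s 0 1 2 .e (.s 1 2 1 (.s 0 1 4 (.s 2 1 1 (.s 1 1 2 .e (.s 2 2 1 (.s 1 1 4 .e (.s 2 4 1 (.s 1 1 8 (.s 0 1 1 (.s 2 1 2 .e (.s 0 2 1 (.s 2 1 4 .c .e) .e)) .e) (.s 2 8 1 (.s 1 1 16 (.s 0 1 1 (.s 2 1 2 .e .c) .e) .c) (.s 0 2 1 (.s 2 1 2 (.s 1 1 2 .c .e) (.s 0 4 1 .e .c)) (.s 1 1 1 .e .c)))) (.s 0 2 1 (.s 2 1 2 (.s 1 1 2 (.s 0 1 1 .e (.s 1 2 1 .e .c)) .e) .e) (.s 1 1 1 .e .c)))) .c)) (.s 0 2 1 .e (.s 1 1 1 .e .c)))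 (.s 1 4 1 .e (.s 2 2 1 (.s 1 1 2 .e .c) .e))) .c)) .e) (.s 0 2 1 .e .c)) (.s 1 2 1 .e (.s 2 1 1 .e .c))) .e) (.s 0 2 1 .e (.s 1 1 1 (.s 0 1 2 (.s 2 1 1 (.s 1 1 2 .e (.s 2 2 1 (.s 1 1 4 .e .c) (.s 0 2 1 .e .c))) .e) (.s 1 2 1 .e (.s 2 2 1 .c .e))) .c))),(.s 2 2 1 .e .c)⟩

noncomputable def s_B4_42 : St :=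
  ⟨6,72,[⟨0,1,1,0,0,0⟩,⟨1,0,0,0,0,0⟩,⟨0,0,1,0,0,0⟩,⟨0,0,0,0,1,0⟩,⟨1,0,0,0,1,0⟩,⟨0,0,1,0,1,0⟩,⟨1,0,1,0,1,0⟩,⟨1,0,1,0,2,0⟩,⟨1,0,2,0,2,0⟩,⟨1,0,2,0,3,0⟩,⟨2,0,3,0,4,0⟩,⟨2,0,4,0,5,0⟩,⟨3,0,5,0,7,0⟩,⟨4,0,7,0,9,0⟩,⟨5,0,9,0,12,0⟩],6,71,[1,1,1,1,1,1,1,2,2,2,2,2,2,2],[⟨⟨0,2,0,0,1,0⟩,false⟩,
 ⟨⟨0,1,1,0,0,0⟩,true⟩,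
 ⟨⟨12128,0,86817,0,0,86816⟩,true⟩,
 ⟨⟨2,0,0,1,0,0⟩,true⟩,
 ⟨⟨143200,0,21281,0,0,86816⟩,true⟩,
 ⟨⟨0,1,1,0,0,0⟩,true⟩,
 ⟨⟨16065,0,28192,0,0,28190⟩,true⟩,
 ⟨⟨0,49471,93728,0,0,28190⟩,true⟩,
 ⟨⟨1,0,1,0,0,1⟩,false⟩,
 ⟨⟨0,0,0,1,1,0⟩,true⟩,
 ⟨⟨21281,0,0,115007,115008,0⟩,true⟩,
 ⟨⟨28192,0,0,65536,65536,0⟩,true⟩,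
 ⟨⟨93728,0,0,65536,65536,0⟩,true⟩,
 ⟨⟨0,1,1,0,0,0⟩,true⟩,
 ⟨⟨0,28190,65536,0,0,0⟩,true⟩],[],[],(.s 2 1 1 (.s 1 1 2 (.s 0 1 1 (.s 2 1 2 (.s 1 1 1 (.s 0 1 2 .e (.s 1 2 1 (.s 0 1 4 (.s 2 1 1 (.s 1 1 2 .e (.s 2 2 1 (.s 1 1 4 .e (.s 2 4 1 (.s 1 1 8 (.s 0 1 1 (.s 2 1 2 .e .c) .e) .c) (.s 0 2 1 (.s 2 1 2 (.s 1 1 2 .c .e) (.s 0 4 1 .e .c)) (.s 1 1 1 .e .c)))) .c)) (.s 0 2 1 .e (.s 1 1 1 .e .c))) (.s 1 4 1 .e (.s 2 2 1 (.s 1 1 2 .e .c) .e))) .c)) .e) (.s 0 2 1 .e .c)) (.s 1 2 1 .e (.s 2 1 1 .e .c))) .e) (.s 0 2 1 .e (.s 1 1 1 (.s 0 1 2 (.s 2 1 1 (.s 1 1 2 .e (.s 2 2 1 (.s 1 1 4 .e .c) (.s 0 2 1 .e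 .c))) .e) (.s 1 2 1 .e (.s 2 2 1 .c .e))) .c))),(.s 2 2 1 .e .c)⟩

noncomputable def s_B4_34 : St :=
  ⟨6,72,[⟨0,1,1,0,0,0⟩,⟨1,0,0,0,0,0⟩,⟨0,0,1,0,0,0⟩,⟨0,0,0,0,1,0⟩,⟨1,0,0,0,1,0⟩,⟨0,0,1,0,1,0⟩,⟨1,0,1,0,1,0⟩,⟨1,0,1,0,2,0⟩,⟨1,0,2,0,2,0⟩,⟨1,0,2,0,3,0⟩,⟨2,0,3,0,4,0⟩,⟨2,0,4,0,5,0⟩,⟨3,0,5,0,7,0⟩,⟨4,0,7,0,9,0⟩,⟨5,0,9,0,12,0⟩],6,71,[1,1,1,1,1,1,1,2,2,2,2,2,2,2],[⟨⟨143200,0,21281,0,0,86816⟩,true⟩,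
 ⟨⟨0,1,1,0,0,0⟩,true⟩,
 ⟨⟨16065,0,28192,0,0,28190⟩,true⟩,
 ⟨⟨0,49471,93728,0,0,28190⟩,true⟩,
 ⟨⟨1,0,1,0,0,1⟩,false⟩,
 ⟨⟨0,0,0,1,1,0⟩,true⟩,
 ⟨⟨21281,0,0,115007,115008,0⟩,true⟩,
 ⟨⟨28192,0,0,65536,65536,0⟩,true⟩,
 ⟨⟨93728,0,0,65536,65536,0⟩,true⟩,
 ⟨⟨0,1,1,0,0,0⟩,true⟩,
 ⟨⟨0,28190,65536,0,0,0⟩,true⟩],[],[],(.s 2 1 1 (.s 1 1 2 (.s 0 1 1 (.s 2 1 2 (.s 1 1 1 (.s 0 1 2 .e (.s 1 2 1 (.s 0 1 4 (.s 2 1 1 (.s 1 1 2 .e .c) (.s 0 2 1 .e (.s 1 1 1 .e .c))) (.s 1 4 1 .e (.s 2 2 1 (.s 1 1 2 .e .c) .e))) .c)) .e) (.s 0 2 1 .e .c)) (.s 1 2 1 .e (.s 2 1 1 .e .c))) .e) (.s 0 2 1 .e (.s 1 1 1 (.s 0 1 2 (.s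 2 1 1 (.s 1 1 2 .e (.s 2 2 1 (.s 1 1 4 .e .c) (.s 0 2 1 .e .c))) .e) (.s 1 2 1 .e (.s 2 2 1 .c .e))) .c))),(.s 2 2 1 .e .c)⟩

noncomputable def s_B4_30 : St :=
  ⟨6,72,[⟨1,0,1,0,0,1⟩,⟨1,0,0,0,0,0⟩,⟨0,0,1,0,0,0⟩,⟨0,0,0,0,1,0⟩,⟨1,0,0,0,1,0⟩,⟨0,0,1,0,1,0⟩,⟨1,0,1,0,1,0⟩,⟨1,0,1,0,2,0⟩,⟨1,0,2,0,2,0⟩,⟨1,0,2,0,3,0⟩,⟨2,0,3,0,4,0⟩,⟨2,0,4,0,5,0⟩,⟨3,0,5,0,7,0⟩,⟨4,0,7,0,9,0⟩,⟨5,0,9,0,12,0⟩],6,71,[1,1,1,1,1,1,1,2,2,2,2,2,2,2],[⟨⟨143200,0,21281,0,0,86816⟩,true⟩,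
 ⟨⟨0,1,1,0,0,0⟩,true⟩,
 ⟨⟨16065,0,28192,0,0,28190⟩,true⟩,
 ⟨⟨0,49471,93728,0,0,28190⟩,true⟩,
 ⟨⟨1,0,1,0,0,1⟩,false⟩,
 ⟨⟨0,0,0,1,1,0⟩,true⟩,
 ⟨⟨21281,0,0,115007,115008,0⟩,true⟩,
 ⟨⟨28192,0,0,65536,65536,0⟩,true⟩,
 ⟨⟨93728,0,0,65536,65536,0⟩,true⟩,
 ⟨⟨0,1,1,0,0,0⟩,true⟩,
 ⟨⟨0,28190,65536,0,0,0⟩,true⟩],[],[],(.s 2 1 1 (.s 1 1 2 (.s 0 1 1 (.s 2 1 2 (.s 1 1 1 (.s 0 1 2 .e (.s 1 2 1 (.s 0 1 4 (.s 2 1 1 (.s 1 1 2 .e .c) (.s 0 2 1 .e (.s 1 1 1 .e .c))) (.s 1 4 1 .e (.s 2 2 1 (.s 1 1 2 .e .c) .e))) .c)) .e) (.s 0 2 1 .e .c)) (.s 1 2 1 .e (.s 2 1 1 .e .c))) .e) (.s 0 2 1 .e (.s 1 1 1 (.s 0 1 2 (.s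 2 1 1 (.s 1 1 2 .e (.s 2 2 1 (.s 1 1 4 .e .c) (.s 0 2 1 .e .c))) .e) (.s 1 2 1 .e (.s 2 2 1 .c .e))) .c))),(.s 2 2 1 .e .c)⟩

noncomputable def s_B4_29 : St :=
  ⟨5,72,[⟨1,0,0,0,0,0⟩,⟨0,0,1,0,0,0⟩,⟨0,0,0,0,1,0⟩,⟨1,0,0,0,1,0⟩,⟨0,0,1,0,1,0⟩,⟨1,0,1,0,1,0⟩,⟨1,0,1,0,2,0⟩,⟨1,0,2,0,2,0⟩,⟨1,0,2,0,3,0⟩,⟨2,0,3,0,4,0⟩,⟨2,0,4,0,5,0⟩,⟨3,0,5,0,7,0⟩,⟨4,0,7,0,9,0⟩,⟨5,0,9,0,12,0⟩],6,71,[1,1,1,1,1,1,1,2,2,2,2,2,2,2],[⟨⟨0,1,1,0,0,0⟩,true⟩,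
 ⟨⟨16065,0,28192,0,0,28190⟩,true⟩,
 ⟨⟨0,49471,93728,0,0,28190⟩,true⟩,
 ⟨⟨1,0,1,0,0,1⟩,false⟩,
 ⟨⟨0,0,0,1,1,0⟩,true⟩,
 ⟨⟨21281,0,0,115007,115008,0⟩,true⟩,
 ⟨⟨28192,0,0,65536,65536,0⟩,true⟩,
 ⟨⟨93728,0,0,65536,65536,0⟩,true⟩,
 ⟨⟨0,1,1,0,0,0⟩,true⟩,
 ⟨⟨0,28190,65536,0,0,0⟩,true⟩],[],[],(.s 2 1 1 (.s 1 1 2 (.s 0 1 1 (.s 2 1 2 (.s 1 1 1 (.s 0 1 2 .e (.s 1 2 1 (.s 0 1 4 (.s 2 1 1 (.s 1 1 2 .e .c) (.s 0 2 1 .e (.s 1 1 1 .e .c))) (.s 1 4 1 .e (.s 2 2 1 (.s 1 1 2 .e .c) .e))) .c)) .e) (.s 0 2 1 .e .c)) (.s 1 2 1 .e (.s 2 1 1 .e .c))) .e) (.s 0 2 1 .e (.s 1 1 1 (.s 0 1 2 (.s 2 1 1 (.s 1 1 2 .e (.s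 2 2 1 (.s 1 1 4 .e .c) (.s 0 2 1 .e .c))) .e) (.s 1 2 1 .e (.s 2 2 1 .c .e))) .c))),(.s 2 2 1 .e .c)⟩

noncomputable def s_B4_27 : St :=
  ⟨4,72,[⟨0,0,1,0,0,0⟩,⟨0,0,0,0,1,0⟩,⟨1,0,0,0,1,0⟩,⟨0,0,1,0,1,0⟩,⟨1,0,1,0,1,0⟩,⟨1,0,1,0,2,0⟩,⟨1,0,2,0,2,0⟩,⟨1,0,2,0,3,0⟩,⟨2,0,3,0,4,0⟩,⟨2,0,4,0,5,0⟩,⟨3,0,5,0,7,0⟩,⟨4,0,7,0,9,0⟩,⟨5,0,9,0,12,0⟩],5,71,[1,1,1,1,1,1,2,2,2,2,2,2,2],[⟨⟨1,0,1,0,0,1⟩,false⟩,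
 ⟨⟨0,0,0,1,1,0⟩,true⟩,
 ⟨⟨21281,0,0,115007,115008,0⟩,true⟩,
 ⟨⟨28192,0,0,65536,65536,0⟩,true⟩,
 ⟨⟨93728,0,0,65536,65536,0⟩,true⟩,
 ⟨⟨0,1,1,0,0,0⟩,true⟩,
 ⟨⟨0,28190,65536,0,0,0⟩,true⟩],[],[],(.s 2 1 1 (.s 1 1 2 (.s 0 1 1 (.s 2 1 2 (.s 1 1 1 (.s 0 1 2 .e (.s 1 2 1 (.s 0 1 4 (.s 2 1 1 (.s 1 1 2 .e .c) (.s 0 2 1 .e (.s 1 1 1 .e .c))) (.s 1 4 1 .e (.s 2 2 1 (.s 1 1 2 .e .c) .e))) .c)) .e) (.s 0 2 1 .e .c)) (.s 1 2 1 .e (.s 2 1 1 .e .c))) .e) (.s 0 2 1 .e (.s 1 1 1 (.s 0 1 2 (.s 2 1 1 (.s 1 1 2 .e (.s 2 2 1 (.s 1 1 4 .e .c) (.s 0 2 1 .e .c))) .e) (.s 1 2 1 .e (.s 2 2 1 .c .e))) .c))),(.s 2 2 1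 .e .c)⟩

noncomputable def s_B4_22 : St :=
  ⟨4,72,[⟨0,0,1,0,0,0⟩,⟨0,0,0,0,1,0⟩,⟨1,0,0,0,1,0⟩,⟨0,0,1,0,1,0⟩,⟨1,0,1,0,1,0⟩,⟨1,0,1,0,2,0⟩,⟨1,0,2,0,2,0⟩,⟨1,0,2,0,3,0⟩,⟨2,0,3,0,4,0⟩,⟨2,0,4,0,5,0⟩,⟨3,0,5,0,7,0⟩,⟨4,0,7,0,9,0⟩,⟨5,0,9,0,12,0⟩],4,71,[1,1,1,1,1,2,2,2,2,2,2,2],[⟨⟨21281,0,0,115007,115008,0⟩,true⟩,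
 ⟨⟨28192,0,0,65536,65536,0⟩,true⟩,
 ⟨⟨93728,0,0,65536,65536,0⟩,true⟩,
 ⟨⟨0,1,1,0,0,0⟩,true⟩,
 ⟨⟨0,28190,65536,0,0,0⟩,true⟩],[],[],(.s 2 1 1 (.s 1 1 2 (.s 0 1 1 (.s 2 1 2 (.s 1 1 1 (.s 0 1 2 .e (.s 1 2 1 (.s 0 1 4 (.s 2 1 1 (.s 1 1 2 .e .c) (.s 0 2 1 .e (.s 1 1 1 .e .c))) (.s 1 4 1 .e (.s 2 2 1 (.s 1 1 2 .e .c) .e))) .c)) .e) (.s 0 2 1 .e .c)) (.s 1 2 1 .e (.s 2 1 1 .e .c))) .e) (.s 0 2 1 .e (.s 1 1 1 (.s 0 1 2 (.s 2 1 1 (.s 1 1 2 .e (.s 2 2 1 (.s 1 1 4 .e .c) (.s 0 2 1 .e .c))) .e) (.s 1 2 1 .e (.s 2 2 1 .c .e))) .c))),(.s 2 2 1 .e .c)⟩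

noncomputable def s_B4_21 : St :=
  ⟨4,72,[⟨1,0,0,0,0,0⟩,⟨0,0,0,0,1,0⟩,⟨1,0,0,0,1,0⟩,⟨0,0,1,0,1,0⟩,⟨1,0,1,0,1,0⟩,⟨1,0,1,0,2,0⟩,⟨1,0,2,0,2,0⟩,⟨1,0,2,0,3,0⟩,⟨2,0,3,0,4,0⟩,⟨2,0,4,0,5,0⟩,⟨3,0,5,0,7,0⟩,⟨4,0,7,0,9,0⟩,⟨5,0,9,0,12,0⟩],5,71,[2,1,1,1,1,1,2,2,2,2,2,2,2],[⟨⟨86817,0,0,115007,49472,0⟩,true⟩,
 ⟨⟨0,1,0,0,1,0⟩,true⟩,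
 ⟨⟨21281,0,0,115007,115008,0⟩,true⟩,
 ⟨⟨28192,0,0,65536,65536,0⟩,true⟩,
 ⟨⟨93728,0,0,65536,65536,0⟩,true⟩,
 ⟨⟨0,1,1,0,0,0⟩,true⟩,
 ⟨⟨0,28190,65536,0,0,0⟩,true⟩],[],[],(.s 2 1 1 (.s 1 1 2 (.s 0 1 1 (.s 2 1 2 (.s 1 1 1 (.s 0 1 2 .e (.s 1 2 1 (.s 0 1 4 (.s 2 1 1 (.s 1 1 2 .e .c) (.s 0 2 1 .e (.s 1 1 1 .e .c))) (.s 1 4 1 .e (.s 2 2 1 (.s 1 1 2 .e .c) .e))) .c)) .e) (.s 0 2 1 .e .c)) (.s 1 2 1 .e (.s 2 1 1 .e .c))) .e) (.s 0 2 1 .e (.s 1 1 1 (.s 0 1 2 (.s 2 1 1 (.s 1 1 2 .e (.s 2 2 1 (.s 1 1 4 .e .c) (.s 0 2 1 .e .c))) .e) (.s 1 2 1 .e (.s 2 2 1 .c .e))) .c))),(.s 2 2 1 .e .c)⟩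

noncomputable def s_B4_19 : St :=
  ⟨4,72,[⟨1,0,0,0,0,0⟩,⟨0,0,0,0,1,0⟩,⟨1,0,0,0,1,0⟩,⟨0,0,1,0,1,0⟩,⟨1,0,1,0,1,0⟩,⟨1,0,1,0,2,0⟩,⟨1,0,2,0,2,0⟩,⟨1,0,2,0,3,0⟩,⟨2,0,3,0,4,0⟩,⟨2,0,4,0,5,0⟩,⟨3,0,5,0,7,0⟩,⟨4,0,7,0,9,0⟩,⟨5,0,9,0,12,0⟩],4,71,[1,1,1,1,1,2,2,2,2,2,2,2],[⟨⟨21281,0,0,115007,115008,0⟩,true⟩,
 ⟨⟨28192,0,0,65536,65536,0⟩,true⟩,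
 ⟨⟨93728,0,0,65536,65536,0⟩,true⟩,
 ⟨⟨0,1,1,0,0,0⟩,true⟩,
 ⟨⟨0,28190,65536,0,0,0⟩,true⟩],[],[],(.s 2 1 1 (.s 1 1 2 (.s 0 1 1 (.s 2 1 2 (.s 1 1 1 (.s 0 1 2 .e (.s 1 2 1 (.s 0 1 4 (.s 2 1 1 (.s 1 1 2 .e .c) (.s 0 2 1 .e (.s 1 1 1 .e .c))) (.s 1 4 1 .e (.s 2 2 1 (.s 1 1 2 .e .c) .e))) .c)) .e) (.s 0 2 1 .e .c)) (.s 1 2 1 .e (.s 2 1 1 .e .c))) .e) (.s 0 2 1 .e (.s 1 1 1 (.s 0 1 2 (.s 2 1 1 (.s 1 1 2 .e (.s 2 2 1 (.s 1 1 4 .e .c) (.s 0 2 1 .e .c))) .e) (.s 1 2 1 .e (.s 2 2 1 .c .e))) .c))),(.s 2 2 1 .e .c)⟩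

noncomputable def s_B4_18 : St :=
  ⟨3,72,[⟨0,0,0,0,1,0⟩,⟨1,0,0,0,1,0⟩,⟨0,0,1,0,1,0⟩,⟨1,0,1,0,1,0⟩,⟨1,0,1,0,2,0⟩,⟨1,0,2,0,2,0⟩,⟨1,0,2,0,3,0⟩,⟨2,0,3,0,4,0⟩,⟨2,0,4,0,5,0⟩,⟨3,0,5,0,7,0⟩,⟨4,0,7,0,9,0⟩,⟨5,0,9,0,12,0⟩],4,71,[1,1,1,1,1,2,2,2,2,2,2,2],[⟨⟨28192,0,0,65536,65536,0⟩,true⟩,
 ⟨⟨93728,0,0,65536,65536,0⟩,true⟩,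
 ⟨⟨0,1,1,0,0,0⟩,true⟩,
 ⟨⟨0,28190,65536,0,0,0⟩,true⟩],[],[],(.s 2 1 1 (.s 1 1 2 (.s 0 1 1 (.s 2 1 2 (.s 1 1 1 (.s 0 1 2 .e (.s 1 2 1 (.s 0 1 4 (.s 2 1 1 (.s 1 1 2 .e .c) (.s 0 2 1 .e (.s 1 1 1 .e .c))) (.s 1 4 1 .e (.s 2 2 1 (.s 1 1 2 .e .c) .e))) .c)) .e) (.s 0 2 1 .e .c)) (.s 1 2 1 .e (.s 2 1 1 .e .c))) .e) (.s 0 2 1 .e (.s 1 1 1 (.s 0 1 2 (.s 2 1 1 (.s 1 1 2 .e (.s 2 2 1 (.s 1 1 4 .e .c) (.s 0 2 1 .e .c))) .e) (.s 1 2 1 .e (.s 2 2 1 .c .e))) .c))),(.s 2 2 1 .e .c)⟩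

noncomputable def s_B4_15 : St :=
  ⟨3,72,[⟨0,0,0,0,1,0⟩,⟨1,0,0,0,1,0⟩,⟨0,0,1,0,1,0⟩,⟨1,0,1,0,1,0⟩,⟨1,0,1,0,2,0⟩,⟨1,0,2,0,2,0⟩,⟨1,0,2,0,3,0⟩,⟨2,0,3,0,4,0⟩,⟨2,0,4,0,5,0⟩,⟨3,0,5,0,7,0⟩,⟨4,0,7,0,9,0⟩,⟨5,0,9,0,12,0⟩],3,70,[1,1,1,1,2,2,2,2,2,2],[⟨⟨28192,0,0,65536,65536,0⟩,true⟩,
 ⟨⟨93728,0,0,65536,65536,0⟩,true⟩,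
 ⟨⟨0,1,1,0,0,0⟩,true⟩,
 ⟨⟨0,28190,65536,0,0,0⟩,true⟩],[],[],(.s 2 1 1 (.s 1 1 2 (.s 0 1 1 (.s 2 1 2 (.s 1 1 1 (.s 0 1 2 .e (.s 1 2 1 (.s 0 1 4 (.s 2 1 1 (.s 1 1 2 (.s 0 1 1 (.s 2 1 2 .e (.s 0 2 1 (.s 2 1 4 (.s 1 1 1 .e .c) .e) .e)) .e) .c) (.s 0 2 1 .e (.s 1 1 1 .e .c))) (.s 1 4 1 .e (.s 2 2 1 (.s 1 1 2 .e .c) .e))) .c)) .e) (.s 0 2 1 .e .c)) (.s 1 2 1 .e (.s 2 1 1 .e .c))) .e) (.s 0 2 1 .e (.s 1 1 1 (.s 0 1 2 (.s 2 1 1 (.s 1 1 2 .e (.s 2 2 1 (.s 1 1 4 .e .c) (.s 0 2 1 .e .c))) .e) (.s 1 2 1 .e (.s 2 2 1 .c .e))) .c))),(.s 2 2 1 .e .c)⟩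

noncomputable def s_B4_9 : St :=
  ⟨3,70,[⟨0,0,0,0,1,0⟩,⟨1,0,0,0,1,0⟩,⟨0,0,1,0,1,0⟩,⟨1,0,1,0,1,0⟩,⟨1,0,1,0,2,0⟩,⟨1,0,2,0,2,0⟩,⟨1,0,2,0,3,0⟩,⟨2,0,3,0,4,0⟩,⟨2,0,4,0,5,0⟩,⟨3,0,5,0,7,0⟩],3,68,[1,1,1,1,2,2,2,2],[⟨⟨28192,0,0,65536,65536,0⟩,true⟩,
 ⟨⟨93728,0,0,65536,65536,0⟩,true⟩,
 ⟨⟨0,1,1,0,0,0⟩,true⟩,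
 ⟨⟨0,28190,65536,0,0,0⟩,true⟩],[],[],(.s 2 1 1 (.s 1 1 2 (.s 0 1 1 (.s 2 1 2 (.s 1 1 1 .c .e) (.s 0 2 1 .e .c)) (.s 1 2 1 .e (.s 2 1 1 .e .c))) .e) (.s 0 2 1 .e (.s 1 1 1 (.s 0 1 2 (.s 2 1 1 (.s 1 1 2 .e (.s 2 2 1 (.s 1 1 4 .e .c) (.s 0 2 1 .e .c))) .e) (.s 1 2 1 .e (.s 2 2 1 .c .e))) .c))),(.s 2 2 1 .e .c)⟩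

noncomputable def s_stop4 : St :=
  ⟨3,67,[⟨0,0,0,0,1,0⟩,⟨1,0,0,0,1,0⟩,⟨0,0,1,0,1,0⟩,⟨1,0,1,0,1,0⟩,⟨1,0,1,0,2,0⟩,⟨1,0,2,0,2,0⟩,⟨1,0,2,0,3,0⟩],3,65,[1,1,1,1,2],[⟨⟨28192,0,0,65536,65536,0⟩,true⟩,
 ⟨⟨93728,0,0,65536,65536,0⟩,true⟩,
 ⟨⟨0,1,1,0,0,0⟩,true⟩,
 ⟨⟨0,28190,65536,0,0,0⟩,true⟩],[],[],(.s 2 1 1 (.s 1 1 2 .c .e) (.s 0 2 1 .e .c)),(.s 2 2 1 .e .c)⟩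

noncomputable def s_B5_79 : St :=
  ⟨5,72,[⟨0,1,1,0,0,0⟩,⟨0,0,0,0,1,0⟩,⟨0,0,1,0,0,0⟩,⟨1,0,0,0,1,0⟩,⟨0,0,1,0,1,0⟩,⟨1,0,1,0,1,0⟩,⟨1,0,1,0,2,0⟩,⟨1,0,2,0,2,0⟩,⟨1,0,2,0,3,0⟩,⟨2,0,3,0,4,0⟩,⟨2,0,4,0,5,0⟩,⟨3,0,5,0,7,0⟩,⟨4,0,7,0,9,0⟩,⟨5,0,9,0,12,0⟩],6,71,[2,1,1,1,1,1,1,2,2,2,2,2,2,2],[⟨⟨0,1,0,0,1,0⟩,false⟩,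
 ⟨⟨0,115007,65536,0,0,0⟩,true⟩,
 ⟨⟨1,0,0,1,1,0⟩,true⟩,
 ⟨⟨0,49471,0,0,65536,0⟩,true⟩,
 ⟨⟨0,0,1,0,0,1⟩,true⟩,
 ⟨⟨21281,0,65536,0,0,65536⟩,true⟩,
 ⟨⟨1,0,0,1,1,0⟩,true⟩,
 ⟨⟨93728,0,0,65536,65536,0⟩,true⟩,
 ⟨⟨0,1,1,0,0,0⟩,true⟩,
 ⟨⟨0,28190,65536,0,0,0⟩,true⟩],[],[],(.s 2 1 1 (.s 1 1 2 (.s 0 1 1 (.s 2 1 2 (.s 1 1 1 (.s 0 1 2 .e (.s 1 2 1 (.s 0 1 4 (.s 2 1 1 (.s 1 1 2 .e (.s 2 2 1 (.s 1 1 4 .e (.s 2 4 1 (.s 1 1 8 (.s 0 1 1 (.s 2 1 2 .e (.s 0 2 1 (.s 2 1 4 .c .e) .e)) .e) (.s 2 8 1 (.s 1 1 16 (.s 0 1 1 (.s 2 1 2 .e .c) .e) .c) (.s 0 2 1 (.s 2 1 2 (.s 1 1 2 .c .e) (.s 0 4 1 .e .c)) (.s 1 1 1 .e .c))))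 (.s 0 2 1 (.s 2 1 2 (.s 1 1 2 .c .e) (.s 0 4 1 .e .c)) (.s 1 1 1 .e .c)))) .c)) (.s 0 2 1 .e (.s 1 1 1 .e (.s 2 2 1 .c .e)))) (.s 1 4 1 .e (.s 2 2 1 (.s 1 1 2 .e (.s 2 4 1 .c .e)) .e))) .c)) .e) (.s 0 2 1 .e .c)) (.s 1 2 1 .e (.s 2 1 1 .e (.s 0 2 1 .c .e)))) .e) (.s 0 2 1 .e .c)),(.s 2 2 1 .e .c)⟩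

noncomputable def s_B5_75 : St :=
  ⟨5,72,[⟨0,1,1,0,0,0⟩,⟨0,0,0,0,1,0⟩,⟨0,0,1,0,0,0⟩,⟨1,0,0,0,1,0⟩,⟨0,0,1,0,1,0⟩,⟨1,0,1,0,1,0⟩,⟨1,0,1,0,2,0⟩,⟨1,0,2,0,2,0⟩,⟨1,0,2,0,3,0⟩,⟨2,0,3,0,4,0⟩,⟨2,0,4,0,5,0⟩,⟨3,0,5,0,7,0⟩,⟨4,0,7,0,9,0⟩,⟨5,0,9,0,12,0⟩],5,71,[1,1,1,1,1,1,2,2,2,2,2,2,2],[⟨⟨0,1,0,0,1,0⟩,false⟩,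
 ⟨⟨0,115007,65536,0,0,0⟩,true⟩,
 ⟨⟨1,0,0,1,1,0⟩,true⟩,
 ⟨⟨0,49471,0,0,65536,0⟩,true⟩,
 ⟨⟨0,0,1,0,0,1⟩,true⟩,
 ⟨⟨21281,0,65536,0,0,65536⟩,true⟩,
 ⟨⟨1,0,0,1,1,0⟩,true⟩,
 ⟨⟨93728,0,0,65536,65536,0⟩,true⟩,
 ⟨⟨0,1,1,0,0,0⟩,true⟩,
 ⟨⟨0,28190,65536,0,0,0⟩,true⟩],[],[],(.s 2 1 1 (.s 1 1 2 (.s 0 1 1 (.s 2 1 2 (.s 1 1 1 (.s 0 1 2 .e (.s 1 2 1 (.s 0 1 4 (.s 2 1 1 (.s 1 1 2 .e (.s 2 2 1 (.s 1 1 4 .e (.s 2 4 1 (.s 1 1 8 (.s 0 1 1 (.s 2 1 2 .e .c) .e) .c) (.s 0 2 1 (.s 2 1 2 (.s 1 1 2 .c .e) (.s 0 4 1 .e .c)) (.s 1 1 1 .e .c)))) .c)) (.s 0 2 1 .e (.s 1 1 1 .e (.s 2 2 1 .c .e)))) (.s 1 4 1 .e (.s 2 2 1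 (.s 1 1 2 .e (.s 2 4 1 .c .e)) .e))) .c)) .e) (.s 0 2 1 .e .c)) (.s 1 2 1 .e (.s 2 1 1 .e (.s 0 2 1 .c .e)))) .e) (.s 0 2 1 .e .c)),(.s 2 2 1 .e .c)⟩

noncomputable def s_B5_86 : St :=
  ⟨5,72,[⟨0,1,1,0,0,0⟩,⟨0,0,0,0,1,0⟩,⟨0,0,1,0,0,0⟩,⟨1,0,0,0,1,0⟩,⟨0,0,1,0,1,0⟩,⟨1,0,1,0,1,0⟩,⟨1,0,1,0,2,0⟩,⟨1,0,2,0,2,0⟩,⟨1,0,2,0,3,0⟩,⟨2,0,3,0,4,0⟩,⟨2,0,4,0,5,0⟩,⟨3,0,5,0,7,0⟩,⟨4,0,7,0,9,0⟩,⟨5,0,9,0,12,0⟩],6,71,[2,1,1,1,1,1,1,2,2,2,2,2,2,2],[⟨⟨0,0,0,1,2,0⟩,false⟩,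
 ⟨⟨1,0,0,0,0,1⟩,false⟩,
 ⟨⟨0,115007,65536,0,0,0⟩,true⟩,
 ⟨⟨1,0,0,1,1,0⟩,true⟩,
 ⟨⟨0,49471,0,0,65536,0⟩,true⟩,
 ⟨⟨0,0,1,0,0,1⟩,true⟩,
 ⟨⟨21281,0,65536,0,0,65536⟩,true⟩,
 ⟨⟨1,0,0,1,1,0⟩,true⟩,
 ⟨⟨93728,0,0,65536,65536,0⟩,true⟩,
 ⟨⟨0,1,1,0,0,0⟩,true⟩,
 ⟨⟨0,28190,65536,0,0,0⟩,true⟩],[],[],(.s 2 1 1 (.s 1 1 2 (.s 0 1 1 (.s 2 1 2 (.s 1 1 1 (.s 0 1 2 .e (.s 1 2 1 (.s 0 1 4 (.s 2 1 1 (.s 1 1 2 .e (.s 2 2 1 (.s 1 1 4 .e (.s 2 4 1 (.s 1 1 8 (.s 0 1 1 (.s 2 1 2 .e (.s 0 2 1 (.s 2 1 4 .c .e) .e)) .e) (.s 2 8 1 (.s 1 1 16 (.s 0 1 1 (.s 2 1 2 .e .c) .e) .c) (.s 0 2 1 (.s 2 1 2 (.s 1 1 2 .c .e) (.s 0 4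 1 .e .c)) (.s 1 1 1 .e .c)))) (.s 0 2 1 (.s 2 1 2 (.s 1 1 2 (.s 0 1 1 .e (.s 1 2 1 .e .c)) .e) .e) (.s 1 1 1 .e .c)))) .c)) (.s 0 2 1 .e (.s 1 1 1 .e (.s 2 2 1 .c .e)))) (.s 1 4 1 .e (.s 2 2 1 (.s 1 1 2 .e (.s 2 4 1 .c .e)) .e))) .c)) .e) (.s 0 2 1 .e .c)) (.s 1 2 1 .e (.s 2 1 1 .e (.s 0 2 1 .c .e)))) .e) (.s 0 2 1 .e .c)),(.s 2 2 1 .e .c)⟩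

noncomputable def s_B5_90 : St :=
  ⟨5,72,[⟨0,1,1,0,0,0⟩,⟨0,0,0,0,1,0⟩,⟨0,0,1,0,0,0⟩,⟨1,0,0,0,1,0⟩,⟨0,0,1,0,1,0⟩,⟨1,0,1,0,1,0⟩,⟨1,0,1,0,2,0⟩,⟨1,0,2,0,2,0⟩,⟨1,0,2,0,3,0⟩,⟨2,0,3,0,4,0⟩,⟨2,0,4,0,5,0⟩,⟨3,0,5,0,7,0⟩,⟨4,0,7,0,9,0⟩,⟨5,0,9,0,12,0⟩],6,71,[2,1,1,1,1,1,1,2,2,2,2,2,2,2],[⟨⟨0,0,1,0,0,2⟩,false⟩,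
 ⟨⟨1,0,0,0,0,1⟩,false⟩,
 ⟨⟨0,115007,65536,0,0,0⟩,true⟩,
 ⟨⟨1,0,0,1,1,0⟩,true⟩,
 ⟨⟨0,49471,0,0,65536,0⟩,true⟩,
 ⟨⟨0,0,1,0,0,1⟩,true⟩,
 ⟨⟨21281,0,65536,0,0,65536⟩,true⟩,
 ⟨⟨1,0,0,1,1,0⟩,true⟩,
 ⟨⟨93728,0,0,65536,65536,0⟩,true⟩,
 ⟨⟨0,1,1,0,0,0⟩,true⟩,
 ⟨⟨0,28190,65536,0,0,0⟩,true⟩],[],[],(.s 2 1 1 (.s 1 1 2 (.s 0 1 1 (.s 2 1 2 (.s 1 1 1 (.s 0 1 2 .e (.s 1 2 1 (.s 0 1 4 (.s 2 1 1 (.s 1 1 2 .e (.s 2 2 1 (.s 1 1 4 .e (.s 2 4 1 (.s 1 1 8 (.s 0 1 1 (.s 2 1 2 .e (.s 0 2 1 (.s 2 1 4 .c .e) .e)) .e) (.s 2 8 1 (.s 1 1 16 (.s 0 1 1 (.s 2 1 2 .e .c) .e) .c) (.s 0 2 1 (.s 2 1 2 (.s 1 1 2 .c .e) (.s 0 4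 1 .e .c)) (.s 1 1 1 .e .c)))) (.s 0 2 1 (.s 2 1 2 (.s 1 1 2 (.s 0 1 1 .e (.s 1 2 1 .e .c)) .e) .e) (.s 1 1 1 .e .c)))) .c)) (.s 0 2 1 .e (.s 1 1 1 .e (.s 2 2 1 .c .e)))) (.s 1 4 1 .e (.s 2 2 1 (.s 1 1 2 .e (.s 2 4 1 .c .e)) .e))) .c)) .e) (.s 0 2 1 .e .c)) (.s 1 2 1 .e (.s 2 1 1 .e (.s 0 2 1 .c .e)))) .e) (.s 0 2 1 .e .c)),(.s 2 2 1 .e .c)⟩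

noncomputable def s_B5_87 : St :=
  ⟨5,72,[⟨0,1,1,0,0,0⟩,⟨0,0,0,0,1,0⟩,⟨0,0,1,0,0,0⟩,⟨1,0,0,0,1,0⟩,⟨0,0,1,0,1,0⟩,⟨1,0,1,0,1,0⟩,⟨1,0,1,0,2,0⟩,⟨1,0,2,0,2,0⟩,⟨1,0,2,0,3,0⟩,⟨2,0,3,0,4,0⟩,⟨2,0,4,0,5,0⟩,⟨3,0,5,0,7,0⟩,⟨4,0,7,0,9,0⟩,⟨5,0,9,0,12,0⟩],5,71,[1,1,1,1,1,1,2,2,2,2,2,2,2],[⟨⟨0,0,1,0,0,2⟩,false⟩,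
 ⟨⟨1,0,0,0,0,1⟩,false⟩,
 ⟨⟨0,115007,65536,0,0,0⟩,true⟩,
 ⟨⟨1,0,0,1,1,0⟩,true⟩,
 ⟨⟨0,49471,0,0,65536,0⟩,true⟩,
 ⟨⟨0,0,1,0,0,1⟩,true⟩,
 ⟨⟨21281,0,65536,0,0,65536⟩,true⟩,
 ⟨⟨1,0,0,1,1,0⟩,true⟩,
 ⟨⟨93728,0,0,65536,65536,0⟩,true⟩,
 ⟨⟨0,1,1,0,0,0⟩,true⟩,
 ⟨⟨0,28190,65536,0,0,0⟩,true⟩],[],[],(.s 2 1 1 (.s 1 1 2 (.s 0 1 1 (.s 2 1 2 (.s 1 1 1 (.s 0 1 2 .e (.s 1 2 1 (.s 0 1 4 (.s 2 1 1 (.s 1 1 2 .e (.s 2 2 1 (.s 1 1 4 .e (.s 2 4 1 (.s 1 1 8 (.s 0 1 1 (.s 2 1 2 .e (.s 0 2 1 (.s 2 1 4 .c .e) .e)) .e) (.s 2 8 1 (.s 1 1 16 (.s 0 1 1 (.s 2 1 2 .e .c) .e) .c) (.s 0 2 1 (.s 2 1 2 (.s 1 1 2 .c .e) (.s 0 4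 1 .e .c)) (.s 1 1 1 .e .c)))) (.s 0 2 1 (.s 2 1 2 (.s 1 1 2 .c .e) (.s 0 4 1 .e .c)) (.s 1 1 1 .e .c)))) .c)) (.s 0 2 1 .e (.s 1 1 1 .e (.s 2 2 1 .c .e)))) (.s 1 4 1 .e (.s 2 2 1 (.s 1 1 2 .e (.s 2 4 1 .c .e)) .e))) .c)) .e) (.s 0 2 1 .e .c)) (.s 1 2 1 .e (.s 2 1 1 .e (.s 0 2 1 .c .e)))) .e) (.s 0 2 1 .e .c)),(.s 2 2 1 .e .c)⟩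

noncomputable def s_B5_73 : St :=
  ⟨5,72,[⟨0,1,1,0,0,0⟩,⟨0,0,0,0,1,0⟩,⟨0,0,1,0,0,0⟩,⟨1,0,0,0,1,0⟩,⟨0,0,1,0,1,0⟩,⟨1,0,1,0,1,0⟩,⟨1,0,1,0,2,0⟩,⟨1,0,2,0,2,0⟩,⟨1,0,2,0,3,0⟩,⟨2,0,3,0,4,0⟩,⟨2,0,4,0,5,0⟩,⟨3,0,5,0,7,0⟩,⟨4,0,7,0,9,0⟩,⟨5,0,9,0,12,0⟩],5,71,[1,1,1,1,1,1,2,2,2,2,2,2,2],[⟨⟨0,49471,0,0,65536,0⟩,true⟩,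
 ⟨⟨0,0,1,0,0,1⟩,true⟩,
 ⟨⟨21281,0,65536,0,0,65536⟩,true⟩,
 ⟨⟨1,0,0,1,1,0⟩,true⟩,
 ⟨⟨93728,0,0,65536,65536,0⟩,true⟩,
 ⟨⟨0,1,1,0,0,0⟩,true⟩,
 ⟨⟨0,28190,65536,0,0,0⟩,true⟩],[],[],(.s 2 1 1 (.s 1 1 2 (.s 0 1 1 (.s 2 1 2 (.s 1 1 1 (.s 0 1 2 .e (.s 1 2 1 (.s 0 1 4 (.s 2 1 1 (.s 1 1 2 .e .c) (.s 0 2 1 .e (.s 1 1 1 .e (.s 2 2 1 .c .e)))) (.s 1 4 1 .e (.s 2 2 1 (.s 1 1 2 .e (.s 2 4 1 .c .e)) .e))) .c)) .e) (.s 0 2 1 .e .c)) (.s 1 2 1 .e (.s 2 1 1 .e (.s 0 2 1 .c .e)))) .e) (.s 0 2 1 .e .c)),(.s 2 2 1 .e .c)⟩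

noncomputable def s_B5_64 : St :=
  ⟨8,72,[⟨0,0,1,0,0,1⟩,⟨0,1,0,0,1,0⟩,⟨0,1,1,0,0,0⟩,⟨1,0,0,0,0,0⟩,⟨0,0,0,0,1,0⟩,⟨0,0,1,0,0,0⟩,⟨1,0,0,0,1,0⟩,⟨0,0,1,0,1,0⟩,⟨1,0,1,0,1,0⟩,⟨1,0,1,0,2,0⟩,⟨1,0,2,0,2,0⟩,⟨1,0,2,0,3,0⟩,⟨2,0,3,0,4,0⟩,⟨2,0,4,0,5,0⟩,⟨3,0,5,0,7,0⟩,⟨4,0,7,0,9,0⟩,⟨5,0,9,0,12,0⟩],9,71,[1,1,1,1,1,1,1,1,1,1,2,2,2,2,2,2,2],[⟨⟨0,1,0,1,2,0⟩,true⟩,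
 ⟨⟨0,223105,115008,0,0,0⟩,true⟩,
 ⟨⟨0,288641,49472,0,131072,0⟩,true⟩,
 ⟨⟨0,2,2,0,0,1⟩,false⟩,
 ⟨⟨0,1,0,0,1,0⟩,true⟩,
 ⟨⟨0,121917,65536,0,0,0⟩,true⟩,
 ⟨⟨0,0,1,0,0,1⟩,true⟩,
 ⟨⟨0,121917,131072,0,0,65536⟩,true⟩,
 ⟨⟨2,0,0,1,0,0⟩,true⟩,
 ⟨⟨143200,0,0,65536,0,0⟩,true⟩,
 ⟨⟨0,1,0,0,1,0⟩,true⟩,
 ⟨⟨0,49471,0,0,65536,0⟩,true⟩,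
 ⟨⟨0,0,1,0,0,1⟩,true⟩,
 ⟨⟨21281,0,65536,0,0,65536⟩,true⟩,
 ⟨⟨1,0,0,1,1,0⟩,true⟩,
 ⟨⟨93728,0,0,65536,65536,0⟩,true⟩,
 ⟨⟨0,1,1,0,0,0⟩,true⟩,
 ⟨⟨0,28190,65536,0,0,0⟩,true⟩],[],[],(.s 2 1 1 (.s 1 1 2 (.s 0 1 1 (.s 2 1 2 (.s 1 1 1 (.s 0 1 2 .e (.s 1 2 1 (.s 0 1 4 (.s 2 1 1 (.s 1 1 2 .e (.s 2 2 1 (.s 1 1 4 .e (.s 2 4 1 (.s 1 1 8 (.s 0 1 1 (.s 2 1 2 .e (.s 0 2 1 (.s 2 1 4 .c .e) .e)) .e) (.s 2 8 1 (.s 1 1 16 (.s 0 1 1 (.s 2 1 2 .e .c) .e) .c) (.s 0 2 1 (.s 2 1 2 (.s 1 1 2 .c .e) (.s 0 4 1 .e .c)) (.s 1 1 1 .e .c)))) (.s 0 2 1 (.s 2 1 2 (.s 1 1 2 (.s 0 1 1 .e (.s 1 2 1 .e .c)) .e) .e) (.s 1 1 1 .e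 .c)))) .c)) (.s 0 2 1 .e (.s 1 1 1 .e (.s 2 2 1 .c .e)))) (.s 1 4 1 .e (.s 2 2 1 (.s 1 1 2 .e (.s 2 4 1 .c .e)) .e))) .c)) .e) (.s 0 2 1 .e .c)) (.s 1 2 1 .e (.s 2 1 1 .e (.s 0 2 1 .c .e)))) .e) (.s 0 2 1 .e .c)),(.s 2 2 1 .e .c)⟩

noncomputable def s_B5_65 : St :=
  ⟨8,72,[⟨0,0,1,0,0,1⟩,⟨0,1,0,0,1,0⟩,⟨0,1,1,0,0,0⟩,⟨1,0,0,0,0,0⟩,⟨0,0,0,0,1,0⟩,⟨0,0,1,0,0,0⟩,⟨1,0,0,0,1,0⟩,⟨0,0,1,0,1,0⟩,⟨1,0,1,0,1,0⟩,⟨1,0,1,0,2,0⟩,⟨1,0,2,0,2,0⟩,⟨1,0,2,0,3,0⟩,⟨2,0,3,0,4,0⟩,⟨2,0,4,0,5,0⟩,⟨3,0,5,0,7,0⟩,⟨4,0,7,0,9,0⟩,⟨5,0,9,0,12,0⟩],9,71,[2,1,1,1,1,1,1,1,1,1,2,2,2,2,2,2,2],[⟨⟨0,1,0,1,2,0⟩,true⟩,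
 ⟨⟨0,223105,115008,0,0,0⟩,true⟩,
 ⟨⟨0,288641,49472,0,131072,0⟩,true⟩,
 ⟨⟨0,2,2,0,0,1⟩,false⟩,
 ⟨⟨0,1,0,0,1,0⟩,true⟩,
 ⟨⟨0,121917,65536,0,0,0⟩,true⟩,
 ⟨⟨0,0,1,0,0,1⟩,true⟩,
 ⟨⟨0,121917,131072,0,0,65536⟩,true⟩,
 ⟨⟨2,0,0,1,0,0⟩,true⟩,
 ⟨⟨143200,0,0,65536,0,0⟩,true⟩,
 ⟨⟨0,1,0,0,1,0⟩,true⟩,
 ⟨⟨0,49471,0,0,65536,0⟩,true⟩,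
 ⟨⟨0,0,1,0,0,1⟩,true⟩,
 ⟨⟨21281,0,65536,0,0,65536⟩,true⟩,
 ⟨⟨1,0,0,1,1,0⟩,true⟩,
 ⟨⟨93728,0,0,65536,65536,0⟩,true⟩,
 ⟨⟨0,1,1,0,0,0⟩,true⟩,
 ⟨⟨0,28190,65536,0,0,0⟩,true⟩],[],[],(.s 2 1 1 (.s 1 1 2 (.s 0 1 1 (.s 2 1 2 (.s 1 1 1 (.s 0 1 2 .e (.s 1 2 1 (.s 0 1 4 (.s 2 1 1 (.s 1 1 2 .e (.s 2 2 1 (.s 1 1 4 .e (.s 2 4 1 (.s 1 1 8 (.s 0 1 1 (.s 2 1 2 .e (.s 0 2 1 (.s 2 1 4 .c .e) .e)) .e) (.s 2 8 1 (.s 1 1 16 (.s 0 1 1 (.s 2 1 2 .e .c) .e) .c) (.s 0 2 1 (.s 2 1 2 (.s 1 1 2 .c .e) (.s 0 4 1 .e .c)) (.s 1 1 1 .e .c)))) (.s 0 2 1 (.s 2 1 2 (.s 1 1 2 (.s 0 1 1 .e (.s 1 2 1 .e .c)) .e) .e) (.s 1 1 1 .e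 .c)))) .c)) (.s 0 2 1 .e (.s 1 1 1 .e (.s 2 2 1 .c .e)))) (.s 1 4 1 .e (.s 2 2 1 (.s 1 1 2 .e (.s 2 4 1 .c .e)) .e))) .c)) .e) (.s 0 2 1 .e .c)) (.s 1 2 1 .e (.s 2 1 1 .e (.s 0 2 1 .c .e)))) .e) (.s 0 2 1 .e .c)),(.s 2 2 1 .e .c)⟩

noncomputable def s_B5_63 : St :=
  ⟨8,72,[⟨0,0,1,0,0,1⟩,⟨0,1,0,0,1,0⟩,⟨0,1,1,0,0,0⟩,⟨1,0,0,0,0,0⟩,⟨0,0,0,0,1,0⟩,⟨0,0,1,0,0,0⟩,⟨1,0,0,0,1,0⟩,⟨0,0,1,0,1,0⟩,⟨1,0,1,0,1,0⟩,⟨1,0,1,0,2,0⟩,⟨1,0,2,0,2,0⟩,⟨1,0,2,0,3,0⟩,⟨2,0,3,0,4,0⟩,⟨2,0,4,0,5,0⟩,⟨3,0,5,0,7,0⟩,⟨4,0,7,0,9,0⟩,⟨5,0,9,0,12,0⟩],8,71,[1,1,1,1,1,1,1,1,1,2,2,2,2,2,2,2],[⟨⟨0,288641,49472,0,131072,0⟩,true⟩,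
 ⟨⟨0,2,2,0,0,1⟩,false⟩,
 ⟨⟨0,1,0,0,1,0⟩,true⟩,
 ⟨⟨0,121917,65536,0,0,0⟩,true⟩,
 ⟨⟨0,0,1,0,0,1⟩,true⟩,
 ⟨⟨0,121917,131072,0,0,65536⟩,true⟩,
 ⟨⟨2,0,0,1,0,0⟩,true⟩,
 ⟨⟨143200,0,0,65536,0,0⟩,true⟩,
 ⟨⟨0,1,0,0,1,0⟩,true⟩,
 ⟨⟨0,49471,0,0,65536,0⟩,true⟩,
 ⟨⟨0,0,1,0,0,1⟩,true⟩,
 ⟨⟨21281,0,65536,0,0,65536⟩,true⟩,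
 ⟨⟨1,0,0,1,1,0⟩,true⟩,
 ⟨⟨93728,0,0,65536,65536,0⟩,true⟩,
 ⟨⟨0,1,1,0,0,0⟩,true⟩,
 ⟨⟨0,28190,65536,0,0,0⟩,true⟩],[],[],(.s 2 1 1 (.s 1 1 2 (.s 0 1 1 (.s 2 1 2 (.s 1 1 1 (.s 0 1 2 .e (.s 1 2 1 (.s 0 1 4 (.s 2 1 1 (.s 1 1 2 .e (.s 2 2 1 (.s 1 1 4 .e (.s 2 4 1 (.s 1 1 8 (.s 0 1 1 (.s 2 1 2 .e (.s 0 2 1 (.s 2 1 4 .c .e) .e)) .e) (.s 2 8 1 (.s 1 1 16 (.s 0 1 1 (.s 2 1 2 .e .c) .e) .c) (.s 0 2 1 (.s 2 1 2 (.s 1 1 2 .c .e) (.s 0 4 1 .e .c)) (.s 1 1 1 .e .c)))) (.s 0 2 1 (.s 2 1 2 (.s 1 1 2 (.s 0 1 1 .e (.s 1 2 1 .e .c)) .e) .e) (.s 1 1 1 .e .c)))) .c)) (.s 0 2 1 .e (.s 1 1 1 .e (.s 2 2 1 .c .e))))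 (.s 1 4 1 .e (.s 2 2 1 (.s 1 1 2 .e (.s 2 4 1 .c .e)) .e))) .c)) .e) (.s 0 2 1 .e .c)) (.s 1 2 1 .e (.s 2 1 1 .e (.s 0 2 1 .c .e)))) .e) (.s 0 2 1 .e .c)),(.s 2 2 1 .e .c)⟩

noncomputable def s_B5_62 : St :=
  ⟨7,72,[⟨0,1,0,0,1,0⟩,⟨0,1,1,0,0,0⟩,⟨1,0,0,0,0,0⟩,⟨0,0,0,0,1,0⟩,⟨0,0,1,0,0,0⟩,⟨1,0,0,0,1,0⟩,⟨0,0,1,0,1,0⟩,⟨1,0,1,0,1,0⟩,⟨1,0,1,0,2,0⟩,⟨1,0,2,0,2,0⟩,⟨1,0,2,0,3,0⟩,⟨2,0,3,0,4,0⟩,⟨2,0,4,0,5,0⟩,⟨3,0,5,0,7,0⟩,⟨4,0,7,0,9,0⟩,⟨5,0,9,0,12,0⟩],8,71,[1,1,1,1,1,1,1,1,1,2,2,2,2,2,2,2],[⟨⟨0,2,2,0,0,1⟩,false⟩,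
 ⟨⟨0,1,0,0,1,0⟩,true⟩,
 ⟨⟨0,121917,65536,0,0,0⟩,true⟩,
 ⟨⟨0,0,1,0,0,1⟩,true⟩,
 ⟨⟨0,121917,131072,0,0,65536⟩,true⟩,
 ⟨⟨2,0,0,1,0,0⟩,true⟩,
 ⟨⟨143200,0,0,65536,0,0⟩,true⟩,
 ⟨⟨0,1,0,0,1,0⟩,true⟩,
 ⟨⟨0,49471,0,0,65536,0⟩,true⟩,
 ⟨⟨0,0,1,0,0,1⟩,true⟩,
 ⟨⟨21281,0,65536,0,0,65536⟩,true⟩,
 ⟨⟨1,0,0,1,1,0⟩,true⟩,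
 ⟨⟨93728,0,0,65536,65536,0⟩,true⟩,
 ⟨⟨0,1,1,0,0,0⟩,true⟩,
 ⟨⟨0,28190,65536,0,0,0⟩,true⟩],[],[],(.s 2 1 1 (.s 1 1 2 (.s 0 1 1 (.s 2 1 2 (.s 1 1 1 (.s 0 1 2 .e (.s 1 2 1 (.s 0 1 4 (.s 2 1 1 (.s 1 1 2 .e (.s 2 2 1 (.s 1 1 4 .e (.s 2 4 1 (.s 1 1 8 (.s 0 1 1 (.s 2 1 2 .e (.s 0 2 1 (.s 2 1 4 .c .e) .e)) .e) (.s 2 8 1 (.s 1 1 16 (.s 0 1 1 (.s 2 1 2 .e .c) .e) .c) (.s 0 2 1 (.s 2 1 2 (.s 1 1 2 .c .e) (.s 0 4 1 .e .c)) (.s 1 1 1 .e .c)))) (.s 0 2 1 (.s 2 1 2 (.s 1 1 2 (.s 0 1 1 .e (.s 1 2 1 .e .c)) .e) .e) (.s 1 1 1 .e .c)))) .c)) (.s 0 2 1 .e (.s 1 1 1 .e (.s 2 2 1 .c .e)))) (.s 1 4 1 .e (.s 2 2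 1 (.s 1 1 2 .e (.s 2 4 1 .c .e)) .e))) .c)) .e) (.s 0 2 1 .e .c)) (.s 1 2 1 .e (.s 2 1 1 .e (.s 0 2 1 .c .e)))) .e) (.s 0 2 1 .e .c)),(.s 2 2 1 .e .c)⟩

noncomputable def s_B5_61 : St :=
  ⟨7,72,[⟨0,1,0,0,1,0⟩,⟨0,1,1,0,0,0⟩,⟨1,0,0,0,0,0⟩,⟨0,0,0,0,1,0⟩,⟨0,0,1,0,0,0⟩,⟨1,0,0,0,1,0⟩,⟨0,0,1,0,1,0⟩,⟨1,0,1,0,1,0⟩,⟨1,0,1,0,2,0⟩,⟨1,0,2,0,2,0⟩,⟨1,0,2,0,3,0⟩,⟨2,0,3,0,4,0⟩,⟨2,0,4,0,5,0⟩,⟨3,0,5,0,7,0⟩,⟨4,0,7,0,9,0⟩,⟨5,0,9,0,12,0⟩],7,71,[1,1,1,1,1,1,1,1,2,2,2,2,2,2,2],[⟨⟨0,2,2,0,0,1⟩,false⟩,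
 ⟨⟨0,1,0,0,1,0⟩,true⟩,
 ⟨⟨0,121917,65536,0,0,0⟩,true⟩,
 ⟨⟨0,0,1,0,0,1⟩,true⟩,
 ⟨⟨0,121917,131072,0,0,65536⟩,true⟩,
 ⟨⟨2,0,0,1,0,0⟩,true⟩,
 ⟨⟨143200,0,0,65536,0,0⟩,true⟩,
 ⟨⟨0,1,0,0,1,0⟩,true⟩,
 ⟨⟨0,49471,0,0,65536,0⟩,true⟩,
 ⟨⟨0,0,1,0,0,1⟩,true⟩,
 ⟨⟨21281,0,65536,0,0,65536⟩,true⟩,
 ⟨⟨1,0,0,1,1,0⟩,true⟩,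
 ⟨⟨93728,0,0,65536,65536,0⟩,true⟩,
 ⟨⟨0,1,1,0,0,0⟩,true⟩,
 ⟨⟨0,28190,65536,0,0,0⟩,true⟩],[],[],(.s 2 1 1 (.s 1 1 2 (.s 0 1 1 (.s 2 1 2 (.s 1 1 1 (.s 0 1 2 .e (.s 1 2 1 (.s 0 1 4 (.s 2 1 1 (.s 1 1 2 .e (.s 2 2 1 (.s 1 1 4 .e (.s 2 4 1 (.s 1 1 8 (.s 0 1 1 (.s 2 1 2 .e (.s 0 2 1 (.s 2 1 4 .c .e) .e)) .e) (.s 2 8 1 (.s 1 1 16 (.s 0 1 1 (.s 2 1 2 .e .c) .e) .c) (.s 0 2 1 (.s 2 1 2 (.s 1 1 2 .c .e) (.s 0 4 1 .e .c)) (.s 1 1 1 .e .c)))) (.s 0 2 1 (.s 2 1 2 (.s 1 1 2 (.s 0 1 1 .e (.s 1 2 1 .e .c)) .e) .e) (.s 1 1 1 .e .c)))) .c)) (.s 0 2 1 .e (.s 1 1 1 .e (.s 2 2 1 .c .e)))) (.s 1 4 1 .e (.s 2 2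 1 (.s 1 1 2 .e (.s 2 4 1 .c .e)) .e))) .c)) .e) (.s 0 2 1 .e .c)) (.s 1 2 1 .e (.s 2 1 1 .e (.s 0 2 1 .c .e)))) .e) (.s 0 2 1 .e .c)),(.s 2 2 1 .e .c)⟩

noncomputable def s_B5_68 : St :=
  ⟨7,72,[⟨0,1,0,0,1,0⟩,⟨0,1,1,0,0,0⟩,⟨1,0,0,0,0,0⟩,⟨0,0,0,0,1,0⟩,⟨0,0,1,0,0,0⟩,⟨1,0,0,0,1,0⟩,⟨0,0,1,0,1,0⟩,⟨1,0,1,0,1,0⟩,⟨1,0,1,0,2,0⟩,⟨1,0,2,0,2,0⟩,⟨1,0,2,0,3,0⟩,⟨2,0,3,0,4,0⟩,⟨2,0,4,0,5,0⟩,⟨3,0,5,0,7,0⟩,⟨4,0,7,0,9,0⟩,⟨5,0,9,0,12,0⟩],8,71,[1,1,1,1,1,1,1,1,1,2,2,2,2,2,2,2],[⟨⟨2,0,0,2,1,0⟩,false⟩,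
 ⟨⟨0,1,0,0,1,0⟩,true⟩,
 ⟨⟨0,121917,65536,0,0,0⟩,true⟩,
 ⟨⟨0,0,1,0,0,1⟩,true⟩,
 ⟨⟨0,121917,131072,0,0,65536⟩,true⟩,
 ⟨⟨2,0,0,1,0,0⟩,true⟩,
 ⟨⟨143200,0,0,65536,0,0⟩,true⟩,
 ⟨⟨0,1,0,0,1,0⟩,true⟩,
 ⟨⟨0,49471,0,0,65536,0⟩,true⟩,
 ⟨⟨0,0,1,0,0,1⟩,true⟩,
 ⟨⟨21281,0,65536,0,0,65536⟩,true⟩,
 ⟨⟨1,0,0,1,1,0⟩,true⟩,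
 ⟨⟨93728,0,0,65536,65536,0⟩,true⟩,
 ⟨⟨0,1,1,0,0,0⟩,true⟩,
 ⟨⟨0,28190,65536,0,0,0⟩,true⟩],[],[],(.s 2 1 1 (.s 1 1 2 (.s 0 1 1 (.s 2 1 2 (.s 1 1 1 (.s 0 1 2 .e (.s 1 2 1 (.s 0 1 4 (.s 2 1 1 (.s 1 1 2 .e (.s 2 2 1 (.s 1 1 4 .e (.s 2 4 1 (.s 1 1 8 (.s 0 1 1 (.s 2 1 2 .e (.s 0 2 1 (.s 2 1 4 .c .e) .e)) .e) (.s 2 8 1 (.s 1 1 16 (.s 0 1 1 (.s 2 1 2 .e .c) .e) .c) (.s 0 2 1 (.s 2 1 2 (.s 1 1 2 .c .e) (.s 0 4 1 .e .c)) (.s 1 1 1 .e .c)))) (.s 0 2 1 (.s 2 1 2 (.s 1 1 2 (.s 0 1 1 .e (.s 1 2 1 .e .c)) .e) .e) (.s 1 1 1 .e .c)))) .c)) (.s 0 2 1 .e (.s 1 1 1 .e (.s 2 2 1 .c .e)))) (.s 1 4 1 .e (.s 2 2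 1 (.s 1 1 2 .e (.s 2 4 1 .c .e)) .e))) .c)) .e) (.s 0 2 1 .e .c)) (.s 1 2 1 .e (.s 2 1 1 .e (.s 0 2 1 .c .e)))) .e) (.s 0 2 1 .e .c)),(.s 2 2 1 .e .c)⟩

noncomputable def s_B5_59 : St :=
  ⟨7,72,[⟨0,1,0,0,1,0⟩,⟨0,1,1,0,0,0⟩,⟨1,0,0,0,0,0⟩,⟨0,0,0,0,1,0⟩,⟨0,0,1,0,0,0⟩,⟨1,0,0,0,1,0⟩,⟨0,0,1,0,1,0⟩,⟨1,0,1,0,1,0⟩,⟨1,0,1,0,2,0⟩,⟨1,0,2,0,2,0⟩,⟨1,0,2,0,3,0⟩,⟨2,0,3,0,4,0⟩,⟨2,0,4,0,5,0⟩,⟨3,0,5,0,7,0⟩,⟨4,0,7,0,9,0⟩,⟨5,0,9,0,12,0⟩],7,71,[1,1,1,1,1,1,1,1,2,2,2,2,2,2,2],[⟨⟨0,121917,131072,0,0,65536⟩,true⟩,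
 ⟨⟨2,0,0,1,0,0⟩,true⟩,
 ⟨⟨143200,0,0,65536,0,0⟩,true⟩,
 ⟨⟨0,1,0,0,1,0⟩,true⟩,
 ⟨⟨0,49471,0,0,65536,0⟩,true⟩,
 ⟨⟨0,0,1,0,0,1⟩,true⟩,
 ⟨⟨21281,0,65536,0,0,65536⟩,true⟩,
 ⟨⟨1,0,0,1,1,0⟩,true⟩,
 ⟨⟨93728,0,0,65536,65536,0⟩,true⟩,
 ⟨⟨0,1,1,0,0,0⟩,true⟩,
 ⟨⟨0,28190,65536,0,0,0⟩,true⟩],[],[],(.s 2 1 1 (.s 1 1 2 (.s 0 1 1 (.s 2 1 2 (.s 1 1 1 (.s 0 1 2 .e (.s 1 2 1 (.s 0 1 4 (.s 2 1 1 (.s 1 1 2 .e (.s 2 2 1 (.s 1 1 4 .e (.s 2 4 1 (.s 1 1 8 (.s 0 1 1 (.s 2 1 2 .e (.s 0 2 1 (.s 2 1 4 .c .e) .e)) .e) (.s 2 8 1 (.s 1 1 16 (.s 0 1 1 (.s 2 1 2 .e .c) .e) .c) (.s 0 2 1 (.s 2 1 2 (.s 1 1 2 .c .e) (.s 0 4 1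 .e .c)) (.s 1 1 1 .e .c)))) (.s 0 2 1 (.s 2 1 2 (.s 1 1 2 .c .e) (.s 0 4 1 .e .c)) (.s 1 1 1 .e .c)))) .c)) (.s 0 2 1 .e (.s 1 1 1 .e (.s 2 2 1 .c .e)))) (.s 1 4 1 .e (.s 2 2 1 (.s 1 1 2 .e (.s 2 4 1 .c .e)) .e))) .c)) .e) (.s 0 2 1 .e .c)) (.s 1 2 1 .e (.s 2 1 1 .e (.s 0 2 1 .c .e)))) .e) (.s 0 2 1 .e .c)),(.s 2 2 1 .e .c)⟩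

noncomputable def s_B5_70 : St :=
  ⟨6,72,[⟨0,1,1,0,0,0⟩,⟨1,0,0,0,0,0⟩,⟨0,0,0,0,1,0⟩,⟨0,0,1,0,0,0⟩,⟨1,0,0,0,1,0⟩,⟨0,0,1,0,1,0⟩,⟨1,0,1,0,1,0⟩,⟨1,0,1,0,2,0⟩,⟨1,0,2,0,2,0⟩,⟨1,0,2,0,3,0⟩,⟨2,0,3,0,4,0⟩,⟨2,0,4,0,5,0⟩,⟨3,0,5,0,7,0⟩,⟨4,0,7,0,9,0⟩,⟨5,0,9,0,12,0⟩],7,71,[2,1,1,1,1,1,1,1,2,2,2,2,2,2,2],[⟨⟨2,0,0,1,0,0⟩,true⟩,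
 ⟨⟨143200,0,0,65536,0,0⟩,true⟩,
 ⟨⟨0,1,0,0,1,0⟩,true⟩,
 ⟨⟨0,49471,0,0,65536,0⟩,true⟩,
 ⟨⟨0,0,1,0,0,1⟩,true⟩,
 ⟨⟨21281,0,65536,0,0,65536⟩,true⟩,
 ⟨⟨1,0,0,1,1,0⟩,true⟩,
 ⟨⟨93728,0,0,65536,65536,0⟩,true⟩,
 ⟨⟨0,1,1,0,0,0⟩,true⟩,
 ⟨⟨0,28190,65536,0,0,0⟩,true⟩],[],[],(.s 2 1 1 (.s 1 1 2 (.s 0 1 1 (.s 2 1 2 (.s 1 1 1 (.s 0 1 2 .e (.s 1 2 1 (.s 0 1 4 (.s 2 1 1 (.s 1 1 2 .e (.s 2 2 1 (.s 1 1 4 .e (.s 2 4 1 (.s 1 1 8 (.s 0 1 1 (.s 2 1 2 .e .c) .e) .c) (.s 0 2 1 (.s 2 1 2 (.s 1 1 2 .c .e) (.s 0 4 1 .e .c)) (.s 1 1 1 .e .c)))) .c)) (.s 0 2 1 .e (.s 1 1 1 .e (.s 2 2 1 .c .e)))) (.s 1 4 1 .e (.s 2 2 1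 (.s 1 1 2 .e (.s 2 4 1 .c .e)) .e))) .c)) .e) (.s 0 2 1 .e .c)) (.s 1 2 1 .e (.s 2 1 1 .e (.s 0 2 1 .c .e)))) .e) (.s 0 2 1 .e .c)),(.s 2 2 1 .e .c)⟩

noncomputable def s_B5_55 : St :=
  ⟨6,72,[⟨0,1,1,0,0,0⟩,⟨1,0,0,0,0,0⟩,⟨0,0,0,0,1,0⟩,⟨0,0,1,0,0,0⟩,⟨1,0,0,0,1,0⟩,⟨0,0,1,0,1,0⟩,⟨1,0,1,0,1,0⟩,⟨1,0,1,0,2,0⟩,⟨1,0,2,0,2,0⟩,⟨1,0,2,0,3,0⟩,⟨2,0,3,0,4,0⟩,⟨2,0,4,0,5,0⟩,⟨3,0,5,0,7,0⟩,⟨4,0,7,0,9,0⟩,⟨5,0,9,0,12,0⟩],6,71,[1,1,1,1,1,1,1,2,2,2,2,2,2,2],[⟨⟨143200,0,0,65536,0,0⟩,true⟩,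
 ⟨⟨0,1,0,0,1,0⟩,true⟩,
 ⟨⟨0,49471,0,0,65536,0⟩,true⟩,
 ⟨⟨0,0,1,0,0,1⟩,true⟩,
 ⟨⟨21281,0,65536,0,0,65536⟩,true⟩,
 ⟨⟨1,0,0,1,1,0⟩,true⟩,
 ⟨⟨93728,0,0,65536,65536,0⟩,true⟩,
 ⟨⟨0,1,1,0,0,0⟩,true⟩,
 ⟨⟨0,28190,65536,0,0,0⟩,true⟩],[],[],(.s 2 1 1 (.s 1 1 2 (.s 0 1 1 (.s 2 1 2 (.s 1 1 1 (.s 0 1 2 .e (.s 1 2 1 (.s 0 1 4 (.s 2 1 1 (.s 1 1 2 .e .c) (.s 0 2 1 .e (.s 1 1 1 .e (.s 2 2 1 .c .e)))) (.s 1 4 1 .e (.s 2 2 1 (.s 1 1 2 .e (.s 2 4 1 .c .e)) .e))) .c)) .e) (.s 0 2 1 .e .c)) (.s 1 2 1 .e (.s 2 1 1 .e (.s 0 2 1 .c .e)))) .e) (.s 0 2 1 .e .c)),(.s 2 2 1 .e .c)⟩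

noncomputable def s_B5_52 : St :=
  ⟨7,72,[⟨1,0,0,1,1,0⟩,⟨0,1,0,0,1,0⟩,⟨1,0,0,0,0,0⟩,⟨0,0,0,0,1,0⟩,⟨0,0,1,0,0,0⟩,⟨1,0,0,0,1,0⟩,⟨0,0,1,0,1,0⟩,⟨1,0,1,0,1,0⟩,⟨1,0,1,0,2,0⟩,⟨1,0,2,0,2,0⟩,⟨1,0,2,0,3,0⟩,⟨2,0,3,0,4,0⟩,⟨2,0,4,0,5,0⟩,⟨3,0,5,0,7,0⟩,⟨4,0,7,0,9,0⟩,⟨5,0,9,0,12,0⟩],8,71,[1,1,1,1,1,1,1,1,1,2,2,2,2,2,2,2],[⟨⟨9155,0,0,115007,115008,0⟩,true⟩,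
 ⟨⟨0,2,1,0,0,0⟩,true⟩,
 ⟨⟨0,121917,0,49471,115008,0⟩,true⟩,
 ⟨⟨12128,0,0,65536,65536,0⟩,true⟩,
 ⟨⟨0,1,0,0,1,0⟩,true⟩,
 ⟨⟨2,0,0,0,0,1⟩,true⟩,
 ⟨⟨143200,0,0,65536,0,0⟩,true⟩,
 ⟨⟨0,1,0,0,1,0⟩,true⟩,
 ⟨⟨0,49471,0,0,65536,0⟩,true⟩,
 ⟨⟨0,0,1,0,0,1⟩,true⟩,
 ⟨⟨21281,0,65536,0,0,65536⟩,true⟩,
 ⟨⟨1,0,0,1,1,0⟩,true⟩,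
 ⟨⟨93728,0,0,65536,65536,0⟩,true⟩,
 ⟨⟨0,1,1,0,0,0⟩,true⟩,
 ⟨⟨0,28190,65536,0,0,0⟩,true⟩],[],[],(.s 2 1 1 (.s 1 1 2 (.s 0 1 1 (.s 2 1 2 (.s 1 1 1 (.s 0 1 2 .e (.s 1 2 1 (.s 0 1 4 (.s 2 1 1 (.s 1 1 2 .e .c) (.s 0 2 1 .e (.s 1 1 1 .e (.s 2 2 1 .c .e)))) (.s 1 4 1 .e (.s 2 2 1 (.s 1 1 2 .e (.s 2 4 1 .c .e)) .e))) .c)) .e) (.s 0 2 1 .e .c)) (.s 1 2 1 .e (.s 2 1 1 .e (.s 0 2 1 .c .e)))) .e) (.s 0 2 1 .e .c)),(.s 2 2 1 .e .c)⟩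

noncomputable def s_B5_51 : St :=
  ⟨7,72,[⟨1,0,0,1,1,0⟩,⟨0,1,0,0,1,0⟩,⟨1,0,0,0,0,0⟩,⟨0,0,0,0,1,0⟩,⟨0,0,1,0,0,0⟩,⟨1,0,0,0,1,0⟩,⟨0,0,1,0,1,0⟩,⟨1,0,1,0,1,0⟩,⟨1,0,1,0,2,0⟩,⟨1,0,2,0,2,0⟩,⟨1,0,2,0,3,0⟩,⟨2,0,3,0,4,0⟩,⟨2,0,4,0,5,0⟩,⟨3,0,5,0,7,0⟩,⟨4,0,7,0,9,0⟩,⟨5,0,9,0,12,0⟩],7,71,[1,1,1,1,1,1,1,1,2,2,2,2,2,2,2],[⟨⟨0,121917,0,49471,115008,0⟩,true⟩,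
 ⟨⟨12128,0,0,65536,65536,0⟩,true⟩,
 ⟨⟨0,1,0,0,1,0⟩,true⟩,
 ⟨⟨2,0,0,0,0,1⟩,true⟩,
 ⟨⟨143200,0,0,65536,0,0⟩,true⟩,
 ⟨⟨0,1,0,0,1,0⟩,true⟩,
 ⟨⟨0,49471,0,0,65536,0⟩,true⟩,
 ⟨⟨0,0,1,0,0,1⟩,true⟩,
 ⟨⟨21281,0,65536,0,0,65536⟩,true⟩,
 ⟨⟨1,0,0,1,1,0⟩,true⟩,
 ⟨⟨93728,0,0,65536,65536,0⟩,true⟩,
 ⟨⟨0,1,1,0,0,0⟩,true⟩,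
 ⟨⟨0,28190,65536,0,0,0⟩,true⟩],[],[],(.s 2 1 1 (.s 1 1 2 (.s 0 1 1 (.s 2 1 2 (.s 1 1 1 (.s 0 1 2 .e (.s 1 2 1 (.s 0 1 4 (.s 2 1 1 (.s 1 1 2 .e .c) (.s 0 2 1 .e (.s 1 1 1 .e (.s 2 2 1 .c .e)))) (.s 1 4 1 .e (.s 2 2 1 (.s 1 1 2 .e (.s 2 4 1 .c .e)) .e))) .c)) .e) (.s 0 2 1 .e .c)) (.s 1 2 1 .e (.s 2 1 1 .e (.s 0 2 1 .c .e)))) .e) (.s 0 2 1 .e .c)),(.s 2 2 1 .e .c)⟩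

noncomputable def s_B5_54 : St :=
  ⟨6,72,[⟨0,1,0,0,1,0⟩,⟨1,0,0,0,0,0⟩,⟨0,0,0,0,1,0⟩,⟨0,0,1,0,0,0⟩,⟨1,0,0,0,1,0⟩,⟨0,0,1,0,1,0⟩,⟨1,0,1,0,1,0⟩,⟨1,0,1,0,2,0⟩,⟨1,0,2,0,2,0⟩,⟨1,0,2,0,3,0⟩,⟨2,0,3,0,4,0⟩,⟨2,0,4,0,5,0⟩,⟨3,0,5,0,7,0⟩,⟨4,0,7,0,9,0⟩,⟨5,0,9,0,12,0⟩],7,71,[2,1,1,1,1,1,1,1,2,2,2,2,2,2,2],[⟨⟨12128,0,0,65536,65536,0⟩,true⟩,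
 ⟨⟨0,1,0,0,1,0⟩,true⟩,
 ⟨⟨2,0,0,0,0,1⟩,true⟩,
 ⟨⟨143200,0,0,65536,0,0⟩,true⟩,
 ⟨⟨0,1,0,0,1,0⟩,true⟩,
 ⟨⟨0,49471,0,0,65536,0⟩,true⟩,
 ⟨⟨0,0,1,0,0,1⟩,true⟩,
 ⟨⟨21281,0,65536,0,0,65536⟩,true⟩,
 ⟨⟨1,0,0,1,1,0⟩,true⟩,
 ⟨⟨93728,0,0,65536,65536,0⟩,true⟩,
 ⟨⟨0,1,1,0,0,0⟩,true⟩,
 ⟨⟨0,28190,65536,0,0,0⟩,true⟩],[],[],(.s 2 1 1 (.s 1 1 2 (.s 0 1 1 (.s 2 1 2 (.s 1 1 1 (.s 0 1 2 .e (.s 1 2 1 (.s 0 1 4 (.s 2 1 1 (.s 1 1 2 .e .c) (.s 0 2 1 .e (.s 1 1 1 .e (.s 2 2 1 .c .e)))) (.s 1 4 1 .e (.s 2 2 1 (.s 1 1 2 .e (.s 2 4 1 .c .e)) .e))) .c)) .e) (.s 0 2 1 .e .c)) (.s 1 2 1 .e (.s 2 1 1 .e (.s 0 2 1 .c .e))))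 .e) (.s 0 2 1 .e .c)),(.s 2 2 1 .e .c)⟩

noncomputable def s_B5_49 : St :=
  ⟨6,72,[⟨0,1,0,0,1,0⟩,⟨1,0,0,0,0,0⟩,⟨0,0,0,0,1,0⟩,⟨0,0,1,0,0,0⟩,⟨1,0,0,0,1,0⟩,⟨0,0,1,0,1,0⟩,⟨1,0,1,0,1,0⟩,⟨1,0,1,0,2,0⟩,⟨1,0,2,0,2,0⟩,⟨1,0,2,0,3,0⟩,⟨2,0,3,0,4,0⟩,⟨2,0,4,0,5,0⟩,⟨3,0,5,0,7,0⟩,⟨4,0,7,0,9,0⟩,⟨5,0,9,0,12,0⟩],6,71,[1,1,1,1,1,1,1,2,2,2,2,2,2,2],[⟨⟨143200,0,0,65536,0,0⟩,true⟩,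
 ⟨⟨0,1,0,0,1,0⟩,true⟩,
 ⟨⟨0,49471,0,0,65536,0⟩,true⟩,
 ⟨⟨0,0,1,0,0,1⟩,true⟩,
 ⟨⟨21281,0,65536,0,0,65536⟩,true⟩,
 ⟨⟨1,0,0,1,1,0⟩,true⟩,
 ⟨⟨93728,0,0,65536,65536,0⟩,true⟩,
 ⟨⟨0,1,1,0,0,0⟩,true⟩,
 ⟨⟨0,28190,65536,0,0,0⟩,true⟩],[],[],(.s 2 1 1 (.s 1 1 2 (.s 0 1 1 (.s 2 1 2 (.s 1 1 1 (.s 0 1 2 .e (.s 1 2 1 (.s 0 1 4 (.s 2 1 1 (.s 1 1 2 .e .c) (.s 0 2 1 .e (.s 1 1 1 .e (.s 2 2 1 .c .e)))) (.s 1 4 1 .e (.s 2 2 1 (.s 1 1 2 .e (.s 2 4 1 .c .e)) .e))) .c)) .e) (.s 0 2 1 .e .c)) (.s 1 2 1 .e (.s 2 1 1 .e (.s 0 2 1 .c .e)))) .e) (.s 0 2 1 .e .c)),(.s 2 2 1 .e .c)⟩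

noncomputable def s_B5_45 : St :=
  ⟨6,72,[⟨1,0,0,1,1,0⟩,⟨1,0,0,0,0,0⟩,⟨0,0,0,0,1,0⟩,⟨0,0,1,0,0,0⟩,⟨1,0,0,0,1,0⟩,⟨0,0,1,0,1,0⟩,⟨1,0,1,0,1,0⟩,⟨1,0,1,0,2,0⟩,⟨1,0,2,0,2,0⟩,⟨1,0,2,0,3,0⟩,⟨2,0,3,0,4,0⟩,⟨2,0,4,0,5,0⟩,⟨3,0,5,0,7,0⟩,⟨4,0,7,0,9,0⟩,⟨5,0,9,0,12,0⟩],7,71,[2,1,1,1,1,1,1,1,2,2,2,2,2,2,2],[⟨⟨2,0,0,0,0,1⟩,false⟩,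
 ⟨⟨0,2,1,0,0,0⟩,false⟩,
 ⟨⟨143200,0,0,131072,65536,0⟩,true⟩,
 ⟨⟨0,0,1,0,0,1⟩,true⟩,
 ⟨⟨143200,0,0,65536,0,0⟩,true⟩,
 ⟨⟨0,1,0,0,1,0⟩,true⟩,
 ⟨⟨0,49471,0,0,65536,0⟩,true⟩,
 ⟨⟨0,0,1,0,0,1⟩,true⟩,
 ⟨⟨21281,0,65536,0,0,65536⟩,true⟩,
 ⟨⟨1,0,0,1,1,0⟩,true⟩,
 ⟨⟨93728,0,0,65536,65536,0⟩,true⟩,
 ⟨⟨0,1,1,0,0,0⟩,true⟩,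
 ⟨⟨0,28190,65536,0,0,0⟩,true⟩],[],[],(.s 2 1 1 (.s 1 1 2 (.s 0 1 1 (.s 2 1 2 (.s 1 1 1 (.s 0 1 2 .e (.s 1 2 1 (.s 0 1 4 (.s 2 1 1 (.s 1 1 2 .e .c) (.s 0 2 1 .e (.s 1 1 1 .e (.s 2 2 1 .c .e)))) (.s 1 4 1 .e (.s 2 2 1 (.s 1 1 2 .e (.s 2 4 1 .c .e)) .e))) .c)) .e) (.s 0 2 1 .e .c)) (.s 1 2 1 .e (.s 2 1 1 .e (.s 0 2 1 .c .e)))) .e) (.s 0 2 1 .e .c)),(.s 2 2 1 .e .c)⟩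

noncomputable def s_B5_43 : St :=
  ⟨6,72,[⟨1,0,0,1,1,0⟩,⟨1,0,0,0,0,0⟩,⟨0,0,0,0,1,0⟩,⟨0,0,1,0,0,0⟩,⟨1,0,0,0,1,0⟩,⟨0,0,1,0,1,0⟩,⟨1,0,1,0,1,0⟩,⟨1,0,1,0,2,0⟩,⟨1,0,2,0,2,0⟩,⟨1,0,2,0,3,0⟩,⟨2,0,3,0,4,0⟩,⟨2,0,4,0,5,0⟩,⟨3,0,5,0,7,0⟩,⟨4,0,7,0,9,0⟩,⟨5,0,9,0,12,0⟩],6,71,[1,1,1,1,1,1,1,2,2,2,2,2,2,2],[⟨⟨2,0,0,0,0,1⟩,false⟩,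
 ⟨⟨0,2,1,0,0,0⟩,false⟩,
 ⟨⟨143200,0,0,131072,65536,0⟩,true⟩,
 ⟨⟨0,0,1,0,0,1⟩,true⟩,
 ⟨⟨143200,0,0,65536,0,0⟩,true⟩,
 ⟨⟨0,1,0,0,1,0⟩,true⟩,
 ⟨⟨0,49471,0,0,65536,0⟩,true⟩,
 ⟨⟨0,0,1,0,0,1⟩,true⟩,
 ⟨⟨21281,0,65536,0,0,65536⟩,true⟩,
 ⟨⟨1,0,0,1,1,0⟩,true⟩,
 ⟨⟨93728,0,0,65536,65536,0⟩,true⟩,
 ⟨⟨0,1,1,0,0,0⟩,true⟩,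
 ⟨⟨0,28190,65536,0,0,0⟩,true⟩],[],[],(.s 2 1 1 (.s 1 1 2 (.s 0 1 1 (.s 2 1 2 (.s 1 1 1 (.s 0 1 2 .e (.s 1 2 1 (.s 0 1 4 (.s 2 1 1 (.s 1 1 2 .e .c) (.s 0 2 1 .e (.s 1 1 1 .e (.s 2 2 1 .c .e)))) (.s 1 4 1 .e (.s 2 2 1 (.s 1 1 2 .e (.s 2 4 1 .c .e)) .e))) .c)) .e) (.s 0 2 1 .e .c)) (.s 1 2 1 .e (.s 2 1 1 .e (.s 0 2 1 .c .e)))) .e) (.s 0 2 1 .e .c)),(.s 2 2 1 .e .c)⟩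

noncomputable def s_B5_48 : St :=
  ⟨6,72,[⟨1,0,0,1,1,0⟩,⟨1,0,0,0,0,0⟩,⟨0,0,0,0,1,0⟩,⟨0,0,1,0,0,0⟩,⟨1,0,0,0,1,0⟩,⟨0,0,1,0,1,0⟩,⟨1,0,1,0,1,0⟩,⟨1,0,1,0,2,0⟩,⟨1,0,2,0,2,0⟩,⟨1,0,2,0,3,0⟩,⟨2,0,3,0,4,0⟩,⟨2,0,4,0,5,0⟩,⟨3,0,5,0,7,0⟩,⟨4,0,7,0,9,0⟩,⟨5,0,9,0,12,0⟩],7,71,[2,1,1,1,1,1,1,1,2,2,2,2,2,2,2],[⟨⟨0,2,0,0,1,0⟩,false⟩,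
 ⟨⟨0,2,1,0,0,0⟩,false⟩,
 ⟨⟨143200,0,0,131072,65536,0⟩,true⟩,
 ⟨⟨0,0,1,0,0,1⟩,true⟩,
 ⟨⟨143200,0,0,65536,0,0⟩,true⟩,
 ⟨⟨0,1,0,0,1,0⟩,true⟩,
 ⟨⟨0,49471,0,0,65536,0⟩,true⟩,
 ⟨⟨0,0,1,0,0,1⟩,true⟩,
 ⟨⟨21281,0,65536,0,0,65536⟩,true⟩,
 ⟨⟨1,0,0,1,1,0⟩,true⟩,
 ⟨⟨93728,0,0,65536,65536,0⟩,true⟩,
 ⟨⟨0,1,1,0,0,0⟩,true⟩,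
 ⟨⟨0,28190,65536,0,0,0⟩,true⟩],[],[],(.s 2 1 1 (.s 1 1 2 (.s 0 1 1 (.s 2 1 2 (.s 1 1 1 (.s 0 1 2 .e (.s 1 2 1 (.s 0 1 4 (.s 2 1 1 (.s 1 1 2 .e .c) (.s 0 2 1 .e (.s 1 1 1 .e (.s 2 2 1 .c .e)))) (.s 1 4 1 .e (.s 2 2 1 (.s 1 1 2 .e (.s 2 4 1 .c .e)) .e))) .c)) .e) (.s 0 2 1 .e .c)) (.s 1 2 1 .e (.s 2 1 1 .e (.s 0 2 1 .c .e)))) .e) (.s 0 2 1 .e .c)),(.s 2 2 1 .e .c)⟩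

end Pool.Agent.Helper54.Cert
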