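import Pool.Agent.Lib.Helper54.S18919.Check

set_option autoImplicit false
set_option maxRecDepth 100000

namespace Pool.Agent.Helper54.Cert

noncomputable def s_B5_41 : St :=
  ⟨6,72,[⟨1,0,0,1,1,0⟩,⟨1,0,0,0,0,0⟩,⟨0,0,0,0,1,0⟩,⟨0,0,1,0,0,0⟩,⟨1,0,0,0,1,0⟩,⟨0,0,1,0,1,0⟩,⟨1,0,1,0,1,0⟩,⟨1,0,1,0,2,0⟩,⟨1,0,2,0,2,0⟩,⟨1,0,2,0,3,0⟩,⟨2,0,3,0,4,0⟩,⟨2,0,4,0,5,0⟩,⟨3,0,5,0,7,0⟩,⟨4,0,7,0,9,0⟩,⟨5,0,9,0,12,0⟩],6,71,[1,1,1,1,1,1,1,2,2,2,2,2,2,2],[⟨⟨143200,0,0,65536,0,0⟩,true⟩,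
 ⟨⟨0,1,0,0,1,0⟩,true⟩,
 ⟨⟨0,49471,0,0,65536,0⟩,true⟩,
 ⟨⟨0,0,1,0,0,1⟩,true⟩,
 ⟨⟨21281,0,65536,0,0,65536⟩,true⟩,
 ⟨⟨1,0,0,1,1,0⟩,true⟩,
 ⟨⟨93728,0,0,65536,65536,0⟩,true⟩,
 ⟨⟨0,1,1,0,0,0⟩,true⟩,
 ⟨⟨0,28190,65536,0,0,0⟩,true⟩],[],[],(.s 2 1 1 (.s 1 1 2 (.s 0 1 1 (.s 2 1 2 (.s 1 1 1 (.s 0 1 2 .e (.s 1 2 1 (.s 0 1 4 (.s 2 1 1 (.s 1 1 2 .e .c) (.s 0 2 1 .e (.s 1 1 1 .e (.s 2 2 1 .c .e)))) (.s 1 4 1 .e (.s 2 2 1 (.s 1 1 2 .e (.s 2 4 1 .c .e)) .e))) .c)) .e) (.s 0 2 1 .e .c)) (.s 1 2 1 .e (.s 2 1 1 .e (.s 0 2 1 .c .e)))) .e) (.s 0 2 1 .e .c)),(.s 2 2 1 .e .c)⟩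

noncomputable def s_B5_72 : St :=
  ⟨5,72,[⟨1,0,0,0,0,0⟩,⟨0,0,0,0,1,0⟩,⟨0,0,1,0,0,0⟩,⟨1,0,0,0,1,0⟩,⟨0,0,1,0,1,0⟩,⟨1,0,1,0,1,0⟩,⟨1,0,1,0,2,0⟩,⟨1,0,2,0,2,0⟩,⟨1,0,2,0,3,0⟩,⟨2,0,3,0,4,0⟩,⟨2,0,4,0,5,0⟩,⟨3,0,5,0,7,0⟩,⟨4,0,7,0,9,0⟩,⟨5,0,9,0,12,0⟩],6,71,[2,1,1,1,1,1,1,2,2,2,2,2,2,2],[⟨⟨0,1,0,0,1,0⟩,true⟩,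
 ⟨⟨0,49471,0,0,65536,0⟩,true⟩,
 ⟨⟨0,0,1,0,0,1⟩,true⟩,
 ⟨⟨21281,0,65536,0,0,65536⟩,true⟩,
 ⟨⟨1,0,0,1,1,0⟩,true⟩,
 ⟨⟨93728,0,0,65536,65536,0⟩,true⟩,
 ⟨⟨0,1,1,0,0,0⟩,true⟩,
 ⟨⟨0,28190,65536,0,0,0⟩,true⟩],[],[],(.s 2 1 1 (.s 1 1 2 (.s 0 1 1 (.s 2 1 2 (.s 1 1 1 (.s 0 1 2 .e (.s 1 2 1 (.s 0 1 4 (.s 2 1 1 (.s 1 1 2 .e .c) (.s 0 2 1 .e (.s 1 1 1 .e (.s 2 2 1 .c .e)))) (.s 1 4 1 .e (.s 2 2 1 (.s 1 1 2 .e (.s 2 4 1 .c .e)) .e))) .c)) .e) (.s 0 2 1 .e .c)) (.s 1 2 1 .e (.s 2 1 1 .e (.s 0 2 1 .c .e)))) .e) (.s 0 2 1 .e .c)),(.s 2 2 1 .e .c)⟩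

noncomputable def s_B5_39 : St :=
  ⟨5,72,[⟨1,0,0,0,0,0⟩,⟨0,0,0,0,1,0⟩,⟨0,0,1,0,0,0⟩,⟨1,0,0,0,1,0⟩,⟨0,0,1,0,1,0⟩,⟨1,0,1,0,1,0⟩,⟨1,0,1,0,2,0⟩,⟨1,0,2,0,2,0⟩,⟨1,0,2,0,3,0⟩,⟨2,0,3,0,4,0⟩,⟨2,0,4,0,5,0⟩,⟨3,0,5,0,7,0⟩,⟨4,0,7,0,9,0⟩,⟨5,0,9,0,12,0⟩],5,71,[1,1,1,1,1,1,2,2,2,2,2,2,2],[⟨⟨0,49471,0,0,65536,0⟩,true⟩,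
 ⟨⟨0,0,1,0,0,1⟩,true⟩,
 ⟨⟨21281,0,65536,0,0,65536⟩,true⟩,
 ⟨⟨1,0,0,1,1,0⟩,true⟩,
 ⟨⟨93728,0,0,65536,65536,0⟩,true⟩,
 ⟨⟨0,1,1,0,0,0⟩,true⟩,
 ⟨⟨0,28190,65536,0,0,0⟩,true⟩],[],[],(.s 2 1 1 (.s 1 1 2 (.s 0 1 1 (.s 2 1 2 (.s 1 1 1 (.s 0 1 2 .e (.s 1 2 1 (.s 0 1 4 (.s 2 1 1 (.s 1 1 2 .e .c) (.s 0 2 1 .e (.s 1 1 1 .e (.s 2 2 1 .c .e)))) (.s 1 4 1 .e (.s 2 2 1 (.s 1 1 2 .e (.s 2 4 1 .c .e)) .e))) .c)) .e) (.s 0 2 1 .e .c)) (.s 1 2 1 .e (.s 2 1 1 .e (.s 0 2 1 .c .e)))) .e) (.s 0 2 1 .e .c)),(.s 2 2 1 .e .c)⟩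

noncomputable def s_B5_91 : St :=
  ⟨4,72,[⟨0,0,0,0,1,0⟩,⟨0,0,1,0,0,0⟩,⟨1,0,0,0,1,0⟩,⟨0,0,1,0,1,0⟩,⟨1,0,1,0,1,0⟩,⟨1,0,1,0,2,0⟩,⟨1,0,2,0,2,0⟩,⟨1,0,2,0,3,0⟩,⟨2,0,3,0,4,0⟩,⟨2,0,4,0,5,0⟩,⟨3,0,5,0,7,0⟩,⟨4,0,7,0,9,0⟩,⟨5,0,9,0,12,0⟩],5,71,[2,1,1,1,1,1,2,2,2,2,2,2,2],[⟨⟨0,0,1,0,0,1⟩,true⟩,
 ⟨⟨21281,0,65536,0,0,65536⟩,true⟩,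
 ⟨⟨1,0,0,1,1,0⟩,true⟩,
 ⟨⟨93728,0,0,65536,65536,0⟩,true⟩,
 ⟨⟨0,1,1,0,0,0⟩,true⟩,
 ⟨⟨0,28190,65536,0,0,0⟩,true⟩],[],[],(.s 2 1 1 (.s 1 1 2 (.s 0 1 1 (.s 2 1 2 (.s 1 1 1 (.s 0 1 2 .e (.s 1 2 1 (.s 0 1 4 (.s 2 1 1 (.s 1 1 2 .e .c) (.s 0 2 1 .e (.s 1 1 1 .e (.s 2 2 1 .c .e)))) (.s 1 4 1 .e (.s 2 2 1 (.s 1 1 2 .e (.s 2 4 1 .c .e)) .e))) .c)) .e) (.s 0 2 1 .e .c)) (.s 1 2 1 .e (.s 2 1 1 .e (.s 0 2 1 .c .e)))) .e) (.s 0 2 1 .e .c)),(.s 2 2 1 .e .c)⟩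

noncomputable def s_B5_37 : St :=
  ⟨4,72,[⟨0,0,0,0,1,0⟩,⟨0,0,1,0,0,0⟩,⟨1,0,0,0,1,0⟩,⟨0,0,1,0,1,0⟩,⟨1,0,1,0,1,0⟩,⟨1,0,1,0,2,0⟩,⟨1,0,2,0,2,0⟩,⟨1,0,2,0,3,0⟩,⟨2,0,3,0,4,0⟩,⟨2,0,4,0,5,0⟩,⟨3,0,5,0,7,0⟩,⟨4,0,7,0,9,0⟩,⟨5,0,9,0,12,0⟩],4,71,[1,1,1,1,1,2,2,2,2,2,2,2],[⟨⟨21281,0,65536,0,0,65536⟩,true⟩,
 ⟨⟨1,0,0,1,1,0⟩,true⟩,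
 ⟨⟨93728,0,0,65536,65536,0⟩,true⟩,
 ⟨⟨0,1,1,0,0,0⟩,true⟩,
 ⟨⟨0,28190,65536,0,0,0⟩,true⟩],[],[],(.s 2 1 1 (.s 1 1 2 (.s 0 1 1 (.s 2 1 2 (.s 1 1 1 (.s 0 1 2 .e (.s 1 2 1 (.s 0 1 4 (.s 2 1 1 (.s 1 1 2 .e .c) (.s 0 2 1 .e (.s 1 1 1 .e (.s 2 2 1 .c .e)))) (.s 1 4 1 .e (.s 2 2 1 (.s 1 1 2 .e (.s 2 4 1 .c .e)) .e))) .c)) .e) (.s 0 2 1 .e .c)) (.s 1 2 1 .e (.s 2 1 1 .e (.s 0 2 1 .c .e)))) .e) (.s 0 2 1 .e .c)),(.s 2 2 1 .e .c)⟩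

noncomputable def s_B5_28 : St :=
  ⟨5,72,[⟨0,0,0,0,1,0⟩,⟨1,0,0,0,0,0⟩,⟨0,0,1,0,0,0⟩,⟨1,0,0,0,1,0⟩,⟨0,0,1,0,1,0⟩,⟨1,0,1,0,1,0⟩,⟨1,0,1,0,2,0⟩,⟨1,0,2,0,2,0⟩,⟨1,0,2,0,3,0⟩,⟨2,0,3,0,4,0⟩,⟨2,0,4,0,5,0⟩,⟨3,0,5,0,7,0⟩,⟨4,0,7,0,9,0⟩,⟨5,0,9,0,12,0⟩],6,71,[1,1,1,1,1,1,1,2,2,2,2,2,2,2],[⟨⟨1,0,0,0,0,1⟩,true⟩,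
 ⟨⟨131072,0,0,0,0,115007⟩,true⟩,
 ⟨⟨0,0,1,0,0,1⟩,false⟩,
 ⟨⟨0,1,1,0,0,0⟩,true⟩,
 ⟨⟨86817,0,0,0,0,65536⟩,true⟩,
 ⟨⟨21281,0,65536,0,0,65536⟩,true⟩,
 ⟨⟨1,0,0,1,1,0⟩,true⟩,
 ⟨⟨93728,0,0,65536,65536,0⟩,true⟩,
 ⟨⟨0,1,1,0,0,0⟩,true⟩,
 ⟨⟨0,28190,65536,0,0,0⟩,true⟩],[],[],(.s 2 1 1 (.s 1 1 2 (.s 0 1 1 (.s 2 1 2 (.s 1 1 1 (.s 0 1 2 .e (.s 1 2 1 .e (.s 2 2 1 (.s 1 1 2 (.s 0 1 2 .e (.s 1 2 1 (.s 0 1 4 .e (.s 1 4 1 .c .e)) .e)) .e) .e))) .e) .e) .e) .e) .e),.e⟩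

noncomputable def s_B5_24 : St :=
  ⟨5,72,[⟨0,1,1,0,0,0⟩,⟨1,0,0,0,0,0⟩,⟨0,0,1,0,0,0⟩,⟨1,0,0,0,1,0⟩,⟨0,0,1,0,1,0⟩,⟨1,0,1,0,1,0⟩,⟨1,0,1,0,2,0⟩,⟨1,0,2,0,2,0⟩,⟨1,0,2,0,3,0⟩,⟨2,0,3,0,4,0⟩,⟨2,0,4,0,5,0⟩,⟨3,0,5,0,7,0⟩,⟨4,0,7,0,9,0⟩,⟨5,0,9,0,12,0⟩],5,71,[1,1,1,1,1,1,2,2,2,2,2,2,2],[⟨⟨131072,0,0,0,0,115007⟩,true⟩,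
 ⟨⟨0,0,1,0,0,1⟩,false⟩,
 ⟨⟨0,1,1,0,0,0⟩,true⟩,
 ⟨⟨86817,0,0,0,0,65536⟩,true⟩,
 ⟨⟨21281,0,65536,0,0,65536⟩,true⟩,
 ⟨⟨1,0,0,1,1,0⟩,true⟩,
 ⟨⟨93728,0,0,65536,65536,0⟩,true⟩,
 ⟨⟨0,1,1,0,0,0⟩,true⟩,
 ⟨⟨0,28190,65536,0,0,0⟩,true⟩],[],[],(.s 2 1 1 (.s 1 1 2 (.s 0 1 1 (.s 2 1 2 (.s 1 1 1 (.s 0 1 2 .e (.s 1 2 1 (.s 0 1 4 (.s 2 1 1 (.s 1 1 2 .e .c) (.s 0 2 1 .e (.s 1 1 1 .e (.s 2 2 1 .c .e)))) (.s 1 4 1 .e (.s 2 2 1 (.s 1 1 2 .e (.s 2 4 1 .c .e)) .e))) .c)) .e) (.s 0 2 1 .e .c)) (.s 1 2 1 .e (.s 2 1 1 .e (.s 0 2 1 .c .e)))) .e) (.s 0 2 1 .e .c)),(.s 2 2 1 .e .c)⟩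

noncomputable def s_B5_23 : St :=
  ⟨4,72,[⟨1,0,0,0,0,0⟩,⟨0,0,1,0,0,0⟩,⟨1,0,0,0,1,0⟩,⟨0,0,1,0,1,0⟩,⟨1,0,1,0,1,0⟩,⟨1,0,1,0,2,0⟩,⟨1,0,2,0,2,0⟩,⟨1,0,2,0,3,0⟩,⟨2,0,3,0,4,0⟩,⟨2,0,4,0,5,0⟩,⟨3,0,5,0,7,0⟩,⟨4,0,7,0,9,0⟩,⟨5,0,9,0,12,0⟩],5,71,[1,1,1,1,1,1,2,2,2,2,2,2,2],[⟨⟨0,0,1,0,0,1⟩,false⟩,
 ⟨⟨0,1,1,0,0,0⟩,true⟩,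
 ⟨⟨86817,0,0,0,0,65536⟩,true⟩,
 ⟨⟨21281,0,65536,0,0,65536⟩,true⟩,
 ⟨⟨1,0,0,1,1,0⟩,true⟩,
 ⟨⟨93728,0,0,65536,65536,0⟩,true⟩,
 ⟨⟨0,1,1,0,0,0⟩,true⟩,
 ⟨⟨0,28190,65536,0,0,0⟩,true⟩],[],[],(.s 2 1 1 (.s 1 1 2 (.s 0 1 1 (.s 2 1 2 (.s 1 1 1 (.s 0 1 2 .e (.s 1 2 1 (.s 0 1 4 (.s 2 1 1 (.s 1 1 2 .e .c) (.s 0 2 1 .e (.s 1 1 1 .e (.s 2 2 1 .c .e)))) (.s 1 4 1 .e (.s 2 2 1 (.s 1 1 2 .e (.s 2 4 1 .c .e)) .e))) .c)) .e) (.s 0 2 1 .e .c)) (.s 1 2 1 .e (.s 2 1 1 .e (.s 0 2 1 .c .e)))) .e) (.s 0 2 1 .e .c)),(.s 2 2 1 .e .c)⟩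

noncomputable def s_B5_22 : St :=
  ⟨4,72,[⟨1,0,0,0,0,0⟩,⟨0,0,1,0,0,0⟩,⟨1,0,0,0,1,0⟩,⟨0,0,1,0,1,0⟩,⟨1,0,1,0,1,0⟩,⟨1,0,1,0,2,0⟩,⟨1,0,2,0,2,0⟩,⟨1,0,2,0,3,0⟩,⟨2,0,3,0,4,0⟩,⟨2,0,4,0,5,0⟩,⟨3,0,5,0,7,0⟩,⟨4,0,7,0,9,0⟩,⟨5,0,9,0,12,0⟩],4,71,[1,1,1,1,1,2,2,2,2,2,2,2],[⟨⟨0,0,1,0,0,1⟩,false⟩,
 ⟨⟨0,1,1,0,0,0⟩,true⟩,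
 ⟨⟨86817,0,0,0,0,65536⟩,true⟩,
 ⟨⟨21281,0,65536,0,0,65536⟩,true⟩,
 ⟨⟨1,0,0,1,1,0⟩,true⟩,
 ⟨⟨93728,0,0,65536,65536,0⟩,true⟩,
 ⟨⟨0,1,1,0,0,0⟩,true⟩,
 ⟨⟨0,28190,65536,0,0,0⟩,true⟩],[],[],(.s 2 1 1 (.s 1 1 2 (.s 0 1 1 (.s 2 1 2 (.s 1 1 1 (.s 0 1 2 .e (.s 1 2 1 (.s 0 1 4 (.s 2 1 1 (.s 1 1 2 .e .c) (.s 0 2 1 .e (.s 1 1 1 .e (.s 2 2 1 .c .e)))) (.s 1 4 1 .e (.s 2 2 1 (.s 1 1 2 .e (.s 2 4 1 .c .e)) .e))) .c)) .e) (.s 0 2 1 .e .c)) (.s 1 2 1 .e (.s 2 1 1 .e (.s 0 2 1 .c .e)))) .e) (.s 0 2 1 .e .c)),(.s 2 2 1 .e .c)⟩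

noncomputable def s_B5_36 : St :=
  ⟨4,72,[⟨1,0,0,0,0,0⟩,⟨0,0,1,0,0,0⟩,⟨1,0,0,0,1,0⟩,⟨0,0,1,0,1,0⟩,⟨1,0,1,0,1,0⟩,⟨1,0,1,0,2,0⟩,⟨1,0,2,0,2,0⟩,⟨1,0,2,0,3,0⟩,⟨2,0,3,0,4,0⟩,⟨2,0,4,0,5,0⟩,⟨3,0,5,0,7,0⟩,⟨4,0,7,0,9,0⟩,⟨5,0,9,0,12,0⟩],5,71,[2,1,1,1,1,1,2,2,2,2,2,2,2],[⟨⟨0,0,0,1,1,0⟩,false⟩,
 ⟨⟨0,1,1,0,0,0⟩,true⟩,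
 ⟨⟨86817,0,0,0,0,65536⟩,true⟩,
 ⟨⟨21281,0,65536,0,0,65536⟩,true⟩,
 ⟨⟨1,0,0,1,1,0⟩,true⟩,
 ⟨⟨93728,0,0,65536,65536,0⟩,true⟩,
 ⟨⟨0,1,1,0,0,0⟩,true⟩,
 ⟨⟨0,28190,65536,0,0,0⟩,true⟩],[],[],(.s 2 1 1 (.s 1 1 2 (.s 0 1 1 (.s 2 1 2 (.s 1 1 1 (.s 0 1 2 .e (.s 1 2 1 (.s 0 1 4 (.s 2 1 1 (.s 1 1 2 .e .c) (.s 0 2 1 .e (.s 1 1 1 .e (.s 2 2 1 .c .e)))) (.s 1 4 1 .e (.s 2 2 1 (.s 1 1 2 .e (.s 2 4 1 .c .e)) .e))) .c)) .e) (.s 0 2 1 .e .c)) (.s 1 2 1 .e (.s 2 1 1 .e (.s 0 2 1 .c .e)))) .e) (.s 0 2 1 .e .c)),(.s 2 2 1 .e .c)⟩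

noncomputable def s_B5_20 : St :=
  ⟨3,72,[⟨0,0,1,0,0,0⟩,⟨1,0,0,0,1,0⟩,⟨0,0,1,0,1,0⟩,⟨1,0,1,0,1,0⟩,⟨1,0,1,0,2,0⟩,⟨1,0,2,0,2,0⟩,⟨1,0,2,0,3,0⟩,⟨2,0,3,0,4,0⟩,⟨2,0,4,0,5,0⟩,⟨3,0,5,0,7,0⟩,⟨4,0,7,0,9,0⟩,⟨5,0,9,0,12,0⟩],4,71,[1,1,1,1,1,2,2,2,2,2,2,2],[⟨⟨1,0,0,1,1,0⟩,true⟩,
 ⟨⟨93728,0,0,65536,65536,0⟩,true⟩,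
 ⟨⟨0,1,1,0,0,0⟩,true⟩,
 ⟨⟨0,28190,65536,0,0,0⟩,true⟩],[],[],(.s 2 1 1 (.s 1 1 2 (.s 0 1 1 (.s 2 1 2 (.s 1 1 1 (.s 0 1 2 .e (.s 1 2 1 (.s 0 1 4 (.s 2 1 1 (.s 1 1 2 .e .c) (.s 0 2 1 .e (.s 1 1 1 .e (.s 2 2 1 .c .e)))) (.s 1 4 1 .e (.s 2 2 1 (.s 1 1 2 .e (.s 2 4 1 .c .e)) .e))) .c)) .e) (.s 0 2 1 .e .c)) (.s 1 2 1 .e (.s 2 1 1 .e (.s 0 2 1 .c .e)))) .e) (.s 0 2 1 .e .c)),(.s 2 2 1 .e .c)⟩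

noncomputable def s_B5_18 : St :=
  ⟨3,72,[⟨0,0,1,0,0,0⟩,⟨1,0,0,0,1,0⟩,⟨0,0,1,0,1,0⟩,⟨1,0,1,0,1,0⟩,⟨1,0,1,0,2,0⟩,⟨1,0,2,0,2,0⟩,⟨1,0,2,0,3,0⟩,⟨2,0,3,0,4,0⟩,⟨2,0,4,0,5,0⟩,⟨3,0,5,0,7,0⟩,⟨4,0,7,0,9,0⟩,⟨5,0,9,0,12,0⟩],3,70,[1,1,1,1,2,2,2,2,2,2],[⟨⟨1,0,0,1,1,0⟩,true⟩,
 ⟨⟨93728,0,0,65536,65536,0⟩,true⟩,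
 ⟨⟨0,1,1,0,0,0⟩,true⟩,
 ⟨⟨0,28190,65536,0,0,0⟩,true⟩],[],[],(.s 2 1 1 (.s 1 1 2 (.s 0 1 1 (.s 2 1 2 (.s 1 1 1 (.s 0 1 2 .e (.s 1 2 1 (.s 0 1 4 (.s 2 1 1 (.s 1 1 2 .e .c) (.s 0 2 1 .e (.s 1 1 1 .e (.s 2 2 1 .c .e)))) (.s 1 4 1 .e (.s 2 2 1 (.s 1 1 2 .e (.s 2 4 1 .c .e)) .e))) .c)) .e) (.s 0 2 1 .e .c)) (.s 1 2 1 .e (.s 2 1 1 .e (.s 0 2 1 .c .e)))) .e) (.s 0 2 1 .e .c)),(.s 2 2 1 .e .c)⟩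

noncomputable def s_B5_14 : St :=
  ⟨3,71,[⟨0,0,1,0,0,0⟩,⟨1,0,0,0,1,0⟩,⟨0,0,1,0,1,0⟩,⟨1,0,1,0,1,0⟩,⟨1,0,1,0,2,0⟩,⟨1,0,2,0,2,0⟩,⟨1,0,2,0,3,0⟩,⟨2,0,3,0,4,0⟩,⟨2,0,4,0,5,0⟩,⟨3,0,5,0,7,0⟩,⟨4,0,7,0,9,0⟩],3,69,[1,1,1,1,2,2,2,2,2],[⟨⟨1,0,0,1,1,0⟩,true⟩,
 ⟨⟨93728,0,0,65536,65536,0⟩,true⟩,
 ⟨⟨0,1,1,0,0,0⟩,true⟩,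
 ⟨⟨0,28190,65536,0,0,0⟩,true⟩],[],[],(.s 2 1 1 (.s 1 1 2 (.s 0 1 1 (.s 2 1 2 (.s 1 1 1 (.s 0 1 2 (.s 2 1 1 .e (.s 0 2 1 .e (.s 1 1 1 (.s 0 1 2 (.s 2 1 1 .e (.s 0 2 1 .e (.s 1 1 1 (.s 0 1 2 (.s 2 1 1 (.s 1 1 2 .e (.s 2 2 1 (.s 1 1 4 .e .c) .e)) .e) .e) .e))) .e) .e))) .c) .e) (.s 0 2 1 .e .c)) (.s 1 2 1 .e (.s 2 1 1 .e (.s 0 2 1 .c .e)))) .e) (.s 0 2 1 .e .c)),(.s 2 2 1 .e .c)⟩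

noncomputable def s_B5_8 : St :=
  ⟨3,70,[⟨0,0,1,0,0,0⟩,⟨1,0,0,0,1,0⟩,⟨0,0,1,0,1,0⟩,⟨1,0,1,0,1,0⟩,⟨1,0,1,0,2,0⟩,⟨1,0,2,0,2,0⟩,⟨1,0,2,0,3,0⟩,⟨2,0,3,0,4,0⟩,⟨2,0,4,0,5,0⟩,⟨3,0,5,0,7,0⟩],3,68,[1,1,1,1,2,2,2,2],[⟨⟨1,0,0,1,1,0⟩,true⟩,
 ⟨⟨93728,0,0,65536,65536,0⟩,true⟩,
 ⟨⟨0,1,1,0,0,0⟩,true⟩,
 ⟨⟨0,28190,65536,0,0,0⟩,true⟩],[],[],(.s 2 1 1 (.s 1 1 2 (.s 0 1 1 (.s 2 1 2 (.s 1 1 1 (.s 0 1 2 (.s 2 1 1 (.s 1 1 2 (.s 0 1 1 .e .c) .e) (.s 0 2 1 .e (.s 1 1 1 .c .e))) .c) .e) (.s 0 2 1 .e .c)) (.s 1 2 1 .e (.s 2 1 1 .e (.s 0 2 1 .c .e)))) .e) (.s 0 2 1 .e .c)),(.s 2 2 1 .e .c)⟩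

noncomputable def s_stop5 : St :=
  ⟨3,67,[⟨0,0,1,0,0,0⟩,⟨1,0,0,0,1,0⟩,⟨0,0,1,0,1,0⟩,⟨1,0,1,0,1,0⟩,⟨1,0,1,0,2,0⟩,⟨1,0,2,0,2,0⟩,⟨1,0,2,0,3,0⟩],3,65,[1,1,1,1,2],[⟨⟨1,0,0,1,1,0⟩,true⟩,
 ⟨⟨93728,0,0,65536,65536,0⟩,true⟩,
 ⟨⟨0,1,1,0,0,0⟩,true⟩,
 ⟨⟨0,28190,65536,0,0,0⟩,true⟩],[],[],(.s 2 1 1 (.s 1 1 2 .c .e) (.s 0 2 1 .e .c)),(.s 2 2 1 .e .c)⟩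

noncomputable def s_B6_11 : St :=
  ⟨3,71,[⟨1,0,0,0,0,0⟩,⟨1,0,0,0,1,0⟩,⟨0,0,1,0,1,0⟩,⟨1,0,1,0,1,0⟩,⟨1,0,1,0,2,0⟩,⟨1,0,2,0,2,0⟩,⟨1,0,2,0,3,0⟩,⟨2,0,3,0,4,0⟩,⟨2,0,4,0,5,0⟩,⟨3,0,5,0,7,0⟩,⟨4,0,7,0,9,0⟩],3,69,[1,1,1,1,2,2,2,2,2],[⟨⟨93728,0,0,65536,0,0⟩,true⟩,
 ⟨⟨93728,0,0,65536,65536,0⟩,true⟩,
 ⟨⟨0,1,1,0,0,0⟩,true⟩,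
 ⟨⟨0,28190,65536,0,0,0⟩,true⟩],[],[],(.s 2 1 1 (.s 1 1 2 (.s 0 1 1 (.s 2 1 2 (.s 1 1 1 (.s 0 1 2 .e (.s 1 2 1 .e (.s 2 2 1 (.s 1 1 2 (.s 0 1 2 .e (.s 1 2 1 (.s 0 1 4 .e (.s 1 4 1 (.s 0 1 8 (.s 2 1 1 (.s 1 1 2 (.s 0 1 1 (.s 2 1 2 .e .c) .e) (.s 2 2 1 .e (.s 0 2 1 .c .e))) (.s 0 2 1 (.s 2 1 2 (.s 1 1 2 .e .c) .e) (.s 1 1 1 .e (.s 2 2 1 .c .e)))) .e) .c)) .e)) .e) .e))) .e) .e) (.s 1 2 1 .e (.s 2 1 1 .e (.s 0 2 1 (.s 2 1 2 .c .e) .e)))) .e) .e),.e⟩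

noncomputable def s_B6_2 : St :=
  ⟨3,68,[⟨1,0,0,0,0,0⟩,⟨1,0,0,0,1,0⟩,⟨0,0,1,0,1,0⟩,⟨1,0,1,0,1,0⟩,⟨1,0,1,0,2,0⟩,⟨1,0,2,0,2,0⟩,⟨1,0,2,0,3,0⟩,⟨2,0,3,0,4,0⟩],3,66,[1,1,1,1,2,2],[⟨⟨93728,0,0,65536,0,0⟩,true⟩,
 ⟨⟨93728,0,0,65536,65536,0⟩,true⟩,
 ⟨⟨0,1,1,0,0,0⟩,true⟩,
 ⟨⟨0,28190,65536,0,0,0⟩,true⟩],[],[],(.s 2 1 1 (.s 1 1 2 .c .e) (.s 0 2 1 .e .c)),(.s 2 2 1 .e .c)⟩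

noncomputable def s_stop6 : St :=
  ⟨3,67,[⟨1,0,0,0,0,0⟩,⟨1,0,0,0,1,0⟩,⟨0,0,1,0,1,0⟩,⟨1,0,1,0,1,0⟩,⟨1,0,1,0,2,0⟩,⟨1,0,2,0,2,0⟩,⟨1,0,2,0,3,0⟩],3,65,[1,1,1,1,2],[⟨⟨93728,0,0,65536,0,0⟩,true⟩,
 ⟨⟨93728,0,0,65536,65536,0⟩,true⟩,
 ⟨⟨0,1,1,0,0,0⟩,true⟩,
 ⟨⟨0,28190,65536,0,0,0⟩,true⟩],[],[],(.s 2 1 1 (.s 1 1 2 .c .e) (.s 0 2 1 .e .c)),(.s 2 2 1 .e .c)⟩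

noncomputable def s_C22 : St :=
  ⟨2,67,[⟨1,0,0,0,1,0⟩,⟨0,0,1,0,1,0⟩,⟨1,0,1,0,1,0⟩,⟨1,0,1,0,2,0⟩,⟨1,0,2,0,2,0⟩,⟨1,0,2,0,3,0⟩],2,65,[1,1,1,2],[⟨⟨0,28190,65536,0,0,0⟩,true⟩],[],[],.c,.c⟩

noncomputable def s_B7_12 : St :=
  ⟨3,71,[⟨0,0,1,0,0,0⟩,⟨1,0,0,0,0,0⟩,⟨0,0,1,0,1,0⟩,⟨1,0,1,0,1,0⟩,⟨1,0,1,0,2,0⟩,⟨1,0,2,0,2,0⟩,⟨1,0,2,0,3,0⟩,⟨2,0,3,0,4,0⟩,⟨2,0,4,0,5,0⟩,⟨3,0,5,0,7,0⟩,⟨4,0,7,0,9,0⟩],3,69,[1,1,1,1,2,2,2,2,2],[⟨⟨28192,0,0,0,0,115007⟩,true⟩,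
 ⟨⟨1,0,0,1,0,0⟩,true⟩,
 ⟨⟨93728,0,0,65536,0,115007⟩,true⟩,
 ⟨⟨0,1,1,0,1,0⟩,true⟩,
 ⟨⟨37346,0,0,0,0,65536⟩,true⟩,
 ⟨⟨0,28190,65536,0,0,0⟩,true⟩],[],[],(.s 2 1 1 (.s 1 1 2 (.s 0 1 1 .c (.s 1 2 1 .e (.s 2 1 1 .e (.s 0 2 1 .c .e)))) .e) (.s 0 2 1 .e (.s 1 1 1 (.s 0 1 2 .e (.s 1 2 1 .e (.s 2 2 1 (.s 1 1 2 .e (.s 2 4 1 (.s 1 1 4 .e (.s 2 8 1 (.s 1 1 8 .e (.s 2 16 1 .c .e)) .e)) .e)) .e))) .c))),.c⟩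

noncomputable def s_B7_10 : St :=
  ⟨3,70,[⟨0,0,1,0,0,0⟩,⟨1,0,0,0,0,0⟩,⟨0,0,1,0,1,0⟩,⟨1,0,1,0,1,0⟩,⟨1,0,1,0,2,0⟩,⟨1,0,2,0,2,0⟩,⟨1,0,2,0,3,0⟩,⟨2,0,3,0,4,0⟩,⟨2,0,4,0,5,0⟩,⟨3,0,5,0,7,0⟩],3,68,[1,1,1,1,2,2,2,2],[⟨⟨28192,0,0,0,0,115007⟩,true⟩,
 ⟨⟨1,0,0,1,0,0⟩,true⟩,
 ⟨⟨93728,0,0,65536,0,115007⟩,true⟩,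
 ⟨⟨0,1,1,0,1,0⟩,true⟩,
 ⟨⟨37346,0,0,0,0,65536⟩,true⟩,
 ⟨⟨0,28190,65536,0,0,0⟩,true⟩],[],[],(.s 2 1 1 (.s 1 1 2 (.s 0 1 1 .c (.s 1 2 1 .e (.s 2 1 1 .e (.s 0 2 1 .c .e)))) .e) (.s 0 2 1 .e (.s 1 1 1 (.s 0 1 2 .e (.s 1 2 1 .e (.s 2 2 1 (.s 1 1 2 .e (.s 2 4 1 (.s 1 1 4 .e (.s 2 8 1 (.s 1 1 8 .e (.s 2 16 1 .c .e)) .e)) .e)) .e))) .c))),.c⟩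

noncomputable def s_stop7 : St :=
  ⟨3,67,[⟨0,0,1,0,0,0⟩,⟨1,0,0,0,0,0⟩,⟨0,0,1,0,1,0⟩,⟨1,0,1,0,1,0⟩,⟨1,0,1,0,2,0⟩,⟨1,0,2,0,2,0⟩,⟨1,0,2,0,3,0⟩],3,65,[1,1,1,1,2],[⟨⟨28192,0,0,0,0,115007⟩,true⟩,
 ⟨⟨1,0,0,1,0,0⟩,true⟩,
 ⟨⟨93728,0,0,65536,0,115007⟩,true⟩,
 ⟨⟨0,1,1,0,1,0⟩,true⟩,
 ⟨⟨37346,0,0,0,0,65536⟩,true⟩,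
 ⟨⟨0,28190,65536,0,0,0⟩,true⟩],[],[],(.s 2 1 1 (.s 1 1 2 .c (.s 2 2 1 .e (.s 0 2 1 .e (.s 1 1 1 (.s 0 1 2 .c .e) .e)))) (.s 0 2 1 .e .c)),.c⟩

noncomputable def s_C6 : St :=
  ⟨3,67,[⟨0,0,1,0,0,0⟩,⟨1,0,0,0,0,0⟩,⟨0,0,1,0,1,0⟩,⟨1,0,1,0,1,0⟩,⟨1,0,1,0,2,0⟩,⟨1,0,2,0,2,0⟩,⟨1,0,2,0,3,0⟩],3,65,[2,1,1,1,2],[⟨⟨2,0,0,1,0,1⟩,true⟩,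
 ⟨⟨0,1,1,0,1,0⟩,true⟩,
 ⟨⟨37346,0,0,0,0,65536⟩,true⟩,
 ⟨⟨0,28190,65536,0,0,0⟩,true⟩],[],[],.c,.c⟩

noncomputable def s_C3 : St :=
  ⟨1,67,[⟨0,0,1,0,1,0⟩,⟨1,0,1,0,1,0⟩,⟨1,0,1,0,2,0⟩,⟨1,0,2,0,2,0⟩,⟨1,0,2,0,3,0⟩],2,65,[1,1,1,2],[],[],[],.c,.c⟩

noncomputable def s_C40 : St :=
  ⟨2,67,[⟨0,0,0,0,1,0⟩,⟨0,0,1,0,1,0⟩,⟨1,0,1,0,1,0⟩,⟨1,0,1,0,2,0⟩,⟨1,0,2,0,2,0⟩,⟨1,0,2,0,3,0⟩],2,65,[2,1,1,2],[⟨⟨0,1,1,0,1,0⟩,true⟩],[],[],.c,.c⟩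

noncomputable def s_C2 : St :=
  ⟨1,67,[⟨0,0,1,0,1,0⟩,⟨1,0,1,0,1,0⟩,⟨1,0,1,0,2,0⟩,⟨1,0,2,0,2,0⟩,⟨1,0,2,0,3,0⟩],1,65,[1,1,2],[],[],[],.c,.c⟩

noncomputable def s_C0 : St :=
  ⟨0,67,[⟨1,0,1,0,1,0⟩,⟨1,0,1,0,2,0⟩,⟨1,0,2,0,2,0⟩,⟨1,0,2,0,3,0⟩],0,65,[1,2],[],[],[],.c,.c⟩

end Pool.Agent.Helper54.Cert
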